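import Pool.Agent.PHW8.In8G
import Pool.Agent.PHW7.FoldOf
import Pool.Agent.PHW7.DeepRet

/-!
PHW, section S8: the inputs In8 exist, given the output S5 of section S5.
-/

set_option autoImplicit false

namespace HexObs

open Complex Finset ENNReal

namespace Rec8

theorem In8_of_S5 (h5 : Fld.S5) :
    ∃ (C D δ : ℝ) (fi : ℕ → ℕ → List Bool → ℝ≥0∞) (fo : ℕ → ℕ → ℕ → List Bool → ℝ≥0∞), In8 C D δ fi fo :=
  In8_exists h5 (deep_returns (foldGain_of (fun A => Fld.fold_H6 h5 A)))

end Rec8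

end HexObs
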