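import Pool.Agent.PHW8.Defs8
import Pool.Agent.PHW.Jump

/-!
PHW, section S8: weighted sums over words and the decomposition of bridges at a level.
-/

set_option autoImplicit false

namespace HexObs

open Complex Finset ENNReal

namespace Rec8

open Classical in
theorem sw_ind (A : Set (List Bool)) (Φ : List Bool → ℝ≥0∞) :
    sw A Φ = ∑' t : List Bool, if t ∈ A then wE t * Φ t else 0 := by
  unfold sw
  rw [tsum_subtype A (fun t => wE t * Φ t)]
  exact tsum_congr fun t => by simp only [Set.indicator_apply]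

theorem sw_mono {A B : Set (List Bool)} {Φ Ψ : List Bool → ℝ≥0∞} (hA : A ⊆ B) (h : ∀ t ∈ A, Φ t ≤ Ψ t) :
    sw A Φ ≤ sw B Ψ := by
  classical
  rw [sw_ind, sw_ind]
  refine ENNReal.tsum_le_tsum fun t => ?_
  by_cases ht : t ∈ A
  · rw [if_pos ht, if_pos (hA ht)]
    exact mul_le_mul_right (h t ht) _
  · rw [if_neg ht]
    exact zero_le

theorem sw_mono' {A : Set (List Bool)} {Φ Ψ : List Bool → ℝ≥0∞} (h : ∀ t ∈ A, Φ t ≤ Ψ t) : sw A Φ ≤ sw A Ψ :=
  sw_mono (Set.Subset.refl _) h

theorem sw_congr {A : Set (List Bool)} {Φ Ψ : List Bool → ℝ≥0∞} (h : ∀ t ∈ A, Φ t = Ψ t) : sw A Φ = sw A Ψ :=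
  le_antisymm (sw_mono' fun t ht => (h t ht).le) (sw_mono' fun t ht => (h t ht).ge)

theorem sw_mul_left (A : Set (List Bool)) (c : ℝ≥0∞) (Φ : List Bool → ℝ≥0∞) :
    sw A (fun t => c * Φ t) = c * sw A Φ := by
  unfold sw
  rw [← ENNReal.tsum_mul_left]
  exact tsum_congr fun t => by ring

theorem sw_mul_right (A : Set (List Bool)) (c : ℝ≥0∞) (Φ : List Bool → ℝ≥0∞) :
    sw A (fun t => Φ t * c) = sw A Φ * c := by
  unfold sw
  rw [← ENNReal.tsum_mul_right]
  exact tsum_congr fun t => by ring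

theorem sw_add (A : Set (List Bool)) (Φ Ψ : List Bool → ℝ≥0∞) :
    sw A (fun t => Φ t + Ψ t) = sw A Φ + sw A Ψ := by
  unfold sw
  rw [← ENNReal.tsum_add]
  exact tsum_congr fun t => by ring

theorem sw_sum {ι : Type*} (A : Set (List Bool)) (S : Finset ι) (Φ : ι → List Bool → ℝ≥0∞) :
    sw A (fun t => ∑ i ∈ S, Φ i t) = ∑ i ∈ S, sw A (Φ i) := by
  classical
  induction S using Finset.induction_on with
  | empty => simp [sw]
  | insert a s ha ih =>
    simp only [Finset.sum_insert ha]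
    rw [sw_add, ih]

theorem sw_one (A : Set (List Bool)) : sw A (fun _ => 1) = gf A := by
  unfold sw gf
  exact tsum_congr fun t => by rw [mul_one]

theorem sw_zero (A : Set (List Bool)) : sw A (fun _ => 0) = 0 := by
  unfold sw
  simp

theorem sw_comm (A B : Set (List Bool)) (F : List Bool → List Bool → ℝ≥0∞) :
    sw A (fun s => sw B (fun t => F s t)) = sw B (fun t => sw A (fun s => F s t)) := by
  unfold sw
  simp only [← ENNReal.tsum_mul_left]
  rw [ENNReal.tsum_comm]
  exact tsum_congr fun t => tsum_congr fun s => by ring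

open Classical in
theorem sw_and (A : Set (List Bool)) (R : List Bool → Prop) (Φ : List Bool → ℝ≥0∞) :
    sw {t | t ∈ A ∧ R t} Φ = sw A (fun t => if R t then Φ t else 0) := by
  rw [sw_ind, sw_ind]
  refine tsum_congr fun t => ?_
  simp only [Set.mem_ofPred_eq]
  by_cases h1 : t ∈ A
  · by_cases h2 : R t
    · simp [h1, h2]
    · simp [h1, h2]
  · simp [h1]

open Classical in
theorem g2_eq_sw (A B : Set (List Bool)) (R : List Bool → List Bool → Prop) :
    g2 A B R = sw A (fun s => sw B (fun t => if R s t then 1 else 0)) := by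
  rw [g2_left]
  unfold sw
  refine tsum_congr fun s => ?_
  congr 1
  rw [← sw_one, sw_and]
  rfl

/-- covering lemma -/
theorem sw_cover {X : Type*} (A : Set (List Bool)) (G : List Bool → ℝ≥0∞) (H : X → ℝ≥0∞) (f : X → List Bool)
    (hcov : ∀ t ∈ A, ∃ x, f x = t ∧ wE t * G t ≤ H x) : sw A G ≤ ∑' x, H x := by
  classical
  choose φ hφ1 hφ2 using hcov
  have hinj : Function.Injective (fun t : {t : List Bool // t ∈ A} => φ t.1 t.2) := by
    intro a b hab
    have h1 := hφ1 a.1 a.2
    have h2 := hφ1 b.1 b.2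
    have hab' : φ a.1 a.2 = φ b.1 b.2 := hab
    rw [hab'] at h1
    exact Subtype.ext (h1.symm.trans h2)
  refine le_trans ?_ (ENNReal.tsum_comp_le_tsum_of_injective hinj H)
  exact ENNReal.tsum_le_tsum fun t => hφ2 t.1 t.2

/-- covering by triples -/
theorem sw_cover3 {ι : Type} (S : Finset ι) (A : Set (List Bool)) (B C D : ι → Set (List Bool))
    (G : List Bool → ℝ≥0∞)
    (hcov : ∀ t ∈ A, ∃ i ∈ S, ∃ a ∈ B i, ∃ p ∈ C i, ∃ u ∈ D i, t = a ++ (p ++ u)) :
    sw A G ≤ ∑ i ∈ S, sw (B i) (fun a => sw (C i) (fun p => sw (D i) (fun u => G (a ++ (p ++ u))))) := by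
  classical
  have hR : ∑ i ∈ S, sw (B i) (fun a => sw (C i) (fun p => sw (D i) (fun u => G (a ++ (p ++ u))))) =
      ∑' x : S × (List Bool × (List Bool × List Bool)),
        (if x.2.1 ∈ B x.1 ∧ x.2.2.1 ∈ C x.1 ∧ x.2.2.2 ∈ D x.1 then
          wE x.2.1 * (wE x.2.2.1 * (wE x.2.2.2 * G (x.2.1 ++ (x.2.2.1 ++ x.2.2.2)))) else 0) := by
    rw [ENNReal.tsum_prod', tsum_fintype, ← Finset.sum_coe_sort S]
    refine Finset.sum_congr rfl fun i _ => ?_
    rw [ENNReal.tsum_prod', sw_ind]
    refine tsum_congr fun a => ?_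
    rw [ENNReal.tsum_prod']
    by_cases ha : a ∈ B i
    · rw [if_pos ha, sw_ind, ← ENNReal.tsum_mul_left]
      refine tsum_congr fun p => ?_
      by_cases hp : p ∈ C i
      · rw [if_pos hp, sw_ind, ← ENNReal.tsum_mul_left, ← ENNReal.tsum_mul_left]
        refine tsum_congr fun u => ?_
        by_cases hu : u ∈ D i
        · simp [ha, hp, hu]
        · simp [hu]
      · simp [hp]
    · simp [ha]
  rw [hR]
  refine sw_cover A G _ (fun x => x.2.1 ++ (x.2.2.1 ++ x.2.2.2)) ?_
  intro t ht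
  obtain ⟨i, hi, a, ha, p, hp, u, hu, rfl⟩ := hcov t ht
  refine ⟨(⟨i, hi⟩, (a, (p, u))), rfl, ?_⟩
  simp only [ha, hp, hu, and_self, if_true]
  rw [wE_append, wE_append]
  exact le_of_eq (by ring)

/-- the piece over the level l -/
theorem jump_le {l t : ℕ} (h : l < t) (G : List Bool → ℝ≥0∞) :
    sw (Brd t) G ≤ ∑ j ∈ Finset.range (l + 1), ∑ r ∈ Finset.Ico (l + 1 - j) (t + 1 - j),
      sw (Brd j) (fun N => sw (Irr r) (fun P => sw (Brd (t - j - r)) (fun Z => G (N ++ (P ++ Z))))) := by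
  classical
  have h1 := sw_cover3 ((Finset.range (l + 1)).sigma (fun j => Finset.Ico (l + 1 - j) (t + 1 - j))) (Brd t)
    (fun i => Brd i.1) (fun i => Irr i.2) (fun i => Brd (t - i.1 - i.2)) G (by
      intro Y hY
      obtain ⟨j, r, a, p, u, h1, h2, h3, ha, hp, hu, rfl⟩ := jump_dec h hY
      refine ⟨⟨j, r⟩, ?_, a, ha, p, hp, u, hu, by rw [List.append_assoc]⟩
      rw [Finset.mem_sigma, Finset.mem_range, Finset.mem_Ico]
      refine ⟨?_, ?_, ?_⟩
      · change j < l + 1
        omega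
      · change l + 1 - j ≤ r
        omega
      · change r < t + 1 - j
        omega)
  rw [Finset.sum_sigma] at h1
  exact h1

/-- the piece over the level t - l, where l is counted from the end -/
theorem jump_le_end {l t : ℕ} (h : l < t) (G : List Bool → ℝ≥0∞) :
    sw (Brd t) G ≤ ∑ m ∈ Finset.range (l + 1), ∑ r ∈ Finset.Ico (l + 1 - m) (t + 1 - m),
      sw (Brd (t - m - r)) (fun R => sw (Irr r) (fun P => sw (Brd m) (fun M => G (R ++ (P ++ M))))) := by
  classical
  have h1 := sw_cover3 ((Finset.range (l + 1)).sigma (fun m => Finset.Ico (l + 1 - m) (t + 1 - m))) (Brd t)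
    (fun i => Brd (t - i.1 - i.2)) (fun i => Irr i.2) (fun i => Brd i.1) G (by
      intro Y hY
      obtain ⟨j, r, a, p, u, h1, h2, h3, ha, hp, hu, rfl⟩ := jump_dec (s := t - l - 1) (by omega) hY
      have e1 : t - (t - j - r) - r = j := by omega
      refine ⟨⟨t - j - r, r⟩, ?_, a, ?_, p, hp, u, hu, by rw [List.append_assoc]⟩
      · rw [Finset.mem_sigma, Finset.mem_range, Finset.mem_Ico]
        refine ⟨?_, ?_, ?_⟩
        · change t - j - r < l + 1
          omega
        · change l + 1 - (t - j - r) ≤ r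
          omega
        · change r < t + 1 - (t - j - r)
          omega
      · simp only [e1]
        exact ha)
  rw [Finset.sum_sigma] at h1
  exact h1

end Rec8

end HexObs
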