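import Pool.Agent.PHW8.Final8

/-!
PHW: the bound for all n.
-/

set_option autoImplicit false

namespace HexObs

theorem PHW_all : ∃ C : ℝ, 1 ≤ C ∧ ∀ n : ℕ, 1 ≤ n → (aB n : ℝ) ≤ C * (n : ℝ) ^ C * muB ^ n := by
  obtain ⟨C0, h⟩ := PHW_final
  obtain ⟨N, hN⟩ := Filter.eventually_atTop.1 h
  have hmu : 0 < muB := lt_of_lt_of_le (by have := xc_pos; positivity) le_muB
  obtain ⟨S, hS⟩ : ∃ S : ℝ, S = ∑ n ∈ Finset.range N, (aB n : ℝ) / muB ^ n := ⟨_, rfl⟩
  have hS0 : 0 ≤ S := by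
    rw [hS]
    exact Finset.sum_nonneg (fun n _ => by positivity)
  obtain ⟨C, hC⟩ : ∃ C : ℝ, C = max C0 1 + S := ⟨_, rfl⟩
  have h1 : 1 ≤ C := by
    have := le_max_right C0 1
    linarith
  have h2 : C0 ≤ C := by
    have := le_max_left C0 1
    linarith
  refine ⟨C, h1, fun n hn => ?_⟩
  have hn1 : (1 : ℝ) ≤ n := by exact_mod_cast hn
  have hp : 0 < muB ^ n := pow_pos hmu n
  have hpow : (1 : ℝ) ≤ (n : ℝ) ^ C := Real.one_le_rpow hn1 (by linarith)
  rcases Nat.lt_or_ge n N with hlt | hge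
  · have h3 : (aB n : ℝ) / muB ^ n ≤ S := by
      rw [hS]
      exact Finset.single_le_sum (f := fun n => (aB n : ℝ) / muB ^ n) (fun m _ => by positivity) (Finset.mem_range.2 hlt)
    have h4 : (aB n : ℝ) = (aB n : ℝ) / muB ^ n * muB ^ n := by
      field_simp
    have h5 : S ≤ C * (n : ℝ) ^ C := by
      have h6 : S ≤ C := by
        have := le_max_right C0 1
        linarith
      calc S ≤ C := h6
        _ = C * 1 := (mul_one C).symm
        _ ≤ C * (n : ℝ) ^ C := mul_le_mul_of_nonneg_left hpow (by linarith)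
    rw [h4]
    exact mul_le_mul_of_nonneg_right (h3.trans h5) hp.le
  · refine (hN n hge).trans ?_
    have h3 : (n : ℝ) ^ C0 ≤ C * (n : ℝ) ^ C := by
      calc (n : ℝ) ^ C0 ≤ (n : ℝ) ^ C := Real.rpow_le_rpow_of_exponent_le hn1 h2
        _ = 1 * (n : ℝ) ^ C := (one_mul _).symm
        _ ≤ C * (n : ℝ) ^ C := mul_le_mul_of_nonneg_right h1 (by positivity)
    calc muB ^ n * (n : ℝ) ^ C0 ≤ muB ^ n * (C * (n : ℝ) ^ C) := mul_le_mul_of_nonneg_left h3 hp.le
      _ = C * (n : ℝ) ^ C * muB ^ n := by ring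

end HexObs
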