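import Pool.Agent.PHW8.Lev8

/-!
PHW, section S8, T0: unrolling of the chain functional and the a priori bound.
-/

set_option autoImplicit false

namespace HexObs

open Complex Finset ENNReal

namespace Rec8

lemma Fch_succ (z : ℝ≥0∞) (n : ℕ) (X : List Bool) :
    Fch z (n + 1) X = Fch z n X + z * sw {Y | Y ∈ Brd (n + 1) ∧ Nb X Y} (fun Y => Fch z n Y) := rfl

/-- T0: unrolling -/
theorem Fch_unroll (z : ℝ≥0∞) {m n : ℕ} (h : m ≤ n) (X : List Bool) :
    Fch z n X = Fch z m X + z * Gw z (m + 1) (n + 1) X := by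
  induction n, h using Nat.le_induction with
  | base =>
    unfold Gw
    simp
  | succ n hmn ih =>
    rw [Fch_succ, ih]
    have h1 : Gw z (m + 1) (n + 1 + 1) X = Gw z (m + 1) (n + 1) X +
        sw {Y | Y ∈ Brd (n + 1) ∧ Nb X Y} (fun Y => Fch z n Y) := by
      unfold Gw
      rw [Finset.sum_Ico_succ_top (by omega)]
      rfl
    rw [h1, mul_add, add_assoc]

/-- T0: a priori bound -/
theorem Fch_le (z : ℝ≥0∞) (n : ℕ) (X : List Bool) : Fch z n X ≤ (1 + 2 * z) ^ n := by
  induction n generalizing X with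
  | zero =>
    rw [pow_zero]
    exact le_rfl
  | succ n ih =>
    rw [Fch_succ]
    have h1 : sw {Y | Y ∈ Brd (n + 1) ∧ Nb X Y} (fun Y => Fch z n Y) ≤ (1 + 2 * z) ^ n := by
      calc sw {Y | Y ∈ Brd (n + 1) ∧ Nb X Y} (fun Y => Fch z n Y)
          ≤ sw (Brd (n + 1)) (fun _ => (1 + 2 * z) ^ n * 1) :=
            sw_mono (fun Y hY => hY.1) (fun Y _ => by rw [mul_one]; exact ih Y)
        _ = (1 + 2 * z) ^ n * BT (n + 1) := by rw [sw_mul_left, sw_one, gf_Brd]
        _ ≤ (1 + 2 * z) ^ n * 1 := mul_le_mul_right (BT_le_one (by omega)) _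
        _ = (1 + 2 * z) ^ n := mul_one _
    calc Fch z n X + z * sw {Y | Y ∈ Brd (n + 1) ∧ Nb X Y} (fun Y => Fch z n Y)
        ≤ (1 + 2 * z) ^ n + z * (1 + 2 * z) ^ n := add_le_add (ih X) (mul_le_mul_right h1 _)
      _ = (1 + 2 * z) ^ n * (1 + z) := by ring
      _ ≤ (1 + 2 * z) ^ n * (1 + 2 * z) := by
          apply mul_le_mul_right
          apply add_le_add le_rfl
          calc z = 1 * z := (one_mul z).symm
            _ ≤ 2 * z := mul_le_mul_left (by norm_num) z
      _ = (1 + 2 * z) ^ (n + 1) := (pow_succ _ _).symm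

end Rec8

end HexObs
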