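import Pool.Agent.PHW8.Avg8
import Pool.Agent.PHW8.T0

/-!
PHW, section S8: first_le (no next strand), end_le and one_le (one end).
-/

set_option autoImplicit false

namespace HexObs

open Complex Finset ENNReal

namespace Rec8

/-- one decomposition, summed over a window of heights: U = weight of the free part -/
private lemma win_le {ι : Type} (W : Finset ι) (ht : ι → ℕ) {l R : ℕ} {X U : ℝ≥0∞} {c : ℕ → ℕ → ℝ≥0∞}
    {x : ι → ℝ≥0∞} (hX : X ≤ ∑ s ∈ W, x s)
    (hR : ∀ s ∈ W, ht s < R)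
    (hx : ∀ s ∈ W, x s ≤ ∑ j ∈ Finset.range (l + 1), ∑ r ∈ Finset.Ico (l + 1 - j) (ht s + 1 - j),
      BT (ht s - j - r) * c j r)
    (hU : ∀ q, ∑ s ∈ W, (if q ≤ ht s then BT (ht s - q) else 0) ≤ U) :
    X ≤ U * ∑ j ∈ Finset.range (l + 1), ∑ r ∈ Finset.Ico (l + 1 - j) R, c j r := by
  classical
  have h1 : ∀ s ∈ W, x s ≤ ∑ j ∈ Finset.range (l + 1), ∑ r ∈ Finset.Ico (l + 1 - j) R,
      (if j + r ≤ ht s then BT (ht s - (j + r)) else 0) * c j r := by
    intro s hs
    refine (hx s hs).trans ?_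
    refine Finset.sum_le_sum fun j _ => ?_
    have hsub : Finset.Ico (l + 1 - j) (ht s + 1 - j) ⊆ Finset.Ico (l + 1 - j) R := by
      apply Finset.Ico_subset_Ico le_rfl
      have := hR s hs
      omega
    refine le_trans ?_ (Finset.sum_le_sum_of_subset hsub)
    refine Finset.sum_le_sum fun r hr => ?_
    rw [Finset.mem_Ico] at hr
    rw [if_pos (by omega), Nat.sub_sub]
  calc X ≤ ∑ s ∈ W, x s := hX
    _ ≤ ∑ s ∈ W, ∑ j ∈ Finset.range (l + 1), ∑ r ∈ Finset.Ico (l + 1 - j) R,
      (if j + r ≤ ht s then BT (ht s - (j + r)) else 0) * c j r := Finset.sum_le_sum h1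
    _ = ∑ j ∈ Finset.range (l + 1), ∑ r ∈ Finset.Ico (l + 1 - j) R,
      (∑ s ∈ W, (if j + r ≤ ht s then BT (ht s - (j + r)) else 0)) * c j r := by
        rw [Finset.sum_comm]
        refine Finset.sum_congr rfl fun j _ => ?_
        rw [Finset.sum_comm]
        refine Finset.sum_congr rfl fun r _ => ?_
        rw [Finset.sum_mul]
    _ ≤ ∑ j ∈ Finset.range (l + 1), ∑ r ∈ Finset.Ico (l + 1 - j) R, U * c j r := by
        refine Finset.sum_le_sum fun j _ => Finset.sum_le_sum fun r _ => ?_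
        exact mul_le_mul_left (hU (j + r)) _
    _ = U * ∑ j ∈ Finset.range (l + 1), ∑ r ∈ Finset.Ico (l + 1 - j) R, c j r := by
        rw [Finset.mul_sum]
        refine Finset.sum_congr rfl fun j _ => ?_
        rw [Finset.mul_sum]

open Classical in
/-- sum over a block of the near parts of the lower strand -/
private lemma kf_le (T b a r : ℕ) (I : List Bool) :
    ∑ j ∈ blk a, sw (Fld.BrB b) (fun M => sw (Brd j) (fun N => sw (Irr r) (fun P =>
      if Fld.FoldH T I P M N then 1 else 0))) ≤ sw (Irr r) (fun P => Kf T b a I P) := by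
  calc ∑ j ∈ blk a, sw (Fld.BrB b) (fun M => sw (Brd j) (fun N => sw (Irr r) (fun P =>
      if Fld.FoldH T I P M N then (1 : ℝ≥0∞) else 0)))
      = sw (Fld.BrB b) (fun M => ∑ j ∈ blk a, sw (Brd j) (fun N => sw (Irr r) (fun P =>
      if Fld.FoldH T I P M N then (1 : ℝ≥0∞) else 0))) := (sw_sum _ _ _).symm
    _ ≤ sw (Fld.BrB b) (fun M => sw (Fld.BrB a) (fun N => sw (Irr r) (fun P =>
      if Fld.FoldH T I P M N then (1 : ℝ≥0∞) else 0))) := sw_mono' fun M _ => sum_blk_le a _
    _ = sw (Fld.BrB b) (fun M => sw (Irr r) (fun P => sw (Fld.BrB a) (fun N =>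
      if Fld.FoldH T I P M N then (1 : ℝ≥0∞) else 0))) := by
        apply sw_congr
        intro M _
        exact sw_comm _ _ _
    _ = sw (Irr r) (fun P => sw (Fld.BrB b) (fun M => sw (Fld.BrB a) (fun N =>
      if Fld.FoldH T I P M N then (1 : ℝ≥0∞) else 0))) := sw_comm _ _ _
    _ = sw (Irr r) (fun P => Kf T b a I P) := by
        apply sw_congr
        intro P _
        unfold Kf
        rw [g2_eq_sw]

/-- T2a: no next strand -/
theorem first_le (d k u v b : ℕ) (I : List Bool) (hd : 2 ≤ d) (hk : d ≤ k) (hu : 2 ^ k ≤ u) (hv : v ≤ 2 ^ (k + 1)) :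
    sw (Fld.BrB b) (fun M => ∑ t ∈ Finset.Ico u v, gf {Y | Y ∈ Brd t ∧ NbE t I M Y}) ≤
      ENNReal.ofReal (UU (v - u)) * InS k (k - d) b I := by
  classical
  have hkk : 2 ^ (k - d + 1) ≤ 2 ^ k := Nat.pow_le_pow_right (by norm_num) (by omega)
  have key : sw (Fld.BrB b) (fun M => ∑ t ∈ Finset.Ico u v, gf {Y | Y ∈ Brd t ∧ NbE t I M Y}) ≤
      ENNReal.ofReal (UU (v - u)) * ∑ a ∈ Finset.range (k - d + 1), ∑ r ∈ Finset.range (2 ^ (k + 1)),
        mb (k - d) a r * ∑ j ∈ blk a, sw (Fld.BrB b) (fun M => sw (Brd j) (fun N => sw (Irr r) (fun P =>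
          if Fld.FoldH (2 ^ k) I P M N then 1 else 0))) := by
    apply avg_one
    intro l hl
    rw [Finset.mem_Ico] at hl
    apply win_le (Finset.Ico u v) id
      (x := fun t => sw (Fld.BrB b) (fun M => gf {Y | Y ∈ Brd t ∧ NbE t I M Y}))
      (c := fun j r => sw (Fld.BrB b) (fun M => sw (Brd j) (fun N => sw (Irr r) (fun P =>
          if Fld.FoldH (2 ^ k) I P M N then 1 else 0))))
    · exact (sw_sum _ _ _).le
    · intro t ht
      rw [Finset.mem_Ico] at ht
      show t < 2 ^ (k + 1)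
      omega
    · intro t ht
      rw [Finset.mem_Ico] at ht
      show sw (Fld.BrB b) (fun M => gf {Y | Y ∈ Brd t ∧ NbE t I M Y}) ≤
        ∑ j ∈ Finset.range (l + 1), ∑ r ∈ Finset.Ico (l + 1 - j) (t + 1 - j), BT (t - j - r) *
          sw (Fld.BrB b) (fun M => sw (Brd j) (fun N => sw (Irr r) (fun P =>
          if Fld.FoldH (2 ^ k) I P M N then 1 else 0)))
      have h1 : ∀ M ∈ Fld.BrB b, gf {Y | Y ∈ Brd t ∧ NbE t I M Y} ≤
          ∑ j ∈ Finset.range (l + 1), ∑ r ∈ Finset.Ico (l + 1 - j) (t + 1 - j), BT (t - j - r) *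
            sw (Brd j) (fun N => sw (Irr r) (fun P => if Fld.FoldH (2 ^ k) I P M N then 1 else 0)) := by
        intro M _
        rw [← sw_one, sw_and]
        refine (jump_le (show l < t by omega) _).trans ?_
        refine Finset.sum_le_sum fun j _ => Finset.sum_le_sum fun r hr => ?_
        rw [Finset.mem_Ico] at hr
        rw [← sw_mul_left]
        apply sw_mono'
        intro N hN
        rw [← sw_mul_left]
        apply sw_mono'
        intro P hP
        have h2 : sw (Brd (t - j - r)) (fun Z => if NbE t I M (N ++ (P ++ Z)) then (1 : ℝ≥0∞) else 0) ≤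
            sw (Brd (t - j - r)) (fun _ => (if Fld.FoldH (2 ^ k) I P M N then (1 : ℝ≥0∞) else 0) * 1) := by
          apply sw_mono'
          intro Z hZ
          by_cases hNb : NbE t I M (N ++ (P ++ Z))
          · rw [if_pos hNb]
            obtain ⟨Q, p, m, hM, hQ, htp, hN2⟩ := hNb
            have hPZ : P ++ Z ∈ Brd (t - j) := by
              have := Brd_append hP.1 hZ
              rwa [show r + (t - j - r) = t - j by omega] at this
            rw [if_pos ⟨m, j, p, t - j, Q, Z, hM, hN, hQ, hPZ, by omega, by omega, hN2⟩, one_mul]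
          · rw [if_neg hNb]
            exact zero_le
        refine h2.trans ?_
        rw [sw_mul_left, sw_one, gf_Brd, mul_comm]
      refine (sw_mono' h1).trans (le_of_eq ?_)
      rw [sw_sum]
      refine Finset.sum_congr rfl fun j _ => ?_
      rw [sw_sum]
      refine Finset.sum_congr rfl fun r _ => ?_
      rw [sw_mul_left]
    · intro q
      exact sum_BT_le_UU
  refine key.trans ?_
  apply mul_le_mul_right
  unfold InS
  refine Finset.sum_le_sum fun a _ => Finset.sum_le_sum fun r _ => ?_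
  exact mul_le_mul_right (kf_le (2 ^ k) b a r I) _

/-- the next strands behind P ++ M -/
private noncomputable def HH (z : ℝ≥0∞) (u v : ℕ) (P M : List Bool) : ℝ≥0∞ :=
  ∑ t ∈ Finset.Ico u v, sw {Y | Y ∈ Brd t ∧ NbE t P M Y} (fun Y => Fch z (t - 1) Y)

/-- decomposition at a level counted from the end -/
private lemma end_gen (z : ℝ≥0∞) {l s u v : ℕ} (hls : l < s) :
    sw (Brd s) (fun g => Gw z u (min v (s + 1)) g) ≤
      ∑ m ∈ Finset.range (l + 1), ∑ r ∈ Finset.Ico (l + 1 - m) (s + 1 - m), BT (s - m - r) *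
        sw (Irr r) (fun P => sw (Brd m) (fun M => HH z u v P M)) := by
  refine (jump_le_end hls _).trans ?_
  refine Finset.sum_le_sum fun m _ => Finset.sum_le_sum fun r hr => ?_
  rw [Finset.mem_Ico] at hr
  have h1 : sw (Brd (s - m - r)) (fun R => sw (Irr r) (fun P => sw (Brd m) (fun M =>
      Gw z u (min v (s + 1)) (R ++ (P ++ M))))) ≤
      sw (Brd (s - m - r)) (fun _ => sw (Irr r) (fun P => sw (Brd m) (fun M => HH z u v P M)) * 1) := by
    apply sw_mono'
    intro R hR
    rw [mul_one]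
    apply sw_mono'
    intro P hP
    apply sw_mono'
    intro M hM
    unfold Gw HH
    refine le_trans ?_ (Finset.sum_le_sum_of_subset (Finset.Ico_subset_Ico le_rfl (min_le_left v (s + 1))))
    refine Finset.sum_le_sum fun t ht => ?_
    rw [Finset.mem_Ico] at ht
    apply sw_mono
    · rintro Y ⟨hY1, hY2⟩
      refine ⟨hY1, R, s - m, m, hM, ?_, ?_, hY2⟩
      · have := Brd_append hR hP.1
        rwa [show s - m - r + r = s - m by omega] at this
      · have := lt_of_lt_of_le ht.2 (min_le_right v (s + 1))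
        omega
    · intro Y _
      exact le_rfl
  refine h1.trans (le_of_eq ?_)
  rw [sw_mul_left, sw_one, gf_Brd, mul_comm]

private lemma zw_le (z : ℝ≥0∞) (u v b r : ℕ) :
    ∑ m ∈ blk b, sw (Irr r) (fun P => sw (Brd m) (fun M => HH z u v P M)) ≤
      sw (Irr r) (fun P => Zw z u v b P) := by
  rw [← sw_sum]
  apply sw_mono'
  intro P _
  exact sum_blk_le b _

private lemma BT_le_one'' (n : ℕ) : BT n ≤ 1 := by
  rw [BT_eq, ← ENNReal.ofReal_one]
  exact ENNReal.ofReal_le_ofReal (uu_le_one n)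

/-- T5: end of one strand (PHW) -/
theorem end_le (z : ℝ≥0∞) (d k k' T u' v' : ℕ) (hd : 3 ≤ d) (hk' : d ≤ k') (hkk : k' ≤ k) (hT : 2 ^ k ≤ T)
    (hT' : T < 2 ^ (k + 1)) (hu' : 2 ^ k' ≤ u') (hv' : v' ≤ 2 ^ (k' + 1)) (hv'' : v' ≤ T + 1) :
    sw (Brd T) (fun g => Gw z u' v' g) ≤ OutS z k (k' - d) u' v' := by
  classical
  have hkk2 : 2 ^ (k' - d + 1) ≤ 2 ^ k := Nat.pow_le_pow_right (by norm_num) (by omega)
  have key : sw (Brd T) (fun g => Gw z u' v' g) ≤
      1 * ∑ b ∈ Finset.range (k' - d + 1), ∑ r ∈ Finset.range (2 ^ (k + 1)),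
        mb (k' - d) b r * ∑ m ∈ blk b, sw (Irr r) (fun P => sw (Brd m) (fun M => HH z u' v' P M)) := by
    apply avg_one
    intro l hl
    rw [Finset.mem_Ico] at hl
    apply win_le (Finset.range 1) (fun _ => T) (x := fun _ => sw (Brd T) (fun g => Gw z u' v' g))
      (c := fun m r => sw (Irr r) (fun P => sw (Brd m) (fun M => HH z u' v' P M)))
    · simp
    · intro _ _
      exact hT'
    · intro _ _
      have h1 := end_gen z (l := l) (s := T) (u := u') (v := v') (by omega)
      rwa [min_eq_left hv''] at h1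
    · intro q
      rw [Finset.sum_range_one]
      split_ifs
      · exact BT_le_one'' _
      · exact zero_le
  rw [one_mul] at key
  refine key.trans ?_
  unfold OutS
  refine Finset.sum_le_sum fun b _ => Finset.sum_le_sum fun r _ => ?_
  exact mul_le_mul_right (zw_le z u' v' b r) _

/-- T6: one end, the bridges g of the block k -/
theorem one_le (z : ℝ≥0∞) (d k k1 u1 v1 : ℕ) (hd : 3 ≤ d) (hk1 : d ≤ k1) (hkk1 : k1 ≤ k)
    (hu1 : 2 ^ k1 ≤ u1) (hv1 : v1 ≤ 2 ^ (k1 + 1)) :
    ∑ s ∈ Finset.Ico (2 ^ k) (2 ^ (k + 1)), sw (Brd s) (fun g => Gw z u1 (min v1 (s + 1)) g) ≤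
      ENNReal.ofReal (UU (2 ^ (k + 1))) * OutS z k (k1 - d) u1 v1 := by
  classical
  have hkk2 : 2 ^ (k1 - d + 1) ≤ 2 ^ k := Nat.pow_le_pow_right (by norm_num) (by omega)
  have key : ∑ s ∈ Finset.Ico (2 ^ k) (2 ^ (k + 1)), sw (Brd s) (fun g => Gw z u1 (min v1 (s + 1)) g) ≤
      ENNReal.ofReal (UU (2 ^ (k + 1))) * ∑ b ∈ Finset.range (k1 - d + 1), ∑ r ∈ Finset.range (2 ^ (k + 1)),
        mb (k1 - d) b r * ∑ m ∈ blk b, sw (Irr r) (fun P => sw (Brd m) (fun M => HH z u1 v1 P M)) := by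
    apply avg_one
    intro l hl
    rw [Finset.mem_Ico] at hl
    apply win_le (Finset.Ico (2 ^ k) (2 ^ (k + 1))) id
      (x := fun s => sw (Brd s) (fun g => Gw z u1 (min v1 (s + 1)) g))
      (c := fun m r => sw (Irr r) (fun P => sw (Brd m) (fun M => HH z u1 v1 P M))) le_rfl
    · intro s hs
      rw [Finset.mem_Ico] at hs
      exact hs.2
    · intro s hs
      rw [Finset.mem_Ico] at hs
      exact end_gen z (by omega)
    · intro q
      refine sum_BT_le_UU.trans (ENNReal.ofReal_le_ofReal ?_)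
      exact Num2Aux.UU_mono (by omega)
  refine key.trans ?_
  apply mul_le_mul_right
  unfold OutS
  refine Finset.sum_le_sum fun b _ => Finset.sum_le_sum fun r _ => ?_
  exact mul_le_mul_right (zw_le z u1 v1 b r) _

end Rec8

end HexObs
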