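import Pool.Agent.PHW8.NumG8
import Pool.Agent.PHW8.Lev8

/-!
PHW, section S8: masses of the pieces with the average over the levels (module N2a).
-/

set_option autoImplicit false

namespace HexObs

open Complex Finset ENNReal

namespace Rec8

namespace MassA

theorem kap_eq (r : ℕ) : sw (Irr r) (fun _ => 1) = ENNReal.ofReal (kk r) := by
  rw [sw_one]
  show kap' r = _
  unfold kk
  rw [ENNReal.ofReal_toReal]
  have h1 : 0 < (BT r).toReal := uu_pos r
  have h2 : BT r ≠ ∞ := (ENNReal.toReal_pos_iff.mp h1).2.ne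
  refine ne_top_of_le_ne_top h2 ?_
  rw [← gf_Brd]
  exact gf_mono fun t ht => ht.1

theorem UU_succ_le (n : ℕ) : UU (n + 1) ≤ 2 * UU n := by
  rw [Num2Aux.UU_succ]
  have h1 : uu (n + 1) ≤ uu 0 := uu_anti (Nat.zero_le _)
  have h2 : UU 0 ≤ UU n := Num2Aux.UU_mono (Nat.zero_le n)
  have h3 : UU 0 = uu 0 := by
    unfold UU
    simp
  linarith

theorem UU_pow_pred {κ : ℕ} : UU (2 ^ κ) ≤ 2 * UU (2 ^ (κ - 1)) := by
  rcases Nat.eq_zero_or_pos κ with h | h
  · rw [h]
    have := Num2Aux.UU_pos (2 ^ 0)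
    show UU (2 ^ 0) ≤ 2 * UU (2 ^ 0)
    linarith
  · have := UU_double (2 ^ (κ - 1))
    have e2 : 2 * 2 ^ (κ - 1) = 2 ^ κ := by
      rw [← pow_succ', show κ - 1 + 1 = κ by omega]
    rwa [e2] at this

end MassA

open MassA

/-- trivial mass of a block -/
theorem SI_one (l : ℕ) : SI l (fun _ => 1) ≤ ENNReal.ofReal (2 / UU (2 ^ l)) := by
  have e : SI l (fun _ => 1) = ∑ r ∈ Finset.Ico (2 ^ l) (2 ^ (l + 1)), ENNReal.ofReal (kk r) := by
    unfold SI
    exact Finset.sum_congr rfl fun r _ => kap_eq r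
  rw [e, ← ENNReal.ofReal_sum_of_nonneg fun r _ => kk_nonneg r]
  apply ENNReal.ofReal_le_ofReal
  have h1 := sum_kk_le (2 ^ (l + 1))
  have h2 : 2 ^ l ≤ 2 ^ (l + 1) := Nat.pow_le_pow_right (by norm_num) (by omega)
  have h3 := Finset.sum_range_add_sum_Ico (f := kk) h2
  have h4 : ∑ r ∈ Finset.Ico (2 ^ l) (2 ^ (l + 1)), kk r ≤ KK' (2 ^ l) := by
    unfold KK'
    linarith
  obtain ⟨m, hm⟩ : ∃ m, 2 ^ l = m + 1 := ⟨2 ^ l - 1, by have := Nat.one_le_two_pow (n := l); omega⟩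
  rw [hm] at h4 ⊢
  have h5 := UU_mul_KK m
  have h6 := UU_succ_le m
  have h7 := Num2Aux.UU_pos m
  have h8 := Num2Aux.UU_pos (m + 1)
  have h9 := KK_nonneg (m + 1)
  refine h4.trans ?_
  rw [le_div_iff₀ h8]
  nlinarith

namespace MassA

lemma mb_le (κ a r : ℕ) : mb κ a r ≤ ENNReal.ofReal (min 1 ((r : ℝ) / 2 ^ κ)) := by
  unfold mb
  split_ifs
  · exact zero_le
  · have h1 : (r : ℝ≥0∞) / 2 ^ κ = ENNReal.ofReal ((r : ℝ) / 2 ^ κ) := by
      rw [ENNReal.ofReal_div_of_pos (by positivity), ENNReal.ofReal_natCast, ENNReal.ofReal_pow (by norm_num)]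
      congr 2
      simp
    rw [h1, ← ENNReal.ofReal_one, ENNReal.ofReal_min]

lemma mb_le_one (κ a r : ℕ) : mb κ a r ≤ 1 := by
  unfold mb
  split_ifs
  · exact zero_le
  · exact min_le_left _ _

end MassA

/-- trivial mass with the average over the levels -/
theorem mb_one : ∃ C : ℝ, 0 < C ∧ ∀ κ a n : ℕ,
    ∑ r ∈ Finset.range n, mb κ a r * sw (Irr r) (fun _ => 1) ≤ ENNReal.ofReal (C / UU (2 ^ κ)) := by
  refine ⟨4, by norm_num, ?_⟩
  intro κ a n
  obtain ⟨R, hR⟩ : ∃ R : ℕ, R = 2 ^ κ := ⟨_, rfl⟩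
  have hR1 : 1 ≤ R := by
    rw [hR]
    exact Nat.one_le_two_pow
  have hRr : (2 : ℝ) ^ κ = R := by
    rw [hR]
    push_cast
    ring
  have hR0 : (0 : ℝ) < R := by exact_mod_cast hR1
  have hU := Num2Aux.UU_pos R
  rw [← hR]
  calc ∑ r ∈ Finset.range n, mb κ a r * sw (Irr r) (fun _ => 1)
      ≤ ∑ r ∈ Finset.range n, ENNReal.ofReal (min 1 ((r : ℝ) / R) * kk r) := by
        refine Finset.sum_le_sum fun r _ => ?_
        rw [kap_eq, ENNReal.ofReal_mul (by positivity)]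
        refine mul_le_mul_left ?_ _
        have := mb_le κ a r
        rwa [hRr] at this
    _ = ENNReal.ofReal (∑ r ∈ Finset.range n, min 1 ((r : ℝ) / R) * kk r) := by
        rw [ENNReal.ofReal_sum_of_nonneg]
        intro r _
        have := kk_nonneg r
        positivity
    _ ≤ ENNReal.ofReal (4 / UU R) := by
        apply ENNReal.ofReal_le_ofReal
        have h1 : ∑ r ∈ Finset.range n, min 1 ((r : ℝ) / R) * kk r ≤
            ∑ r ∈ Finset.range (max n (R + 1)), min 1 ((r : ℝ) / R) * kk r := by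
          apply Finset.sum_le_sum_of_subset_of_nonneg
          · intro x hx
            rw [Finset.mem_range] at hx ⊢
            exact lt_of_lt_of_le hx (le_max_left _ _)
          · intro r _ _
            have := kk_nonneg r
            positivity
        have h2 := Finset.sum_range_add_sum_Ico (f := fun r : ℕ => min 1 ((r : ℝ) / R) * kk r) (le_max_right n (R + 1))
        have h3 : ∑ r ∈ Finset.range (R + 1), min 1 ((r : ℝ) / R) * kk r ≤ 3 / UU R := by
          have h4 := sum_mul_kk hR1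
          calc ∑ r ∈ Finset.range (R + 1), min 1 ((r : ℝ) / R) * kk r
              ≤ ∑ r ∈ Finset.range (R + 1), (1 / R) * (r * kk r) := by
                refine Finset.sum_le_sum fun r _ => ?_
                have := kk_nonneg r
                calc min 1 ((r : ℝ) / R) * kk r ≤ ((r : ℝ) / R) * kk r := by
                      gcongr
                      exact min_le_right _ _
                  _ = _ := by ring
            _ = (1 / R) * ∑ r ∈ Finset.range (R + 1), r * kk r := by rw [Finset.mul_sum]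
            _ ≤ (1 / R) * (3 * (R / UU R)) := by gcongr
            _ = 3 / UU R := by field_simp
        have h5 : ∑ r ∈ Finset.Ico (R + 1) (max n (R + 1)), min 1 ((r : ℝ) / R) * kk r ≤ 1 / UU R := by
          calc ∑ r ∈ Finset.Ico (R + 1) (max n (R + 1)), min 1 ((r : ℝ) / R) * kk r
              ≤ ∑ r ∈ Finset.Ico (R + 1) (max n (R + 1)), kk r := by
                refine Finset.sum_le_sum fun r _ => ?_
                have := kk_nonneg r
                calc min 1 ((r : ℝ) / R) * kk r ≤ 1 * kk r := by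
                      gcongr
                      exact min_le_left _ _
                  _ = _ := one_mul _
            _ ≤ KK' (R + 1) := by
                have h6 := Finset.sum_range_add_sum_Ico (f := kk) (le_max_right n (R + 1))
                have h7 := sum_kk_le (max n (R + 1))
                unfold KK'
                linarith
            _ ≤ 1 / UU R := by
                have := UU_mul_KK R
                rw [le_div_iff₀ hU]
                linarith
        have h8 : 3 / UU R + 1 / UU R = 4 / UU R := by ring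
        linarith

namespace MassA

/-- dyadic blocks -/
lemma sum_blocks (F : ℕ → ℝ≥0∞) (m n : ℕ) (h : m ≤ n) :
    ∑ r ∈ Finset.Ico (2 ^ m) (2 ^ n), F r = ∑ l ∈ Finset.Ico m n, ∑ r ∈ Finset.Ico (2 ^ l) (2 ^ (l + 1)), F r := by
  induction n, h using Nat.le_induction with
  | base => simp
  | succ n hn ih =>
    rw [Finset.sum_Ico_succ_top hn, ← ih, Finset.sum_Ico_consecutive]
    · exact Nat.pow_le_pow_right (by norm_num) hn
    · exact Nat.pow_le_pow_right (by norm_num) (by omega)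

lemma gam_ge {D δ : ℝ} (hD : 1 ≤ D) (hδ : 0 < δ) (hδ1 : δ ≤ 1) {K y x : ℕ} (hy : y ≤ K) (hx : y - x ≤ 1) :
    (1 / 2 : ℝ) ≤ gam D δ (et D) K y (y - x) := by
  unfold gam
  have hη := et_pos hD
  have hη1 := et_le_half D
  apply le_min (by norm_num)
  have h1 : (2 : ℝ) ^ (-1 : ℝ) ≤ (2 : ℝ) ^ (et D * (D * ((K : ℝ) - y) - δ * ((y - x : ℕ) : ℝ))) := by
    apply Real.rpow_le_rpow_of_exponent_le (by norm_num)
    have h2 : ((y - x : ℕ) : ℝ) ≤ 1 := by exact_mod_cast hx
    have h3 : (0 : ℝ) ≤ ((y - x : ℕ) : ℝ) := Nat.cast_nonneg _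
    have h4 : (0 : ℝ) ≤ (K : ℝ) - y := by
      have : (y : ℝ) ≤ K := by exact_mod_cast hy
      linarith
    have h5 : δ * ((y - x : ℕ) : ℝ) ≤ 1 := by nlinarith
    have h6 : 0 ≤ D * ((K : ℝ) - y) := by positivity
    nlinarith
  rw [Real.rpow_neg_one] at h1
  norm_num at h1 ⊢
  exact h1

/-- the core -/
lemma core {D δ : ℝ} (hD : 1 ≤ D) (hδ : 0 < δ) (hδ1 : δ ≤ 1) {C' : ℝ} (hC' : 0 < C') : ∃ C1 : ℝ, 0 < C1 ∧
    ∀ (Φ : List Bool → ℝ≥0∞) (κ k K x y : ℕ), (∀ P, Φ P ≤ 1) → x ≤ y → y ≤ κ → κ ≤ k → κ ≤ K →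
      (x + 2 ≤ κ → ∀ l, κ - 1 ≤ l → SI l Φ ≤
        ENNReal.ofReal (C' / UU (2 ^ l) * (2 : ℝ) ^ (D * ((l : ℝ) - y) - δ * ((y - x : ℕ) : ℝ)))) →
      ∑ r ∈ Finset.range (2 ^ (k + 1)), mb κ x r * sw (Irr r) Φ ≤
        ENNReal.ofReal (C1 / UU (2 ^ κ) * gam D δ (et D) K y (y - x)) := by
  obtain ⟨C2, hC2, h2⟩ := mb_one
  obtain ⟨C3, hC3, h3⟩ := tail_le (D := D) (δ := δ) hD hδ
  refine ⟨2 * C2 + 2 * ((2 + C') * C3), by positivity, ?_⟩
  intro Φ κ k K x y hΦ hxy hyκ hκk hκK hblk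
  have hU := Num2Aux.UU_pos (2 ^ κ)
  have hU1 := Num2Aux.UU_pos (2 ^ (κ - 1))
  by_cases hx : x + 2 ≤ κ
  · -- only large pieces
    have e1 : ∑ r ∈ Finset.range (2 ^ (k + 1)), mb κ x r * sw (Irr r) Φ ≤
        ∑ r ∈ Finset.Ico (2 ^ (κ - 1)) (2 ^ (k + 1)), sw (Irr r) Φ := by
      calc ∑ r ∈ Finset.range (2 ^ (k + 1)), mb κ x r * sw (Irr r) Φ
          ≤ ∑ r ∈ Finset.range (2 ^ (k + 1)), if 2 ^ (κ - 1) < r then sw (Irr r) Φ else 0 := by
            refine Finset.sum_le_sum fun r _ => ?_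
            split_ifs with h
            · exact (mul_le_mul_left (mb_le_one κ x r) _).trans (le_of_eq (one_mul _))
            · unfold mb
              rw [if_pos ⟨hx, by omega⟩, zero_mul]
        _ = ∑ r ∈ (Finset.range (2 ^ (k + 1))).filter (fun r => 2 ^ (κ - 1) < r), sw (Irr r) Φ := by
            rw [Finset.sum_filter]
        _ ≤ _ := by
            apply Finset.sum_le_sum_of_subset
            intro r hr
            rw [Finset.mem_filter, Finset.mem_range] at hr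
            rw [Finset.mem_Ico]
            omega
    rw [sum_blocks (fun r => sw (Irr r) Φ) (κ - 1) (k + 1) (by omega)] at e1
    have e2 : ∀ l ∈ Finset.Ico (κ - 1) (k + 1), SI l Φ ≤ ENNReal.ofReal ((2 + C') *
        (1 / UU (2 ^ l) * min 1 ((2 : ℝ) ^ (D * ((l : ℝ) - y) - δ * ((y - x : ℕ) : ℝ))))) := by
      intro l hl
      rw [Finset.mem_Ico] at hl
      have hUl := Num2Aux.UU_pos (2 ^ l)
      rcases min_choice (1 : ℝ) ((2 : ℝ) ^ (D * ((l : ℝ) - y) - δ * ((y - x : ℕ) : ℝ))) with h | h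
      · rw [h]
        have h4 : SI l Φ ≤ SI l (fun _ => 1) :=
          Finset.sum_le_sum fun r _ => sw_mono' fun t _ => hΦ t
        refine h4.trans ((SI_one l).trans (ENNReal.ofReal_le_ofReal ?_))
        rw [mul_one, mul_one_div]
        gcongr
        linarith
      · rw [h]
        refine (hblk hx l hl.1).trans (ENNReal.ofReal_le_ofReal ?_)
        have h4 : 0 < (2 : ℝ) ^ (D * ((l : ℝ) - y) - δ * ((y - x : ℕ) : ℝ)) := by positivity
        rw [← mul_assoc, mul_one_div]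
        gcongr
        linarith
    refine e1.trans ((Finset.sum_le_sum e2).trans ?_)
    rw [← ENNReal.ofReal_sum_of_nonneg]
    · apply ENNReal.ofReal_le_ofReal
      rw [← Finset.mul_sum]
      have h5 := h3 (κ - 1) (k + 1) y (y - x)
      have h6 : gam D δ (et D) (κ - 1) y (y - x) ≤ gam D δ (et D) K y (y - x) :=
        gam_mono (by linarith) (et_pos hD).le y (y - x) (by omega)
      have hg0 := gam_nonneg D δ (et D) (κ - 1) y (y - x)
      have hg1 := gam_nonneg D δ (et D) K y (y - x)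
      calc (2 + C') * ∑ l ∈ Finset.Ico (κ - 1) (k + 1), 1 / UU (2 ^ l) *
            min 1 ((2 : ℝ) ^ (D * ((l : ℝ) - y) - δ * ((y - x : ℕ) : ℝ)))
          ≤ (2 + C') * (C3 / UU (2 ^ (κ - 1)) * gam D δ (et D) (κ - 1) y (y - x)) := by gcongr
        _ ≤ (2 + C') * (C3 / UU (2 ^ (κ - 1)) * gam D δ (et D) K y (y - x)) := by gcongr
        _ ≤ (2 + C') * (2 * C3 / UU (2 ^ κ) * gam D δ (et D) K y (y - x)) := by
            have h7 : C3 / UU (2 ^ (κ - 1)) ≤ 2 * C3 / UU (2 ^ κ) := by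
              rw [div_le_div_iff₀ hU1 hU]
              have := UU_pow_pred (κ := κ)
              nlinarith
            gcongr
        _ = 2 * ((2 + C') * C3) / UU (2 ^ κ) * gam D δ (et D) K y (y - x) := by ring
        _ ≤ _ := by
            gcongr
            linarith
    · intro l _
      have hUl := Num2Aux.UU_pos (2 ^ l)
      positivity
  · have h4 : ∑ r ∈ Finset.range (2 ^ (k + 1)), mb κ x r * sw (Irr r) Φ ≤
        ∑ r ∈ Finset.range (2 ^ (k + 1)), mb κ x r * sw (Irr r) (fun _ => 1) :=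
      Finset.sum_le_sum fun r _ => mul_le_mul_right (sw_mono' fun t _ => hΦ t) _
    refine h4.trans ((h2 κ x _).trans (ENNReal.ofReal_le_ofReal ?_))
    have h5 := gam_ge hD hδ hδ1 (K := K) (y := y) (x := x) (by omega) (by omega)
    have h6 : 0 < (2 * C2 + 2 * ((2 + C') * C3)) / UU (2 ^ κ) := by positivity
    calc C2 / UU (2 ^ κ) = 2 * C2 / UU (2 ^ κ) * (1 / 2) := by ring
      _ ≤ (2 * C2 + 2 * ((2 + C') * C3)) / UU (2 ^ κ) * (1 / 2) := by
          gcongr
          have : 0 < 2 * ((2 + C') * C3) := by positivity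
          linarith
      _ ≤ _ := by gcongr

end MassA

theorem mb_in {C D δ : ℝ} {fi : ℕ → ℕ → List Bool → ℝ≥0∞} {fo : ℕ → ℕ → ℕ → List Bool → ℝ≥0∞}
    (h : In8 C D δ fi fo) : ∃ C1 : ℝ, 0 < C1 ∧ ∀ κ k a b : ℕ, a ≤ b → b ≤ κ → κ ≤ k →
      ∑ r ∈ Finset.range (2 ^ (k + 1)), mb κ a r * sw (Irr r) (fi b a) ≤
        ENNReal.ofReal (C1 / UU (2 ^ κ) * gam D δ (et D) k b (b - a)) := by
  have hC := h.C_one
  have hD := h.D_one
  have hδ := h.δ_pos
  have hδ1 := h.δ_le
  obtain ⟨C1, hC1, h1⟩ := core hD hδ hδ1 (C' := C * (2 : ℝ) ^ (D + δ)) (by positivity)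
  refine ⟨C1, hC1, ?_⟩
  intro κ k a b hab hbκ hκk
  refine h1 (fi b a) κ k k a b (h.fi_le b a) hab hbκ hκk hκk ?_
  intro hx l hl
  have hUl := Num2Aux.UU_pos (2 ^ l)
  rcases Nat.lt_or_ge l b with hlb | hlb
  · -- l = κ - 1, b = κ
    have hl1 : l = b - 1 := by omega
    have h2 : SI l (fi b a) ≤ SI l (fi l a) :=
      Finset.sum_le_sum fun r _ => sw_mono' fun t _ => h.fi_anti a b l t (by omega) (by omega)
    refine h2.trans ((h.Hin l l a (by omega) le_rfl).trans (ENNReal.ofReal_le_ofReal ?_))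
    have e1 : (l : ℝ) = b - 1 := by
      rw [hl1, Nat.cast_sub (by omega)]
      norm_num
    rw [Nat.cast_sub hab]
    have e2 : C * (2 : ℝ) ^ (D + δ) / UU (2 ^ l) * (2 : ℝ) ^ (D * ((l : ℝ) - b) - δ * ((b : ℝ) - a)) =
        C / UU (2 ^ l) * (2 : ℝ) ^ (D * ((l : ℝ) - l) - δ * ((l : ℝ) - a)) := by
      have e3 : (2 : ℝ) ^ (D * ((l : ℝ) - l) - δ * ((l : ℝ) - a)) =
          (2 : ℝ) ^ (D + δ) * (2 : ℝ) ^ (D * ((l : ℝ) - b) - δ * ((b : ℝ) - a)) := by
        rw [← Real.rpow_add (by norm_num)]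
        congr 1
        rw [e1]
        ring
      rw [e3]
      ring
    rw [e2]
  · refine (h.Hin l b a hab hlb).trans (ENNReal.ofReal_le_ofReal ?_)
    rw [Nat.cast_sub hab]
    have h3 : (1 : ℝ) ≤ (2 : ℝ) ^ (D + δ) := Real.one_le_rpow (by norm_num) (by linarith)
    gcongr
    nlinarith

theorem mb_out {C D δ : ℝ} {fi : ℕ → ℕ → List Bool → ℝ≥0∞} {fo : ℕ → ℕ → ℕ → List Bool → ℝ≥0∞}
    (h : In8 C D δ fi fo) : ∃ C1 : ℝ, 0 < C1 ∧ ∀ κ k k' a b : ℕ, b ≤ a → a ≤ κ → κ + 1 ≤ k' → k' ≤ k →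
      ∑ r ∈ Finset.range (2 ^ (k + 1)), mb κ b r * sw (Irr r) (fo (2 ^ k') b a) ≤
        ENNReal.ofReal (C1 / UU (2 ^ κ) * gam D δ (et D) k' a (a - b)) := by
  have hC := h.C_one
  have hD := h.D_one
  have hδ := h.δ_pos
  have hδ1 := h.δ_le
  obtain ⟨C1, hC1, h1⟩ := core hD hδ hδ1 (C' := C * (2 : ℝ) ^ (D + δ)) (by positivity)
  refine ⟨C1, hC1, ?_⟩
  intro κ k k' a b hba haκ hκk' hkk
  refine h1 (fo (2 ^ k') b a) κ k k' b a (h.fo_le _ b a) hba haκ (by omega) (by omega) ?_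
  intro hx l hl
  have hUl := Num2Aux.UU_pos (2 ^ l)
  rcases Nat.lt_or_ge l a with hlb | hlb
  · have hl1 : l = a - 1 := by omega
    have h2 : SI l (fo (2 ^ k') b a) ≤ SI l (fo (2 ^ k') b l) :=
      Finset.sum_le_sum fun r _ => sw_mono' fun t _ => h.fo_anti _ b a l t (by omega) (by omega)
    refine h2.trans ((h.Hout (2 ^ k') l b l (by omega) le_rfl
      (Nat.pow_le_pow_right (by norm_num) (by omega))).trans (ENNReal.ofReal_le_ofReal ?_))
    have e1 : (l : ℝ) = a - 1 := by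
      rw [hl1, Nat.cast_sub (by omega)]
      norm_num
    rw [Nat.cast_sub hba]
    have e2 : C * (2 : ℝ) ^ (D + δ) / UU (2 ^ l) * (2 : ℝ) ^ (D * ((l : ℝ) - a) - δ * ((a : ℝ) - b)) =
        C / UU (2 ^ l) * (2 : ℝ) ^ (D * ((l : ℝ) - l) - δ * ((l : ℝ) - b)) := by
      have e3 : (2 : ℝ) ^ (D * ((l : ℝ) - l) - δ * ((l : ℝ) - b)) =
          (2 : ℝ) ^ (D + δ) * (2 : ℝ) ^ (D * ((l : ℝ) - a) - δ * ((a : ℝ) - b)) := by
        rw [← Real.rpow_add (by norm_num)]
        congr 1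
        rw [e1]
        ring
      rw [e3]
      ring
    rw [e2]
  · refine (h.Hout (2 ^ k') l b a hba hlb (Nat.pow_le_pow_right (by norm_num) (by omega))).trans
      (ENNReal.ofReal_le_ofReal ?_)
    rw [Nat.cast_sub hba]
    have h3 : (1 : ℝ) ≤ (2 : ℝ) ^ (D + δ) := Real.one_le_rpow (by norm_num) (by linarith)
    gcongr
    nlinarith

end Rec8

end HexObs
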