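import Pool.Agent.PHW8.NumG8
import Pool.Agent.PHW8.MassA8
import Pool.Agent.PHW8.Lev8

/-!
PHW, section S8, N3a: the kernel sums (I) and (O).
-/

set_option autoImplicit false

namespace HexObs

open Complex Finset ENNReal

namespace Rec8

private lemma gam_nonneg' (D δ η : ℝ) (l m d : ℕ) : 0 ≤ gam D δ η l m d := by
  unfold gam
  positivity

theorem InS_le {C D δ : ℝ} {fi : ℕ → ℕ → List Bool → ℝ≥0∞} {fo : ℕ → ℕ → ℕ → List Bool → ℝ≥0∞}
    (h : In8 C D δ fi fo) : ∃ C1 : ℝ, 0 < C1 ∧ ∀ (k κ b : ℕ) (I : List Bool), κ + 3 ≤ k → b ≤ κ →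
      InS k κ b I ≤ ENNReal.ofReal (C1 / UU (2 ^ κ)) * RR D δ fo k κ b I := by
  obtain ⟨C1, hC1, h1⟩ := mb_in h
  obtain ⟨C2, hC2, h2⟩ := mb_one
  have hC := h.C_one
  refine ⟨C * (C1 + C2), by positivity, ?_⟩
  intro k κ b I hk hb
  unfold InS RR
  rw [Finset.mul_sum]
  refine Finset.sum_le_sum fun a ha => ?_
  have haκ : a ≤ κ := by
    rw [Finset.mem_range] at ha
    omega
  have hUκ := Num2Aux.UU_pos (2 ^ κ)
  have hUm := Num2Aux.UU_pos (2 ^ max a b)
  have hTa : 2 ^ (a + 2) ≤ 2 ^ k := Nat.pow_le_pow_right (by norm_num) (by omega)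
  have hTb : 2 ^ (b + 2) ≤ 2 ^ k := Nat.pow_le_pow_right (by norm_num) (by omega)
  by_cases hab : a ≤ b
  · have e1 : ∀ P, Kf (2 ^ k) b a I P ≤ ENNReal.ofReal (C * UU (2 ^ max a b)) * fi b a P := by
      intro P
      have := h.H6 (2 ^ k) a b I P hTa hTb
      rwa [if_pos hab] at this
    rw [if_pos hab]
    have hg := gam_nonneg' D δ (et D) k b (b - a)
    calc ∑ r ∈ Finset.range (2 ^ (k + 1)), mb κ a r * sw (Irr r) (fun P => Kf (2 ^ k) b a I P)
        ≤ ∑ r ∈ Finset.range (2 ^ (k + 1)), ENNReal.ofReal (C * UU (2 ^ max a b)) * (mb κ a r * sw (Irr r) (fi b a)) := by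
          refine Finset.sum_le_sum fun r _ => ?_
          calc mb κ a r * sw (Irr r) (fun P => Kf (2 ^ k) b a I P)
              ≤ mb κ a r * (ENNReal.ofReal (C * UU (2 ^ max a b)) * sw (Irr r) (fi b a)) := by
                rw [← sw_mul_left (Irr r) (ENNReal.ofReal (C * UU (2 ^ max a b)))]
                exact mul_le_mul_right (sw_mono' fun P _ => e1 P) _
            _ = _ := by ring
      _ = ENNReal.ofReal (C * UU (2 ^ max a b)) * ∑ r ∈ Finset.range (2 ^ (k + 1)), mb κ a r * sw (Irr r) (fi b a) := by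
          rw [Finset.mul_sum]
      _ ≤ ENNReal.ofReal (C * UU (2 ^ max a b)) * ENNReal.ofReal (C1 / UU (2 ^ κ) * gam D δ (et D) k b (b - a)) :=
          mul_le_mul_right (h1 κ k a b hab hb (by omega)) _
      _ ≤ _ := by
          rw [← ENNReal.ofReal_mul (by positivity), ← ENNReal.ofReal_mul (by positivity),
            ← ENNReal.ofReal_mul (by positivity)]
          apply ENNReal.ofReal_le_ofReal
          have e2 : C * UU (2 ^ max a b) * (C1 / UU (2 ^ κ) * gam D δ (et D) k b (b - a)) =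
              C * C1 / UU (2 ^ κ) * (UU (2 ^ max a b) * gam D δ (et D) k b (b - a)) := by ring
          rw [e2]
          gcongr
          linarith
  · have e1 : ∀ P, Kf (2 ^ k) b a I P ≤ ENNReal.ofReal (C * UU (2 ^ max a b)) * fo (2 ^ k) b a I * 1 := by
      intro P
      have := h.H6 (2 ^ k) a b I P hTa hTb
      rw [mul_one]
      rwa [if_neg hab] at this
    rw [if_neg hab]
    calc ∑ r ∈ Finset.range (2 ^ (k + 1)), mb κ a r * sw (Irr r) (fun P => Kf (2 ^ k) b a I P)
        ≤ ∑ r ∈ Finset.range (2 ^ (k + 1)), (ENNReal.ofReal (C * UU (2 ^ max a b)) * fo (2 ^ k) b a I) *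
            (mb κ a r * sw (Irr r) (fun _ => 1)) := by
          refine Finset.sum_le_sum fun r _ => ?_
          calc mb κ a r * sw (Irr r) (fun P => Kf (2 ^ k) b a I P)
              ≤ mb κ a r * ((ENNReal.ofReal (C * UU (2 ^ max a b)) * fo (2 ^ k) b a I) * sw (Irr r) (fun _ => 1)) := by
                rw [← sw_mul_left (Irr r) (ENNReal.ofReal (C * UU (2 ^ max a b)) * fo (2 ^ k) b a I)]
                exact mul_le_mul_right (sw_mono' fun P _ => e1 P) _
            _ = _ := by ring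
      _ = (ENNReal.ofReal (C * UU (2 ^ max a b)) * fo (2 ^ k) b a I) *
            ∑ r ∈ Finset.range (2 ^ (k + 1)), mb κ a r * sw (Irr r) (fun _ => 1) := by
          rw [Finset.mul_sum]
      _ ≤ (ENNReal.ofReal (C * UU (2 ^ max a b)) * fo (2 ^ k) b a I) * ENNReal.ofReal (C2 / UU (2 ^ κ)) :=
          mul_le_mul_right (h2 κ a _) _
      _ = (ENNReal.ofReal (C * UU (2 ^ max a b)) * ENNReal.ofReal (C2 / UU (2 ^ κ))) * fo (2 ^ k) b a I := by ring
      _ ≤ (ENNReal.ofReal (C * (C1 + C2) / UU (2 ^ κ)) * ENNReal.ofReal (UU (2 ^ max a b))) * fo (2 ^ k) b a I := by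
          apply mul_le_mul_left
          rw [← ENNReal.ofReal_mul (by positivity), ← ENNReal.ofReal_mul (by positivity)]
          apply ENNReal.ofReal_le_ofReal
          have e2 : C * UU (2 ^ max a b) * (C2 / UU (2 ^ κ)) = C * C2 / UU (2 ^ κ) * UU (2 ^ max a b) := by ring
          rw [e2]
          gcongr
          linarith
      _ = _ := by ring

theorem OutS_le {C D δ : ℝ} {fi : ℕ → ℕ → List Bool → ℝ≥0∞} {fo : ℕ → ℕ → ℕ → List Bool → ℝ≥0∞}
    (h : In8 C D δ fi fo) : ∃ C1 : ℝ, 0 < C1 ∧ ∀ (z x : ℝ≥0∞) (k k' κ' u' v' : ℕ), κ' + 3 ≤ k' → k' ≤ k →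
      (∀ (b r : ℕ) (P : List Bool), b ≤ κ' → P ∈ Irr r → Zw z u' v' b P ≤ x * RR D δ fo k' κ' b P) →
      OutS z k κ' u' v' ≤ ENNReal.ofReal (C1 * (1 + ((k' : ℝ) - κ'))) * x := by
  obtain ⟨C1, hC1, h1⟩ := mb_out h
  obtain ⟨C2, hC2, h2⟩ := mb_one
  obtain ⟨C3, hC3, h3⟩ := lam_le h.D_one h.δ_pos
  refine ⟨(C1 + C2) * C3, by positivity, ?_⟩
  intro z x k k' κ' u' v' hk' hkk hZ
  have hUκ := Num2Aux.UU_pos (2 ^ κ')
  -- one b, one a
  have hterm : ∀ b ∈ Finset.range (κ' + 1), ∀ a ∈ Finset.range (κ' + 1),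
      ∑ r ∈ Finset.range (2 ^ (k + 1)), mb κ' b r * sw (Irr r) (fun P =>
        ENNReal.ofReal (UU (2 ^ max a b)) * (if a ≤ b then ENNReal.ofReal (gam D δ (et D) k' b (b - a))
          else fo (2 ^ k') b a P)) ≤
      ENNReal.ofReal ((C1 + C2) / UU (2 ^ κ') * (UU (2 ^ max a b) *
        gam D δ (et D) k' (max a b) (max a b - min a b))) := by
    intro b hb a ha
    rw [Finset.mem_range] at ha hb
    have hUm := Num2Aux.UU_pos (2 ^ max a b)
    have hg := gam_nonneg' D δ (et D) k' (max a b) (max a b - min a b)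
    by_cases hab : a ≤ b
    · simp only [if_pos hab]
      rw [max_eq_right hab, min_eq_left hab] at hg ⊢
      calc ∑ r ∈ Finset.range (2 ^ (k + 1)), mb κ' b r * sw (Irr r) (fun _ =>
            ENNReal.ofReal (UU (2 ^ b)) * ENNReal.ofReal (gam D δ (et D) k' b (b - a)))
          = (ENNReal.ofReal (UU (2 ^ b)) * ENNReal.ofReal (gam D δ (et D) k' b (b - a))) *
            ∑ r ∈ Finset.range (2 ^ (k + 1)), mb κ' b r * sw (Irr r) (fun _ => 1) := by
            rw [Finset.mul_sum]
            refine Finset.sum_congr rfl fun r _ => ?_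
            have e1 := sw_mul_left (Irr r) (ENNReal.ofReal (UU (2 ^ b)) * ENNReal.ofReal (gam D δ (et D) k' b (b - a)))
              (fun _ => 1)
            simp only [mul_one] at e1
            rw [e1]
            ring
        _ ≤ (ENNReal.ofReal (UU (2 ^ b)) * ENNReal.ofReal (gam D δ (et D) k' b (b - a))) *
            ENNReal.ofReal (C2 / UU (2 ^ κ')) := mul_le_mul_right (h2 κ' b _) _
        _ ≤ _ := by
            have hUb := Num2Aux.UU_pos (2 ^ b)
            rw [← ENNReal.ofReal_mul (by positivity), ← ENNReal.ofReal_mul (by positivity)]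
            apply ENNReal.ofReal_le_ofReal
            have e2 : UU (2 ^ b) * gam D δ (et D) k' b (b - a) * (C2 / UU (2 ^ κ')) =
                C2 / UU (2 ^ κ') * (UU (2 ^ b) * gam D δ (et D) k' b (b - a)) := by ring
            rw [e2]
            gcongr
            linarith
    · simp only [if_neg hab]
      have hab' : b ≤ a := by omega
      rw [max_eq_left hab', min_eq_right hab'] at hg ⊢
      calc ∑ r ∈ Finset.range (2 ^ (k + 1)), mb κ' b r * sw (Irr r) (fun P =>
            ENNReal.ofReal (UU (2 ^ a)) * fo (2 ^ k') b a P)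
          = ENNReal.ofReal (UU (2 ^ a)) * ∑ r ∈ Finset.range (2 ^ (k + 1)), mb κ' b r * sw (Irr r) (fo (2 ^ k') b a) := by
            rw [Finset.mul_sum]
            refine Finset.sum_congr rfl fun r _ => ?_
            rw [sw_mul_left]
            ring
        _ ≤ ENNReal.ofReal (UU (2 ^ a)) * ENNReal.ofReal (C1 / UU (2 ^ κ') * gam D δ (et D) k' a (a - b)) :=
            mul_le_mul_right (h1 κ' k k' a b hab' (by omega) (by omega) hkk) _
        _ ≤ _ := by
            have hUa := Num2Aux.UU_pos (2 ^ a)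
            rw [← ENNReal.ofReal_mul (by positivity)]
            apply ENNReal.ofReal_le_ofReal
            have e2 : UU (2 ^ a) * (C1 / UU (2 ^ κ') * gam D δ (et D) k' a (a - b)) =
                C1 / UU (2 ^ κ') * (UU (2 ^ a) * gam D δ (et D) k' a (a - b)) := by ring
            rw [e2]
            gcongr
            linarith
  -- the sum
  have hb1 : ∀ b ∈ Finset.range (κ' + 1), ∑ r ∈ Finset.range (2 ^ (k + 1)), mb κ' b r * sw (Irr r) (fun P => Zw z u' v' b P) ≤
      x * ∑ a ∈ Finset.range (κ' + 1), ENNReal.ofReal ((C1 + C2) / UU (2 ^ κ') * (UU (2 ^ max a b) *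
        gam D δ (et D) k' (max a b) (max a b - min a b))) := by
    intro b hb
    calc ∑ r ∈ Finset.range (2 ^ (k + 1)), mb κ' b r * sw (Irr r) (fun P => Zw z u' v' b P)
        ≤ ∑ r ∈ Finset.range (2 ^ (k + 1)), mb κ' b r * (x * sw (Irr r) (fun P => RR D δ fo k' κ' b P)) := by
          refine Finset.sum_le_sum fun r _ => mul_le_mul_right ?_ _
          rw [← sw_mul_left]
          refine sw_mono' fun P hP => hZ b r P ?_ hP
          rw [Finset.mem_range] at hb
          omega
      _ = x * ∑ a ∈ Finset.range (κ' + 1), ∑ r ∈ Finset.range (2 ^ (k + 1)), mb κ' b r * sw (Irr r) (fun P =>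
            ENNReal.ofReal (UU (2 ^ max a b)) * (if a ≤ b then ENNReal.ofReal (gam D δ (et D) k' b (b - a))
              else fo (2 ^ k') b a P)) := by
          unfold RR
          rw [Finset.sum_comm, Finset.mul_sum]
          refine Finset.sum_congr rfl fun r _ => ?_
          rw [sw_sum, ← Finset.mul_sum]
          ring
      _ ≤ _ := mul_le_mul_right (Finset.sum_le_sum fun a ha => hterm b hb a ha) _
  unfold OutS
  refine (Finset.sum_le_sum hb1).trans ?_
  rw [← Finset.mul_sum, mul_comm]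
  apply mul_le_mul_left
  have hnn : ∀ b ∈ Finset.range (κ' + 1), ∀ a ∈ Finset.range (κ' + 1), 0 ≤ (C1 + C2) / UU (2 ^ κ') * (UU (2 ^ max a b) *
        gam D δ (et D) k' (max a b) (max a b - min a b)) := by
    intro b _ a _
    have hUm := Num2Aux.UU_pos (2 ^ max a b)
    have hg := gam_nonneg' D δ (et D) k' (max a b) (max a b - min a b)
    positivity
  have e3 : ∑ b ∈ Finset.range (κ' + 1), ∑ a ∈ Finset.range (κ' + 1), ENNReal.ofReal ((C1 + C2) / UU (2 ^ κ') *
        (UU (2 ^ max a b) * gam D δ (et D) k' (max a b) (max a b - min a b))) =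
      ENNReal.ofReal (∑ b ∈ Finset.range (κ' + 1), ∑ a ∈ Finset.range (κ' + 1), (C1 + C2) / UU (2 ^ κ') *
        (UU (2 ^ max a b) * gam D δ (et D) k' (max a b) (max a b - min a b))) := by
    rw [ENNReal.ofReal_sum_of_nonneg (fun b hb => Finset.sum_nonneg (hnn b hb))]
    refine Finset.sum_congr rfl fun b hb => ?_
    rw [ENNReal.ofReal_sum_of_nonneg (hnn b hb)]
  rw [e3]
  apply ENNReal.ofReal_le_ofReal
  simp_rw [← Finset.mul_sum]
  have h4 := h3 κ' k' (by omega)
  have h5 : 0 ≤ (C1 + C2) / UU (2 ^ κ') := by positivity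
  refine (mul_le_mul_of_nonneg_left h4 h5).trans (le_of_eq ?_)
  field_simp

end Rec8

end HexObs
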