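import Pool.Agent.PHW8.DefsN8
import Pool.Agent.PHW.Rotate

/-!
PHW, section S8: masses of the giants (module N2c, helper38).
-/

set_option autoImplicit false

namespace HexObs

open Complex Finset ENNReal

namespace Rec8

private theorem g8_mono {A : Set (List Bool)} {f g : List Bool → ℝ≥0∞} (h : ∀ t ∈ A, f t ≤ g t) :
    sw A f ≤ sw A g :=
  ENNReal.tsum_le_tsum fun t => mul_le_mul' le_rfl (h t.1 t.2)

private theorem g8_rev (r : ℕ) (f : List Bool → ℝ≥0∞) :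
    sw (Irr r) (fun P => f (rev P)) = sw (Irr r) f := by
  unfold sw
  let e : {g : List Bool // g ∈ Irr r} ≃ {g : List Bool // g ∈ Irr r} :=
    ⟨fun g => ⟨rev g.1, Irr_rev g.2⟩, fun g => ⟨rev g.1, Irr_rev g.2⟩,
      fun g => Subtype.ext (rev_rev _), fun g => Subtype.ext (rev_rev _)⟩
  rw [← e.tsum_eq (fun t : {g : List Bool // g ∈ Irr r} => wE t.1 * f t.1)]
  refine tsum_congr fun t => ?_
  show wE t.1 * f (rev t.1) = wE (rev t.1) * f (rev t.1)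
  unfold wE
  rw [rev_length]

private theorem g8_kap (r : ℕ) : kap' r = ENNReal.ofReal (kk r) := by
  unfold kk
  rw [ENNReal.ofReal_toReal]
  have h1 : 0 < (BT r).toReal := uu_pos r
  have h2 : BT r ≠ ∞ := (ENNReal.toReal_pos_iff.mp h1).2.ne
  refine ne_top_of_le_ne_top h2 ?_
  rw [← gf_Brd]
  exact gf_mono fun t ht => ht.1

private theorem g8_UU_succ (n : ℕ) : UU (n + 1) ≤ 2 * UU n := by
  rw [Num2Aux.UU_succ]
  have h1 : uu (n + 1) ≤ uu 0 := uu_anti (Nat.zero_le _)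
  have h2 : UU 0 ≤ UU n := Num2Aux.UU_mono (Nat.zero_le n)
  have h3 : UU 0 = uu 0 := by
    unfold UU
    simp
  linarith

private theorem g8_SI_one (l : ℕ) : SI l (fun _ => 1) ≤ ENNReal.ofReal (2 / UU (2 ^ l)) := by
  have e : SI l (fun _ => 1) = ∑ r ∈ Finset.Ico (2 ^ l) (2 ^ (l + 1)), ENNReal.ofReal (kk r) := by
    unfold SI
    refine Finset.sum_congr rfl fun r _ => ?_
    rw [← g8_kap]
    unfold sw kap' gf
    exact tsum_congr fun t => mul_one _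
  rw [e, ← ENNReal.ofReal_sum_of_nonneg fun r _ => kk_nonneg r]
  apply ENNReal.ofReal_le_ofReal
  have h1 := sum_kk_le (2 ^ (l + 1))
  have h2 : 2 ^ l ≤ 2 ^ (l + 1) := Nat.pow_le_pow_right (by norm_num) (by omega)
  have h3 := Finset.sum_range_add_sum_Ico (f := kk) h2
  have h4 : ∑ r ∈ Finset.Ico (2 ^ l) (2 ^ (l + 1)), kk r ≤ KK' (2 ^ l) := by
    unfold KK'
    linarith
  obtain ⟨m, hm⟩ : ∃ m, 2 ^ l = m + 1 := ⟨2 ^ l - 1, by have := Nat.one_le_two_pow (n := l); omega⟩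
  rw [hm] at h4 ⊢
  have h5 := UU_mul_KK m
  have h6 := g8_UU_succ m
  have h7 := Num2Aux.UU_pos m
  have h8 := Num2Aux.UU_pos (m + 1)
  have h9 := KK_nonneg (m + 1)
  refine h4.trans ?_
  rw [le_div_iff₀ h8]
  nlinarith

private theorem g8_blk {C X : ℝ} (hC : 1 ≤ C) (l : ℕ) (Φ : List Bool → ℝ≥0∞) (h1 : ∀ P, Φ P ≤ 1)
    (h2 : SI l Φ ≤ ENNReal.ofReal (C / UU (2 ^ l) * (2 : ℝ) ^ X)) :
    SI l Φ ≤ ENNReal.ofReal (2 * C / UU (2 ^ l) * min 1 ((2 : ℝ) ^ X)) := by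
  have hU := Num2Aux.UU_pos (2 ^ l)
  rcases min_choice (1 : ℝ) ((2 : ℝ) ^ X) with h | h
  · rw [h]
    have h3 : SI l Φ ≤ SI l (fun _ => 1) :=
      Finset.sum_le_sum fun r _ => g8_mono fun t _ => h1 t
    refine h3.trans ((g8_SI_one l).trans (ENNReal.ofReal_le_ofReal ?_))
    rw [mul_one]
    gcongr
    linarith
  · rw [h]
    refine h2.trans (ENNReal.ofReal_le_ofReal ?_)
    have h4 : 0 < (2 : ℝ) ^ X := by positivity
    gcongr
    linarith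

private theorem g8_two {C X : ℝ} (hC : 1 ≤ C) {k : ℕ} (hk : 1 ≤ k) (Φ : List Bool → ℝ≥0∞)
    (h1 : ∀ P, Φ P ≤ 1)
    (h2 : ∀ l, l = k - 1 ∨ l = k → SI l Φ ≤ ENNReal.ofReal (C / UU (2 ^ l) * (2 : ℝ) ^ X)) :
    ∑ r ∈ Finset.Ico (2 ^ (k - 1)) (2 ^ (k + 1)), sw (Irr r) Φ ≤
      ENNReal.ofReal (6 * C / UU (2 ^ k) * min 1 ((2 : ℝ) ^ X)) := by
  have a1 := g8_blk hC (k - 1) Φ h1 (h2 _ (Or.inl rfl))
  have a2 := g8_blk hC k Φ h1 (h2 _ (Or.inr rfl))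
  have e : ∑ r ∈ Finset.Ico (2 ^ (k - 1)) (2 ^ (k + 1)), sw (Irr r) Φ = SI (k - 1) Φ + SI k Φ := by
    unfold SI
    rw [show k - 1 + 1 = k by omega]
    rw [Finset.sum_Ico_consecutive _ (Nat.pow_le_pow_right (by norm_num) (by omega))
      (Nat.pow_le_pow_right (by norm_num) (by omega))]
  have hU1 := Num2Aux.UU_pos (2 ^ (k - 1))
  have hU2 := Num2Aux.UU_pos (2 ^ k)
  have hd : UU (2 ^ k) ≤ 2 * UU (2 ^ (k - 1)) := by
    have := UU_double (2 ^ (k - 1))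
    have e2 : 2 * 2 ^ (k - 1) = 2 ^ k := by
      rw [← pow_succ', show k - 1 + 1 = k by omega]
    rwa [e2] at this
  have hm : 0 < min 1 ((2 : ℝ) ^ X) := lt_min one_pos (by positivity)
  rw [e]
  refine (add_le_add a1 a2).trans ?_
  rw [← ENNReal.ofReal_add (by positivity) (by positivity)]
  apply ENNReal.ofReal_le_ofReal
  have h3 : 2 * C / UU (2 ^ (k - 1)) ≤ 4 * C / UU (2 ^ k) := by
    rw [div_le_div_iff₀ hU1 hU2]
    nlinarith
  have h4 : 2 * C / UU (2 ^ (k - 1)) * min 1 ((2 : ℝ) ^ X) ≤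
      4 * C / UU (2 ^ k) * min 1 ((2 : ℝ) ^ X) := mul_le_mul_of_nonneg_right h3 hm.le
  refine (add_le_add h4 le_rfl).trans (le_of_eq ?_)
  ring

private theorem g8_min {η X : ℝ} (h0 : 0 ≤ η) (h1 : η ≤ 1 / 2) :
    min 1 ((2 : ℝ) ^ X) ≤ (min 1 ((2 : ℝ) ^ (η * X))) ^ 2 := by
  rcases le_total 0 X with hX | hX
  · have e : min 1 ((2 : ℝ) ^ (η * X)) = 1 :=
      min_eq_left (Real.one_le_rpow (by norm_num) (mul_nonneg h0 hX))
    rw [e, one_pow]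
    exact min_le_left _ _
  · have e : min 1 ((2 : ℝ) ^ (η * X)) = (2 : ℝ) ^ (η * X) :=
      min_eq_right (Real.rpow_le_one_of_one_le_of_nonpos (by norm_num)
        (mul_nonpos_of_nonneg_of_nonpos h0 hX))
    rw [e, sq, ← Real.rpow_add (by norm_num)]
    refine (min_le_right _ _).trans ?_
    apply Real.rpow_le_rpow_of_exponent_le (by norm_num)
    nlinarith

private theorem g8_sqle {p : ℝ} (h0 : 0 ≤ p) (h1 : p ≤ 1) : p ^ 2 ≤ p := by nlinarith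

private theorem g8_prod {m m' p p' : ℝ} (hp : 0 ≤ p) (hp' : 0 ≤ p') (h : m ≤ p ^ 2)
    (h' : m' ≤ p' ^ 2) : min m m' ≤ p * p' := by
  rcases le_total p p' with hh | hh
  · refine (min_le_left _ _).trans (h.trans ?_)
    nlinarith
  · refine (min_le_right _ _).trans (h'.trans ?_)
    nlinarith

private theorem g8_et {D : ℝ} (hD : 1 ≤ D) : 0 ≤ et D ∧ et D ≤ 1 / 2 := by
  have hCW := Num2Aux.CW_pos
  refine ⟨?_, min_le_left _ _⟩
  unfold et ex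
  apply le_min (by norm_num)
  positivity

private theorem g8_gam {D δ : ℝ} (hD : 1 ≤ D) (l m d : ℕ) :
    min 1 ((2 : ℝ) ^ (D * ((l : ℝ) - m) - δ * d)) ≤ (gam D δ (et D) l m d) ^ 2 := by
  obtain ⟨h0, h1⟩ := g8_et hD
  unfold gam
  exact g8_min h0 h1

private theorem g8_gam_nonneg (D δ η : ℝ) (l m d : ℕ) : 0 ≤ gam D δ η l m d := by
  unfold gam
  exact le_min zero_le_one (by positivity)

private theorem g8_gam_le (D δ η : ℝ) (l m d : ℕ) : gam D δ η l m d ≤ 1 := min_le_left _ _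

private theorem g8_out {C D δ : ℝ} {fi : ℕ → ℕ → List Bool → ℝ≥0∞}
    {fo : ℕ → ℕ → ℕ → List Bool → ℝ≥0∞} (h : In8 C D δ fi fo) (k k' a b : ℕ) (hba : b ≤ a)
    (hak : a + 1 ≤ k') (hkk : k' ≤ k) :
    ∑ r ∈ Finset.Ico (2 ^ (k - 1)) (2 ^ (k + 1)), sw (Irr r) (fo (2 ^ k') b a) ≤
      ENNReal.ofReal (6 * C / UU (2 ^ k) *
        min 1 ((2 : ℝ) ^ (D * ((k : ℝ) - a) - δ * ((a - b : ℕ) : ℝ)))) := by
  have hC := h.C_one
  have hD := h.D_one
  apply g8_two hC (by omega) _ (h.fo_le _ _ _)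
  intro l hl
  have hal : a ≤ l := by omega
  have hlk : (l : ℝ) ≤ k := by exact_mod_cast (by omega : l ≤ k)
  have hU := Num2Aux.UU_pos (2 ^ l)
  refine (h.Hout (2 ^ k') l b a hba hal (Nat.pow_le_pow_right (by norm_num) hak)).trans ?_
  apply ENNReal.ofReal_le_ofReal
  rw [Nat.cast_sub hba]
  apply mul_le_mul_of_nonneg_left _ (by positivity)
  apply Real.rpow_le_rpow_of_exponent_le (by norm_num)
  nlinarith

private theorem g8_in {C D δ : ℝ} {fi : ℕ → ℕ → List Bool → ℝ≥0∞}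
    {fo : ℕ → ℕ → ℕ → List Bool → ℝ≥0∞} (h : In8 C D δ fi fo) (k a b : ℕ) (hab : a ≤ b)
    (hbk : b + 1 ≤ k) :
    ∑ r ∈ Finset.Ico (2 ^ (k - 1)) (2 ^ (k + 1)), sw (Irr r) (fi b a) ≤
      ENNReal.ofReal (6 * C / UU (2 ^ k) *
        min 1 ((2 : ℝ) ^ (D * ((k : ℝ) - b) - δ * ((b - a : ℕ) : ℝ)))) := by
  have hC := h.C_one
  have hD := h.D_one
  apply g8_two hC (by omega) _ (h.fi_le _ _)
  intro l hl
  have hal : b ≤ l := by omega
  have hlk : (l : ℝ) ≤ k := by exact_mod_cast (by omega : l ≤ k)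
  have hU := Num2Aux.UU_pos (2 ^ l)
  refine (h.Hin l b a hab hal).trans ?_
  apply ENNReal.ofReal_le_ofReal
  rw [Nat.cast_sub hab]
  apply mul_le_mul_of_nonneg_left _ (by positivity)
  apply Real.rpow_le_rpow_of_exponent_le (by norm_num)
  nlinarith

/-- combination of two bounds -/
private theorem g8_comb {S : ℝ≥0∞} {c m m' p p' : ℝ} (hc : 0 ≤ c) (hp : 0 ≤ p) (hp' : 0 ≤ p')
    (h : m ≤ p ^ 2) (h' : m' ≤ p' ^ 2) (h1 : S ≤ ENNReal.ofReal (c * m))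
    (h2 : S ≤ ENNReal.ofReal (c * m')) : S ≤ ENNReal.ofReal (c * (p * p')) := by
  have h3 := g8_prod hp hp' h h'
  rcases min_choice m m' with e | e
  · rw [e] at h3
    exact h1.trans (ENNReal.ofReal_le_ofReal (mul_le_mul_of_nonneg_left h3 hc))
  · rw [e] at h3
    exact h2.trans (ENNReal.ofReal_le_ofReal (mul_le_mul_of_nonneg_left h3 hc))

/-- giants, one end -/
theorem gi_out {C D δ : ℝ} {fi : ℕ → ℕ → List Bool → ℝ≥0∞} {fo : ℕ → ℕ → ℕ → List Bool → ℝ≥0∞}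
    (h : In8 C D δ fi fo) : ∃ C1 : ℝ, 0 < C1 ∧ ∀ k k' a b : ℕ, b ≤ a → a + 1 ≤ k' → k' ≤ k →
      ∑ r ∈ Finset.Ico (2 ^ (k - 1)) (2 ^ (k + 1)), sw (Irr r) (fo (2 ^ k') b a) ≤
        ENNReal.ofReal (C1 / UU (2 ^ k) * gam D δ (et D) k a (a - b)) := by
  have hC := h.C_one
  refine ⟨6 * C, by positivity, ?_⟩
  intro k k' a b hba hak hkk
  refine (g8_out h k k' a b hba hak hkk).trans (ENNReal.ofReal_le_ofReal ?_)
  have hU := Num2Aux.UU_pos (2 ^ k)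
  apply mul_le_mul_of_nonneg_left _ (by positivity)
  exact (g8_gam h.D_one _ _ _).trans (g8_sqle (g8_gam_nonneg _ _ _ _ _ _) (g8_gam_le _ _ _ _ _ _))

/-- giants, both ends: gains from fi and fo -/
theorem gi_both {C D δ : ℝ} {fi : ℕ → ℕ → List Bool → ℝ≥0∞} {fo : ℕ → ℕ → ℕ → List Bool → ℝ≥0∞}
    (h : In8 C D δ fi fo) : ∃ C1 : ℝ, 0 < C1 ∧ ∀ k k' a b a' b' : ℕ, a ≤ b → b + 1 ≤ k → b' ≤ a' → a' + 1 ≤ k' → k' ≤ k →
      ∑ r ∈ Finset.Ico (2 ^ (k - 1)) (2 ^ (k + 1)), sw (Irr r) (fun P => fi b a P * fo (2 ^ k') b' a' P) ≤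
        ENNReal.ofReal (C1 / UU (2 ^ k) * (gam D δ (et D) k b (b - a) * gam D δ (et D) k a' (a' - b'))) := by
  have hC := h.C_one
  refine ⟨6 * C, by positivity, ?_⟩
  intro k k' a b a' b' hab hbk hba hak hkk
  have hU := Num2Aux.UU_pos (2 ^ k)
  refine g8_comb (by positivity) (g8_gam_nonneg _ _ _ _ _ _) (g8_gam_nonneg _ _ _ _ _ _)
    (g8_gam h.D_one k b (b - a)) (g8_gam h.D_one k a' (a' - b')) ?_ ?_
  · refine le_trans ?_ (g8_in h k a b hab hbk)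
    refine Finset.sum_le_sum fun r _ => g8_mono fun P _ => ?_
    exact mul_le_of_le_one_right' (h.fo_le _ _ _ _)
  · refine le_trans ?_ (g8_out h k k' a' b' hba hak hkk)
    refine Finset.sum_le_sum fun r _ => g8_mono fun P _ => ?_
    exact mul_le_of_le_one_left' (h.fi_le _ _ _)

/-- giants, one end: gain from fi -/
theorem gi_in {C D δ : ℝ} {fi : ℕ → ℕ → List Bool → ℝ≥0∞} {fo : ℕ → ℕ → ℕ → List Bool → ℝ≥0∞}
    (h : In8 C D δ fi fo) : ∃ C1 : ℝ, 0 < C1 ∧ ∀ k a b : ℕ, a ≤ b → b + 1 ≤ k →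
      ∑ r ∈ Finset.Ico (2 ^ (k - 1)) (2 ^ (k + 1)), sw (Irr r) (fi b a) ≤
        ENNReal.ofReal (C1 / UU (2 ^ k) * gam D δ (et D) k b (b - a)) := by
  have hC := h.C_one
  refine ⟨6 * C, by positivity, ?_⟩
  intro k a b hab hbk
  refine (g8_in h k a b hab hbk).trans (ENNReal.ofReal_le_ofReal ?_)
  have hU := Num2Aux.UU_pos (2 ^ k)
  apply mul_le_mul_of_nonneg_left _ (by positivity)
  exact (g8_gam h.D_one _ _ _).trans (g8_sqle (g8_gam_nonneg _ _ _ _ _ _) (g8_gam_le _ _ _ _ _ _))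

/-- giants, both ends: gains from fo P and fo (rev P) -/
theorem gi_two {C D δ : ℝ} {fi : ℕ → ℕ → List Bool → ℝ≥0∞} {fo : ℕ → ℕ → ℕ → List Bool → ℝ≥0∞}
    (h : In8 C D δ fi fo) : ∃ C1 : ℝ, 0 < C1 ∧ ∀ k k' k'' a b a' b' : ℕ, b ≤ a → a + 1 ≤ k' → k' ≤ k → b' ≤ a' →
      a' + 1 ≤ k'' → k'' ≤ k →
      ∑ r ∈ Finset.Ico (2 ^ (k - 1)) (2 ^ (k + 1)),
          sw (Irr r) (fun P => fo (2 ^ k') b a P * fo (2 ^ k'') b' a' (rev P)) ≤
        ENNReal.ofReal (C1 / UU (2 ^ k) * (gam D δ (et D) k a (a - b) * gam D δ (et D) k a' (a' - b'))) := by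
  have hC := h.C_one
  refine ⟨6 * C, by positivity, ?_⟩
  intro k k' k'' a b a' b' hba hak hkk hba' hak' hkk'
  have hU := Num2Aux.UU_pos (2 ^ k)
  refine g8_comb (by positivity) (g8_gam_nonneg _ _ _ _ _ _) (g8_gam_nonneg _ _ _ _ _ _)
    (g8_gam h.D_one k a (a - b)) (g8_gam h.D_one k a' (a' - b')) ?_ ?_
  · refine le_trans ?_ (g8_out h k k' a b hba hak hkk)
    refine Finset.sum_le_sum fun r _ => g8_mono fun P _ => ?_
    exact mul_le_of_le_one_right' (h.fo_le _ _ _ _)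
  · refine le_trans ?_ (g8_out h k k'' a' b' hba' hak' hkk')
    refine Finset.sum_le_sum fun r _ => ?_
    rw [← g8_rev r (fo (2 ^ k'') b' a')]
    refine g8_mono fun P _ => ?_
    exact mul_le_of_le_one_left' (h.fo_le _ _ _ _)

end Rec8

end HexObs
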