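import Pool.Agent.PHW8.MassA8
import Pool.Agent.PHW8.MassG8
import Pool.Agent.PHW8.Lev8

/-!
PHW, section S8: numeric part, the kernel with a giant through the whole lower strand (N3b).
-/

set_option autoImplicit false

namespace HexObs

open Complex Finset ENNReal

namespace Rec8

open Num2Aux

/-- sum over the giants of the block k -/
noncomputable def kgG (k : ℕ) (Φ : List Bool → ℝ≥0∞) : ℝ≥0∞ :=
  ∑ r ∈ Finset.Ico (2 ^ (k - 1)) (2 ^ (k + 1)), sw (Irr r) Φ

lemma kgG_mono {k : ℕ} {Φ Ψ : List Bool → ℝ≥0∞} (h : ∀ (r : ℕ) (P : List Bool), P ∈ Irr r → Φ P ≤ Ψ P) :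
    kgG k Φ ≤ kgG k Ψ :=
  Finset.sum_le_sum fun r _ => sw_mono' fun P hP => h r P hP

lemma kgG_mul (k : ℕ) (c : ℝ≥0∞) (Φ : List Bool → ℝ≥0∞) : kgG k (fun P => c * Φ P) = c * kgG k Φ := by
  unfold kgG
  rw [Finset.mul_sum]
  exact Finset.sum_congr rfl fun r _ => sw_mul_left _ _ _

lemma kgG_sum {ι : Type} (k : ℕ) (S : Finset ι) (Φ : ι → List Bool → ℝ≥0∞) :
    kgG k (fun P => ∑ i ∈ S, Φ i P) = ∑ i ∈ S, kgG k (Φ i) := by
  unfold kgG
  rw [Finset.sum_comm]
  exact Finset.sum_congr rfl fun r _ => sw_sum _ _ _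

/-- trivial mass of the giants -/
lemma kgG_one {k : ℕ} (hk : 1 ≤ k) : kgG k (fun _ => 1) ≤ ENNReal.ofReal (6 / UU (2 ^ k)) := by
  obtain ⟨j, rfl⟩ : ∃ j, k = j + 1 := ⟨k - 1, by omega⟩
  have h1 : kgG (j + 1) (fun _ => 1) = SI j (fun _ => 1) + SI (j + 1) (fun _ => 1) := by
    unfold kgG SI
    rw [Nat.add_sub_cancel]
    exact (Finset.sum_Ico_consecutive _ (Nat.pow_le_pow_right (by norm_num) (by omega))
      (Nat.pow_le_pow_right (by norm_num) (by omega))).symm
  have h2 : UU (2 ^ (j + 1)) ≤ 2 * UU (2 ^ j) := by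
    rw [pow_succ, mul_comm]
    exact UU_double _
  have p1 := UU_pos (2 ^ j)
  have p2 := UU_pos (2 ^ (j + 1))
  rw [h1]
  refine (add_le_add (SI_one j) (SI_one (j + 1))).trans ?_
  rw [← ENNReal.ofReal_add (by positivity) (by positivity)]
  apply ENNReal.ofReal_le_ofReal
  have h3 : 2 / UU (2 ^ j) ≤ 4 / UU (2 ^ (j + 1)) := by
    rw [div_le_div_iff₀ p1 p2]
    linarith
  have h4 : 6 / UU (2 ^ (j + 1)) = 4 / UU (2 ^ (j + 1)) + 2 / UU (2 ^ (j + 1)) := by ring
  rw [h4]
  linarith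

theorem gi_all {C D δ : ℝ} {fi : ℕ → ℕ → List Bool → ℝ≥0∞} {fo : ℕ → ℕ → ℕ → List Bool → ℝ≥0∞}
    (h : In8 C D δ fi fo) : ∃ C1 : ℝ, 0 < C1 ∧ ∀ (k k' κ κ' b a b' a' : ℕ) (I : List Bool), κ + 3 ≤ k → κ' + 3 ≤ k' →
      k' ≤ k → b ≤ κ → a ≤ κ → b' ≤ κ' → a' ≤ κ' →
      kgG k (fun P => (if a ≤ b then fi b a P else fo (2 ^ k) b a I) *
        (if a' ≤ b' then ENNReal.ofReal (gam D δ (et D) k' b' (b' - a')) else fo (2 ^ k') b' a' P)) ≤
        ENNReal.ofReal (C1 / UU (2 ^ k)) *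
          ((if a ≤ b then ENNReal.ofReal (gam D δ (et D) k b (b - a)) else fo (2 ^ k) b a I) *
            ENNReal.ofReal (gam D δ (et D) k (max a' b') (max a' b' - min a' b'))) := by
  obtain ⟨Co, hCo, ho⟩ := gi_out h
  obtain ⟨Cb, hCb, hb⟩ := gi_both h
  obtain ⟨Ci, hCi, hi⟩ := gi_in h
  have hD0 : 0 ≤ D := by
    have := h.D_one
    linarith
  have hη := (et_pos h.D_one).le
  refine ⟨6 + Co + Cb + Ci, by positivity, ?_⟩
  intro k k' κ κ' b a b' a' I hk hk' hkk hbκ haκ hb'κ ha'κ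
  have pU := UU_pos (2 ^ k)
  have hle : ∀ {x : ℝ}, 0 ≤ x → x ≤ 6 + Co + Cb + Ci →
      ENNReal.ofReal (x / UU (2 ^ k)) ≤ ENNReal.ofReal ((6 + Co + Cb + Ci) / UU (2 ^ k)) := by
    intro x _ hx
    apply ENNReal.ofReal_le_ofReal
    gcongr
  by_cases c1 : a ≤ b
  · by_cases c2 : a' ≤ b'
    · simp only [c1, c2, if_true]
      have e1 : max a' b' = b' := max_eq_right c2
      have e2 : min a' b' = a' := min_eq_left c2
      rw [e1, e2]
      calc kgG k (fun P => fi b a P * ENNReal.ofReal (gam D δ (et D) k' b' (b' - a')))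
          = ENNReal.ofReal (gam D δ (et D) k' b' (b' - a')) * kgG k (fi b a) := by
            rw [← kgG_mul]
            congr 1
            funext P
            exact mul_comm _ _
        _ ≤ ENNReal.ofReal (gam D δ (et D) k b' (b' - a')) *
              ENNReal.ofReal (Ci / UU (2 ^ k) * gam D δ (et D) k b (b - a)) :=
            mul_le_mul' (ENNReal.ofReal_le_ofReal (gam_mono hD0 hη _ _ hkk)) (hi k a b c1 (by omega))
        _ = ENNReal.ofReal (Ci / UU (2 ^ k)) * (ENNReal.ofReal (gam D δ (et D) k b (b - a)) *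
              ENNReal.ofReal (gam D δ (et D) k b' (b' - a'))) := by
            rw [ENNReal.ofReal_mul (by positivity)]
            ring
        _ ≤ _ := mul_le_mul' (hle hCi.le (by linarith)) le_rfl
    · simp only [c1, c2, if_true, if_false]
      have e1 : max a' b' = a' := max_eq_left (by omega)
      have e2 : min a' b' = b' := min_eq_right (by omega)
      rw [e1, e2]
      refine (hb k k' a b a' b' c1 (by omega) (by omega) (by omega) hkk).trans ?_
      rw [ENNReal.ofReal_mul (by positivity), ENNReal.ofReal_mul (gam_nonneg _ _ _ _ _ _)]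
      exact mul_le_mul' (hle hCb.le (by linarith)) le_rfl
  · by_cases c2 : a' ≤ b'
    · simp only [c1, c2, if_true, if_false]
      have e1 : max a' b' = b' := max_eq_right c2
      have e2 : min a' b' = a' := min_eq_left c2
      rw [e1, e2]
      calc kgG k (fun P => fo (2 ^ k) b a I * ENNReal.ofReal (gam D δ (et D) k' b' (b' - a')))
          = (fo (2 ^ k) b a I * ENNReal.ofReal (gam D δ (et D) k' b' (b' - a'))) * kgG k (fun _ => 1) := by
            rw [← kgG_mul]
            congr 1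
            funext P
            rw [mul_one]
        _ ≤ (fo (2 ^ k) b a I * ENNReal.ofReal (gam D δ (et D) k b' (b' - a'))) *
              ENNReal.ofReal (6 / UU (2 ^ k)) :=
            mul_le_mul' (mul_le_mul' le_rfl (ENNReal.ofReal_le_ofReal (gam_mono hD0 hη _ _ hkk)))
              (kgG_one (by omega))
        _ = ENNReal.ofReal (6 / UU (2 ^ k)) * (fo (2 ^ k) b a I *
              ENNReal.ofReal (gam D δ (et D) k b' (b' - a'))) := by ring
        _ ≤ _ := mul_le_mul' (hle (by norm_num) (by linarith)) le_rfl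
    · simp only [c1, c2, if_false]
      have e1 : max a' b' = a' := max_eq_left (by omega)
      have e2 : min a' b' = b' := min_eq_right (by omega)
      rw [e1, e2]
      calc kgG k (fun P => fo (2 ^ k) b a I * fo (2 ^ k') b' a' P)
          = fo (2 ^ k) b a I * kgG k (fo (2 ^ k') b' a') := kgG_mul _ _ _
        _ ≤ fo (2 ^ k) b a I * ENNReal.ofReal (Co / UU (2 ^ k) * gam D δ (et D) k a' (a' - b')) :=
            mul_le_mul' le_rfl (ho k k' a' b' (by omega) (by omega) hkk)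
        _ = ENNReal.ofReal (Co / UU (2 ^ k)) * (fo (2 ^ k) b a I *
              ENNReal.ofReal (gam D δ (et D) k a' (a' - b'))) := by
            rw [ENNReal.ofReal_mul (by positivity)]
            ring
        _ ≤ _ := mul_le_mul' (hle hCo.le (by linarith)) le_rfl

theorem GiS_le {C D δ : ℝ} {fi : ℕ → ℕ → List Bool → ℝ≥0∞} {fo : ℕ → ℕ → ℕ → List Bool → ℝ≥0∞}
    (h : In8 C D δ fi fo) : ∃ C1 : ℝ, 0 < C1 ∧ ∀ (z x : ℝ≥0∞) (k k' κ κ' b u' v' : ℕ) (I : List Bool), κ + 3 ≤ k →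
      κ' + 3 ≤ k' → k' ≤ k → b ≤ κ → (∃ r, I ∈ Irr r) →
      (∀ (b r : ℕ) (P : List Bool), b ≤ κ' → P ∈ Irr r → Zw z u' v' b P ≤ x * RR D δ fo k' κ' b P) →
      GiS z k κ κ' b I u' v' ≤
        ENNReal.ofReal (C1 * (1 + ((k : ℝ) - κ')) * UU (2 ^ κ') / UU (2 ^ k)) * x * RR D δ fo k κ b I := by
  obtain ⟨C2, hC2, hall⟩ := gi_all h
  obtain ⟨C3, hC3, hlam⟩ := lam_le h.D_one h.δ_pos
  have hC := h.C_one
  refine ⟨C * C2 * C3, by positivity, ?_⟩
  intro z x k k' κ κ' b u' v' I hk hk' hkk hbκ _ hZ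
  have pU := UU_pos (2 ^ k)
  have pK := UU_pos (2 ^ κ')
  have hkκ : (0 : ℝ) ≤ (k : ℝ) - κ' := by
    have : (κ' : ℝ) ≤ k := by exact_mod_cast (by omega : κ' ≤ k)
    linarith
  -- pointwise
  have hpt : ∀ (r : ℕ) (P : List Bool), P ∈ Irr r →
      (∑ a ∈ Finset.range (κ + 1), Kf (2 ^ k) b a I P) * ∑ b' ∈ Finset.range (κ' + 1), Zw z u' v' b' P ≤
      ∑ a ∈ Finset.range (κ + 1), ∑ b' ∈ Finset.range (κ' + 1), ∑ a' ∈ Finset.range (κ' + 1),
        (ENNReal.ofReal (C * UU (2 ^ max a b)) * x * ENNReal.ofReal (UU (2 ^ max a' b'))) *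
          ((if a ≤ b then fi b a P else fo (2 ^ k) b a I) *
            (if a' ≤ b' then ENNReal.ofReal (gam D δ (et D) k' b' (b' - a')) else fo (2 ^ k') b' a' P)) := by
    intro r P hP
    rw [Finset.sum_mul]
    refine Finset.sum_le_sum fun a ha => ?_
    have haκ : a ≤ κ := by
      have := Finset.mem_range.1 ha
      omega
    have h6 := h.H6 (2 ^ k) a b I P (Nat.pow_le_pow_right (by norm_num) (by omega))
      (Nat.pow_le_pow_right (by norm_num) (by omega))
    rw [Finset.mul_sum]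
    refine Finset.sum_le_sum fun b' hb' => ?_
    have hb'κ : b' ≤ κ' := by
      have := Finset.mem_range.1 hb'
      omega
    refine (mul_le_mul' h6 (hZ b' r P hb'κ hP)).trans (le_of_eq ?_)
    unfold RR
    rw [Finset.mul_sum, Finset.mul_sum]
    refine Finset.sum_congr rfl fun a' _ => ?_
    ring
  have h1 : GiS z k κ κ' b I u' v' ≤ kgG k (fun P =>
      ∑ a ∈ Finset.range (κ + 1), ∑ b' ∈ Finset.range (κ' + 1), ∑ a' ∈ Finset.range (κ' + 1),
        (ENNReal.ofReal (C * UU (2 ^ max a b)) * x * ENNReal.ofReal (UU (2 ^ max a' b'))) *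
          ((if a ≤ b then fi b a P else fo (2 ^ k) b a I) *
            (if a' ≤ b' then ENNReal.ofReal (gam D δ (et D) k' b' (b' - a')) else fo (2 ^ k') b' a' P))) :=
    kgG_mono hpt
  refine h1.trans ?_
  rw [kgG_sum]
  have h2 : ∀ a ∈ Finset.range (κ + 1), kgG k (fun P => ∑ b' ∈ Finset.range (κ' + 1), ∑ a' ∈ Finset.range (κ' + 1),
        (ENNReal.ofReal (C * UU (2 ^ max a b)) * x * ENNReal.ofReal (UU (2 ^ max a' b'))) *
          ((if a ≤ b then fi b a P else fo (2 ^ k) b a I) *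
            (if a' ≤ b' then ENNReal.ofReal (gam D δ (et D) k' b' (b' - a')) else fo (2 ^ k') b' a' P))) ≤
      ∑ b' ∈ Finset.range (κ' + 1), ∑ a' ∈ Finset.range (κ' + 1),
        (ENNReal.ofReal (C * UU (2 ^ max a b)) * x * ENNReal.ofReal (UU (2 ^ max a' b'))) *
          (ENNReal.ofReal (C2 / UU (2 ^ k)) *
          ((if a ≤ b then ENNReal.ofReal (gam D δ (et D) k b (b - a)) else fo (2 ^ k) b a I) *
            ENNReal.ofReal (gam D δ (et D) k (max a' b') (max a' b' - min a' b')))) := by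
    intro a ha
    have haκ : a ≤ κ := by
      have := Finset.mem_range.1 ha
      omega
    rw [kgG_sum]
    refine Finset.sum_le_sum fun b' hb' => ?_
    have hb'κ : b' ≤ κ' := by
      have := Finset.mem_range.1 hb'
      omega
    rw [kgG_sum]
    refine Finset.sum_le_sum fun a' ha' => ?_
    have ha'κ : a' ≤ κ' := by
      have := Finset.mem_range.1 ha'
      omega
    rw [kgG_mul]
    exact mul_le_mul' le_rfl (hall k k' κ κ' b a b' a' I hk hk' hkk hbκ haκ hb'κ ha'κ)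
  refine (Finset.sum_le_sum h2).trans ?_
  have h3 : ∑ a ∈ Finset.range (κ + 1), ∑ b' ∈ Finset.range (κ' + 1), ∑ a' ∈ Finset.range (κ' + 1),
        (ENNReal.ofReal (C * UU (2 ^ max a b)) * x * ENNReal.ofReal (UU (2 ^ max a' b'))) *
          (ENNReal.ofReal (C2 / UU (2 ^ k)) *
          ((if a ≤ b then ENNReal.ofReal (gam D δ (et D) k b (b - a)) else fo (2 ^ k) b a I) *
            ENNReal.ofReal (gam D δ (et D) k (max a' b') (max a' b' - min a' b')))) =
      (ENNReal.ofReal (C * (C2 / UU (2 ^ k))) * x * RR D δ fo k κ b I) *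
        ENNReal.ofReal (∑ b' ∈ Finset.range (κ' + 1), ∑ a' ∈ Finset.range (κ' + 1), UU (2 ^ max a' b') *
          gam D δ (et D) k (max a' b') (max a' b' - min a' b')) := by
    have hS : ENNReal.ofReal (∑ b' ∈ Finset.range (κ' + 1), ∑ a' ∈ Finset.range (κ' + 1), UU (2 ^ max a' b') *
          gam D δ (et D) k (max a' b') (max a' b' - min a' b')) =
        ∑ b' ∈ Finset.range (κ' + 1), ∑ a' ∈ Finset.range (κ' + 1), ENNReal.ofReal (UU (2 ^ max a' b')) *
          ENNReal.ofReal (gam D δ (et D) k (max a' b') (max a' b' - min a' b')) := by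
      rw [ENNReal.ofReal_sum_of_nonneg (fun b' _ => Finset.sum_nonneg fun a' _ =>
        mul_nonneg (UU_pos _).le (gam_nonneg _ _ _ _ _ _))]
      refine Finset.sum_congr rfl fun b' _ => ?_
      rw [ENNReal.ofReal_sum_of_nonneg (fun a' _ => mul_nonneg (UU_pos _).le (gam_nonneg _ _ _ _ _ _))]
      exact Finset.sum_congr rfl fun a' _ => ENNReal.ofReal_mul (UU_pos _).le
    rw [hS]
    unfold RR
    have e2 : ENNReal.ofReal (C * (C2 / UU (2 ^ k))) = ENNReal.ofReal C * ENNReal.ofReal (C2 / UU (2 ^ k)) :=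
      ENNReal.ofReal_mul (by linarith)
    rw [e2, Finset.mul_sum (Finset.range (κ + 1)) (fun a => ENNReal.ofReal (UU (2 ^ max a b)) *
      (if a ≤ b then ENNReal.ofReal (gam D δ (et D) k b (b - a)) else fo (2 ^ k) b a I)), Finset.sum_mul]
    refine Finset.sum_congr rfl fun a _ => ?_
    have e1 : ENNReal.ofReal (C * UU (2 ^ max a b)) = ENNReal.ofReal C * ENNReal.ofReal (UU (2 ^ max a b)) :=
      ENNReal.ofReal_mul (by linarith)
    rw [e1, Finset.mul_sum]
    refine Finset.sum_congr rfl fun b' _ => ?_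
    rw [Finset.mul_sum]
    refine Finset.sum_congr rfl fun a' _ => ?_
    ring
  rw [h3]
  have h4 := hlam κ' k (by omega)
  calc (ENNReal.ofReal (C * (C2 / UU (2 ^ k))) * x * RR D δ fo k κ b I) *
        ENNReal.ofReal (∑ b' ∈ Finset.range (κ' + 1), ∑ a' ∈ Finset.range (κ' + 1), UU (2 ^ max a' b') *
          gam D δ (et D) k (max a' b') (max a' b' - min a' b'))
      ≤ (ENNReal.ofReal (C * (C2 / UU (2 ^ k))) * x * RR D δ fo k κ b I) *
        ENNReal.ofReal (C3 * (1 + ((k : ℝ) - κ')) * UU (2 ^ κ')) :=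
        mul_le_mul' le_rfl (ENNReal.ofReal_le_ofReal h4)
    _ = ENNReal.ofReal (C * C2 * C3 * (1 + ((k : ℝ) - κ')) * UU (2 ^ κ') / UU (2 ^ k)) * x * RR D δ fo k κ b I := by
        have e4 : C * C2 * C3 * (1 + ((k : ℝ) - κ')) * UU (2 ^ κ') / UU (2 ^ k) =
            (C * (C2 / UU (2 ^ k))) * (C3 * (1 + ((k : ℝ) - κ')) * UU (2 ^ κ')) := by
          field_simp
        have e5 : ENNReal.ofReal ((C * (C2 / UU (2 ^ k))) * (C3 * (1 + ((k : ℝ) - κ')) * UU (2 ^ κ'))) =
            ENNReal.ofReal (C * (C2 / UU (2 ^ k))) * ENNReal.ofReal (C3 * (1 + ((k : ℝ) - κ')) * UU (2 ^ κ')) :=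
          ENNReal.ofReal_mul (by positivity)
        rw [e4, e5]
        ring

end Rec8

end HexObs
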