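import Pool.Agent.PHW8.Avg8

/-!
PHW, section S8: the sum over the lower strand and the next strand (inequality (R)).
-/

set_option autoImplicit false

namespace HexObs

open Complex Finset ENNReal

namespace Rec8

open Classical in
/-- indicator of the fold relation -/
noncomputable def dl (k : ℕ) (I M0 N P : List Bool) : ℝ≥0∞ := if Fld.FoldH (2 ^ k) I P M0 N then 1 else 0

/-- the next strands of heights in [u', v') beside the end P ++ M -/
noncomputable def gq (z : ℝ≥0∞) (u' v' : ℕ) (P M : List Bool) : ℝ≥0∞ :=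
  ∑ t ∈ Finset.Ico u' v', sw {Y | Y ∈ Brd t ∧ NbE t P M Y} (fun Y => Fch z (t - 1) Y)

theorem Zw_eq (z : ℝ≥0∞) (u' v' b : ℕ) (P : List Bool) : Zw z u' v' b P = sw (Fld.BrB b) (gq z u' v' P) := rfl

theorem Kf_eq (k b a : ℕ) (I P : List Bool) :
    Kf (2 ^ k) b a I P = sw (Fld.BrB a) (fun N => sw (Fld.BrB b) (fun M0 => dl k I M0 N P)) := by
  unfold Kf
  rw [g2_eq_sw, sw_comm]
  rfl

theorem Gw_le (z : ℝ≥0∞) {u' v' t p m : ℕ} {R P M : List Bool} (hR : R ++ P ∈ Brd p) (hM : M ∈ Brd m)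
    (ht : t ≤ p + m) : Gw z u' (min v' t) (R ++ (P ++ M)) ≤ gq z u' v' P M := by
  unfold Gw gq
  have hsub : Finset.Ico u' (min v' t) ⊆ Finset.Ico u' v' := by
    intro s hs
    rw [Finset.mem_Ico] at hs ⊢
    omega
  refine (Finset.sum_le_sum fun s hs => ?_).trans (Finset.sum_le_sum_of_subset hsub)
  rw [Finset.mem_Ico] at hs
  refine sw_mono ?_ fun _ _ => le_rfl
  rintro Y ⟨hY, hN⟩
  exact ⟨hY, R, p, m, hM, hR, by omega, hN⟩

theorem dl_of {k t j q : ℕ} {I M0 N P X : List Bool} (hN : N ∈ Brd j) (hPX : P ++ X ∈ Brd q) (hjq : j + q = t)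
    (ht : 2 ^ k ≤ t) (h : NbE t I M0 (N ++ (P ++ X))) : dl k I M0 N P = 1 := by
  unfold dl
  rw [if_pos]
  obtain ⟨R, p, m, hM, hR, htm, hnb⟩ := h
  exact ⟨m, j, p, q, R, X, hM, hN, hR, hPX, by omega, by omega, hnb⟩

theorem sw_const (n : ℕ) (c : ℝ≥0∞) : sw (Brd n) (fun _ => c) = BT n * c := by
  have h := sw_mul_left (Brd n) c (fun _ => 1)
  simp only [mul_one] at h
  rw [h, sw_one, gf_Brd, mul_comm]

section

variable (z : ℝ≥0∞) (k u' v' : ℕ) (I M0 : List Bool)

/-- beginning of the lower strand -/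
noncomputable def El (j r : ℕ) : ℝ≥0∞ := sw (Irr r) (fun P => sw (Brd j) (fun N => dl k I M0 N P))

/-- end of the lower strand -/
noncomputable def Be (m r : ℕ) : ℝ≥0∞ := sw (Irr r) (fun P => sw (Brd m) (fun M => gq z u' v' P M))

/-- the lower strand with one giant -/
noncomputable def A1 (j r m : ℕ) : ℝ≥0∞ := if 2 ^ (k - 1) ≤ r then
  sw (Irr r) (fun P => sw (Brd j) (fun N => dl k I M0 N P) * sw (Brd m) (fun M => gq z u' v' P M)) else 0

open Classical in
theorem piece_le {κ κ' l l' t : ℕ} (hκ : κ + 3 ≤ k) (hκ' : κ' + 3 ≤ k) (hl : l < 2 ^ (κ + 1)) (hl' : l' < 2 ^ (κ' + 1))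
    (ht : 2 ^ k ≤ t) (ht2 : t < 2 ^ (k + 1)) :
    sw {Y | Y ∈ Brd t ∧ NbE t I M0 Y} (fun Y => Gw z u' (min v' t) Y) ≤
      ∑ j ∈ Finset.range (l + 1), ∑ r ∈ Finset.Ico (l + 1 - j) (2 ^ (k + 1)),
        ((if j + r ≤ t ∧ t - (j + r) ≤ l' then A1 z k u' v' I M0 j r (t - (j + r)) else 0) +
        ∑ m ∈ Finset.range (l' + 1), ∑ r2 ∈ Finset.Ico (l' + 1 - m) (2 ^ (k + 1)),
          (if j + r + m + r2 ≤ t then BT (t - (j + r + m + r2)) else 0) * (El k I M0 j r * Be z u' v' m r2)) := by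
  have p1 : 2 ^ (κ + 1) ≤ 2 ^ (k - 2) := Nat.pow_le_pow_right (by norm_num) (by omega)
  have p2 : 2 ^ (κ' + 1) ≤ 2 ^ (k - 2) := Nat.pow_le_pow_right (by norm_num) (by omega)
  have p3 : 2 ^ k = 4 * 2 ^ (k - 2) := by
    rw [show k = (k - 2) + 2 by omega, pow_add]
    simp only [Nat.add_sub_cancel]
    ring
  have p4 : 2 ^ (k - 1) = 2 * 2 ^ (k - 2) := by
    rw [show k - 1 = (k - 2) + 1 by omega, pow_succ]
    ring
  rw [sw_and]
  refine (jump_le (show l < t by omega) _).trans ?_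
  refine Finset.sum_le_sum fun j hj => ?_
  rw [Finset.mem_range] at hj
  refine (Finset.sum_le_sum fun r hr => ?_).trans (Finset.sum_le_sum_of_subset (s := Finset.Ico (l + 1 - j) (t + 1 - j)) ?_)
  swap
  · intro r hr
    rw [Finset.mem_Ico] at hr ⊢
    omega
  rw [Finset.mem_Ico] at hr
  have hjr : j + r ≤ t := by omega
  have e1 : t - j - r = t - (j + r) := by omega
  rw [e1]
  rcases Nat.lt_or_ge l' (t - (j + r)) with hw | hw
  · -- the rest is long
    refine le_trans ?_ le_add_self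
    have h1 : ∀ N ∈ Brd j, ∀ P ∈ Irr r, sw (Brd (t - (j + r))) (fun W =>
        if NbE t I M0 (N ++ (P ++ W)) then Gw z u' (min v' t) (N ++ (P ++ W)) else 0) ≤
        dl k I M0 N P * ∑ m ∈ Finset.range (l' + 1), ∑ r2 ∈ Finset.Ico (l' + 1 - m) (2 ^ (k + 1)),
          (if j + r + m + r2 ≤ t then BT (t - (j + r + m + r2)) else 0) * Be z u' v' m r2 := by
      intro N hN P hP
      refine (jump_le_end hw _).trans ?_
      rw [Finset.mul_sum]
      refine Finset.sum_le_sum fun m hm => ?_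
      rw [Finset.mem_range] at hm
      rw [Finset.mul_sum]
      refine (Finset.sum_le_sum fun r2 hr2 => ?_).trans
        (Finset.sum_le_sum_of_subset (s := Finset.Ico (l' + 1 - m) (t - (j + r) + 1 - m)) ?_)
      swap
      · intro r2 hr2
        rw [Finset.mem_Ico] at hr2 ⊢
        omega
      rw [Finset.mem_Ico] at hr2
      have hle : j + r + m + r2 ≤ t := by omega
      rw [if_pos hle]
      have e2 : t - (j + r) - m - r2 = t - (j + r + m + r2) := by omega
      rw [e2]
      have h2 : ∀ Z ∈ Brd (t - (j + r + m + r2)), sw (Irr r2) (fun P2 => sw (Brd m) (fun M =>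
          if NbE t I M0 (N ++ (P ++ (Z ++ (P2 ++ M)))) then Gw z u' (min v' t) (N ++ (P ++ (Z ++ (P2 ++ M)))) else 0)) ≤
          dl k I M0 N P * Be z u' v' m r2 := by
        intro Z hZ
        unfold Be
        rw [← sw_mul_left]
        refine sw_mono' fun P2 hP2 => ?_
        rw [← sw_mul_left]
        refine sw_mono' fun M hM => ?_
        have b1 : Z ++ (P2 ++ M) ∈ Brd (t - (j + r + m + r2) + (r2 + m)) := Brd_append hZ (Brd_append hP2.1 hM)
        have b2 : P ++ (Z ++ (P2 ++ M)) ∈ Brd (r + (t - (j + r + m + r2) + (r2 + m))) := Brd_append hP.1 b1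
        have b3 : (N ++ (P ++ Z)) ++ P2 ∈ Brd (j + (r + (t - (j + r + m + r2))) + r2) :=
          Brd_append (Brd_append hN (Brd_append hP.1 hZ)) hP2.1
        split_ifs with hnb
        · rw [dl_of hN b2 (by omega) ht hnb, one_mul]
          have e3 : N ++ (P ++ (Z ++ (P2 ++ M))) = (N ++ (P ++ Z)) ++ (P2 ++ M) := by
            simp only [List.append_assoc]
          rw [e3]
          exact Gw_le z b3 hM (by omega)
        · exact zero_le
      calc _ ≤ sw (Brd (t - (j + r + m + r2))) (fun _ => dl k I M0 N P * Be z u' v' m r2) := sw_mono' h2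
        _ = _ := by rw [sw_const]; ring
    calc _ ≤ sw (Brd j) (fun N => sw (Irr r) (fun P => dl k I M0 N P *
          ∑ m ∈ Finset.range (l' + 1), ∑ r2 ∈ Finset.Ico (l' + 1 - m) (2 ^ (k + 1)),
          (if j + r + m + r2 ≤ t then BT (t - (j + r + m + r2)) else 0) * Be z u' v' m r2)) :=
          sw_mono' fun N hN => sw_mono' fun P hP => h1 N hN P hP
      _ = El k I M0 j r * ∑ m ∈ Finset.range (l' + 1), ∑ r2 ∈ Finset.Ico (l' + 1 - m) (2 ^ (k + 1)),
          (if j + r + m + r2 ≤ t then BT (t - (j + r + m + r2)) else 0) * Be z u' v' m r2 := by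
          unfold El
          rw [sw_comm (Irr r) (Brd j), ← sw_mul_right]
          refine sw_congr fun N _ => ?_
          rw [sw_mul_right]
      _ = _ := by
          rw [Finset.mul_sum]
          refine Finset.sum_congr rfl fun m _ => ?_
          rw [Finset.mul_sum]
          exact Finset.sum_congr rfl fun r2 _ => by ring
  · -- the rest is short: giant
    refine le_trans ?_ (le_add_of_nonneg_right zero_le)
    rw [if_pos ⟨hjr, hw⟩]
    unfold A1
    rw [if_pos (by omega)]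
    calc _ ≤ sw (Brd j) (fun N => sw (Irr r) (fun P => sw (Brd (t - (j + r))) (fun M =>
          dl k I M0 N P * gq z u' v' P M))) := by
          refine sw_mono' fun N hN => sw_mono' fun P hP => sw_mono' fun M hM => ?_
          split_ifs with hnb
          · rw [dl_of hN (Brd_append hP.1 hM) (by omega) ht hnb, one_mul]
            exact Gw_le z (Brd_append hN hP.1) hM (by omega)
          · exact zero_le
      _ = _ := by
          rw [sw_comm (Brd j) (Irr r)]
          refine sw_congr fun P _ => ?_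
          rw [← sw_mul_right]
          refine sw_congr fun N _ => ?_
          rw [sw_mul_left]

end

/-- for fixed levels -/
theorem levels_le (z : ℝ≥0∞) {k κ κ' l l' u v u' v' b : ℕ} (I : List Bool) (hκ : κ + 3 ≤ k) (hκ' : κ' + 3 ≤ k)
    (hl : l < 2 ^ (κ + 1)) (hl' : l' < 2 ^ (κ' + 1)) (hu : 2 ^ k ≤ u) (hv : v ≤ 2 ^ (k + 1)) :
    sw (Fld.BrB b) (fun M => ∑ t ∈ Finset.Ico u v, sw {Y | Y ∈ Brd t ∧ NbE t I M Y} (fun Y => Gw z u' (min v' t) Y)) ≤
      GiS z k κ κ' b I u' v' + ENNReal.ofReal (UU (v - u)) *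
        (∑ j ∈ Finset.range (l + 1), ∑ r ∈ Finset.Ico (l + 1 - j) (2 ^ (k + 1)),
          sw (Irr r) (fun P => sw (Brd j) (fun N => sw (Fld.BrB b) (fun M0 => dl k I M0 N P)))) *
        ∑ m ∈ Finset.range (l' + 1), ∑ r2 ∈ Finset.Ico (l' + 1 - m) (2 ^ (k + 1)), Be z u' v' m r2 := by
  classical
  have h1 : ∀ M0, ∑ t ∈ Finset.Ico u v, sw {Y | Y ∈ Brd t ∧ NbE t I M0 Y} (fun Y => Gw z u' (min v' t) Y) ≤
      (∑ j ∈ Finset.range (l + 1), ∑ r ∈ Finset.Ico (l + 1 - j) (2 ^ (k + 1)), ∑ m ∈ Finset.range (l' + 1),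
        A1 z k u' v' I M0 j r m) +
      ENNReal.ofReal (UU (v - u)) * (∑ j ∈ Finset.range (l + 1), ∑ r ∈ Finset.Ico (l + 1 - j) (2 ^ (k + 1)),
        El k I M0 j r) * ∑ m ∈ Finset.range (l' + 1), ∑ r2 ∈ Finset.Ico (l' + 1 - m) (2 ^ (k + 1)), Be z u' v' m r2 := by
    intro M0
    refine (Finset.sum_le_sum fun t ht => piece_le z k u' v' I M0 hκ hκ' hl hl'
      (by rw [Finset.mem_Ico] at ht; omega) (by rw [Finset.mem_Ico] at ht; omega)).trans ?_
    rw [Finset.sum_comm, mul_assoc, Finset.sum_mul, Finset.mul_sum, ← Finset.sum_add_distrib]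
    refine Finset.sum_le_sum fun j _ => ?_
    rw [Finset.sum_comm, Finset.sum_mul, Finset.mul_sum, ← Finset.sum_add_distrib]
    refine Finset.sum_le_sum fun r _ => ?_
    rw [Finset.sum_add_distrib]
    refine add_le_add ?_ ?_
    · exact sum_shift_le (fun m => A1 z k u' v' I M0 j r m)
    · rw [Finset.sum_comm, Finset.mul_sum, Finset.mul_sum]
      refine Finset.sum_le_sum fun m _ => ?_
      rw [Finset.sum_comm, Finset.mul_sum, Finset.mul_sum]
      refine Finset.sum_le_sum fun r2 _ => ?_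
      rw [← Finset.sum_mul]
      exact mul_le_mul_left sum_BT_le_UU _
  refine (sw_mono' fun M0 _ => h1 M0).trans ?_
  rw [sw_add]
  refine add_le_add ?_ ?_
  · -- giants
    have hA : ∀ j r m, sw (Fld.BrB b) (fun M0 => A1 z k u' v' I M0 j r m) = if 2 ^ (k - 1) ≤ r then
        sw (Irr r) (fun P => sw (Brd j) (fun N => sw (Fld.BrB b) (fun M0 => dl k I M0 N P)) *
          sw (Brd m) (fun M => gq z u' v' P M)) else 0 := by
      intro j r m
      unfold A1
      split_ifs with h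
      · rw [sw_comm]
        refine sw_congr fun P _ => ?_
        rw [sw_mul_right, sw_comm]
      · exact sw_zero _
    rw [sw_sum]
    have h2 : ∀ j ∈ Finset.range (l + 1), sw (Fld.BrB b) (fun M0 => ∑ r ∈ Finset.Ico (l + 1 - j) (2 ^ (k + 1)),
        ∑ m ∈ Finset.range (l' + 1), A1 z k u' v' I M0 j r m) ≤
        ∑ r ∈ Finset.Ico (2 ^ (k - 1)) (2 ^ (k + 1)), sw (Irr r) (fun P =>
          sw (Brd j) (fun N => sw (Fld.BrB b) (fun M0 => dl k I M0 N P)) *
          ∑ b' ∈ Finset.range (κ' + 1), Zw z u' v' b' P) := by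
      intro j _
      rw [sw_sum]
      have h3 : ∀ r, sw (Fld.BrB b) (fun M0 => ∑ m ∈ Finset.range (l' + 1), A1 z k u' v' I M0 j r m) ≤
          if 2 ^ (k - 1) ≤ r then sw (Irr r) (fun P =>
            sw (Brd j) (fun N => sw (Fld.BrB b) (fun M0 => dl k I M0 N P)) *
            ∑ b' ∈ Finset.range (κ' + 1), Zw z u' v' b' P) else 0 := by
        intro r
        rw [sw_sum]
        simp only [hA]
        split_ifs with h
        · rw [← sw_sum]
          refine sw_mono' fun P _ => ?_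
          rw [← Finset.mul_sum]
          refine mul_le_mul_right ?_ _
          calc ∑ m ∈ Finset.range (l' + 1), sw (Brd m) (fun M => gq z u' v' P M)
              ≤ ∑ m ∈ Finset.range (2 ^ (κ' + 1)), sw (Brd m) (fun M => gq z u' v' P M) :=
                Finset.sum_le_sum_of_subset (Finset.range_subset_range.2 (by omega))
            _ = ∑ b' ∈ Finset.range (κ' + 1), ∑ m ∈ blk b', sw (Brd m) (fun M => gq z u' v' P M) :=
                sum_blocks κ' _
            _ ≤ _ := Finset.sum_le_sum fun b' _ => sum_blk_le b' _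
        · simp
      refine (Finset.sum_le_sum fun r _ => h3 r).trans ?_
      rw [← Finset.sum_filter]
      apply Finset.sum_le_sum_of_subset
      intro r hr
      rw [Finset.mem_filter, Finset.mem_Ico] at hr
      rw [Finset.mem_Ico]
      omega
    refine (Finset.sum_le_sum h2).trans ?_
    rw [Finset.sum_comm]
    unfold GiS
    refine Finset.sum_le_sum fun r _ => ?_
    rw [← sw_sum]
    refine sw_mono' fun P _ => ?_
    rw [← Finset.sum_mul]
    refine mul_le_mul_left ?_ _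
    calc ∑ j ∈ Finset.range (l + 1), sw (Brd j) (fun N => sw (Fld.BrB b) (fun M0 => dl k I M0 N P))
        ≤ ∑ j ∈ Finset.range (2 ^ (κ + 1)), sw (Brd j) (fun N => sw (Fld.BrB b) (fun M0 => dl k I M0 N P)) :=
          Finset.sum_le_sum_of_subset (Finset.range_subset_range.2 (by omega))
      _ = ∑ a ∈ Finset.range (κ + 1), ∑ j ∈ blk a, sw (Brd j) (fun N => sw (Fld.BrB b) (fun M0 => dl k I M0 N P)) :=
          sum_blocks κ _
      _ ≤ _ := Finset.sum_le_sum fun a _ => by
          rw [Kf_eq]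
          exact sum_blk_le a _
  · rw [sw_mul_right]
    have h4 : sw (Fld.BrB b) (fun M0 => ENNReal.ofReal (UU (v - u)) * ∑ j ∈ Finset.range (l + 1),
        ∑ r ∈ Finset.Ico (l + 1 - j) (2 ^ (k + 1)), El k I M0 j r) = ENNReal.ofReal (UU (v - u)) *
        ∑ j ∈ Finset.range (l + 1), ∑ r ∈ Finset.Ico (l + 1 - j) (2 ^ (k + 1)),
          sw (Irr r) (fun P => sw (Brd j) (fun N => sw (Fld.BrB b) (fun M0 => dl k I M0 N P))) := by
      rw [sw_mul_left, sw_sum]
      congr 1
      refine Finset.sum_congr rfl fun j _ => ?_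
      rw [sw_sum]
      refine Finset.sum_congr rfl fun r _ => ?_
      unfold El
      rw [sw_comm]
      refine sw_congr fun P _ => ?_
      rw [sw_comm]
    rw [h4]

/-- T2b: next strand in [u', v') -/
theorem next_le (z : ℝ≥0∞) (d k k' u v u' v' b : ℕ) (I : List Bool) (hd : 3 ≤ d) (hk' : d ≤ k') (hkk : k' ≤ k)
    (hu : 2 ^ k ≤ u) (hv : v ≤ 2 ^ (k + 1)) (_hu' : 2 ^ k' ≤ u') (_hv' : v' ≤ 2 ^ (k' + 1)) :
    sw (Fld.BrB b) (fun M => ∑ t ∈ Finset.Ico u v, sw {Y | Y ∈ Brd t ∧ NbE t I M Y} (fun Y => Gw z u' (min v' t) Y)) ≤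
      GiS z k (k - d) (k' - d) b I u' v' +
      ENNReal.ofReal (UU (v - u)) * InS k (k - d) b I * OutS z k (k' - d) u' v' := by
  have h1 := avg_two (κ := k - d) (κ' := k' - d) (R := 2 ^ (k + 1)) (R' := 2 ^ (k + 1))
    (X := sw (Fld.BrB b) (fun M => ∑ t ∈ Finset.Ico u v, sw {Y | Y ∈ Brd t ∧ NbE t I M Y}
      (fun Y => Gw z u' (min v' t) Y)))
    (G := GiS z k (k - d) (k' - d) b I u' v') (U := ENNReal.ofReal (UU (v - u)))
    (c := fun j r => sw (Irr r) (fun P => sw (Brd j) (fun N => sw (Fld.BrB b) (fun M0 => dl k I M0 N P))))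
    (c' := fun m r => Be z u' v' m r)
    (fun l hl l' hl' => by
      rw [Finset.mem_Ico] at hl hl'
      exact levels_le z I (by omega) (by omega) hl.2 hl'.2 hu hv)
  refine h1.trans (add_le_add le_rfl ?_)
  refine mul_le_mul' (mul_le_mul' le_rfl ?_) ?_
  · unfold InS
    refine Finset.sum_le_sum fun a _ => Finset.sum_le_sum fun r _ => ?_
    refine mul_le_mul_right ?_ _
    rw [← sw_sum]
    refine sw_mono' fun P _ => ?_
    rw [Kf_eq]
    exact sum_blk_le a _
  · unfold OutS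
    refine Finset.sum_le_sum fun b' _ => Finset.sum_le_sum fun r _ => ?_
    refine mul_le_mul_right ?_ _
    unfold Be
    rw [← sw_sum]
    refine sw_mono' fun P _ => ?_
    exact sum_blk_le b' _

end Rec8

end HexObs
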