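import Pool.Agent.PHW8.DefsN8

/-!
PHW, section S8: numbers (row N1): the gain function gam, the sums over the scales.
-/

set_option autoImplicit false

namespace HexObs

open Complex Finset ENNReal

namespace Rec8

open Num2Aux

lemma ex_pos : 0 < ex := by
  unfold ex
  have := CW_pos
  positivity

lemma et_pos {D : ℝ} (hD : 1 ≤ D) : 0 < et D := by
  unfold et
  have := ex_pos
  exact lt_min (by norm_num) (by positivity)

lemma et_le_half (D : ℝ) : et D ≤ 1 / 2 := min_le_left _ _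

lemma et_le_one (D : ℝ) : et D ≤ 1 := (et_le_half D).trans (by norm_num)

lemma et_mul_le {D : ℝ} (hD : 1 ≤ D) : et D * D ≤ ex / 2 := by
  have h : et D ≤ ex / (2 * D) := min_le_right _ _
  have hD0 : 0 < D := by linarith
  calc et D * D ≤ ex / (2 * D) * D := mul_le_mul_of_nonneg_right h hD0.le
    _ = ex / 2 := by field_simp

lemma gam_le_one (D δ η : ℝ) (l m d : ℕ) : gam D δ η l m d ≤ 1 := min_le_left _ _

lemma gam_pos (D δ η : ℝ) (l m d : ℕ) : 0 < gam D δ η l m d :=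
  lt_min one_pos (Real.rpow_pos_of_pos (by norm_num) _)

lemma gam_nonneg (D δ η : ℝ) (l m d : ℕ) : 0 ≤ gam D δ η l m d := (gam_pos D δ η l m d).le

/-- monotone in all three arguments -/
lemma gam_mono3 {D δ η : ℝ} (hD : 0 ≤ D) (hδ : 0 ≤ δ) (hη : 0 ≤ η) {l l' m m' d d' : ℕ}
    (hl : l ≤ l') (hm : m' ≤ m) (hd : d' ≤ d) : gam D δ η l m d ≤ gam D δ η l' m' d' := by
  unfold gam
  refine min_le_min le_rfl (Real.rpow_le_rpow_of_exponent_le (by norm_num) ?_)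
  refine mul_le_mul_of_nonneg_left ?_ hη
  have h1 : (l : ℝ) ≤ l' := by exact_mod_cast hl
  have h2 : (m' : ℝ) ≤ m := by exact_mod_cast hm
  have h3 : (d' : ℝ) ≤ d := by exact_mod_cast hd
  have h4 : D * ((l : ℝ) - m) ≤ D * ((l' : ℝ) - m') :=
    mul_le_mul_of_nonneg_left (by linarith) hD
  have h5 : δ * (d' : ℝ) ≤ δ * d := mul_le_mul_of_nonneg_left h3 hδ
  linarith

lemma gam_mono {D δ η : ℝ} (hD : 0 ≤ D) (hη : 0 ≤ η) {l l' : ℕ} (m d : ℕ) (hl : l ≤ l') :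
    gam D δ η l m d ≤ gam D δ η l' m d := by
  unfold gam
  refine min_le_min le_rfl (Real.rpow_le_rpow_of_exponent_le (by norm_num) ?_)
  refine mul_le_mul_of_nonneg_left ?_ hη
  have h1 : (l : ℝ) ≤ l' := by exact_mod_cast hl
  have h4 : D * ((l : ℝ) - m) ≤ D * ((l' : ℝ) - m) := mul_le_mul_of_nonneg_left (by linarith) hD
  linarith

/-- growth of UU along the scales -/
lemma UU_pow_growth {a b : ℕ} (h : a ≤ b) :
    UU (2 ^ a) * (2 : ℝ) ^ (ex * ((b : ℝ) - a)) ≤ 2 * UU (2 ^ b) := by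
  have h1 := UU_growth (s := 2 ^ a) (T := 2 ^ b) (Nat.one_le_two_pow)
    (Nat.pow_le_pow_right (by norm_num) h)
  have h2 : (((2 ^ b : ℕ) : ℝ) / ((2 ^ a : ℕ) : ℝ)) ^ (1 / (6 + CW)) =
      (2 : ℝ) ^ (ex * ((b : ℝ) - a)) := by
    have e : ((2 ^ b : ℕ) : ℝ) / ((2 ^ a : ℕ) : ℝ) = (2 : ℝ) ^ ((b : ℝ) - a) := by
      rw [Real.rpow_sub (by norm_num), Real.rpow_natCast, Real.rpow_natCast]
      push_cast
      rfl
    rw [e, ← Real.rpow_mul (by norm_num)]
    congr 1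
    unfold ex
    ring
  rw [h2] at h1
  exact h1

lemma UU_pow_le {a b : ℕ} (h : a ≤ b) :
    UU (2 ^ a) ≤ 2 * ((2 : ℝ) ^ (-ex)) ^ (b - a) * UU (2 ^ b) := by
  have h1 := UU_pow_growth h
  have h2 : ((2 : ℝ) ^ (-ex)) ^ (b - a) * (2 : ℝ) ^ (ex * ((b : ℝ) - a)) = 1 := by
    rw [← Real.rpow_natCast, ← Real.rpow_mul (by norm_num), ← Real.rpow_add (by norm_num),
      Nat.cast_sub h]
    have : -ex * ((b : ℝ) - a) + ex * ((b : ℝ) - a) = 0 := by ring
    rw [this, Real.rpow_zero]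
  have h3 : 0 ≤ ((2 : ℝ) ^ (-ex)) ^ (b - a) := by positivity
  calc UU (2 ^ a) = ((2 : ℝ) ^ (-ex)) ^ (b - a) *
        (UU (2 ^ a) * (2 : ℝ) ^ (ex * ((b : ℝ) - a))) := by
        calc UU (2 ^ a) = UU (2 ^ a) * 1 := (mul_one _).symm
          _ = _ := by rw [← h2]; ring
    _ ≤ ((2 : ℝ) ^ (-ex)) ^ (b - a) * (2 * UU (2 ^ b)) := mul_le_mul_of_nonneg_left h1 h3
    _ = _ := by ring

/-- the sum of the gains over the distance -/
lemma sum_gam_le {D δ η : ℝ} (hD : 0 ≤ D) (hδ : 0 < δ) (hη : 0 < η) (l m : ℕ) (h : m ≤ l)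
    (n : ℕ) : ∑ d ∈ Finset.range n, gam D δ η l m d ≤
      D / δ * ((l : ℝ) - m) + 1 + (1 - (2 : ℝ) ^ (-(η * δ)))⁻¹ := by
  have hlm : (0 : ℝ) ≤ (l : ℝ) - m := by
    have : (m : ℝ) ≤ l := by exact_mod_cast h
    linarith
  set K : ℕ := ⌈D / δ * ((l : ℝ) - m)⌉₊ with hK
  have hK1 : D / δ * ((l : ℝ) - m) ≤ K := Nat.le_ceil _
  have hK2 : (K : ℝ) ≤ D / δ * ((l : ℝ) - m) + 1 :=
    (Nat.ceil_lt_add_one (by positivity)).le
  set ρ : ℝ := (2 : ℝ) ^ (-(η * δ)) with hρ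
  have hρ0 : 0 ≤ ρ := by positivity
  have hρ1 : ρ < 1 := Real.rpow_lt_one_of_one_lt_of_neg (by norm_num) (by
    have := mul_pos hη hδ
    linarith)
  have h1 : ∑ d ∈ Finset.range n, gam D δ η l m d ≤
      ∑ d ∈ Finset.range (K + n), gam D δ η l m d :=
    Finset.sum_le_sum_of_subset_of_nonneg (Finset.range_mono (by omega))
      (fun _ _ _ => gam_nonneg _ _ _ _ _ _)
  refine h1.trans ?_
  rw [Finset.sum_range_add]
  have h2 : ∑ d ∈ Finset.range K, gam D δ η l m d ≤ K := by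
    calc ∑ d ∈ Finset.range K, gam D δ η l m d ≤ ∑ _d ∈ Finset.range K, (1 : ℝ) :=
        Finset.sum_le_sum (fun _ _ => gam_le_one _ _ _ _ _ _)
      _ = K := by simp
  have h3 : ∑ j ∈ Finset.range n, gam D δ η l m (K + j) ≤ (1 - ρ)⁻¹ := by
    have e : ∀ j ∈ Finset.range n, gam D δ η l m (K + j) ≤ ρ ^ j := by
      intro j _
      unfold gam
      refine (min_le_right _ _).trans ?_
      rw [hρ, ← Real.rpow_natCast, ← Real.rpow_mul (by norm_num)]
      refine Real.rpow_le_rpow_of_exponent_le (by norm_num) ?_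
      have e1 : D * ((l : ℝ) - m) ≤ δ * K := by
        have := mul_le_mul_of_nonneg_left hK1 hδ.le
        calc D * ((l : ℝ) - m) = δ * (D / δ * ((l : ℝ) - m)) := by field_simp
          _ ≤ _ := this
      push_cast
      have e2 : D * ((l : ℝ) - m) - δ * ((K : ℝ) + j) ≤ -(δ * j) := by linarith
      calc η * (D * ((l : ℝ) - m) - δ * ((K : ℝ) + j)) ≤ η * (-(δ * j)) :=
            mul_le_mul_of_nonneg_left e2 hη.le
        _ = -(η * δ) * j := by ring
    refine (Finset.sum_le_sum e).trans ?_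
    have hs := summable_geometric_of_lt_one hρ0 hρ1
    rw [← tsum_geometric_of_lt_one hρ0 hρ1]
    exact hs.sum_le_tsum _ (fun _ _ => by positivity)
  linarith

lemma double_sum (F : ℕ → ℕ → ℝ) (hF : ∀ m d, 0 ≤ F m d) (κ : ℕ) :
    ∑ b ∈ Finset.range (κ + 1), ∑ a ∈ Finset.range (κ + 1), F (max a b) (max a b - min a b) ≤
      2 * ∑ m ∈ Finset.range (κ + 1), ∑ d ∈ Finset.range (m + 1), F m d := by
  have key : ∑ b ∈ Finset.range (κ + 1), ∑ a ∈ Finset.range (κ + 1),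
      (if a ≤ b then F b (b - a) else 0) =
      ∑ m ∈ Finset.range (κ + 1), ∑ d ∈ Finset.range (m + 1), F m d := by
    refine Finset.sum_congr rfl fun b hb => ?_
    rw [Finset.mem_range] at hb
    rw [← Finset.sum_filter]
    have e : (Finset.range (κ + 1)).filter (fun a => a ≤ b) = Finset.range (b + 1) := by
      ext a
      simp only [Finset.mem_filter, Finset.mem_range]
      omega
    rw [e, ← Finset.sum_range_reflect]
    refine Finset.sum_congr rfl fun d hd => ?_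
    rw [Finset.mem_range] at hd
    congr 1
    omega
  have key2 : ∑ b ∈ Finset.range (κ + 1), ∑ a ∈ Finset.range (κ + 1),
      (if b ≤ a then F a (a - b) else 0) =
      ∑ m ∈ Finset.range (κ + 1), ∑ d ∈ Finset.range (m + 1), F m d := by
    rw [Finset.sum_comm]
    exact key
  rw [two_mul]
  nth_rewrite 1 [← key]
  rw [← key2, ← Finset.sum_add_distrib]
  refine Finset.sum_le_sum fun b _ => ?_
  rw [← Finset.sum_add_distrib]
  refine Finset.sum_le_sum fun a _ => ?_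
  rcases le_total a b with h | h
  · rw [if_pos h, max_eq_right h, min_eq_left h]
    have : 0 ≤ (if b ≤ a then F a (a - b) else 0) := by
      split_ifs
      · exact hF _ _
      · exact le_rfl
    linarith
  · rw [if_pos h, max_eq_left h, min_eq_right h]
    have : 0 ≤ (if a ≤ b then F b (b - a) else 0) := by
      split_ifs
      · exact hF _ _
      · exact le_rfl
    linarith

/-- double sum over the scales -/
theorem lam_le {D δ : ℝ} (hD : 1 ≤ D) (hδ : 0 < δ) : ∃ C : ℝ, 0 < C ∧ ∀ κ l : ℕ, κ ≤ l →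
    ∑ b ∈ Finset.range (κ + 1), ∑ a ∈ Finset.range (κ + 1), UU (2 ^ max a b) *
      gam D δ (et D) l (max a b) (max a b - min a b) ≤ C * (1 + ((l : ℝ) - κ)) * UU (2 ^ κ) := by
  have hη := et_pos hD
  have hD0 : 0 ≤ D := by linarith
  set ρ : ℝ := (2 : ℝ) ^ (-(et D * δ)) with hρ
  have hρ1 : ρ < 1 := Real.rpow_lt_one_of_one_lt_of_neg (by norm_num) (by
    have := mul_pos hη hδ
    linarith)
  set σ : ℝ := (2 : ℝ) ^ (-ex) with hσ
  have hσ0 : 0 ≤ σ := by positivity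
  have hσ1 : σ < 1 := Real.rpow_lt_one_of_one_lt_of_neg (by norm_num) (by
    have := ex_pos
    linarith)
  have hs : Summable fun j : ℕ => ((1 : ℝ) + j) * σ ^ j := by
    have h1 := summable_geometric_of_lt_one hσ0 hσ1
    have h2 := summable_pow_mul_geometric_of_norm_lt_one (R := ℝ) 1 (r := σ) (by
      rw [Real.norm_of_nonneg hσ0]
      exact hσ1)
    refine (h1.add h2).congr fun j => ?_
    ring
  set A : ℝ := D / δ + 1 + (1 - ρ)⁻¹ with hA
  have hA0 : 0 < A := by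
    have : 0 < (1 - ρ)⁻¹ := inv_pos.mpr (by linarith)
    have : 0 ≤ D / δ := by positivity
    linarith
  set S : ℝ := ∑' j : ℕ, ((1 : ℝ) + j) * σ ^ j with hS
  have hS0 : 0 ≤ S := tsum_nonneg fun j => by positivity
  refine ⟨4 * A * S + 1, by positivity, fun κ l hκ => ?_⟩
  have hκl : (0 : ℝ) ≤ (l : ℝ) - κ := by
    have : (κ : ℝ) ≤ l := by exact_mod_cast hκ
    linarith
  refine (double_sum (fun m d => UU (2 ^ m) * gam D δ (et D) l m d)
    (fun m d => mul_nonneg (UU_pos _).le (gam_nonneg _ _ _ _ _ _)) κ).trans ?_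
  have hB : ∀ m ∈ Finset.range (κ + 1), ∑ d ∈ Finset.range (m + 1),
      UU (2 ^ m) * gam D δ (et D) l m d ≤
      2 * A * (1 + ((l : ℝ) - κ)) * UU (2 ^ κ) * (((1 : ℝ) + (κ - m : ℕ)) * σ ^ (κ - m)) := by
    intro m hm
    rw [Finset.mem_range] at hm
    have hmκ : m ≤ κ := by omega
    rw [← Finset.mul_sum]
    have h1 := sum_gam_le hD0 hδ hη l m (hmκ.trans hκ) (m + 1)
    have h2 := UU_pow_le hmκ
    have h3 : D / δ * ((l : ℝ) - m) + 1 + (1 - ρ)⁻¹ ≤
        A * ((1 + ((l : ℝ) - κ)) * (1 + (κ - m : ℕ))) := by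
      rw [Nat.cast_sub hmκ]
      have hmk : (0 : ℝ) ≤ (κ : ℝ) - m := by
        have : (m : ℝ) ≤ κ := by exact_mod_cast hmκ
        linarith
      have e1 : 1 ≤ (1 + ((l : ℝ) - κ)) * (1 + ((κ : ℝ) - m)) := by nlinarith
      have e2 : (l : ℝ) - m ≤ (1 + ((l : ℝ) - κ)) * (1 + ((κ : ℝ) - m)) := by nlinarith
      have e3 : 0 < (1 - ρ)⁻¹ := inv_pos.mpr (by linarith)
      have e4 : 0 ≤ D / δ := by positivity
      calc D / δ * ((l : ℝ) - m) + 1 + (1 - ρ)⁻¹ ≤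
          D / δ * ((1 + ((l : ℝ) - κ)) * (1 + ((κ : ℝ) - m))) +
          1 * ((1 + ((l : ℝ) - κ)) * (1 + ((κ : ℝ) - m))) +
          (1 - ρ)⁻¹ * ((1 + ((l : ℝ) - κ)) * (1 + ((κ : ℝ) - m))) := by
            have f1 := mul_le_mul_of_nonneg_left e2 e4
            have f2 := mul_le_mul_of_nonneg_left e1 e3.le
            linarith
        _ = _ := by rw [hA]; ring
    have h4 : ∑ d ∈ Finset.range (m + 1), gam D δ (et D) l m d ≤
        A * ((1 + ((l : ℝ) - κ)) * (1 + (κ - m : ℕ))) := h1.trans h3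
    calc UU (2 ^ m) * ∑ d ∈ Finset.range (m + 1), gam D δ (et D) l m d ≤
        (2 * σ ^ (κ - m) * UU (2 ^ κ)) * (A * ((1 + ((l : ℝ) - κ)) * (1 + (κ - m : ℕ)))) :=
          mul_le_mul h2 h4 (Finset.sum_nonneg fun _ _ => gam_nonneg _ _ _ _ _ _)
            (mul_nonneg (by positivity) (UU_pos _).le)
      _ = _ := by ring
  have hC : ∑ m ∈ Finset.range (κ + 1), (((1 : ℝ) + (κ - m : ℕ)) * σ ^ (κ - m)) ≤ S := by
    have e : ∑ m ∈ Finset.range (κ + 1), (((1 : ℝ) + (κ - m : ℕ)) * σ ^ (κ - m)) =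
        ∑ j ∈ Finset.range (κ + 1), (((1 : ℝ) + j) * σ ^ j) := by
      rw [← Finset.sum_range_reflect]
      refine Finset.sum_congr rfl fun j hj => ?_
      rw [Finset.mem_range] at hj
      have : κ - (κ + 1 - 1 - j) = j := by omega
      rw [this]
    rw [e]
    exact hs.sum_le_tsum _ (fun _ _ => by positivity)
  have hU := (UU_pos (2 ^ κ)).le
  calc 2 * ∑ m ∈ Finset.range (κ + 1), ∑ d ∈ Finset.range (m + 1),
        UU (2 ^ m) * gam D δ (et D) l m d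
      ≤ 2 * ∑ m ∈ Finset.range (κ + 1), 2 * A * (1 + ((l : ℝ) - κ)) * UU (2 ^ κ) *
          (((1 : ℝ) + (κ - m : ℕ)) * σ ^ (κ - m)) :=
        mul_le_mul_of_nonneg_left (Finset.sum_le_sum hB) (by norm_num)
    _ = 4 * A * (1 + ((l : ℝ) - κ)) * UU (2 ^ κ) *
          ∑ m ∈ Finset.range (κ + 1), (((1 : ℝ) + (κ - m : ℕ)) * σ ^ (κ - m)) := by
        rw [← Finset.mul_sum]
        ring
    _ ≤ 4 * A * (1 + ((l : ℝ) - κ)) * UU (2 ^ κ) * S :=
        mul_le_mul_of_nonneg_left hC (by positivity)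
    _ = (4 * A * S) * ((1 + ((l : ℝ) - κ)) * UU (2 ^ κ)) := by ring
    _ ≤ (4 * A * S + 1) * ((1 + ((l : ℝ) - κ)) * UU (2 ^ κ)) :=
        mul_le_mul_of_nonneg_right (by linarith) (by positivity)
    _ = _ := by ring

/-- tail of the masses -/
theorem tail_le {D δ : ℝ} (hD : 1 ≤ D) (hδ : 0 < δ) : ∃ C : ℝ, 0 < C ∧ ∀ l₀ l₁ m d : ℕ,
    ∑ l ∈ Finset.Ico l₀ l₁, 1 / UU (2 ^ l) * min 1 ((2 : ℝ) ^ (D * ((l : ℝ) - m) - δ * d)) ≤
      C / UU (2 ^ l₀) * gam D δ (et D) l₀ m d := by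
  have hη := et_pos hD
  have hη1 := et_le_one D
  have hex := ex_pos
  set τ : ℝ := (2 : ℝ) ^ (-(ex / 2)) with hτ
  have hτ0 : 0 ≤ τ := by positivity
  have hτ1 : τ < 1 := Real.rpow_lt_one_of_one_lt_of_neg (by norm_num) (by linarith)
  have hpos : 0 < (1 - τ)⁻¹ := inv_pos.mpr (by linarith)
  refine ⟨2 * (1 - τ)⁻¹, by positivity, fun l₀ l₁ m d => ?_⟩
  have hU := UU_pos (2 ^ l₀)
  have hterm : ∀ l ∈ Finset.Ico l₀ l₁,
      1 / UU (2 ^ l) * min 1 ((2 : ℝ) ^ (D * ((l : ℝ) - m) - δ * d)) ≤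
        (2 / UU (2 ^ l₀) * gam D δ (et D) l₀ m d) * τ ^ (l - l₀) := by
    intro l hl
    rw [Finset.mem_Ico] at hl
    have hll : (0 : ℝ) ≤ (l : ℝ) - l₀ := by
      have : (l₀ : ℝ) ≤ l := by exact_mod_cast hl.1
      linarith
    have h1 : 1 / UU (2 ^ l) ≤ 2 / UU (2 ^ l₀) * (2 : ℝ) ^ (-(ex * ((l : ℝ) - l₀))) := by
      have g := UU_pow_growth hl.1
      rw [Real.rpow_neg (by norm_num)]
      have hp : (0 : ℝ) < (2 : ℝ) ^ (ex * ((l : ℝ) - l₀)) := by positivity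
      rw [div_le_iff₀ (UU_pos _)]
      have : 2 / UU (2 ^ l₀) * ((2 : ℝ) ^ (ex * ((l : ℝ) - l₀)))⁻¹ * UU (2 ^ l) =
          (2 * UU (2 ^ l)) / (UU (2 ^ l₀) * (2 : ℝ) ^ (ex * ((l : ℝ) - l₀))) := by
        field_simp
      rw [this, one_le_div (by positivity)]
      exact g
    have h2 : min 1 ((2 : ℝ) ^ (D * ((l : ℝ) - m) - δ * d)) ≤
        (2 : ℝ) ^ (ex / 2 * ((l : ℝ) - l₀)) * gam D δ (et D) l₀ m d := by
      have e1 : min 1 ((2 : ℝ) ^ (D * ((l : ℝ) - m) - δ * d)) ≤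
          min 1 ((2 : ℝ) ^ (et D * (D * ((l : ℝ) - m) - δ * d))) := by
        rcases le_total 0 (D * ((l : ℝ) - m) - δ * d) with h | h
        · have f1 : (1 : ℝ) ≤ (2 : ℝ) ^ (et D * (D * ((l : ℝ) - m) - δ * d)) :=
            Real.one_le_rpow (by norm_num) (mul_nonneg hη.le h)
          rw [min_eq_left f1]
          exact min_le_left _ _
        · refine min_le_min le_rfl (Real.rpow_le_rpow_of_exponent_le (by norm_num) ?_)
          nlinarith
      refine e1.trans ?_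
      have hq : (1 : ℝ) ≤ (2 : ℝ) ^ (ex / 2 * ((l : ℝ) - l₀)) :=
        Real.one_le_rpow (by norm_num) (by positivity)
      unfold gam
      rw [mul_min_of_nonneg _ _ (by positivity), mul_one]
      refine min_le_min hq ?_
      rw [← Real.rpow_add (by norm_num)]
      refine Real.rpow_le_rpow_of_exponent_le (by norm_num) ?_
      have f2 := mul_le_mul_of_nonneg_right (et_mul_le hD) hll
      have f3 : et D * (D * ((l : ℝ) - m) - δ * d) = et D * D * ((l : ℝ) - l₀) +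
          et D * (D * ((l₀ : ℝ) - m) - δ * d) := by ring
      rw [f3]
      linarith
    have h3 : τ ^ (l - l₀) = (2 : ℝ) ^ (-(ex * ((l : ℝ) - l₀))) *
        (2 : ℝ) ^ (ex / 2 * ((l : ℝ) - l₀)) := by
      rw [hτ, ← Real.rpow_natCast, ← Real.rpow_mul (by norm_num), ← Real.rpow_add (by norm_num),
        Nat.cast_sub hl.1]
      congr 1
      ring
    rw [h3]
    calc 1 / UU (2 ^ l) * min 1 ((2 : ℝ) ^ (D * ((l : ℝ) - m) - δ * d)) ≤
        (2 / UU (2 ^ l₀) * (2 : ℝ) ^ (-(ex * ((l : ℝ) - l₀)))) *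
        ((2 : ℝ) ^ (ex / 2 * ((l : ℝ) - l₀)) * gam D δ (et D) l₀ m d) :=
          mul_le_mul h1 h2 (le_min zero_le_one (by positivity)) (by positivity)
      _ = _ := by ring
  refine (Finset.sum_le_sum hterm).trans ?_
  rw [← Finset.mul_sum]
  have hgeo : ∑ l ∈ Finset.Ico l₀ l₁, τ ^ (l - l₀) ≤ (1 - τ)⁻¹ := by
    rw [Finset.sum_Ico_eq_sum_range]
    have e : ∑ k ∈ Finset.range (l₁ - l₀), τ ^ (l₀ + k - l₀) =
        ∑ k ∈ Finset.range (l₁ - l₀), τ ^ k :=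
      Finset.sum_congr rfl fun k _ => by rw [Nat.add_sub_cancel_left]
    rw [e, ← tsum_geometric_of_lt_one hτ0 hτ1]
    exact (summable_geometric_of_lt_one hτ0 hτ1).sum_le_tsum _ (fun _ _ => by positivity)
  calc 2 / UU (2 ^ l₀) * gam D δ (et D) l₀ m d * ∑ l ∈ Finset.Ico l₀ l₁, τ ^ (l - l₀) ≤
      2 / UU (2 ^ l₀) * gam D δ (et D) l₀ m d * (1 - τ)⁻¹ :=
        mul_le_mul_of_nonneg_left hgeo (mul_nonneg (by positivity) (gam_nonneg _ _ _ _ _ _))
    _ = _ := by ring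

end Rec8

end HexObs
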