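import Pool.Agent.PHW8.DefsN8
import Pool.Agent.PHW8.Lev8
import Pool.Agent.PHW8.T0
import Pool.Agent.PHW8.First8
import Pool.Agent.PHW8.Next8
import Pool.Agent.PHW8.NumG8
import Pool.Agent.PHW8.KerA8
import Pool.Agent.PHW8.KerG8

/-!
PHW, section S8, module N4: windows and iteration.
-/

set_option autoImplicit false

namespace HexObs

open Complex Finset ENNReal

namespace Rec8

/-! ### windows -/

theorem wb_start (q n₀ : ℕ) : wb q (n₀ * 2 ^ q) = 2 ^ n₀ := by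
  unfold wb
  have h2 : 0 < 2 ^ q := by positivity
  rw [Nat.mul_div_cancel _ h2, Nat.mul_mod_left, Nat.zero_mul, Nat.add_zero]

theorem wb_lo (q n : ℕ) : 2 ^ (n / 2 ^ q) ≤ wb q n := Nat.le_add_right _ _

theorem wb_succ {q n : ℕ} (h : q ≤ n / 2 ^ q) : wb q (n + 1) = wb q n + 2 ^ (n / 2 ^ q - q) := by
  unfold wb
  have h2 : 0 < 2 ^ q := by positivity
  have hdm := Nat.div_add_mod n (2 ^ q)
  have hml := Nat.mod_lt n h2
  set k := n / 2 ^ q with hk
  set i := n % 2 ^ q with hi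
  rcases Nat.lt_or_ge (i + 1) (2 ^ q) with hlt | hge
  · have e : n + 1 = (i + 1) + 2 ^ q * k := by omega
    have e1 : (n + 1) / 2 ^ q = k := by
      rw [e, Nat.add_mul_div_left _ _ h2, Nat.div_eq_of_lt hlt, Nat.zero_add]
    have e2 : (n + 1) % 2 ^ q = i + 1 := by
      rw [e, Nat.add_mul_mod_self_left, Nat.mod_eq_of_lt hlt]
    rw [e1, e2]
    ring
  · have hi1 : i + 1 = 2 ^ q := by omega
    have e : n + 1 = 2 ^ q * (k + 1) := by
      rw [Nat.mul_add]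
      omega
    have e1 : (n + 1) / 2 ^ q = k + 1 := by
      rw [e, Nat.mul_div_cancel_left _ h2]
    have e2 : (n + 1) % 2 ^ q = 0 := by
      rw [e, Nat.mul_mod_right]
    rw [e1, e2, Nat.zero_mul, Nat.add_zero]
    have e3 : 2 ^ k = 2 ^ q * 2 ^ (k - q) := by
      rw [← pow_add]
      congr 1
      omega
    have e4 : i * 2 ^ (k - q) + 2 ^ (k - q) = 2 ^ k := by
      rw [e3, ← hi1]
      ring
    rw [pow_succ]
    omega

theorem wb_hi {q n : ℕ} (h : q ≤ n / 2 ^ q) : wb q (n + 1) ≤ 2 ^ (n / 2 ^ q + 1) := by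
  rw [wb_succ h]
  unfold wb
  have h2 : 0 < 2 ^ q := by positivity
  have hml := Nat.mod_lt n h2
  set k := n / 2 ^ q with hk
  set i := n % 2 ^ q with hi
  have e3 : 2 ^ k = 2 ^ q * 2 ^ (k - q) := by
    rw [← pow_add]
    congr 1
    omega
  have e4 : (i + 1) * 2 ^ (k - q) ≤ 2 ^ k := by
    rw [e3]
    exact Nat.mul_le_mul_right _ (by omega)
  have e5 : (i + 1) * 2 ^ (k - q) = i * 2 ^ (k - q) + 2 ^ (k - q) := by ring
  rw [pow_succ]
  omega

theorem wb_mono {q n₀ m n : ℕ} (hq : q ≤ n₀) (hm : n₀ * 2 ^ q ≤ m) (h : m ≤ n) : wb q m ≤ wb q n := by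
  have h2 : 0 < 2 ^ q := by positivity
  induction n, h using Nat.le_induction with
  | base => exact le_rfl
  | succ n hn ih =>
    have h3 : q ≤ n / 2 ^ q := by
      rw [Nat.le_div_iff_mul_le h2]
      exact (Nat.mul_le_mul_right _ hq).trans (hm.trans hn)
    rw [wb_succ h3]
    exact ih.trans (Nat.le_add_right _ _)

/-! ### additivity -/

theorem Gw_add (z : ℝ≥0∞) {u v w : ℕ} (h1 : u ≤ v) (h2 : v ≤ w) (X : List Bool) :
    Gw z u w X = Gw z u v X + Gw z v w X := by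
  unfold Gw
  rw [Finset.sum_Ico_consecutive _ h1 h2]

theorem Gw_self (z : ℝ≥0∞) (u : ℕ) (X : List Bool) : Gw z u u X = 0 := by
  unfold Gw
  rw [Finset.Ico_self, Finset.sum_empty]

theorem Gw_windows (z : ℝ≥0∞) {q n₀ n : ℕ} (hq : q ≤ n₀) (hn : n₀ * 2 ^ q ≤ n) (X : List Bool) :
    Gw z (wb q (n₀ * 2 ^ q)) (wb q n) X = ∑ m ∈ Finset.Ico (n₀ * 2 ^ q) n, Gw z (wb q m) (wb q (m + 1)) X := by
  induction n, hn using Nat.le_induction with
  | base => rw [Finset.Ico_self, Finset.sum_empty, Gw_self]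
  | succ n hn ih =>
    rw [Finset.sum_Ico_succ_top hn, ← ih]
    exact Gw_add z (wb_mono hq le_rfl hn) (wb_mono hq hn (Nat.le_succ n)) X

/-! ### numbers -/

private lemma ex_le : ex ≤ 1 := by
  unfold ex
  have := Num2Aux.CW_pos
  rw [div_le_one (by linarith)]
  linarith

/-- growth of UU along the dyadic scales -/
private lemma UU_scale (m i : ℕ) : UU (2 ^ m) * (2 : ℝ) ^ (ex * i) ≤ 2 * UU (2 ^ (m + i)) := by
  have h := UU_growth (s := 2 ^ m) (T := 2 ^ (m + i)) (Nat.one_le_two_pow)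
    (Nat.pow_le_pow_right (by norm_num) (Nat.le_add_right _ _))
  have e : (((2 ^ (m + i) : ℕ) : ℝ) / ((2 ^ m : ℕ) : ℝ)) ^ (1 / (6 + CW)) = (2 : ℝ) ^ (ex * i) := by
    have h1 : (((2 ^ (m + i) : ℕ) : ℝ) / ((2 ^ m : ℕ) : ℝ)) = (2 : ℝ) ^ (i : ℝ) := by
      rw [Real.rpow_natCast]
      push_cast
      rw [pow_add, mul_div_assoc, mul_comm, div_mul_cancel₀ _ (by positivity)]
    rw [h1, ← Real.rpow_mul (by norm_num)]
    congr 1
    unfold ex
    ring
  rwa [e] at h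

private lemma UU_two_pow (m i : ℕ) : UU (2 ^ (m + i)) ≤ 2 ^ i * UU (2 ^ m) := by
  induction i with
  | zero => simp
  | succ i ih =>
    have h := UU_double (2 ^ (m + i))
    have e : 2 * 2 ^ (m + i) = 2 ^ (m + (i + 1)) := by ring
    rw [e] at h
    calc UU (2 ^ (m + (i + 1))) ≤ 2 * UU (2 ^ (m + i)) := h
      _ ≤ 2 * (2 ^ i * UU (2 ^ m)) := by linarith
      _ = 2 ^ (i + 1) * UU (2 ^ m) := by ring

/-- 1 + j is at most (2 / ex) 2 ^ (ex j) -/
private lemma lin_le_exp (j : ℕ) : 1 + (j : ℝ) ≤ 2 / ex * (2 : ℝ) ^ (ex * j) := by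
  have hex := ex_pos
  have hex1 := ex_le
  have hj : (0 : ℝ) ≤ j := Nat.cast_nonneg j
  have h1 : 1 + ex / 2 * j ≤ (2 : ℝ) ^ (ex * j) := by
    have h2 : (2 : ℝ) ^ (ex * j) = Real.exp (Real.log 2 * (ex * j)) := by
      rw [Real.rpow_def_of_pos (by norm_num)]
    rw [h2]
    have h3 := Real.add_one_le_exp (Real.log 2 * (ex * j))
    have h4 : (1 : ℝ) / 2 ≤ Real.log 2 := by
      have := Real.log_two_gt_d9
      linarith
    have h5 : 0 ≤ ex * j := by positivity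
    nlinarith
  have h2 : 1 + (j : ℝ) ≤ 2 / ex * (1 + ex / 2 * j) := by
    have e : 2 / ex * (1 + ex / 2 * j) = 2 / ex + j := by
      field_simp
    rw [e]
    have : 1 ≤ 2 / ex := by
      rw [le_div_iff₀ hex]
      linarith
    linarith
  exact h2.trans (mul_le_mul_of_nonneg_left h1 (by positivity))

/-- coefficient of the giants -/
private lemma giant_num {d k k' : ℕ} (hd : d ≤ k') (hk : k' ≤ k) :
    (1 + ((k : ℝ) - ((k' - d : ℕ) : ℝ))) * UU (2 ^ (k' - d)) / UU (2 ^ k) ≤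
      4 / ex * ((1 + (d : ℝ)) * (2 : ℝ) ^ (-(ex / 2 * d))) := by
  have hex := ex_pos
  obtain ⟨j, rfl⟩ : ∃ j, k = k' + j := ⟨k - k', by omega⟩
  obtain ⟨κ, rfl⟩ : ∃ κ, k' = κ + d := ⟨k' - d, by omega⟩
  have e0 : κ + d - d = κ := by omega
  rw [e0]
  have hU := Num2Aux.UU_pos (2 ^ (κ + d + j))
  have hU' := Num2Aux.UU_pos (2 ^ κ)
  have h1 := UU_scale κ (d + j)
  rw [← add_assoc] at h1
  have h2 := lin_le_exp j
  have e1 : (2 : ℝ) ^ (ex * ((d + j : ℕ) : ℝ)) = (2 : ℝ) ^ (ex * d) * (2 : ℝ) ^ (ex * j) := by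
    rw [← Real.rpow_add (by norm_num)]
    congr 1
    push_cast
    ring
  rw [e1] at h1
  have hA : (0 : ℝ) < (2 : ℝ) ^ (ex * d) := by positivity
  have hB : (0 : ℝ) < (2 : ℝ) ^ (ex * j) := by positivity
  have hdj : (1 : ℝ) + (((κ + d + j : ℕ) : ℝ) - (κ : ℝ)) ≤ (1 + (d : ℝ)) * (1 + (j : ℝ)) := by
    push_cast
    have : (0 : ℝ) ≤ (d : ℝ) * j := by positivity
    nlinarith
  rw [div_le_iff₀ hU]
  have h3 : (2 : ℝ) ^ (-(ex * d)) ≤ (2 : ℝ) ^ (-(ex / 2 * d)) := by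
    apply Real.rpow_le_rpow_of_exponent_le (by norm_num)
    have : (0 : ℝ) ≤ ex * d := by positivity
    linarith
  have h4 : (2 : ℝ) ^ (-(ex * d)) * (2 : ℝ) ^ (ex * d) = 1 := by
    rw [← Real.rpow_add (by norm_num)]
    simp
  have hU2 : UU (2 ^ κ) * (2 : ℝ) ^ (ex * j) ≤ 2 * UU (2 ^ (κ + d + j)) * (2 : ℝ) ^ (-(ex * d)) := by
    calc UU (2 ^ κ) * (2 : ℝ) ^ (ex * j)
        = (UU (2 ^ κ) * ((2 : ℝ) ^ (ex * d) * (2 : ℝ) ^ (ex * j))) * (2 : ℝ) ^ (-(ex * d)) := by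
          have : (UU (2 ^ κ) * ((2 : ℝ) ^ (ex * d) * (2 : ℝ) ^ (ex * j))) * (2 : ℝ) ^ (-(ex * d)) =
            UU (2 ^ κ) * (2 : ℝ) ^ (ex * j) * ((2 : ℝ) ^ (-(ex * d)) * (2 : ℝ) ^ (ex * d)) := by ring
          rw [this, h4, mul_one]
      _ ≤ _ := mul_le_mul_of_nonneg_right h1 (by positivity)
  calc (1 + (((κ + d + j : ℕ) : ℝ) - (κ : ℝ))) * UU (2 ^ κ)
      ≤ ((1 + (d : ℝ)) * (1 + (j : ℝ))) * UU (2 ^ κ) := mul_le_mul_of_nonneg_right hdj hU'.le
    _ ≤ ((1 + (d : ℝ)) * (2 / ex * (2 : ℝ) ^ (ex * j))) * UU (2 ^ κ) := by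
        apply mul_le_mul_of_nonneg_right _ hU'.le
        exact mul_le_mul_of_nonneg_left h2 (by positivity)
    _ = (1 + (d : ℝ)) * (2 / ex) * (UU (2 ^ κ) * (2 : ℝ) ^ (ex * j)) := by ring
    _ ≤ (1 + (d : ℝ)) * (2 / ex) * (2 * UU (2 ^ (κ + d + j)) * (2 : ℝ) ^ (-(ex * d))) :=
        mul_le_mul_of_nonneg_left hU2 (by positivity)
    _ ≤ (1 + (d : ℝ)) * (2 / ex) * (2 * UU (2 ^ (κ + d + j)) * (2 : ℝ) ^ (-(ex / 2 * d))) := by
        apply mul_le_mul_of_nonneg_left _ (by positivity)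
        exact mul_le_mul_of_nonneg_left h3 (by positivity)
    _ = _ := by ring

/-- a window of the block k compared with the level k - d -/
private lemma win_num {d q k : ℕ} (hd : d ≤ k) (hq : q ≤ k) :
    UU (2 ^ (k - q)) / UU (2 ^ (k - d)) ≤ 2 * ((2 : ℝ) ^ d * (2 : ℝ) ^ (-(ex * q))) := by
  have hex := ex_pos
  have hex1 := ex_le
  have hU := Num2Aux.UU_pos (2 ^ (k - d))
  rw [div_le_iff₀ hU]
  rcases le_total q d with h | h
  · obtain ⟨i, rfl⟩ : ∃ i, d = q + i := ⟨d - q, by omega⟩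
    have e : k - q = (k - (q + i)) + i := by omega
    have h1 := UU_two_pow (k - (q + i)) i
    rw [← e] at h1
    refine h1.trans ?_
    apply mul_le_mul_of_nonneg_right _ hU.le
    have h2 : (1 : ℝ) ≤ (2 : ℝ) ^ q * (2 : ℝ) ^ (-(ex * q)) := by
      rw [← Real.rpow_natCast 2 q, ← Real.rpow_add (by norm_num)]
      apply Real.one_le_rpow (by norm_num)
      have : (0 : ℝ) ≤ q := Nat.cast_nonneg q
      nlinarith
    have h3 : (0 : ℝ) < 2 ^ i := by positivity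
    calc (2 : ℝ) ^ i = 2 ^ i * 1 := by ring
      _ ≤ 2 ^ i * ((2 : ℝ) ^ q * (2 : ℝ) ^ (-(ex * q))) := mul_le_mul_of_nonneg_left h2 h3.le
      _ ≤ 2 * (2 ^ i * ((2 : ℝ) ^ q * (2 : ℝ) ^ (-(ex * q)))) := by
          have : 0 ≤ 2 ^ i * ((2 : ℝ) ^ q * (2 : ℝ) ^ (-(ex * q))) := by positivity
          linarith
      _ = _ := by rw [pow_add]; push_cast; ring
  · obtain ⟨i, rfl⟩ : ∃ i, q = d + i := ⟨q - d, by omega⟩
    have e : k - d = (k - (d + i)) + i := by omega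
    have h1 := UU_scale (k - (d + i)) i
    rw [← e] at h1
    have h2 : (2 : ℝ) ^ (-(ex * i)) * (2 : ℝ) ^ (ex * i) = 1 := by
      rw [← Real.rpow_add (by norm_num)]
      simp
    have hU' := Num2Aux.UU_pos (2 ^ (k - (d + i)))
    have h3 : UU (2 ^ (k - (d + i))) ≤ 2 * UU (2 ^ (k - d)) * (2 : ℝ) ^ (-(ex * i)) := by
      calc UU (2 ^ (k - (d + i)))
          = UU (2 ^ (k - (d + i))) * (2 : ℝ) ^ (ex * i) * (2 : ℝ) ^ (-(ex * i)) := by
            rw [mul_assoc, mul_comm ((2 : ℝ) ^ (ex * i)), h2, mul_one]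
        _ ≤ _ := mul_le_mul_of_nonneg_right h1 (by positivity)
    refine h3.trans ?_
    have h4 : (2 : ℝ) ^ (-(ex * i)) ≤ (2 : ℝ) ^ d * (2 : ℝ) ^ (-(ex * ((d + i : ℕ) : ℝ))) := by
      rw [← Real.rpow_natCast 2 d, ← Real.rpow_add (by norm_num)]
      apply Real.rpow_le_rpow_of_exponent_le (by norm_num)
      push_cast
      have : (0 : ℝ) ≤ d := Nat.cast_nonneg d
      nlinarith
    calc 2 * UU (2 ^ (k - d)) * (2 : ℝ) ^ (-(ex * i))
        ≤ 2 * UU (2 ^ (k - d)) * ((2 : ℝ) ^ d * (2 : ℝ) ^ (-(ex * ((d + i : ℕ) : ℝ)))) :=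
          mul_le_mul_of_nonneg_left h4 (by positivity)
      _ = _ := by ring

/-- the geometric iteration -/
private lemma iter_num {X η : ℝ} (hη : 0 < η) (hη2 : η ≤ 1 / 2) (hX : 0 ≤ X) (n : ℕ) :
    X / 2 + η * ∑ m ∈ Finset.range (n + 1), X * (1 + 2 * η) ^ m ≤ X * (1 + 2 * η) ^ n := by
  have h1 : ∑ m ∈ Finset.range (n + 1), (1 + 2 * η) ^ m = ((1 + 2 * η) ^ (n + 1) - 1) / (2 * η) := by
    rw [geom_sum_eq (by linarith)]
    congr 1
    ring
  rw [← Finset.mul_sum, h1]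
  have e : η * (X * (((1 + 2 * η) ^ (n + 1) - 1) / (2 * η))) = X * ((1 + 2 * η) ^ (n + 1) - 1) / 2 := by
    field_simp
  rw [e]
  have h2 : 0 ≤ X * (1 + 2 * η) ^ n := by positivity
  have h3 : X * ((1 + 2 * η) ^ (n + 1) - 1) / 2 = (X * (1 + 2 * η) ^ n) * (1 + 2 * η) / 2 - X / 2 := by
    rw [pow_succ]
    ring
  rw [h3]
  nlinarith

/-! ### the recursion -/

/-- everything about the next strand, over the strands of heights in [u, v) -/
noncomputable def ZN (z : ℝ≥0∞) (u v u' v' b : ℕ) (I : List Bool) : ℝ≥0∞ :=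
  sw (Fld.BrB b) (fun M => ∑ t ∈ Finset.Ico u v, sw {Y | Y ∈ Brd t ∧ NbE t I M Y} (fun Y => Gw z u' (min v' t) Y))

/-- no next strand -/
noncomputable def ZO (u v b : ℕ) (I : List Bool) : ℝ≥0∞ :=
  sw (Fld.BrB b) (fun M => ∑ t ∈ Finset.Ico u v, gf {Y | Y ∈ Brd t ∧ NbE t I M Y})

theorem Zw_unroll {z : ℝ} (hz : 0 < z) {q n₀ n v : ℕ} (hq : q ≤ n₀) (hn : n₀ * 2 ^ q ≤ n)
    (hv : v ≤ wb q (n + 1)) (b : ℕ) (I : List Bool) :
    Zw (ENNReal.ofReal z) (wb q n) v b I ≤ ENNReal.ofReal ((1 + 2 * z) ^ 2 ^ n₀) * ZO (wb q n) v b I +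
      ENNReal.ofReal z * (∑ m ∈ Finset.Ico (n₀ * 2 ^ q) n, ZN (ENNReal.ofReal z) (wb q n) v (wb q m) (wb q (m + 1)) b I +
        ZN (ENNReal.ofReal z) (wb q n) v (wb q n) (v - 1) b I) := by
  set Z := ENNReal.ofReal z with hZ
  have h2n : 1 ≤ 2 ^ n₀ := Nat.one_le_two_pow
  have hw0 : wb q (n₀ * 2 ^ q) = 2 ^ n₀ := wb_start q n₀
  have hwn : 2 ^ n₀ ≤ wb q n := by
    rw [← hw0]
    exact wb_mono hq le_rfl hn
  -- pointwise
  have hpt : ∀ t ∈ Finset.Ico (wb q n) v, ∀ Y : List Bool, Fch Z (t - 1) Y ≤ ENNReal.ofReal ((1 + 2 * z) ^ 2 ^ n₀) +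
      Z * (∑ m ∈ Finset.Ico (n₀ * 2 ^ q) n, Gw Z (wb q m) (min (wb q (m + 1)) t) Y + Gw Z (wb q n) (min (v - 1) t) Y) := by
    intro t ht Y
    rw [Finset.mem_Ico] at ht
    have h1 := Fch_unroll Z (m := 2 ^ n₀ - 1) (n := t - 1) (by omega) Y
    have e1 : 2 ^ n₀ - 1 + 1 = 2 ^ n₀ := by omega
    have e2 : t - 1 + 1 = t := by omega
    rw [e1, e2] at h1
    rw [h1]
    refine add_le_add ?_ (mul_le_mul' le_rfl ?_)
    · refine (Fch_le Z _ Y).trans ?_
      have e3 : (1 + 2 * Z) = ENNReal.ofReal (1 + 2 * z) := by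
        rw [hZ, ENNReal.ofReal_add (by norm_num) (by positivity), ENNReal.ofReal_one, ENNReal.ofReal_mul (by norm_num)]
        norm_num
      rw [e3, ← ENNReal.ofReal_pow (by positivity)]
      apply ENNReal.ofReal_le_ofReal
      exact pow_le_pow_right₀ (by linarith) (by omega)
    · rw [Gw_add Z hwn ht.1, ← hw0, Gw_windows Z hq hn]
      refine add_le_add (le_of_eq (Finset.sum_congr rfl fun m hm => ?_)) (le_of_eq ?_)
      · rw [Finset.mem_Ico] at hm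
        rw [min_eq_left ((wb_mono hq (by omega) (by omega : m + 1 ≤ n)).trans ht.1)]
      · rw [min_eq_right (by omega)]
  unfold Zw ZO ZN
  calc sw (Fld.BrB b) (fun M => ∑ t ∈ Finset.Ico (wb q n) v,
        sw {Y | Y ∈ Brd t ∧ NbE t I M Y} (fun Y => Fch Z (t - 1) Y))
      ≤ sw (Fld.BrB b) (fun M => ENNReal.ofReal ((1 + 2 * z) ^ 2 ^ n₀) *
          (∑ t ∈ Finset.Ico (wb q n) v, gf {Y | Y ∈ Brd t ∧ NbE t I M Y}) +
          Z * (∑ m ∈ Finset.Ico (n₀ * 2 ^ q) n, ∑ t ∈ Finset.Ico (wb q n) v,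
            sw {Y | Y ∈ Brd t ∧ NbE t I M Y} (fun Y => Gw Z (wb q m) (min (wb q (m + 1)) t) Y) +
            ∑ t ∈ Finset.Ico (wb q n) v, sw {Y | Y ∈ Brd t ∧ NbE t I M Y} (fun Y => Gw Z (wb q n) (min (v - 1) t) Y))) := by
        refine sw_mono' fun M _ => ?_
        have h3 : ∀ t ∈ Finset.Ico (wb q n) v, sw {Y | Y ∈ Brd t ∧ NbE t I M Y} (fun Y => Fch Z (t - 1) Y) ≤
            ENNReal.ofReal ((1 + 2 * z) ^ 2 ^ n₀) * gf {Y | Y ∈ Brd t ∧ NbE t I M Y} +
            Z * (∑ m ∈ Finset.Ico (n₀ * 2 ^ q) n,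
              sw {Y | Y ∈ Brd t ∧ NbE t I M Y} (fun Y => Gw Z (wb q m) (min (wb q (m + 1)) t) Y) +
              sw {Y | Y ∈ Brd t ∧ NbE t I M Y} (fun Y => Gw Z (wb q n) (min (v - 1) t) Y)) := by
          intro t ht
          refine (sw_mono' fun Y _ => hpt t ht Y).trans (le_of_eq ?_)
          rw [sw_add, sw_mul_left, sw_add, sw_sum]
          congr 1
          have := sw_mul_left {Y | Y ∈ Brd t ∧ NbE t I M Y} (ENNReal.ofReal ((1 + 2 * z) ^ 2 ^ n₀)) (fun _ => 1)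
          simp only [mul_one] at this
          rw [this, sw_one]
        refine (Finset.sum_le_sum h3).trans (le_of_eq ?_)
        rw [Finset.sum_add_distrib, ← Finset.mul_sum, ← Finset.mul_sum, Finset.sum_add_distrib, Finset.sum_comm]
    _ = _ := by
        rw [sw_add, sw_mul_left, sw_mul_left, sw_add, sw_sum (Fld.BrB b) (Finset.Ico (n₀ * 2 ^ q) n)]

theorem Zw_empty (z : ℝ≥0∞) (u b : ℕ) (I : List Bool) : Zw z u u b I = 0 := by
  unfold Zw
  simp only [Finset.Ico_self, Finset.sum_empty]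
  exact sw_zero _

theorem claim8 {C D δ : ℝ} {fi : ℕ → ℕ → List Bool → ℝ≥0∞} {fo : ℕ → ℕ → ℕ → List Bool → ℝ≥0∞}
    (h : In8 C D δ fi fo) : ∃ C1 : ℝ, 1 ≤ C1 ∧ ∀ (z : ℝ) (d q n₀ : ℕ), 0 < z → 3 ≤ d → q ≤ n₀ → d ≤ n₀ →
      C1 * z * nu d q ≤ 1 / 2 →
      ∀ (n : ℕ) (b r : ℕ) (I : List Bool), n₀ * 2 ^ q ≤ n → b + d ≤ n / 2 ^ q → I ∈ Irr r →
        Zw (ENNReal.ofReal z) (wb q n) (wb q (n + 1)) b I ≤
          ENNReal.ofReal (C1 * (1 + 2 * z) ^ 2 ^ n₀ * (2 : ℝ) ^ d * (1 + 2 * (C1 * z * nu d q)) ^ n) *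
            RR D δ fo (n / 2 ^ q) (n / 2 ^ q - d) b I := by
  obtain ⟨CI, hCI, hI⟩ := InS_le h
  obtain ⟨CO, hCO, hO⟩ := OutS_le h
  obtain ⟨CG, hCG, hG⟩ := GiS_le h
  have hex := ex_pos
  obtain ⟨Cν, hCν⟩ : ∃ Cν : ℝ, Cν = CG * (4 / ex) + 2 * CI * CO := ⟨_, rfl⟩
  have hCν0 : 0 < Cν := by rw [hCν]; positivity
  refine ⟨max 1 (max (4 * CI) Cν), le_max_left _ _, ?_⟩
  set C1 : ℝ := max 1 (max (4 * CI) Cν) with hC1
  have hC1a : 1 ≤ C1 := le_max_left _ _
  have hC1b : 4 * CI ≤ C1 := (le_max_left _ _).trans (le_max_right _ _)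
  have hC1c : Cν ≤ C1 := (le_max_right _ _).trans (le_max_right _ _)
  intro z d q n₀ hz hd hq hd0 hη
  set Z := ENNReal.ofReal z with hZ
  have hnu : 0 < nu d q := by
    unfold nu
    positivity
  obtain ⟨η, hηd⟩ : ∃ η : ℝ, η = C1 * z * nu d q := ⟨_, rfl⟩
  have hη0 : 0 < η := by rw [hηd]; positivity
  rw [← hηd] at hη
  rw [← hηd]
  obtain ⟨F0, hF0⟩ : ∃ F0 : ℝ, F0 = (1 + 2 * z) ^ 2 ^ n₀ := ⟨_, rfl⟩
  have hF1 : 1 ≤ F0 := by
    rw [hF0]
    exact one_le_pow₀ (by linarith)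
  rw [← hF0]
  obtain ⟨X, hX⟩ : ∃ X : ℝ, X = C1 * F0 * (2 : ℝ) ^ d := ⟨_, rfl⟩
  have hX0 : 0 < X := by rw [hX]; positivity
  rw [← hX]
  have h2q : 0 < 2 ^ q := by positivity
  -- one next window
  have hnext : ∀ (k k' u v u' v' b : ℕ) (I : List Bool) (x : ℝ), 0 ≤ x → d ≤ k' → k' ≤ k → 2 ^ k ≤ u → v ≤ 2 ^ (k + 1) →
      q ≤ k → v ≤ u + 2 ^ (k - q) → 2 ^ k' ≤ u' → v' ≤ 2 ^ (k' + 1) → b + d ≤ k → (∃ r, I ∈ Irr r) →
      (∀ (b r : ℕ) (P : List Bool), b ≤ k' - d → P ∈ Irr r → Zw Z u' v' b P ≤ ENNReal.ofReal x * RR D δ fo k' (k' - d) b P) →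
      ZN Z u v u' v' b I ≤ ENNReal.ofReal (Cν * nu d q * x) * RR D δ fo k (k - d) b I := by
    intro k k' u v u' v' b I x hx hdk' hkk hu hv hqk hvu hu' hv' hb hIr hyp
    have h1 : ZN Z u v u' v' b I ≤ GiS Z k (k - d) (k' - d) b I u' v' +
        ENNReal.ofReal (UU (v - u)) * InS k (k - d) b I * OutS Z k (k' - d) u' v' :=
      next_le Z d k k' u v u' v' b I hd hdk' hkk hu hv hu' hv'
    have h2 := hG Z (ENNReal.ofReal x) k k' (k - d) (k' - d) b u' v' I (by omega) (by omega) hkk (by omega) hIr hyp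
    have h3 := hI k (k - d) b I (by omega) (by omega)
    have h4 := hO Z (ENNReal.ofReal x) k k' (k' - d) u' v' (by omega) hkk hyp
    have hUk := Num2Aux.UU_pos (2 ^ k)
    have hUd := Num2Aux.UU_pos (2 ^ (k - d))
    -- giants
    have h5 : ENNReal.ofReal (CG * (1 + ((k : ℝ) - ((k' - d : ℕ) : ℝ))) * UU (2 ^ (k' - d)) / UU (2 ^ k)) * ENNReal.ofReal x ≤
        ENNReal.ofReal (CG * (4 / ex) * ((1 + (d : ℝ)) * (2 : ℝ) ^ (-(ex / 2 * d))) * x) := by
      rw [← ENNReal.ofReal_mul' hx]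
      apply ENNReal.ofReal_le_ofReal
      apply mul_le_mul_of_nonneg_right _ hx
      have := giant_num hdk' hkk
      calc CG * (1 + ((k : ℝ) - ((k' - d : ℕ) : ℝ))) * UU (2 ^ (k' - d)) / UU (2 ^ k)
          = CG * ((1 + ((k : ℝ) - ((k' - d : ℕ) : ℝ))) * UU (2 ^ (k' - d)) / UU (2 ^ k)) := by ring
        _ ≤ CG * (4 / ex * ((1 + (d : ℝ)) * (2 : ℝ) ^ (-(ex / 2 * d)))) := mul_le_mul_of_nonneg_left this hCG.le
        _ = _ := by ring
    -- no giant
    have h6 : UU (v - u) ≤ UU (2 ^ (k - q)) := Num2Aux.UU_mono (Nat.sub_le_iff_le_add'.2 hvu)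
    have h7 : ENNReal.ofReal (UU (v - u)) * ENNReal.ofReal (CI / UU (2 ^ (k - d))) *
        ENNReal.ofReal (CO * (1 + ((k' : ℝ) - ((k' - d : ℕ) : ℝ)))) * ENNReal.ofReal x ≤
        ENNReal.ofReal (2 * CI * CO * ((1 + (d : ℝ)) * (2 : ℝ) ^ d * (2 : ℝ) ^ (-(ex * q))) * x) := by
      have hkd : ((k' - d : ℕ) : ℝ) = (k' : ℝ) - d := by
        rw [Nat.cast_sub hdk']
      have e1 : (1 + ((k' : ℝ) - ((k' - d : ℕ) : ℝ))) = 1 + (d : ℝ) := by
        rw [hkd]; ring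
      rw [e1, ← ENNReal.ofReal_mul (Num2Aux.UU_pos _).le, ← ENNReal.ofReal_mul (by
        have := Num2Aux.UU_pos (v - u)
        positivity), ← ENNReal.ofReal_mul' hx]
      apply ENNReal.ofReal_le_ofReal
      apply mul_le_mul_of_nonneg_right _ hx
      have h8 := win_num (d := d) (q := q) (k := k) (by omega) hqk
      have h9 : UU (v - u) / UU (2 ^ (k - d)) ≤ 2 * ((2 : ℝ) ^ d * (2 : ℝ) ^ (-(ex * q))) :=
        (div_le_div_of_nonneg_right h6 hUd.le).trans h8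
      calc UU (v - u) * (CI / UU (2 ^ (k - d))) * (CO * (1 + (d : ℝ)))
          = (UU (v - u) / UU (2 ^ (k - d))) * (CI * CO * (1 + (d : ℝ))) := by
            field_simp
        _ ≤ (2 * ((2 : ℝ) ^ d * (2 : ℝ) ^ (-(ex * q)))) * (CI * CO * (1 + (d : ℝ))) :=
            mul_le_mul_of_nonneg_right h9 (by positivity)
        _ = _ := by ring
    calc ZN Z u v u' v' b I ≤ GiS Z k (k - d) (k' - d) b I u' v' +
        ENNReal.ofReal (UU (v - u)) * InS k (k - d) b I * OutS Z k (k' - d) u' v' := h1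
      _ ≤ ENNReal.ofReal (CG * (1 + ((k : ℝ) - ((k' - d : ℕ) : ℝ))) * UU (2 ^ (k' - d)) / UU (2 ^ k)) * ENNReal.ofReal x *
            RR D δ fo k (k - d) b I +
          ENNReal.ofReal (UU (v - u)) * (ENNReal.ofReal (CI / UU (2 ^ (k - d))) * RR D δ fo k (k - d) b I) *
            (ENNReal.ofReal (CO * (1 + ((k' : ℝ) - ((k' - d : ℕ) : ℝ)))) * ENNReal.ofReal x) :=
          add_le_add h2 (mul_le_mul' (mul_le_mul' le_rfl h3) h4)
      _ = (ENNReal.ofReal (CG * (1 + ((k : ℝ) - ((k' - d : ℕ) : ℝ))) * UU (2 ^ (k' - d)) / UU (2 ^ k)) * ENNReal.ofReal x +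
          ENNReal.ofReal (UU (v - u)) * ENNReal.ofReal (CI / UU (2 ^ (k - d))) *
            ENNReal.ofReal (CO * (1 + ((k' : ℝ) - ((k' - d : ℕ) : ℝ)))) * ENNReal.ofReal x) * RR D δ fo k (k - d) b I := by
          ring
      _ ≤ (ENNReal.ofReal (CG * (4 / ex) * ((1 + (d : ℝ)) * (2 : ℝ) ^ (-(ex / 2 * d))) * x) +
          ENNReal.ofReal (2 * CI * CO * ((1 + (d : ℝ)) * (2 : ℝ) ^ d * (2 : ℝ) ^ (-(ex * q))) * x)) *
            RR D δ fo k (k - d) b I := mul_le_mul' (add_le_add h5 h7) le_rfl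
      _ ≤ _ := by
          refine mul_le_mul' ?_ le_rfl
          rw [← ENNReal.ofReal_add (by positivity) (by positivity)]
          apply ENNReal.ofReal_le_ofReal
          rw [← add_mul]
          apply mul_le_mul_of_nonneg_right _ hx
          rw [hCν]
          unfold nu
          have a1 : 0 ≤ (1 + (d : ℝ)) * (2 : ℝ) ^ (-(ex / 2 * d)) := by positivity
          have a2 : 0 ≤ (1 + (d : ℝ)) * (2 : ℝ) ^ d * (2 : ℝ) ^ (-(ex * q)) := by positivity
          have a3 : 0 ≤ CG * (4 / ex) := by positivity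
          have a4 : 0 ≤ 2 * CI * CO := by positivity
          nlinarith [mul_nonneg a3 a2, mul_nonneg a4 a1]
  -- no next strand
  have hnone : ∀ (k u v b : ℕ) (I : List Bool), d ≤ k → 2 ^ k ≤ u → v ≤ 2 ^ (k + 1) → q ≤ k → v ≤ u + 2 ^ (k - q) →
      b + d ≤ k → ZO u v b I ≤ ENNReal.ofReal (2 * CI * (2 : ℝ) ^ d) * RR D δ fo k (k - d) b I := by
    intro k u v b I hdk hu hv hqk hvu hb
    have h1 : ZO u v b I ≤ ENNReal.ofReal (UU (v - u)) * InS k (k - d) b I :=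
      first_le d k u v b I (by omega) hdk hu hv
    have h3 := hI k (k - d) b I (by omega) (by omega)
    have hUd := Num2Aux.UU_pos (2 ^ (k - d))
    refine h1.trans ((mul_le_mul' le_rfl h3).trans ?_)
    rw [← mul_assoc, ← ENNReal.ofReal_mul (Num2Aux.UU_pos _).le]
    refine mul_le_mul' (ENNReal.ofReal_le_ofReal ?_) le_rfl
    have h6 : UU (v - u) ≤ UU (2 ^ (k - q)) := Num2Aux.UU_mono (Nat.sub_le_iff_le_add'.2 hvu)
    have h8 := win_num (d := d) (q := q) (k := k) (by omega) hqk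
    have h9 : UU (v - u) / UU (2 ^ (k - d)) ≤ 2 * ((2 : ℝ) ^ d * (2 : ℝ) ^ (-(ex * q))) :=
      (div_le_div_of_nonneg_right h6 hUd.le).trans h8
    have h10 : (2 : ℝ) ^ (-(ex * q)) ≤ 1 := by
      apply Real.rpow_le_one_of_one_le_of_nonpos (by norm_num)
      have : (0 : ℝ) ≤ ex * q := by positivity
      linarith
    calc UU (v - u) * (CI / UU (2 ^ (k - d))) = (UU (v - u) / UU (2 ^ (k - d))) * CI := by field_simp
      _ ≤ (2 * ((2 : ℝ) ^ d * (2 : ℝ) ^ (-(ex * q)))) * CI := mul_le_mul_of_nonneg_right h9 hCI.le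
      _ ≤ (2 * ((2 : ℝ) ^ d * 1)) * CI := by
          apply mul_le_mul_of_nonneg_right _ hCI.le
          apply mul_le_mul_of_nonneg_left _ (by norm_num)
          exact mul_le_mul_of_nonneg_left h10 (by positivity)
      _ = _ := by ring
  -- main induction
  have main : ∀ n, n₀ * 2 ^ q ≤ n → ∀ v, wb q n ≤ v → v ≤ wb q (n + 1) → ∀ (b r : ℕ) (I : List Bool),
      b ≤ n / 2 ^ q - d → I ∈ Irr r → Zw Z (wb q n) v b I ≤ ENNReal.ofReal (X * (1 + 2 * η) ^ n) *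
        RR D δ fo (n / 2 ^ q) (n / 2 ^ q - d) b I := by
    intro n
    induction n using Nat.strong_induction_on with
    | _ n ih =>
      intro hn v hv
      have hk0 : ∀ m, n₀ * 2 ^ q ≤ m → n₀ ≤ m / 2 ^ q := fun m hm => by
        rw [Nat.le_div_iff_mul_le h2q]
        exact hm
      have hkn := hk0 n hn
      induction v, hv using Nat.le_induction with
      | base =>
        intro _ b r I _ _
        rw [Zw_empty]
        exact bot_le
      | succ v hv ihv =>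
        intro hv1 b r I hb hI'
        have hqn : q ≤ n / 2 ^ q := hq.trans hkn
        have hlen : v + 1 ≤ wb q n + 2 ^ (n / 2 ^ q - q) := by rw [← wb_succ hqn]; exact hv1
        have hhi : v + 1 ≤ 2 ^ (n / 2 ^ q + 1) := hv1.trans (wb_hi hqn)
        refine (Zw_unroll hz hq hn hv1 b I).trans ?_
        rw [← hZ, ← hF0]
        have hA := hnone (n / 2 ^ q) (wb q n) (v + 1) b I (by omega) (wb_lo q n) hhi hqn hlen (by omega)
        have hB : ∀ m ∈ Finset.Ico (n₀ * 2 ^ q) n, ZN Z (wb q n) (v + 1) (wb q m) (wb q (m + 1)) b I ≤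
            ENNReal.ofReal (Cν * nu d q * (X * (1 + 2 * η) ^ m)) * RR D δ fo (n / 2 ^ q) (n / 2 ^ q - d) b I := by
          intro m hm
          rw [Finset.mem_Ico] at hm
          have hkm := hk0 m hm.1
          refine hnext (n / 2 ^ q) (m / 2 ^ q) _ _ _ _ b I _ (by positivity) (by omega)
            (Nat.div_le_div_right hm.2.le) (wb_lo q n) hhi hqn hlen (wb_lo q m) (wb_hi (hq.trans hkm)) (by omega)
            ⟨r, hI'⟩ ?_
          intro b' r' P hb' hP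
          exact ih m hm.2 hm.1 _ (wb_mono hq hm.1 (Nat.le_succ m)) le_rfl b' r' P hb' hP
        have hC' : ZN Z (wb q n) (v + 1) (wb q n) (v + 1 - 1) b I ≤
            ENNReal.ofReal (Cν * nu d q * (X * (1 + 2 * η) ^ n)) * RR D δ fo (n / 2 ^ q) (n / 2 ^ q - d) b I := by
          refine hnext (n / 2 ^ q) (n / 2 ^ q) _ _ _ _ b I _ (by positivity) (by omega) le_rfl (wb_lo q n) hhi hqn hlen
            (wb_lo q n) (by omega) (by omega) ⟨r, hI'⟩ ?_
          intro b' r' P hb' hP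
          exact ihv (by omega) b' r' P hb' hP
        have hsum : ENNReal.ofReal F0 * ZO (wb q n) (v + 1) b I + Z * (∑ m ∈ Finset.Ico (n₀ * 2 ^ q) n,
            ZN Z (wb q n) (v + 1) (wb q m) (wb q (m + 1)) b I + ZN Z (wb q n) (v + 1) (wb q n) (v + 1 - 1) b I) ≤
            (ENNReal.ofReal F0 * ENNReal.ofReal (2 * CI * (2 : ℝ) ^ d) + Z * (∑ m ∈ Finset.Ico (n₀ * 2 ^ q) n,
              ENNReal.ofReal (Cν * nu d q * (X * (1 + 2 * η) ^ m)) +
              ENNReal.ofReal (Cν * nu d q * (X * (1 + 2 * η) ^ n)))) * RR D δ fo (n / 2 ^ q) (n / 2 ^ q - d) b I := by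
          refine (add_le_add (mul_le_mul' le_rfl hA) (mul_le_mul' le_rfl
            (add_le_add (Finset.sum_le_sum hB) hC'))).trans (le_of_eq ?_)
          rw [← Finset.sum_mul]
          ring
        refine hsum.trans (mul_le_mul' ?_ le_rfl)
        rw [hZ, ← Finset.sum_Ico_succ_top hn, ← ENNReal.ofReal_sum_of_nonneg (fun m _ => by positivity),
          ← ENNReal.ofReal_mul (by positivity), ← ENNReal.ofReal_mul hz.le, ← ENNReal.ofReal_add (by positivity)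
          (by
            apply mul_nonneg hz.le
            exact Finset.sum_nonneg fun m _ => by positivity)]
        apply ENNReal.ofReal_le_ofReal
        have hsub : ∑ m ∈ Finset.Ico (n₀ * 2 ^ q) (n + 1), Cν * nu d q * (X * (1 + 2 * η) ^ m) ≤
            Cν * nu d q * ∑ m ∈ Finset.range (n + 1), X * (1 + 2 * η) ^ m := by
          rw [Finset.mul_sum]
          apply Finset.sum_le_sum_of_subset_of_nonneg
          · intro m hm
            rw [Finset.mem_Ico] at hm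
            rw [Finset.mem_range]
            exact hm.2
          · intro m _ _
            positivity
        have hS0 : 0 ≤ ∑ m ∈ Finset.range (n + 1), X * (1 + 2 * η) ^ m :=
          Finset.sum_nonneg fun m _ => by positivity
        have h1 : z * ∑ m ∈ Finset.Ico (n₀ * 2 ^ q) (n + 1), Cν * nu d q * (X * (1 + 2 * η) ^ m) ≤
            η * ∑ m ∈ Finset.range (n + 1), X * (1 + 2 * η) ^ m := by
          calc z * ∑ m ∈ Finset.Ico (n₀ * 2 ^ q) (n + 1), Cν * nu d q * (X * (1 + 2 * η) ^ m)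
              ≤ z * (Cν * nu d q * ∑ m ∈ Finset.range (n + 1), X * (1 + 2 * η) ^ m) :=
                mul_le_mul_of_nonneg_left hsub hz.le
            _ = (Cν * z * nu d q) * ∑ m ∈ Finset.range (n + 1), X * (1 + 2 * η) ^ m := by ring
            _ ≤ (C1 * z * nu d q) * ∑ m ∈ Finset.range (n + 1), X * (1 + 2 * η) ^ m := by
                apply mul_le_mul_of_nonneg_right _ hS0
                apply mul_le_mul_of_nonneg_right _ hnu.le
                exact mul_le_mul_of_nonneg_right hC1c hz.le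
            _ = _ := by rw [← hηd]
        have h2 : F0 * (2 * CI * (2 : ℝ) ^ d) ≤ X / 2 := by
          rw [hX]
          have : 0 ≤ F0 * (2 : ℝ) ^ d := by positivity
          nlinarith
        have h3 := iter_num hη0 hη hX0.le n
        linarith
  intro n b r I hn hb hI'
  have hkn : n₀ ≤ n / 2 ^ q := by
    rw [Nat.le_div_iff_mul_le h2q]
    exact hn
  exact main n hn _ (wb_mono hq hn (Nat.le_succ n)) le_rfl b r I (by omega) hI'

end Rec8

end HexObs
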