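import Pool.Agent.PHW8.DefsN8
import Pool.Agent.PHW8.Lev8
import Pool.Agent.HexWall.Sym
import Pool.Agent.PHW8.NumG8
import Pool.Agent.PHW8.MassG8

/-!
PHW, section S8, module N3c: the giants at both ends.
-/

set_option autoImplicit false

namespace HexObs

open Complex Finset ENNReal

namespace Rec8

private lemma sw_inv {A : Set (List Bool)} (hA : ∀ t ∈ A, rev t ∈ A) (F : List Bool → ℝ≥0∞) :
    sw A (fun t => F (rev t)) = sw A F := by
  unfold sw
  have e : ∀ t : {t : List Bool // t ∈ A}, wE t.1 * F (rev t.1) =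
      (fun s : {t : List Bool // t ∈ A} => wE s.1 * F s.1) ⟨rev t.1, hA t.1 t.2⟩ := by
    intro t
    show _ = wE (rev t.1) * F (rev t.1)
    rw [Wall.wE_rev]
  rw [tsum_congr e]
  have hinv : Function.Involutive (fun t : {t : List Bool // t ∈ A} =>
      (⟨rev t.1, hA t.1 t.2⟩ : {t : List Bool // t ∈ A})) := by
    intro t
    apply Subtype.ext
    exact rev_rev t.1
  exact (Equiv.ofBijective _ hinv.bijective).tsum_eq (fun s : {t : List Bool // t ∈ A} => wE s.1 * F s.1)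

private lemma gam_mono' {D δ η : ℝ} (hD : 0 ≤ D) (hη : 0 ≤ η) {l l' : ℕ} (m d : ℕ) (h : l ≤ l') :
    gam D δ η l m d ≤ gam D δ η l' m d := by
  unfold gam
  apply min_le_min_left
  apply Real.rpow_le_rpow_of_exponent_le (by norm_num)
  apply mul_le_mul_of_nonneg_left _ hη
  have : (l : ℝ) ≤ l' := by exact_mod_cast h
  nlinarith

private lemma gam_nonneg' (D δ η : ℝ) (l m d : ℕ) : 0 ≤ gam D δ η l m d := by
  unfold gam
  apply le_min zero_le_one
  positivity

private lemma et_nonneg {D : ℝ} (hD : 1 ≤ D) : 0 ≤ et D := by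
  unfold et ex
  have := Num2Aux.CW_pos
  apply le_min (by norm_num)
  positivity

/-- the factor of one end -/
private noncomputable def GG (D δ : ℝ) (fo : ℕ → ℕ → ℕ → List Bool → ℝ≥0∞) (k b a : ℕ) (P : List Bool) : ℝ≥0∞ :=
  if a ≤ b then ENNReal.ofReal (gam D δ (et D) k b (b - a)) else fo (2 ^ k) b a P

private noncomputable def g8 (D δ : ℝ) (k b a : ℕ) : ℝ := gam D δ (et D) k (max a b) (max a b - min a b)

private lemma RR_eq (D δ : ℝ) (fo : ℕ → ℕ → ℕ → List Bool → ℝ≥0∞) (k κ b : ℕ) (P : List Bool) :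
    RR D δ fo k κ b P = ∑ a ∈ Finset.range (κ + 1), ENNReal.ofReal (UU (2 ^ max a b)) * GG D δ fo k b a P := rfl

private lemma t8_kap (r : ℕ) : kap' r = ENNReal.ofReal (kk r) := by
  unfold kk
  rw [ENNReal.ofReal_toReal]
  have h1 : 0 < (BT r).toReal := uu_pos r
  have h2 : BT r ≠ ∞ := (ENNReal.toReal_pos_iff.mp h1).2.ne
  refine ne_top_of_le_ne_top h2 ?_
  rw [← gf_Brd]
  exact gf_mono fun t ht => ht.1

private lemma t8_UU_succ (n : ℕ) : UU (n + 1) ≤ 2 * UU n := by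
  rw [Num2Aux.UU_succ]
  have h1 : uu (n + 1) ≤ uu 0 := uu_anti (Nat.zero_le _)
  have h2 : UU 0 ≤ UU n := Num2Aux.UU_mono (Nat.zero_le n)
  have h3 : UU 0 = uu 0 := by
    unfold UU
    simp
  linarith

private lemma t8_SI_one (l : ℕ) : SI l (fun _ => 1) ≤ ENNReal.ofReal (2 / UU (2 ^ l)) := by
  have e : SI l (fun _ => 1) = ∑ r ∈ Finset.Ico (2 ^ l) (2 ^ (l + 1)), ENNReal.ofReal (kk r) := by
    unfold SI
    refine Finset.sum_congr rfl fun r _ => ?_
    rw [← t8_kap]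
    unfold sw kap' gf
    exact tsum_congr fun t => mul_one _
  rw [e, ← ENNReal.ofReal_sum_of_nonneg fun r _ => kk_nonneg r]
  apply ENNReal.ofReal_le_ofReal
  have h1 := sum_kk_le (2 ^ (l + 1))
  have h2 : 2 ^ l ≤ 2 ^ (l + 1) := Nat.pow_le_pow_right (by norm_num) (by omega)
  have h3 := Finset.sum_range_add_sum_Ico (f := kk) h2
  have h4 : ∑ r ∈ Finset.Ico (2 ^ l) (2 ^ (l + 1)), kk r ≤ KK' (2 ^ l) := by
    unfold KK'
    linarith
  obtain ⟨m, hm⟩ : ∃ m, 2 ^ l = m + 1 := ⟨2 ^ l - 1, by have := Nat.one_le_two_pow (n := l); omega⟩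
  rw [hm] at h4 ⊢
  have h5 := UU_mul_KK m
  have h6 := t8_UU_succ m
  have h7 := Num2Aux.UU_pos m
  have h8 := Num2Aux.UU_pos (m + 1)
  have h9 := KK_nonneg (m + 1)
  refine h4.trans ?_
  rw [le_div_iff₀ h8]
  nlinarith

private lemma giant_one {k : ℕ} (hk : 1 ≤ k) : ∑ r ∈ Finset.Ico (2 ^ (k - 1)) (2 ^ (k + 1)), sw (Irr r) (fun _ => 1) ≤
    ENNReal.ofReal (6 / UU (2 ^ k)) := by
  obtain ⟨j, rfl⟩ : ∃ j, k = j + 1 := ⟨k - 1, by omega⟩
  have e : j + 1 - 1 = j := by omega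
  rw [e]
  have h1 := t8_SI_one j
  have h2 := t8_SI_one (j + 1)
  unfold SI at h1 h2
  rw [← Finset.sum_Ico_consecutive _ (Nat.pow_le_pow_right (by norm_num) (by omega : j ≤ j + 1))
    (Nat.pow_le_pow_right (by norm_num) (by omega : j + 1 ≤ j + 1 + 1))]
  have hU := Num2Aux.UU_pos (2 ^ j)
  have hU' := Num2Aux.UU_pos (2 ^ (j + 1))
  refine (add_le_add h1 h2).trans ?_
  rw [← ENNReal.ofReal_add (by positivity) (by positivity)]
  apply ENNReal.ofReal_le_ofReal
  have h3 : UU (2 ^ (j + 1)) ≤ 2 * UU (2 ^ j) := by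
    have := UU_double (2 ^ j)
    rwa [← pow_succ'] at this
  have h4 : 2 / UU (2 ^ j) ≤ 4 / UU (2 ^ (j + 1)) := by
    rw [div_le_div_iff₀ hU hU']
    linarith
  have h5 : 6 / UU (2 ^ (j + 1)) = 4 / UU (2 ^ (j + 1)) + 2 / UU (2 ^ (j + 1)) := by ring
  rw [h5]
  linarith

private lemma term_le {C D δ : ℝ} {fi : ℕ → ℕ → List Bool → ℝ≥0∞} {fo : ℕ → ℕ → ℕ → List Bool → ℝ≥0∞}
    (h : In8 C D δ fi fo) : ∃ C2 : ℝ, 0 < C2 ∧ ∀ k k1 k2 a b a' b' : ℕ, a + 1 ≤ k1 → b + 1 ≤ k1 → k1 ≤ k →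
      a' + 1 ≤ k2 → b' + 1 ≤ k2 → k2 ≤ k →
      ∑ r ∈ Finset.Ico (2 ^ (k - 1)) (2 ^ (k + 1)), sw (Irr r) (fun P => GG D δ fo k1 b a P * GG D δ fo k2 b' a' (rev P)) ≤
        ENNReal.ofReal (C2 / UU (2 ^ k) * (g8 D δ k b a * g8 D δ k b' a')) := by
  obtain ⟨Co, hCo, ho⟩ := gi_out h
  obtain ⟨Ct, hCt, ht⟩ := gi_two h
  have hD := h.D_one
  have hη := et_nonneg hD
  refine ⟨6 + Co + Ct, by positivity, ?_⟩
  intro k k1 k2 a b a' b' ha hb hk1 ha' hb' hk2
  have hU := Num2Aux.UU_pos (2 ^ k)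
  have hgn : ∀ l m d, 0 ≤ gam D δ (et D) l m d := gam_nonneg' D δ (et D)
  unfold GG g8
  by_cases h1 : a ≤ b
  · by_cases h2 : a' ≤ b'
    · simp only [if_pos h1, if_pos h2, max_eq_right h1, max_eq_right h2, min_eq_left h1, min_eq_left h2]
      have e : ∀ r, sw (Irr r) (fun _ => ENNReal.ofReal (gam D δ (et D) k1 b (b - a)) *
          ENNReal.ofReal (gam D δ (et D) k2 b' (b' - a'))) = (ENNReal.ofReal (gam D δ (et D) k1 b (b - a)) *
          ENNReal.ofReal (gam D δ (et D) k2 b' (b' - a'))) * sw (Irr r) (fun _ => 1) := by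
        intro r
        rw [← sw_mul_left]
        simp only [mul_one]
      rw [Finset.sum_congr rfl (fun r _ => e r), ← Finset.mul_sum]
      refine (mul_le_mul' le_rfl (giant_one (by omega))).trans ?_
      rw [← ENNReal.ofReal_mul (hgn _ _ _), ← ENNReal.ofReal_mul (mul_nonneg (hgn _ _ _) (hgn _ _ _))]
      apply ENNReal.ofReal_le_ofReal
      have m1 := gam_mono' (D := D) (δ := δ) (by linarith) hη b (b - a) hk1
      have m2 := gam_mono' (D := D) (δ := δ) (by linarith) hη b' (b' - a') hk2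
      have m3 := mul_le_mul m1 m2 (hgn _ _ _) (hgn _ _ _)
      have m4 : 6 / UU (2 ^ k) ≤ (6 + Co + Ct) / UU (2 ^ k) := by
        apply div_le_div_of_nonneg_right _ hU.le
        linarith
      rw [mul_comm]
      exact mul_le_mul m4 m3 (mul_nonneg (hgn _ _ _) (hgn _ _ _)) (by positivity)
    · have h2' : b' ≤ a' := by omega
      simp only [if_pos h1, if_neg h2, max_eq_right h1, max_eq_left h2', min_eq_left h1, min_eq_right h2']
      have e : ∀ r, sw (Irr r) (fun P => ENNReal.ofReal (gam D δ (et D) k1 b (b - a)) * fo (2 ^ k2) b' a' (rev P)) =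
          ENNReal.ofReal (gam D δ (et D) k1 b (b - a)) * sw (Irr r) (fo (2 ^ k2) b' a') := by
        intro r
        rw [sw_mul_left]
        congr 1
        exact sw_inv (fun t ht => Irr_rev ht) (fo (2 ^ k2) b' a')
      rw [Finset.sum_congr rfl (fun r _ => e r), ← Finset.mul_sum]
      refine (mul_le_mul' le_rfl (ho k k2 a' b' h2' ha' hk2)).trans ?_
      rw [← ENNReal.ofReal_mul (hgn _ _ _)]
      apply ENNReal.ofReal_le_ofReal
      have m1 := gam_mono' (D := D) (δ := δ) (by linarith) hη b (b - a) hk1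
      have m4 : Co / UU (2 ^ k) ≤ (6 + Co + Ct) / UU (2 ^ k) := by
        apply div_le_div_of_nonneg_right _ hU.le
        linarith
      calc gam D δ (et D) k1 b (b - a) * (Co / UU (2 ^ k) * gam D δ (et D) k a' (a' - b'))
          = Co / UU (2 ^ k) * (gam D δ (et D) k1 b (b - a) * gam D δ (et D) k a' (a' - b')) := by ring
        _ ≤ _ := mul_le_mul m4 (mul_le_mul_of_nonneg_right m1 (hgn _ _ _)) (mul_nonneg (hgn _ _ _) (hgn _ _ _))
            (by positivity)
  · have h1' : b ≤ a := by omega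
    by_cases h2 : a' ≤ b'
    · simp only [if_neg h1, if_pos h2, max_eq_left h1', max_eq_right h2, min_eq_right h1', min_eq_left h2]
      have e : ∀ r, sw (Irr r) (fun P => fo (2 ^ k1) b a P * ENNReal.ofReal (gam D δ (et D) k2 b' (b' - a'))) =
          sw (Irr r) (fo (2 ^ k1) b a) * ENNReal.ofReal (gam D δ (et D) k2 b' (b' - a')) := by
        intro r
        rw [sw_mul_right]
      rw [Finset.sum_congr rfl (fun r _ => e r), ← Finset.sum_mul]
      refine (mul_le_mul' (ho k k1 a b h1' ha hk1) le_rfl).trans ?_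
      rw [← ENNReal.ofReal_mul' (hgn _ _ _)]
      apply ENNReal.ofReal_le_ofReal
      have m1 := gam_mono' (D := D) (δ := δ) (by linarith) hη b' (b' - a') hk2
      have m4 : Co / UU (2 ^ k) ≤ (6 + Co + Ct) / UU (2 ^ k) := by
        apply div_le_div_of_nonneg_right _ hU.le
        linarith
      calc Co / UU (2 ^ k) * gam D δ (et D) k a (a - b) * gam D δ (et D) k2 b' (b' - a')
          = Co / UU (2 ^ k) * (gam D δ (et D) k a (a - b) * gam D δ (et D) k2 b' (b' - a')) := by ring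
        _ ≤ _ := mul_le_mul m4 (mul_le_mul_of_nonneg_left m1 (hgn _ _ _)) (mul_nonneg (hgn _ _ _) (hgn _ _ _))
            (by positivity)
    · have h2' : b' ≤ a' := by omega
      simp only [if_neg h1, if_neg h2, max_eq_left h1', max_eq_left h2', min_eq_right h1', min_eq_right h2']
      refine (ht k k1 k2 a b a' b' h1' ha hk1 h2' ha' hk2).trans ?_
      apply ENNReal.ofReal_le_ofReal
      apply mul_le_mul_of_nonneg_right _ (mul_nonneg (hgn _ _ _) (hgn _ _ _))
      apply div_le_div_of_nonneg_right _ hU.le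
      linarith

theorem GiT_le {C D δ : ℝ} {fi : ℕ → ℕ → List Bool → ℝ≥0∞} {fo : ℕ → ℕ → ℕ → List Bool → ℝ≥0∞}
    (h : In8 C D δ fi fo) : ∃ C1 : ℝ, 0 < C1 ∧ ∀ (z x x' : ℝ≥0∞) (k k1 k2 κ κ' u v u' v' : ℕ), κ + 3 ≤ k1 → k1 ≤ k →
      κ' + 3 ≤ k2 → k2 ≤ k →
      (∀ (b r : ℕ) (P : List Bool), b ≤ κ → P ∈ Irr r → Zw z u v b P ≤ x * RR D δ fo k1 κ b P) →
      (∀ (b r : ℕ) (P : List Bool), b ≤ κ' → P ∈ Irr r → Zw z u' v' b P ≤ x' * RR D δ fo k2 κ' b P) →
      GiT z k κ κ' u v u' v' ≤ ENNReal.ofReal (C1 * ((1 + ((k : ℝ) - κ)) * UU (2 ^ κ)) *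
        ((1 + ((k : ℝ) - κ')) * UU (2 ^ κ')) / UU (2 ^ k)) * (x * x') := by
  obtain ⟨CL, hCL, hL⟩ := lam_le h.D_one h.δ_pos
  obtain ⟨C2, hC2, h2⟩ := term_le h
  refine ⟨C2 * (CL * CL), by positivity, ?_⟩
  intro z x x' k k1 k2 κ κ' u v u' v' hκ hk1 hκ' hk2 hyp hyp'
  have hU := Num2Aux.UU_pos (2 ^ k)
  have hgn : ∀ b a, 0 ≤ g8 D δ k b a := fun b a => gam_nonneg' D δ (et D) _ _ _
  have hUn : ∀ n, 0 ≤ UU n := fun n => (Num2Aux.UU_pos n).le
  unfold GiT
  -- step 1: insert the hypotheses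
  have s1 : ∀ r, sw (Irr r) (fun P => (∑ b ∈ Finset.range (κ + 1), Zw z u v b P) *
      ∑ b' ∈ Finset.range (κ' + 1), Zw z u' v' b' (rev P)) ≤
      (x * x') * ∑ b ∈ Finset.range (κ + 1), ∑ a ∈ Finset.range (κ + 1), ∑ b' ∈ Finset.range (κ' + 1),
        ∑ a' ∈ Finset.range (κ' + 1), (ENNReal.ofReal (UU (2 ^ max a b)) * ENNReal.ofReal (UU (2 ^ max a' b'))) *
          sw (Irr r) (fun P => GG D δ fo k1 b a P * GG D δ fo k2 b' a' (rev P)) := by
    intro r
    calc sw (Irr r) (fun P => (∑ b ∈ Finset.range (κ + 1), Zw z u v b P) *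
          ∑ b' ∈ Finset.range (κ' + 1), Zw z u' v' b' (rev P))
        ≤ sw (Irr r) (fun P => (x * x') * ∑ b ∈ Finset.range (κ + 1), ∑ a ∈ Finset.range (κ + 1),
            ∑ b' ∈ Finset.range (κ' + 1), ∑ a' ∈ Finset.range (κ' + 1),
              (ENNReal.ofReal (UU (2 ^ max a b)) * ENNReal.ofReal (UU (2 ^ max a' b'))) *
              (GG D δ fo k1 b a P * GG D δ fo k2 b' a' (rev P))) := by
          refine sw_mono' fun P hP => ?_
          have e1 : ∑ b ∈ Finset.range (κ + 1), Zw z u v b P ≤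
              x * ∑ b ∈ Finset.range (κ + 1), ∑ a ∈ Finset.range (κ + 1),
                ENNReal.ofReal (UU (2 ^ max a b)) * GG D δ fo k1 b a P := by
            rw [Finset.mul_sum]
            refine Finset.sum_le_sum fun b hb => ?_
            rw [← RR_eq]
            exact hyp b r P (by rw [Finset.mem_range] at hb; omega) hP
          have e2 : ∑ b' ∈ Finset.range (κ' + 1), Zw z u' v' b' (rev P) ≤
              x' * ∑ b' ∈ Finset.range (κ' + 1), ∑ a' ∈ Finset.range (κ' + 1),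
                ENNReal.ofReal (UU (2 ^ max a' b')) * GG D δ fo k2 b' a' (rev P) := by
            rw [Finset.mul_sum]
            refine Finset.sum_le_sum fun b hb => ?_
            rw [← RR_eq]
            exact hyp' b r (rev P) (by rw [Finset.mem_range] at hb; omega) (Irr_rev hP)
          refine (mul_le_mul' e1 e2).trans (le_of_eq ?_)
          rw [mul_mul_mul_comm]
          congr 1
          rw [Finset.sum_mul]
          refine Finset.sum_congr rfl fun b _ => ?_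
          rw [Finset.sum_mul]
          refine Finset.sum_congr rfl fun a _ => ?_
          rw [Finset.mul_sum]
          refine Finset.sum_congr rfl fun b' _ => ?_
          rw [Finset.mul_sum]
          refine Finset.sum_congr rfl fun a' _ => ?_
          ring
      _ = _ := by
          rw [sw_mul_left, sw_sum]
          congr 1
          refine Finset.sum_congr rfl fun b _ => ?_
          rw [sw_sum]
          refine Finset.sum_congr rfl fun a _ => ?_
          rw [sw_sum]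
          refine Finset.sum_congr rfl fun b' _ => ?_
          rw [sw_sum]
          refine Finset.sum_congr rfl fun a' _ => ?_
          rw [sw_mul_left]
  refine (Finset.sum_le_sum fun r _ => s1 r).trans ?_
  rw [← Finset.mul_sum, mul_comm (x * x')]
  refine mul_le_mul' ?_ le_rfl
  -- step 2: exchange the sums
  have s2 : ∑ r ∈ Finset.Ico (2 ^ (k - 1)) (2 ^ (k + 1)), ∑ b ∈ Finset.range (κ + 1), ∑ a ∈ Finset.range (κ + 1),
        ∑ b' ∈ Finset.range (κ' + 1), ∑ a' ∈ Finset.range (κ' + 1),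
        (ENNReal.ofReal (UU (2 ^ max a b)) * ENNReal.ofReal (UU (2 ^ max a' b'))) *
          sw (Irr r) (fun P => GG D δ fo k1 b a P * GG D δ fo k2 b' a' (rev P)) =
      ∑ b ∈ Finset.range (κ + 1), ∑ a ∈ Finset.range (κ + 1), ∑ b' ∈ Finset.range (κ' + 1),
        ∑ a' ∈ Finset.range (κ' + 1), (ENNReal.ofReal (UU (2 ^ max a b)) * ENNReal.ofReal (UU (2 ^ max a' b'))) *
          ∑ r ∈ Finset.Ico (2 ^ (k - 1)) (2 ^ (k + 1)),
            sw (Irr r) (fun P => GG D δ fo k1 b a P * GG D δ fo k2 b' a' (rev P)) := by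
    rw [Finset.sum_comm]
    refine Finset.sum_congr rfl fun b _ => ?_
    rw [Finset.sum_comm]
    refine Finset.sum_congr rfl fun a _ => ?_
    rw [Finset.sum_comm]
    refine Finset.sum_congr rfl fun b' _ => ?_
    rw [Finset.sum_comm]
    refine Finset.sum_congr rfl fun a' _ => ?_
    rw [Finset.mul_sum]
  rw [s2]
  have s3 : ∑ b ∈ Finset.range (κ + 1), ∑ a ∈ Finset.range (κ + 1), ∑ b' ∈ Finset.range (κ' + 1),
        ∑ a' ∈ Finset.range (κ' + 1), (ENNReal.ofReal (UU (2 ^ max a b)) * ENNReal.ofReal (UU (2 ^ max a' b'))) *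
          ∑ r ∈ Finset.Ico (2 ^ (k - 1)) (2 ^ (k + 1)),
            sw (Irr r) (fun P => GG D δ fo k1 b a P * GG D δ fo k2 b' a' (rev P)) ≤
      ∑ b ∈ Finset.range (κ + 1), ∑ a ∈ Finset.range (κ + 1), ∑ b' ∈ Finset.range (κ' + 1),
        ∑ a' ∈ Finset.range (κ' + 1), ENNReal.ofReal (C2 / UU (2 ^ k) *
          ((UU (2 ^ max a b) * g8 D δ k b a) * (UU (2 ^ max a' b') * g8 D δ k b' a'))) := by
    refine Finset.sum_le_sum fun b hb => Finset.sum_le_sum fun a ha => Finset.sum_le_sum fun b' hb' =>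
      Finset.sum_le_sum fun a' ha' => ?_
    rw [Finset.mem_range] at hb ha hb' ha'
    refine (mul_le_mul' le_rfl (h2 k k1 k2 a b a' b' (by omega) (by omega) hk1 (by omega) (by omega) hk2)).trans ?_
    rw [← ENNReal.ofReal_mul (hUn _), ← ENNReal.ofReal_mul (mul_nonneg (hUn _) (hUn _))]
    apply ENNReal.ofReal_le_ofReal
    apply le_of_eq
    ring
  refine s3.trans ?_
  have nn : ∀ b a b' a', 0 ≤ C2 / UU (2 ^ k) *
      ((UU (2 ^ max a b) * g8 D δ k b a) * (UU (2 ^ max a' b') * g8 D δ k b' a')) := by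
    intro b a b' a'
    have := hUn (2 ^ max a b)
    have := hUn (2 ^ max a' b')
    have := hgn b a
    have := hgn b' a'
    positivity
  have s4 : ∑ b ∈ Finset.range (κ + 1), ∑ a ∈ Finset.range (κ + 1), ∑ b' ∈ Finset.range (κ' + 1),
        ∑ a' ∈ Finset.range (κ' + 1), ENNReal.ofReal (C2 / UU (2 ^ k) *
          ((UU (2 ^ max a b) * g8 D δ k b a) * (UU (2 ^ max a' b') * g8 D δ k b' a'))) =
      ENNReal.ofReal (∑ b ∈ Finset.range (κ + 1), ∑ a ∈ Finset.range (κ + 1), ∑ b' ∈ Finset.range (κ' + 1),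
        ∑ a' ∈ Finset.range (κ' + 1), C2 / UU (2 ^ k) *
          ((UU (2 ^ max a b) * g8 D δ k b a) * (UU (2 ^ max a' b') * g8 D δ k b' a'))) := by
    rw [ENNReal.ofReal_sum_of_nonneg (fun b _ => Finset.sum_nonneg fun a _ => Finset.sum_nonneg fun b' _ =>
      Finset.sum_nonneg fun a' _ => nn b a b' a')]
    refine Finset.sum_congr rfl fun b _ => ?_
    rw [ENNReal.ofReal_sum_of_nonneg (fun a _ => Finset.sum_nonneg fun b' _ =>
      Finset.sum_nonneg fun a' _ => nn b a b' a')]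
    refine Finset.sum_congr rfl fun a _ => ?_
    rw [ENNReal.ofReal_sum_of_nonneg (fun b' _ => Finset.sum_nonneg fun a' _ => nn b a b' a')]
    refine Finset.sum_congr rfl fun b' _ => ?_
    rw [ENNReal.ofReal_sum_of_nonneg (fun a' _ => nn b a b' a')]
  rw [s4]
  apply ENNReal.ofReal_le_ofReal
  have s5 : ∑ b ∈ Finset.range (κ + 1), ∑ a ∈ Finset.range (κ + 1), ∑ b' ∈ Finset.range (κ' + 1),
        ∑ a' ∈ Finset.range (κ' + 1), C2 / UU (2 ^ k) *
          ((UU (2 ^ max a b) * g8 D δ k b a) * (UU (2 ^ max a' b') * g8 D δ k b' a')) =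
      C2 / UU (2 ^ k) * ((∑ b ∈ Finset.range (κ + 1), ∑ a ∈ Finset.range (κ + 1), UU (2 ^ max a b) * g8 D δ k b a) *
        (∑ b' ∈ Finset.range (κ' + 1), ∑ a' ∈ Finset.range (κ' + 1), UU (2 ^ max a' b') * g8 D δ k b' a')) := by
    rw [Finset.sum_mul, Finset.mul_sum]
    refine Finset.sum_congr rfl fun b _ => ?_
    rw [Finset.sum_mul, Finset.mul_sum]
    refine Finset.sum_congr rfl fun a _ => ?_
    rw [Finset.mul_sum, Finset.mul_sum]
    refine Finset.sum_congr rfl fun b' _ => ?_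
    rw [Finset.mul_sum, Finset.mul_sum]
  rw [s5]
  have l1 := hL κ k (by omega)
  have l2 := hL κ' k (by omega)
  have n1 : 0 ≤ ∑ b ∈ Finset.range (κ + 1), ∑ a ∈ Finset.range (κ + 1), UU (2 ^ max a b) * g8 D δ k b a :=
    Finset.sum_nonneg fun b _ => Finset.sum_nonneg fun a _ => mul_nonneg (hUn _) (hgn _ _)
  have n2 : 0 ≤ ∑ b ∈ Finset.range (κ' + 1), ∑ a ∈ Finset.range (κ' + 1), UU (2 ^ max a b) * g8 D δ k b a :=
    Finset.sum_nonneg fun b _ => Finset.sum_nonneg fun a _ => mul_nonneg (hUn _) (hgn _ _)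
  have l3 := mul_le_mul l1 l2 n2 (n1.trans l1)
  calc C2 / UU (2 ^ k) * ((∑ b ∈ Finset.range (κ + 1), ∑ a ∈ Finset.range (κ + 1), UU (2 ^ max a b) * g8 D δ k b a) *
        (∑ b' ∈ Finset.range (κ' + 1), ∑ a' ∈ Finset.range (κ' + 1), UU (2 ^ max a' b') * g8 D δ k b' a'))
      ≤ C2 / UU (2 ^ k) * ((CL * (1 + ((k : ℝ) - κ)) * UU (2 ^ κ)) * (CL * (1 + ((k : ℝ) - κ')) * UU (2 ^ κ'))) :=
        mul_le_mul_of_nonneg_left l3 (by positivity)
    _ = _ := by ring

end Rec8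

end HexObs
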