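import Pool.Agent.PHW8.EndT
import Pool.Agent.PHW8.Iter8
import Pool.Agent.PHW8.KerT8
import Pool.Agent.PHW.IterQ

/-!
PHW, section S8: the end for T*, from the numeric claims.
-/

set_option autoImplicit false

namespace HexObs

open Complex Finset ENNReal

namespace Rec8

/-- the growth of UU absorbs a factor linear in the number of scales -/
theorem UU_lin : ∃ C : ℝ, 0 < C ∧ ∀ k κ : ℕ, κ ≤ k → (1 + ((k : ℝ) - κ)) * UU (2 ^ κ) ≤ C * UU (2 ^ k) := by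
  have he := ex_pos
  obtain ⟨c, hc⟩ : ∃ c : ℝ, c = ex * Real.log 2 := ⟨_, rfl⟩
  have hl : 0 < Real.log 2 := Real.log_pos (by norm_num)
  have hc0 : 0 < c := by rw [hc]; positivity
  refine ⟨2 * (1 + 1 / c), by positivity, ?_⟩
  intro k κ hκ
  obtain ⟨m, rfl⟩ : ∃ m, k = κ + m := ⟨k - κ, by omega⟩
  have h1 := IterQ.UU_down (k := κ + m) (m := m) (by omega)
  rw [Nat.add_sub_cancel] at h1
  have hU := Num2Aux.UU_pos (2 ^ κ)
  have h2 : 1 + c * m ≤ ((2 : ℝ) ^ m) ^ (1 / (6 + CW)) := by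
    have h3 : ((2 : ℝ) ^ m) ^ (1 / (6 + CW)) = Real.exp (c * m) := by
      rw [Real.rpow_def_of_pos (by positivity), Real.log_pow, hc]
      unfold ex
      congr 1
      ring
    rw [h3]
    have := Real.add_one_le_exp (c * m)
    linarith
  have h4 : (1 : ℝ) + m ≤ (1 + 1 / c) * (1 + c * m) := by
    have h5 : (1 + 1 / c) * (1 + c * m) = 1 + m + 1 / c + c * m := by
      field_simp
      ring
    rw [h5]
    have : 0 ≤ 1 / c + c * m := by positivity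
    linarith
  push_cast
  calc (1 + ((κ : ℝ) + m - κ)) * UU (2 ^ κ) = (1 + m) * UU (2 ^ κ) := by ring
    _ ≤ ((1 + 1 / c) * (1 + c * m)) * UU (2 ^ κ) := mul_le_mul_of_nonneg_right h4 hU.le
    _ ≤ ((1 + 1 / c) * ((2 : ℝ) ^ m) ^ (1 / (6 + CW))) * UU (2 ^ κ) := by
        apply mul_le_mul_of_nonneg_right _ hU.le
        apply mul_le_mul_of_nonneg_left h2
        positivity
    _ = (1 + 1 / c) * (UU (2 ^ κ) * ((2 : ℝ) ^ m) ^ (1 / (6 + CW))) := by ring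
    _ ≤ (1 + 1 / c) * (2 * UU (2 ^ (κ + m))) := mul_le_mul_of_nonneg_left h1 (by positivity)
    _ = _ := by ring

theorem wb_zero (n : ℕ) : wb 0 n = 2 ^ n := by
  unfold wb
  rw [pow_zero, Nat.div_one, Nat.mod_one, Nat.zero_mul, Nat.add_zero]

theorem S8_CBz {C D δ : ℝ} {fi : ℕ → ℕ → List Bool → ℝ≥0∞} {fo : ℕ → ℕ → ℕ → List Bool → ℝ≥0∞}
    (h : In8 C D δ fi fo) : CBz := by
  apply CBz_of_Hyp8T
  intro ε hε
  obtain ⟨C1, hC1, hcl⟩ := claim8 h
  obtain ⟨CO, hCO, hO⟩ := OutS_le h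
  obtain ⟨CG, hCG, hG⟩ := GiT_le h
  obtain ⟨CL, hCL, hL⟩ := UU_lin
  -- the small factor
  obtain ⟨ρ, hρ⟩ : ∃ ρ : ℝ, ρ = 2 ^ ε := ⟨_, rfl⟩
  have hρ1 : 1 < ρ := by
    rw [hρ]
    exact Real.one_lt_rpow (by norm_num) hε
  obtain ⟨V, hV⟩ : ∃ V : ℝ, V = C1 * nu 3 0 := ⟨_, rfl⟩
  have hV0 : 0 < V := by
    rw [hV]
    have : 0 < nu 3 0 := by unfold nu; positivity
    have : 0 < C1 := by linarith
    positivity
  obtain ⟨z, hz⟩ : ∃ z : ℝ, z = min 1 (min (1 / (2 * V)) ((ρ - 1) / (2 * V))) := ⟨_, rfl⟩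
  have hρ0 : 0 < ρ - 1 := by linarith
  have hz0 : 0 < z := by rw [hz]; positivity
  have hz1 : z ≤ 1 := by rw [hz]; exact min_le_left _ _
  have hz2 : C1 * z * nu 3 0 ≤ 1 / 2 := by
    have h1 : z ≤ 1 / (2 * V) := by rw [hz]; exact (min_le_right _ _).trans (min_le_left _ _)
    calc C1 * z * nu 3 0 = V * z := by rw [hV]; ring
      _ ≤ V * (1 / (2 * V)) := mul_le_mul_of_nonneg_left h1 hV0.le
      _ = 1 / 2 := by field_simp
  have hz3 : 1 + 2 * (C1 * z * nu 3 0) ≤ ρ := by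
    have h1 : z ≤ (ρ - 1) / (2 * V) := by rw [hz]; exact (min_le_right _ _).trans (min_le_right _ _)
    have h2 : V * z ≤ V * ((ρ - 1) / (2 * V)) := mul_le_mul_of_nonneg_left h1 hV0.le
    have h3 : V * ((ρ - 1) / (2 * V)) = (ρ - 1) / 2 := by field_simp
    have h4 : C1 * z * nu 3 0 = V * z := by rw [hV]; ring
    rw [h4]
    linarith
  obtain ⟨B, hB⟩ : ∃ B : ℝ, B = C1 * (1 + 2 * z) ^ 2 ^ 3 * (2 : ℝ) ^ 3 := ⟨_, rfl⟩
  have hB0 : 0 < B := by
    rw [hB]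
    have : 0 < C1 := by linarith
    positivity
  have hx0 : ∀ j : ℕ, 0 ≤ B * ρ ^ (3 + j) := fun j => by
    have : 0 < ρ := by linarith
    positivity
  -- the kernel bound
  have hker : ∀ j : ℕ, ∀ (b r : ℕ) (P : List Bool), b ≤ 3 + j - 3 → P ∈ Irr r →
      Zw (ENNReal.ofReal z) (2 ^ (3 + j)) (2 ^ (3 + (j + 1))) b P ≤
        ENNReal.ofReal (B * ρ ^ (3 + j)) * RR D δ fo (3 + j) (3 + j - 3) b P := by
    intro j b r P hb hP
    have h1 := hcl z 3 0 3 hz0 le_rfl (by omega) le_rfl hz2 (3 + j) b r P (by omega)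
      (by rw [pow_zero, Nat.div_one]; omega) hP
    rw [wb_zero, wb_zero, pow_zero, Nat.div_one, ← hB] at h1
    refine h1.trans (mul_le_mul' (ENNReal.ofReal_le_ofReal ?_) le_rfl)
    apply mul_le_mul_of_nonneg_left _ hB0.le
    apply pow_le_pow_left₀ _ hz3
    have : 0 < C1 := by linarith
    have h2 : 0 < nu 3 0 := by unfold nu; positivity
    positivity
  obtain ⟨C', hC'⟩ : ∃ C' : ℝ, C' = 4 * CO + CG * (CL * CL) + B * (ρ / (ρ - 1)) := ⟨_, rfl⟩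
  have hterm1 : 0 < 4 * CO := by positivity
  have hterm2 : 0 < CG * (CL * CL) := by positivity
  have hterm3 : 0 < B * (ρ / (ρ - 1)) := by
    have : 0 < ρ := by linarith
    positivity
  refine ⟨z, 3, 3, 1, fun j => 2 ^ (3 + j), fun j => B * ρ ^ (3 + j), C', hz0, hz1, le_rfl, le_rfl, le_rfl,
    by rw [hC']; positivity, hx0, ?_, ?_, ?_, ?_, ?_⟩
  · intro a b hab
    exact Nat.pow_le_pow_right (by norm_num) (by omega)
  · intro i
    show 2 ^ (3 + 1 * i) = _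
    rw [one_mul]
  · intro j k hjk
    rw [Nat.div_one] at hjk ⊢
    refine (hO (ENNReal.ofReal z) (ENNReal.ofReal (B * ρ ^ (3 + j))) k (3 + j) (3 + j - 3) _ _ (by omega) hjk
      (hker j)).trans ?_
    have e1 : (1 : ℝ) + (((3 + j : ℕ) : ℝ) - ((3 + j - 3 : ℕ) : ℝ)) = 4 := by
      rw [Nat.add_sub_cancel_left]
      push_cast
      ring
    rw [e1, ← ENNReal.ofReal_mul (by positivity)]
    apply ENNReal.ofReal_le_ofReal
    apply mul_le_mul_of_nonneg_right _ (hx0 j)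
    rw [hC']
    linarith
  · intro j j' k hjk hjk'
    rw [Nat.div_one] at hjk hjk' ⊢
    rw [Nat.div_one]
    refine (hG (ENNReal.ofReal z) (ENNReal.ofReal (B * ρ ^ (3 + j))) (ENNReal.ofReal (B * ρ ^ (3 + j'))) k (3 + j)
      (3 + j') (3 + j - 3) (3 + j' - 3) _ _ _ _ (by omega) hjk (by omega) hjk' (hker j) (hker j')).trans ?_
    have l1 := hL k (3 + j - 3) (by omega)
    have l2 := hL k (3 + j' - 3) (by omega)
    have hUk := Num2Aux.UU_pos (2 ^ k)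
    obtain ⟨A1, hA1⟩ : ∃ A1 : ℝ, A1 = (1 + ((k : ℝ) - ((3 + j - 3 : ℕ) : ℝ))) * UU (2 ^ (3 + j - 3)) := ⟨_, rfl⟩
    obtain ⟨A2, hA2⟩ : ∃ A2 : ℝ, A2 = (1 + ((k : ℝ) - ((3 + j' - 3 : ℕ) : ℝ))) * UU (2 ^ (3 + j' - 3)) := ⟨_, rfl⟩
    have hA10 : 0 ≤ A1 := by
      rw [hA1]
      apply mul_nonneg _ (Num2Aux.UU_pos _).le
      have : ((3 + j - 3 : ℕ) : ℝ) ≤ k := by
        exact_mod_cast (show 3 + j - 3 ≤ k by omega)
      linarith
    have hA20 : 0 ≤ A2 := by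
      rw [hA2]
      apply mul_nonneg _ (Num2Aux.UU_pos _).le
      have : ((3 + j' - 3 : ℕ) : ℝ) ≤ k := by
        exact_mod_cast (show 3 + j' - 3 ≤ k by omega)
      linarith
    rw [← hA1] at l1 ⊢
    rw [← hA2] at l2 ⊢
    rw [← ENNReal.ofReal_mul (hx0 j), ← ENNReal.ofReal_mul (by positivity)]
    apply ENNReal.ofReal_le_ofReal
    have h1 : CG * A1 * A2 / UU (2 ^ k) ≤ C' * UU (2 ^ k) := by
      rw [div_le_iff₀ hUk]
      have h2 : A1 * A2 ≤ (CL * UU (2 ^ k)) * (CL * UU (2 ^ k)) := mul_le_mul l1 l2 hA20 (by positivity)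
      have h3 : CG * (CL * CL) ≤ C' := by rw [hC']; linarith
      calc CG * A1 * A2 = CG * (A1 * A2) := by ring
        _ ≤ CG * ((CL * UU (2 ^ k)) * (CL * UU (2 ^ k))) := mul_le_mul_of_nonneg_left h2 hCG.le
        _ = CG * (CL * CL) * (UU (2 ^ k) * UU (2 ^ k)) := by ring
        _ ≤ C' * (UU (2 ^ k) * UU (2 ^ k)) := mul_le_mul_of_nonneg_right h3 (by positivity)
        _ = _ := by ring
    calc CG * A1 * A2 / UU (2 ^ k) * (B * ρ ^ (3 + j) * (B * ρ ^ (3 + j')))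
        ≤ C' * UU (2 ^ k) * (B * ρ ^ (3 + j) * (B * ρ ^ (3 + j'))) :=
          mul_le_mul_of_nonneg_right h1 (mul_nonneg (hx0 j) (hx0 j'))
      _ = _ := by ring
  · intro i
    rw [one_mul, ← Finset.mul_sum]
    have h1 := geo_sum hρ1 3 (i + 1)
    have h2 : ρ ^ (3 + (i + 1)) / (ρ - 1) = ρ / (ρ - 1) * ρ ^ (3 + i) := by
      rw [← add_assoc, pow_succ]
      ring
    have h3 : ((2 : ℝ) ^ (3 + i)) ^ ε = ρ ^ (3 + i) := by
      rw [hρ, ← Real.rpow_natCast (2 ^ ε), ← Real.rpow_natCast 2, ← Real.rpow_mul (by norm_num),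
        ← Real.rpow_mul (by norm_num), mul_comm]
    rw [h3]
    have h4 : 0 ≤ ρ ^ (3 + i) := by
      have : 0 < ρ := by linarith
      positivity
    calc B * ∑ j ∈ Finset.range (i + 1), ρ ^ (3 + j) ≤ B * (ρ / (ρ - 1) * ρ ^ (3 + i)) := by
          rw [← h2]
          exact mul_le_mul_of_nonneg_left h1 hB0.le
      _ = B * (ρ / (ρ - 1)) * ρ ^ (3 + i) := by ring
      _ ≤ C' * ρ ^ (3 + i) := by
          apply mul_le_mul_of_nonneg_right _ h4
          rw [hC']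
          linarith

end Rec8

end HexObs
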