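import Pool.Agent.PHW8.Lev8
import Pool.Agent.PHW.Num1
import Pool.Agent.PHW.Num2

/-!
PHW, section S8: blocks of heights and averages over the levels.
-/

set_option autoImplicit false

namespace HexObs

open Complex Finset ENNReal

namespace Rec8

open Classical in
/-- the heights of the block a -/
noncomputable def blk (a : ℕ) : Finset ℕ := (Finset.range (2 ^ (a + 1))).filter (fun h => Fld.Bl a h)

theorem mem_blk {a h : ℕ} : h ∈ blk a ↔ Fld.Bl a h := by
  classical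
  unfold blk
  simp only [Finset.mem_filter, Finset.mem_range]
  constructor
  · exact fun h1 => h1.2
  · exact fun h1 => ⟨h1.1, h1⟩

theorem Bl_unique {a a' h : ℕ} (h1 : Fld.Bl a h) (h2 : Fld.Bl a' h) : a = a' := by
  obtain ⟨h1a, h1b⟩ := h1
  obtain ⟨h2a, h2b⟩ := h2
  by_contra hne
  rcases Nat.lt_or_gt_of_ne hne with hlt | hlt
  · rcases h2b with h2b | h2b
    · have : 2 ^ (a + 1) ≤ 2 ^ a' := Nat.pow_le_pow_right (by norm_num) hlt
      omega
    · omega
  · rcases h1b with h1b | h1b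
    · have : 2 ^ (a' + 1) ≤ 2 ^ a := Nat.pow_le_pow_right (by norm_num) hlt
      omega
    · omega

theorem exists_Bl {κ h : ℕ} (hh : h < 2 ^ (κ + 1)) : ∃ a, a ≤ κ ∧ Fld.Bl a h := by
  refine ⟨Nat.log 2 h, ?_, ?_, ?_⟩
  · rcases Nat.eq_zero_or_pos h with h0 | h0
    · subst h0
      simp
    · exact Nat.lt_succ_iff.1 ((Nat.log_lt_iff_lt_pow (by norm_num) (by omega)).2 hh)
  · exact Nat.lt_pow_succ_log_self (by norm_num) h
  · rcases Nat.eq_zero_or_pos h with h0 | h0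
    · subst h0
      simp
    · exact Or.inl (Nat.pow_log_le_self 2 (by omega))

/-- sum over the blocks -/
theorem sum_blocks (κ : ℕ) (c : ℕ → ℝ≥0∞) :
    ∑ j ∈ Finset.range (2 ^ (κ + 1)), c j = ∑ a ∈ Finset.range (κ + 1), ∑ j ∈ blk a, c j := by
  classical
  rw [← Finset.sum_biUnion]
  · refine Finset.sum_congr ?_ fun _ _ => rfl
    ext j
    rw [Finset.mem_range, Finset.mem_biUnion]
    constructor
    · intro hj
      obtain ⟨a, ha, hb⟩ := exists_Bl hj
      exact ⟨a, Finset.mem_range.2 (by omega), mem_blk.2 hb⟩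
    · rintro ⟨a, ha, hb⟩
      rw [Finset.mem_range] at ha
      have h1 := (mem_blk.1 hb).1
      have : 2 ^ (a + 1) ≤ 2 ^ (κ + 1) := Nat.pow_le_pow_right (by norm_num) (by omega)
      omega
  · intro a _ a' _ hne
    rw [Function.onFun, Finset.disjoint_left]
    intro j h1 h2
    exact hne (Bl_unique (mem_blk.1 h1) (mem_blk.1 h2))

/-- sum over the heights of a block -/
theorem sum_blk_le (a : ℕ) (F : List Bool → ℝ≥0∞) :
    ∑ j ∈ blk a, sw (Brd j) F ≤ sw (Fld.BrB a) F := by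
  classical
  have h1 : ∑ j ∈ blk a, sw (Brd j) F = ∑' t : List Bool, ∑ j ∈ blk a, if t ∈ Brd j then wE t * F t else 0 := by
    rw [Summable.tsum_finsetSum (fun _ _ => ENNReal.summable)]
    exact Finset.sum_congr rfl fun j _ => sw_ind _ _
  rw [h1, sw_ind]
  refine ENNReal.tsum_le_tsum fun t => ?_
  by_cases hex : ∃ j ∈ blk a, t ∈ Brd j
  · obtain ⟨j, hj, ht⟩ := hex
    rw [Finset.sum_eq_single j]
    · rw [if_pos ht, if_pos]
      exact ⟨j, mem_blk.1 hj, ht⟩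
    · intro j' _ hne
      rw [if_neg]
      exact fun h => hne (Brd_height h ht)
    · exact fun h => absurd hj h
  · push Not at hex
    rw [Finset.sum_eq_zero]
    · exact zero_le
    · intro j hj
      rw [if_neg (hex j hj)]

/-- the number of the levels covered by a piece -/
theorem card_levels {κ a j r : ℕ} (hj : Fld.Bl a j) :
    (((Finset.Ico (2 ^ κ) (2 ^ (κ + 1))).filter (fun l => j ≤ l ∧ l < j + r)).card : ℝ≥0∞) ≤ 2 ^ κ * mb κ a r := by
  unfold mb
  split_ifs with h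
  · rw [mul_zero]
    apply le_of_eq
    rw [Nat.cast_eq_zero, Finset.card_eq_zero, Finset.filter_eq_empty_iff]
    intro l hl hl2
    rw [Finset.mem_Ico] at hl
    have h1 := hj.1
    have h2 : 2 ^ (a + 1) ≤ 2 ^ (κ - 1) := Nat.pow_le_pow_right (by norm_num) (by omega)
    have h3 : 2 ^ κ = 2 * 2 ^ (κ - 1) := by
      rw [← pow_succ']
      congr 1
      omega
    omega
  · have hk : (2 : ℝ≥0∞) ^ κ ≠ 0 := by positivity
    have hk' : (2 : ℝ≥0∞) ^ κ ≠ ∞ := by simp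
    rw [min_def]
    split_ifs with h2
    · rw [mul_one]
      have h3 : ((Finset.Ico (2 ^ κ) (2 ^ (κ + 1))).filter (fun l => j ≤ l ∧ l < j + r)).card ≤ 2 ^ κ := by
        refine (Finset.card_filter_le _ _).trans ?_
        rw [Nat.card_Ico, pow_succ]
        omega
      exact_mod_cast h3
    · rw [ENNReal.mul_div_cancel hk hk']
      have h3 : ((Finset.Ico (2 ^ κ) (2 ^ (κ + 1))).filter (fun l => j ≤ l ∧ l < j + r)).card ≤ r := by
        calc _ ≤ (Finset.Ico j (j + r)).card := by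
              apply Finset.card_le_card
              intro l hl
              rw [Finset.mem_filter] at hl
              rw [Finset.mem_Ico]
              exact hl.2
          _ = r := by
              rw [Nat.card_Ico]
              omega
      exact_mod_cast h3

/-- the sum over the levels of [2 ^ κ, 2 ^ (κ + 1)) -/
theorem sum_levels (κ R : ℕ) (c : ℕ → ℕ → ℝ≥0∞) :
    ∑ l ∈ Finset.Ico (2 ^ κ) (2 ^ (κ + 1)), ∑ j ∈ Finset.range (l + 1), ∑ r ∈ Finset.Ico (l + 1 - j) R, c j r ≤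
      2 ^ κ * ∑ a ∈ Finset.range (κ + 1), ∑ r ∈ Finset.range R, mb κ a r * ∑ j ∈ blk a, c j r := by
  classical
  have h1 : ∀ l ∈ Finset.Ico (2 ^ κ) (2 ^ (κ + 1)),
      ∑ j ∈ Finset.range (l + 1), ∑ r ∈ Finset.Ico (l + 1 - j) R, c j r =
      ∑ j ∈ Finset.range (2 ^ (κ + 1)), ∑ r ∈ Finset.range R, if j ≤ l ∧ l < j + r then c j r else 0 := by
    intro l hl
    rw [Finset.mem_Ico] at hl
    have e1 : Finset.range (l + 1) = (Finset.range (2 ^ (κ + 1))).filter (fun j => j ≤ l) := by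
      ext j
      rw [Finset.mem_filter, Finset.mem_range, Finset.mem_range]
      omega
    rw [e1, Finset.sum_filter]
    refine Finset.sum_congr rfl fun j _ => ?_
    by_cases hj : j ≤ l
    · rw [if_pos hj]
      have e2 : Finset.Ico (l + 1 - j) R = (Finset.range R).filter (fun r => l < j + r) := by
        ext r
        rw [Finset.mem_filter, Finset.mem_range, Finset.mem_Ico]
        omega
      rw [e2, Finset.sum_filter]
      refine Finset.sum_congr rfl fun r _ => ?_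
      simp only [hj, true_and]
    · rw [if_neg hj]
      symm
      refine Finset.sum_eq_zero fun r _ => ?_
      rw [if_neg (fun h => hj h.1)]
  rw [Finset.sum_congr rfl h1, Finset.sum_comm, sum_blocks, Finset.mul_sum]
  refine Finset.sum_le_sum fun a _ => ?_
  have h2 : ∀ j ∈ blk a, ∑ l ∈ Finset.Ico (2 ^ κ) (2 ^ (κ + 1)), ∑ r ∈ Finset.range R,
      (if j ≤ l ∧ l < j + r then c j r else 0) ≤ ∑ r ∈ Finset.range R, 2 ^ κ * (mb κ a r * c j r) := by
    intro j hj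
    rw [Finset.sum_comm]
    refine Finset.sum_le_sum fun r _ => ?_
    rw [← Finset.sum_filter, Finset.sum_const, nsmul_eq_mul, ← mul_assoc]
    exact mul_le_mul_left (card_levels (mem_blk.1 hj)) _
  refine (Finset.sum_le_sum h2).trans ?_
  rw [Finset.sum_comm, Finset.mul_sum]
  refine Finset.sum_le_sum fun r _ => ?_
  rw [← Finset.mul_sum, ← Finset.mul_sum]

/-- average over the levels at one end -/
theorem avg_one {κ R : ℕ} {X U : ℝ≥0∞} {c : ℕ → ℕ → ℝ≥0∞}
    (h : ∀ l ∈ Finset.Ico (2 ^ κ) (2 ^ (κ + 1)), X ≤ U * ∑ j ∈ Finset.range (l + 1), ∑ r ∈ Finset.Ico (l + 1 - j) R, c j r) :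
    X ≤ U * ∑ a ∈ Finset.range (κ + 1), ∑ r ∈ Finset.range R, mb κ a r * ∑ j ∈ blk a, c j r := by
  have hk : (2 : ℝ≥0∞) ^ κ ≠ 0 := by positivity
  have hk' : (2 : ℝ≥0∞) ^ κ ≠ ∞ := by simp
  have hcard : (Finset.Ico (2 ^ κ) (2 ^ (κ + 1))).card = 2 ^ κ := by
    rw [Nat.card_Ico, pow_succ]
    omega
  have h1 : (2 : ℝ≥0∞) ^ κ * X ≤ 2 ^ κ * (U * ∑ a ∈ Finset.range (κ + 1), ∑ r ∈ Finset.range R,
      mb κ a r * ∑ j ∈ blk a, c j r) := by
    calc (2 : ℝ≥0∞) ^ κ * X = ∑ _l ∈ Finset.Ico (2 ^ κ) (2 ^ (κ + 1)), X := by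
          rw [Finset.sum_const, hcard, nsmul_eq_mul]
          push_cast
          rfl
      _ ≤ ∑ l ∈ Finset.Ico (2 ^ κ) (2 ^ (κ + 1)), U * ∑ j ∈ Finset.range (l + 1),
          ∑ r ∈ Finset.Ico (l + 1 - j) R, c j r := Finset.sum_le_sum h
      _ ≤ U * (2 ^ κ * ∑ a ∈ Finset.range (κ + 1), ∑ r ∈ Finset.range R, mb κ a r * ∑ j ∈ blk a, c j r) := by
          rw [← Finset.mul_sum]
          exact mul_le_mul_right (sum_levels κ R c) _
      _ = _ := by ring
  exact (ENNReal.mul_le_mul_iff_right hk hk').1 h1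

/-- average over the levels at two ends -/
theorem avg_two {κ κ' R R' : ℕ} {X G U : ℝ≥0∞} {c c' : ℕ → ℕ → ℝ≥0∞}
    (h : ∀ l ∈ Finset.Ico (2 ^ κ) (2 ^ (κ + 1)), ∀ l' ∈ Finset.Ico (2 ^ κ') (2 ^ (κ' + 1)),
      X ≤ G + U * (∑ j ∈ Finset.range (l + 1), ∑ r ∈ Finset.Ico (l + 1 - j) R, c j r) *
        ∑ j ∈ Finset.range (l' + 1), ∑ r ∈ Finset.Ico (l' + 1 - j) R', c' j r) :
    X ≤ G + U * (∑ a ∈ Finset.range (κ + 1), ∑ r ∈ Finset.range R, mb κ a r * ∑ j ∈ blk a, c j r) *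
      ∑ a ∈ Finset.range (κ' + 1), ∑ r ∈ Finset.range R', mb κ' a r * ∑ j ∈ blk a, c' j r := by
  have hk : ∀ κ : ℕ, (2 : ℝ≥0∞) ^ κ ≠ 0 := fun κ => by positivity
  have hk' : ∀ κ : ℕ, (2 : ℝ≥0∞) ^ κ ≠ ∞ := fun κ => by simp
  have hcard : ∀ κ : ℕ, (Finset.Ico (2 ^ κ) (2 ^ (κ + 1))).card = 2 ^ κ := by
    intro κ
    rw [Nat.card_Ico, pow_succ]
    omega
  have hc : ∀ (κ : ℕ) (Y : ℝ≥0∞), ∑ _l ∈ Finset.Ico (2 ^ κ) (2 ^ (κ + 1)), Y = 2 ^ κ * Y := by
    intro κ Y
    rw [Finset.sum_const, hcard, nsmul_eq_mul]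
    push_cast
    rfl
  have h1 : ∀ l ∈ Finset.Ico (2 ^ κ) (2 ^ (κ + 1)), X ≤ G + U * (∑ j ∈ Finset.range (l + 1),
      ∑ r ∈ Finset.Ico (l + 1 - j) R, c j r) * ∑ a ∈ Finset.range (κ' + 1), ∑ r ∈ Finset.range R',
      mb κ' a r * ∑ j ∈ blk a, c' j r := by
    intro l hl
    refine (ENNReal.mul_le_mul_iff_right (hk κ') (hk' κ')).1 ?_
    calc (2 : ℝ≥0∞) ^ κ' * X = ∑ _l ∈ Finset.Ico (2 ^ κ') (2 ^ (κ' + 1)), X := (hc κ' X).symm
      _ ≤ ∑ l' ∈ Finset.Ico (2 ^ κ') (2 ^ (κ' + 1)), (G + U * (∑ j ∈ Finset.range (l + 1),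
          ∑ r ∈ Finset.Ico (l + 1 - j) R, c j r) * ∑ j ∈ Finset.range (l' + 1),
          ∑ r ∈ Finset.Ico (l' + 1 - j) R', c' j r) := Finset.sum_le_sum fun l' hl' => h l hl l' hl'
      _ = 2 ^ κ' * G + U * (∑ j ∈ Finset.range (l + 1), ∑ r ∈ Finset.Ico (l + 1 - j) R, c j r) *
          ∑ l' ∈ Finset.Ico (2 ^ κ') (2 ^ (κ' + 1)), ∑ j ∈ Finset.range (l' + 1),
          ∑ r ∈ Finset.Ico (l' + 1 - j) R', c' j r := by
          rw [Finset.sum_add_distrib, hc, ← Finset.mul_sum]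
      _ ≤ 2 ^ κ' * G + U * (∑ j ∈ Finset.range (l + 1), ∑ r ∈ Finset.Ico (l + 1 - j) R, c j r) *
          (2 ^ κ' * ∑ a ∈ Finset.range (κ' + 1), ∑ r ∈ Finset.range R', mb κ' a r * ∑ j ∈ blk a, c' j r) := by
          gcongr
          exact sum_levels κ' R' c'
      _ = _ := by ring
  refine (ENNReal.mul_le_mul_iff_right (hk κ) (hk' κ)).1 ?_
  calc (2 : ℝ≥0∞) ^ κ * X = ∑ _l ∈ Finset.Ico (2 ^ κ) (2 ^ (κ + 1)), X := (hc κ X).symm
    _ ≤ _ := Finset.sum_le_sum h1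
    _ = 2 ^ κ * G + (U * ∑ a ∈ Finset.range (κ' + 1), ∑ r ∈ Finset.range R',
        mb κ' a r * ∑ j ∈ blk a, c' j r) * ∑ l ∈ Finset.Ico (2 ^ κ) (2 ^ (κ + 1)), ∑ j ∈ Finset.range (l + 1),
        ∑ r ∈ Finset.Ico (l + 1 - j) R, c j r := by
        rw [Finset.sum_add_distrib, hc, Finset.mul_sum]
        congr 1
        exact Finset.sum_congr rfl fun l _ => by ring
    _ ≤ 2 ^ κ * G + (U * ∑ a ∈ Finset.range (κ' + 1), ∑ r ∈ Finset.range R',
        mb κ' a r * ∑ j ∈ blk a, c' j r) * (2 ^ κ * ∑ a ∈ Finset.range (κ + 1), ∑ r ∈ Finset.range R,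
        mb κ a r * ∑ j ∈ blk a, c j r) := by
        gcongr
        exact sum_levels κ R c
    _ = _ := by ring

/-- a window of heights shifted by s -/
theorem sum_shift_le {u v s L : ℕ} (F : ℕ → ℝ≥0∞) :
    ∑ t ∈ Finset.Ico u v, (if s ≤ t ∧ t - s ≤ L then F (t - s) else 0) ≤ ∑ m ∈ Finset.range (L + 1), F m := by
  classical
  rw [← Finset.sum_filter]
  have h1 : ∑ t ∈ (Finset.Ico u v).filter (fun t => s ≤ t ∧ t - s ≤ L), F (t - s) =
      ∑ m ∈ ((Finset.Ico u v).filter (fun t => s ≤ t ∧ t - s ≤ L)).image (fun t => t - s), F m := by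
    rw [Finset.sum_image]
    intro a ha b hb hab
    rw [Finset.mem_coe, Finset.mem_filter] at ha hb
    have hab' : a - s = b - s := hab
    omega
  rw [h1]
  apply Finset.sum_le_sum_of_subset
  intro m hm
  rw [Finset.mem_image] at hm
  obtain ⟨t, ht, rfl⟩ := hm
  rw [Finset.mem_filter] at ht
  rw [Finset.mem_range]
  omega

theorem BT_eq (n : ℕ) : BT n = ENNReal.ofReal (uu n) := by
  unfold uu
  rw [ENNReal.ofReal_toReal]
  rcases Nat.eq_zero_or_pos n with h | h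
  · subst h
    rw [← gf_Brd, Brd_zero]
    unfold gf
    rw [tsum_singleton]
    unfold wE
    simp
  · exact ne_top_of_le_ne_top ENNReal.one_ne_top (BT_le_one h)

/-- the bridges whose height is in a window shifted by s -/
theorem sum_BT_le_UU {u v s : ℕ} :
    ∑ t ∈ Finset.Ico u v, (if s ≤ t then BT (t - s) else 0) ≤ ENNReal.ofReal (UU (v - u)) := by
  classical
  rw [← Finset.sum_filter]
  have hset : (Finset.Ico u v).filter (fun t => s ≤ t) = Finset.Ico (max u s) v := by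
    ext t
    rw [Finset.mem_filter, Finset.mem_Ico, Finset.mem_Ico]
    omega
  rw [hset, Finset.sum_Ico_eq_sum_range]
  unfold UU
  rw [ENNReal.ofReal_sum_of_nonneg (fun t _ => (uu_pos t).le)]
  calc ∑ i ∈ Finset.range (v - max u s), BT (max u s + i - s) ≤ ∑ i ∈ Finset.range (v - max u s), ENNReal.ofReal (uu i) := by
        refine Finset.sum_le_sum fun i _ => ?_
        rw [BT_eq]
        exact ENNReal.ofReal_le_ofReal (uu_anti (by omega))
    _ ≤ _ := by
        apply Finset.sum_le_sum_of_subset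
        intro i hi
        rw [Finset.mem_range] at hi ⊢
        omega

end Rec8

end HexObs
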