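import Pool.Agent.PHW8.SSum
import Pool.Agent.PHW.Jump
import Pool.Agent.PHW.Rotate

/-!
PHW, section S8, module 8A: the double jump.
-/

set_option autoImplicit false

namespace HexObs

open Finset ENNReal

/-- coverings by three factors -/
theorem SS_cover3 {A B C D : Set (List Bool)} (h : ∀ g ∈ D, ∃ a ∈ A, ∃ b ∈ B, ∃ c ∈ C, g = a ++ b ++ c)
    (f : List Bool → ℝ≥0∞) :
    SS D f ≤ SS A (fun a => SS B (fun b => SS C (fun c => f (a ++ b ++ c)))) := by
  have h1 : ∀ g ∈ D, ∃ a ∈ A, ∃ w ∈ {w : List Bool | ∃ b ∈ B, ∃ c ∈ C, w = b ++ c}, g = a ++ w := by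
    intro g hg
    obtain ⟨a, ha, b, hb, c, hc, e⟩ := h g hg
    exact ⟨a, ha, b ++ c, ⟨b, hb, c, hc, rfl⟩, by rw [e, List.append_assoc]⟩
  refine (SS_cover h1 f).trans (SS_mono fun a _ => ?_)
  refine (SS_cover (A := B) (B := C) (fun g hg => hg) (fun w => f (a ++ w))).trans (le_of_eq ?_)
  refine SS_congr fun b _ => SS_congr fun c _ => ?_
  show f (a ++ (b ++ c)) = _
  rw [List.append_assoc]

/-- the piece over the level x -/
theorem jumpI {t x : ℕ} (h : x < t) (f : List Bool → ℝ≥0∞) : SS (Brd t) f ≤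
    ∑ a ∈ range (x + 1), ∑ r ∈ Ioc (x - a) (t - a),
      SS (Brd a) (fun N => SS (Irr r) (fun P => SS (Brd (t - a - r)) (fun Z => f (N ++ P ++ Z)))) := by
  set I : Finset (Σ _ : ℕ, ℕ) := (range (x + 1)).sigma (fun a => Ioc (x - a) (t - a)) with hI
  set D : (Σ _ : ℕ, ℕ) → Set (List Bool) := fun i =>
    {g | ∃ N ∈ Brd i.1, ∃ P ∈ Irr i.2, ∃ Z ∈ Brd (t - i.1 - i.2), g = N ++ P ++ Z} with hD
  have hsub : Brd t ⊆ ⋃ i ∈ I, D i := by
    intro g hg
    obtain ⟨j, r, a, p, u, h1, h2, h3, ha, hp, hu, he⟩ := jump_dec h hg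
    refine Set.mem_iUnion₂.2 ⟨⟨j, r⟩, ?_, a, ha, p, hp, u, hu, he⟩
    rw [hI, Finset.mem_sigma, Finset.mem_range, Finset.mem_Ioc]
    simp only
    exact ⟨by omega, by omega, by omega⟩
  refine ((SS_mono_set hsub f).trans (SS_biUnion_le I D f)).trans ?_
  rw [hI, Finset.sum_sigma]
  exact Finset.sum_le_sum fun a _ => Finset.sum_le_sum fun r _ => SS_cover3 (fun g hg => hg) f

/-- the piece over the level y from the end -/
theorem jumpO' {m y : ℕ} (h : y < m) (f : List Bool → ℝ≥0∞) : SS (Brd m) f ≤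
    ∑ b ∈ range (y + 1), ∑ s ∈ Ioc (y - b) (m - b),
      SS (Brd (m - b - s)) (fun X => SS (Irr s) (fun Q => SS (Brd b) (fun M => f (X ++ Q ++ M)))) := by
  set I : Finset (Σ _ : ℕ, ℕ) := (range (y + 1)).sigma (fun b => Ioc (y - b) (m - b)) with hI
  set D : (Σ _ : ℕ, ℕ) → Set (List Bool) := fun i =>
    {g | ∃ X ∈ Brd (m - i.1 - i.2), ∃ Q ∈ Irr i.2, ∃ M ∈ Brd i.1, g = X ++ Q ++ M} with hD
  have hsub : Brd m ⊆ ⋃ i ∈ I, D i := by
    intro g hg
    obtain ⟨j, r, a, p, u, h1, h2, h3, ha, hp, hu, he⟩ := jump_dec h (Brd_rev hg)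
    have e : g = rev u ++ rev p ++ rev a := by
      have e1 : rev (rev g) = rev (a ++ p ++ u) := by rw [he]
      rw [rev_rev, rev_append, rev_append, ← List.append_assoc] at e1
      exact e1
    refine Set.mem_iUnion₂.2 ⟨⟨j, r⟩, ?_, rev u, Brd_rev hu, rev p, Irr_rev hp, rev a, Brd_rev ha, e⟩
    rw [hI, Finset.mem_sigma, Finset.mem_range, Finset.mem_Ioc]
    simp only
    exact ⟨by omega, by omega, by omega⟩
  refine ((SS_mono_set hsub f).trans (SS_biUnion_le I D f)).trans ?_
  rw [hI, Finset.sum_sigma]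
  exact Finset.sum_le_sum fun a _ => Finset.sum_le_sum fun r _ => SS_cover3 (fun g hg => hg) f

/-- the piece over the level x and the piece over the level y from the end (equal or one before the other) -/
theorem jump2 {t x y : ℕ} (h : x + y < t) (f : List Bool → ℝ≥0∞) : SS (Brd t) f ≤
    (∑ a ∈ range (x + 1), ∑ b ∈ range (y + 1),
      SS (Brd a) (fun N => SS (Irr (t - a - b)) (fun P => SS (Brd b) (fun M => f (N ++ P ++ M))))) +
    ∑ a ∈ range (x + 1), ∑ b ∈ range (y + 1), ∑ r ∈ Ioc (x - a) t, ∑ s ∈ Ioc (y - b) t,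
      if a + r + s + b ≤ t then SS (Brd a) (fun N => SS (Irr r) (fun P => SS (Brd (t - a - r - s - b)) (fun X =>
        SS (Irr s) (fun Q => SS (Brd b) (fun M => f (N ++ P ++ X ++ Q ++ M)))))) else 0 := by
  classical
  set T1 : ℕ → ℕ → ℝ≥0∞ := fun a b =>
    SS (Brd a) (fun N => SS (Irr (t - a - b)) (fun P => SS (Brd b) (fun M => f (N ++ P ++ M)))) with hT1
  set T2 : ℕ → ℕ → ℕ → ℕ → ℝ≥0∞ := fun a b r s =>
    if a + r + s + b ≤ t then SS (Brd a) (fun N => SS (Irr r) (fun P => SS (Brd (t - a - r - s - b)) (fun X =>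
        SS (Irr s) (fun Q => SS (Brd b) (fun M => f (N ++ P ++ X ++ Q ++ M)))))) else 0 with hT2
  -- one term
  have hone : ∀ a ∈ range (x + 1), ∀ r ∈ Ioc (x - a) (t - a),
      SS (Brd a) (fun N => SS (Irr r) (fun P => SS (Brd (t - a - r)) (fun Z => f (N ++ P ++ Z)))) ≤
        (if t - a - r ≤ y then T1 a (t - a - r) else 0) +
          ∑ b ∈ range (y + 1), ∑ s ∈ Ioc (y - b) t, T2 a b r s := by
    intro a ha r hr
    rw [Finset.mem_range] at ha
    rw [Finset.mem_Ioc] at hr
    by_cases hy : t - a - r ≤ y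
    · rw [if_pos hy]
      refine le_trans (le_of_eq ?_) le_self_add
      rw [hT1]
      have e : t - a - (t - a - r) = r := by omega
      show _ = SS (Brd a) (fun N => SS (Irr (t - a - (t - a - r))) (fun P =>
        SS (Brd (t - a - r)) (fun M => f (N ++ P ++ M))))
      rw [e]
    · rw [if_neg hy, zero_add]
      have h1 : SS (Brd a) (fun N => SS (Irr r) (fun P => SS (Brd (t - a - r)) (fun Z => f (N ++ P ++ Z)))) ≤
          SS (Brd a) (fun N => SS (Irr r) (fun P => ∑ b ∈ range (y + 1), ∑ s ∈ Ioc (y - b) (t - a - r - b),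
            SS (Brd (t - a - r - b - s)) (fun X => SS (Irr s) (fun Q => SS (Brd b) (fun M =>
              f (N ++ P ++ X ++ Q ++ M)))))) := by
        refine SS_mono fun N _ => SS_mono fun P _ => ?_
        refine (jumpO' (m := t - a - r) (y := y) (by omega) (fun Z => f (N ++ P ++ Z))).trans (le_of_eq ?_)
        refine Finset.sum_congr rfl fun b _ => Finset.sum_congr rfl fun s _ => ?_
        refine SS_congr fun X _ => SS_congr fun Q _ => SS_congr fun M _ => ?_
        simp only [List.append_assoc]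
      refine h1.trans ?_
      have h2 : SS (Brd a) (fun N => SS (Irr r) (fun P => ∑ b ∈ range (y + 1), ∑ s ∈ Ioc (y - b) (t - a - r - b),
            SS (Brd (t - a - r - b - s)) (fun X => SS (Irr s) (fun Q => SS (Brd b) (fun M =>
              f (N ++ P ++ X ++ Q ++ M)))))) =
          ∑ b ∈ range (y + 1), ∑ s ∈ Ioc (y - b) (t - a - r - b), SS (Brd a) (fun N => SS (Irr r) (fun P =>
            SS (Brd (t - a - r - b - s)) (fun X => SS (Irr s) (fun Q => SS (Brd b) (fun M =>
              f (N ++ P ++ X ++ Q ++ M)))))) := by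
        simp only [SS_sum]
      rw [h2]
      refine Finset.sum_le_sum fun b _ => ?_
      calc ∑ s ∈ Ioc (y - b) (t - a - r - b), SS (Brd a) (fun N => SS (Irr r) (fun P =>
            SS (Brd (t - a - r - b - s)) (fun X => SS (Irr s) (fun Q => SS (Brd b) (fun M =>
              f (N ++ P ++ X ++ Q ++ M))))))
          ≤ ∑ s ∈ Ioc (y - b) (t - a - r - b), T2 a b r s := by
            refine Finset.sum_le_sum fun s hs => ?_
            rw [Finset.mem_Ioc] at hs
            have e : t - a - r - b - s = t - a - r - s - b := by omega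
            have hle : a + r + s + b ≤ t := by omega
            rw [hT2]
            show _ ≤ (if a + r + s + b ≤ t then _ else _)
            rw [if_pos hle, e]
        _ ≤ ∑ s ∈ Ioc (y - b) t, T2 a b r s :=
            Finset.sum_le_sum_of_subset (Finset.Ioc_subset_Ioc_right (by omega))
  -- sum over r
  have hsum : ∀ a ∈ range (x + 1), ∑ r ∈ Ioc (x - a) (t - a),
      SS (Brd a) (fun N => SS (Irr r) (fun P => SS (Brd (t - a - r)) (fun Z => f (N ++ P ++ Z)))) ≤
        ∑ b ∈ range (y + 1), T1 a b + ∑ b ∈ range (y + 1), ∑ r ∈ Ioc (x - a) t, ∑ s ∈ Ioc (y - b) t, T2 a b r s := by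
    intro a ha
    refine (Finset.sum_le_sum fun r hr => hone a ha r hr).trans ?_
    rw [Finset.sum_add_distrib]
    refine add_le_add ?_ ?_
    · rw [← Finset.sum_filter]
      have hinj : Set.InjOn (fun r => t - a - r) ((Ioc (x - a) (t - a)).filter (fun r => t - a - r ≤ y) : Finset ℕ) := by
        intro r hr r' hr' hrr
        have h1 := Finset.mem_filter.1 (Finset.mem_coe.1 hr)
        have h2 := Finset.mem_filter.1 (Finset.mem_coe.1 hr')
        have h3 := Finset.mem_Ioc.1 h1.1
        have h4 := Finset.mem_Ioc.1 h2.1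
        have h5 : t - a - r = t - a - r' := hrr
        omega
      rw [← Finset.sum_image (f := fun b => T1 a b) (g := fun r => t - a - r) hinj]
      refine Finset.sum_le_sum_of_subset fun b hb => ?_
      obtain ⟨r, hr, rfl⟩ := Finset.mem_image.1 hb
      have h1 := (Finset.mem_filter.1 hr).2
      rw [Finset.mem_range]
      omega
    · rw [Finset.sum_comm]
      refine Finset.sum_le_sum fun b _ => ?_
      exact Finset.sum_le_sum_of_subset (Finset.Ioc_subset_Ioc_right (by omega))
  refine (jumpI (t := t) (x := x) (by omega) f).trans ((Finset.sum_le_sum fun a ha => hsum a ha).trans ?_)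
  rw [Finset.sum_add_distrib]

end HexObs
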