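import Pool.Agent.PHW8.Defs8
import Pool.Agent.PHW8.Jump2
import Pool.Agent.PHW.Num2

/-!
PHW, section S8, T6: both ends of a bridge (doc proof/PHW_S8_final).
-/

set_option autoImplicit false

namespace HexObs

open Complex Finset ENNReal

namespace Rec8

namespace Bth

lemma sw_eq (A : Set (List Bool)) (F : List Bool → ℝ≥0∞) : sw A F = SS A F := rfl

/-- the next strands in [u, v) behind I ++ M -/
noncomputable def zf (z : ℝ≥0∞) (u v : ℕ) (I M : List Bool) : ℝ≥0∞ :=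
  ∑ t ∈ Finset.Ico u v, sw {Y | Y ∈ Brd t ∧ NbE t I M Y} (fun Y => Fch z (t - 1) Y)

lemma Zw_eq (z : ℝ≥0∞) (u v b : ℕ) (I : List Bool) : Zw z u v b I = SS (Fld.BrB b) (zf z u v I) := rfl

/-- the same, M of height m -/
noncomputable def za (z : ℝ≥0∞) (u v m : ℕ) (I : List Bool) : ℝ≥0∞ := SS (Brd m) (zf z u v I)

lemma Gw_le (z : ℝ≥0∞) {u v s p m : ℕ} {R I M : List Bool} (hM : M ∈ Brd m) (hR : R ++ I ∈ Brd p) (hs : s = p + m) :
    Gw z u (min v (s + 1)) (R ++ (I ++ M)) ≤ zf z u v I M := by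
  unfold Gw zf
  refine le_trans (Finset.sum_le_sum (g := fun t => sw {Y | Y ∈ Brd t ∧ NbE t I M Y} (fun Y => Fch z (t - 1) Y))
    fun t ht => ?_) (Finset.sum_le_sum_of_subset (Finset.Ico_subset_Ico_right (min_le_left _ _)))
  rw [Finset.mem_Ico] at ht
  have h1 : t < s + 1 := lt_of_lt_of_le ht.2 (min_le_right _ _)
  have hsub : {Y : List Bool | Y ∈ Brd t ∧ Nb (R ++ (I ++ M)) Y} ⊆ {Y | Y ∈ Brd t ∧ NbE t I M Y} :=
    fun Y hY => ⟨hY.1, R, p, m, hM, hR, by omega, hY.2⟩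
  exact SS_mono_set hsub _

lemma SS_rev {A : Set (List Bool)} (hA : ∀ t ∈ A, rev t ∈ A) (F : List Bool → ℝ≥0∞) :
    SS A (fun t => F (rev t)) = SS A F := by
  unfold SS
  let e : {t : List Bool // t ∈ A} ≃ {t : List Bool // t ∈ A} :=
    { toFun := fun t => ⟨rev t.1, hA t.1 t.2⟩
      invFun := fun t => ⟨rev t.1, hA t.1 t.2⟩
      left_inv := fun t => Subtype.ext (rev_rev t.1)
      right_inv := fun t => Subtype.ext (rev_rev t.1) }
  refine Eq.trans ?_ (Equiv.tsum_eq e (fun t => wE t.1 * F t.1))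
  refine tsum_congr fun t => ?_
  show wE t.1 * F (rev t.1) = wE (rev t.1) * F (rev t.1)
  rw [wE_rev]

lemma SS_const (A : Set (List Bool)) (c : ℝ≥0∞) : SS A (fun _ => c) = gf A * c := by
  have h := SS_mul' A c (fun _ => 1)
  simp only [one_mul] at h
  rw [h, SS_one]

lemma uu_ofReal (T : ℕ) : gf (Brd T) = ENNReal.ofReal (uu T) := by
  rw [gf_Brd]
  unfold uu
  rw [ENNReal.ofReal_toReal]
  refine ne_top_of_le_ne_top ENNReal.one_ne_top ?_
  rcases Nat.eq_zero_or_pos T with rfl | h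
  · rw [← gf_Brd, Brd_zero]
    simp [gf, wE]
  · exact BT_le_one h

/-- sum over disjoint sets -/
lemma SS_sum_heights (J : Finset ℕ) {A : Set (List Bool)} (hJ : ∀ a ∈ J, Brd a ⊆ A) (F : List Bool → ℝ≥0∞) :
    ∑ a ∈ J, SS (Brd a) F ≤ SS A F := by
  classical
  have h1 : ∑ a ∈ J, SS (Brd a) F = ∑' t : List Bool, ∑ a ∈ J, (Brd a).indicator (fun t => wE t * F t) t := by
    rw [Summable.tsum_finsetSum (fun i _ => ENNReal.summable)]
    exact Finset.sum_congr rfl fun i _ => SS_ind _ _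
  rw [h1, SS_ind]
  refine ENNReal.tsum_le_tsum fun t => ?_
  by_cases ht : ∃ a ∈ J, t ∈ Brd a
  · obtain ⟨a, ha, hta⟩ := ht
    rw [Set.indicator_of_mem (hJ a ha hta)]
    rw [Finset.sum_eq_single a]
    · rw [Set.indicator_of_mem hta]
    · intro b _ hba
      refine Set.indicator_of_notMem (fun htb => hba ?_) _
      exact (Brd_height htb hta)
    · intro h
      exact absurd ha h
  · have h2 : ∑ a ∈ J, (Brd a).indicator (fun t => wE t * F t) t = 0 := by
      refine Finset.sum_eq_zero fun a ha => ?_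
      exact Set.indicator_of_notMem (fun hta => ht ⟨a, ha, hta⟩) _
    rw [h2]
    exact bot_le

lemma log_lt {κ a : ℕ} (ha : a ∈ range (2 ^ (κ + 1))) : Nat.log 2 a ∈ range (κ + 1) := by
  rw [Finset.mem_range] at ha ⊢
  rcases Nat.eq_zero_or_pos a with rfl | h
  · simp
  · exact Nat.log_lt_of_lt_pow (by omega) ha

lemma Bl_log (a : ℕ) : Fld.Bl (Nat.log 2 a) a := by
  refine ⟨Nat.lt_pow_succ_log_self (by norm_num) a, ?_⟩
  rcases Nat.eq_zero_or_pos a with rfl | h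
  · right
    simp
  · left
    exact Nat.pow_log_le_self 2 (by omega)

/-- heights below 2 ^ (κ + 1), sorted by blocks -/
lemma sum_blocks (z : ℝ≥0∞) (u v κ : ℕ) (I : List Bool) (w : ℕ → ℝ≥0∞) (wb : ℕ → ℝ≥0∞)
    (hw : ∀ a ∈ range (2 ^ (κ + 1)), w a ≤ wb (Nat.log 2 a)) :
    ∑ a ∈ range (2 ^ (κ + 1)), w a * za z u v a I ≤ ∑ b ∈ range (κ + 1), wb b * Zw z u v b I := by
  rw [← Finset.sum_fiberwise_of_maps_to (g := Nat.log 2) (fun a ha => log_lt ha)]
  refine Finset.sum_le_sum fun b _ => ?_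
  calc ∑ a ∈ (range (2 ^ (κ + 1))).filter (fun a => Nat.log 2 a = b), w a * za z u v a I
      ≤ ∑ a ∈ (range (2 ^ (κ + 1))).filter (fun a => Nat.log 2 a = b), wb b * za z u v a I := by
        refine Finset.sum_le_sum fun a ha => ?_
        have h1 := Finset.mem_filter.1 ha
        have h2 := hw a h1.1
        rw [h1.2] at h2
        exact mul_le_mul' h2 le_rfl
    _ = wb b * ∑ a ∈ (range (2 ^ (κ + 1))).filter (fun a => Nat.log 2 a = b), za z u v a I := by
        rw [Finset.mul_sum]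
    _ ≤ wb b * Zw z u v b I := by
        refine mul_le_mul' le_rfl ?_
        rw [Zw_eq]
        refine SS_sum_heights _ (fun a ha t ht => ?_) _
        have h1 := (Finset.mem_filter.1 ha).2
        exact ⟨a, h1 ▸ Bl_log a, ht⟩

/-- the piece of height r behind the height a covers the level l -/
noncomputable def ind (l a r : ℕ) : ℝ≥0∞ := by
  classical exact if a ≤ l ∧ l < a + r then 1 else 0

/-- one level -/
noncomputable def AL (z : ℝ≥0∞) (k κ u v l : ℕ) : ℝ≥0∞ :=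
  ∑ a ∈ range (2 ^ (κ + 1)), ∑ r ∈ range (2 ^ (k + 1)), ind l a r * SS (Irr r) (za z u v a)

lemma ind_avg (κ a r : ℕ) (ha : a ∈ range (2 ^ (κ + 1))) :
    (2 ^ κ : ℝ≥0∞)⁻¹ * ∑ l ∈ Ico (2 ^ κ) (2 ^ (κ + 1)), ind l a r ≤ mb κ (Nat.log 2 a) r := by
  classical
  have hpow : 2 ^ (κ + 1) = 2 * 2 ^ κ := by rw [pow_succ]; ring
  have h2 : (2 ^ κ : ℝ≥0∞) ≠ 0 := by positivity
  have h3 : (2 ^ κ : ℝ≥0∞) ≠ ∞ := by finiteness
  have hsum : ∑ l ∈ Ico (2 ^ κ) (2 ^ (κ + 1)), ind l a r =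
      (((Ico (2 ^ κ) (2 ^ (κ + 1))).filter (fun l => a ≤ l ∧ l < a + r)).card : ℝ≥0∞) := by
    unfold ind
    rw [Finset.sum_ite, Finset.sum_const_zero, add_zero, Finset.sum_const, nsmul_eq_mul, mul_one]
  rw [hsum]
  unfold mb
  split_ifs with hc
  · -- the set of levels is empty
    have h0 : (Ico (2 ^ κ) (2 ^ (κ + 1))).filter (fun l => a ≤ l ∧ l < a + r) = ∅ := by
      rw [Finset.filter_eq_empty_iff]
      intro l hl hh
      rw [Finset.mem_Ico] at hl
      have h4 : a < 2 ^ (Nat.log 2 a + 1) := (Bl_log a).1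
      have h5 : 2 ^ (Nat.log 2 a + 1) ≤ 2 ^ (κ - 1) := Nat.pow_le_pow_right (by norm_num) (by omega)
      have h6 : 2 ^ κ = 2 * 2 ^ (κ - 1) := by
        rw [← pow_succ']
        congr 1
        omega
      omega
    rw [h0]
    simp
  · rw [le_min_iff]
    constructor
    · have h4 : (((Ico (2 ^ κ) (2 ^ (κ + 1))).filter (fun l => a ≤ l ∧ l < a + r)).card : ℝ≥0∞) ≤ 2 ^ κ := by
        have h5 := Finset.card_filter_le (Ico (2 ^ κ) (2 ^ (κ + 1))) (fun l => a ≤ l ∧ l < a + r)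
        rw [Nat.card_Ico] at h5
        have h6 : 2 ^ (κ + 1) - 2 ^ κ = 2 ^ κ := by omega
        rw [h6] at h5
        exact_mod_cast h5
      calc (2 ^ κ : ℝ≥0∞)⁻¹ * _ ≤ (2 ^ κ : ℝ≥0∞)⁻¹ * 2 ^ κ := mul_le_mul' le_rfl h4
        _ = 1 := ENNReal.inv_mul_cancel h2 h3
    · have h4 : (((Ico (2 ^ κ) (2 ^ (κ + 1))).filter (fun l => a ≤ l ∧ l < a + r)).card : ℝ≥0∞) ≤ r := by
        have h5 : ((Ico (2 ^ κ) (2 ^ (κ + 1))).filter (fun l => a ≤ l ∧ l < a + r)).card ≤ (Ico a (a + r)).card := by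
          refine Finset.card_le_card fun l hl => ?_
          have := (Finset.mem_filter.1 hl).2
          rw [Finset.mem_Ico]
          exact this
        rw [Nat.card_Ico, Nat.add_sub_cancel_left] at h5
        exact_mod_cast h5
      rw [mul_comm, ENNReal.div_eq_inv_mul, mul_comm]
      exact mul_le_mul' le_rfl h4

lemma AL_avg (z : ℝ≥0∞) (k κ u v : ℕ) :
    (2 ^ κ : ℝ≥0∞)⁻¹ * ∑ l ∈ Ico (2 ^ κ) (2 ^ (κ + 1)), AL z k κ u v l ≤ OutS z k κ u v := by
  have h1 : (2 ^ κ : ℝ≥0∞)⁻¹ * ∑ l ∈ Ico (2 ^ κ) (2 ^ (κ + 1)), AL z k κ u v l =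
      ∑ r ∈ range (2 ^ (k + 1)), SS (Irr r) (fun P => ∑ a ∈ range (2 ^ (κ + 1)),
        ((2 ^ κ : ℝ≥0∞)⁻¹ * ∑ l ∈ Ico (2 ^ κ) (2 ^ (κ + 1)), ind l a r) * za z u v a P) := by
    unfold AL
    rw [Finset.sum_comm]
    simp only [SS_sum, SS_mul]
    rw [Finset.mul_sum, Finset.sum_comm (s := range (2 ^ (k + 1)))]
    refine Finset.sum_congr rfl fun a _ => ?_
    rw [Finset.sum_comm, Finset.mul_sum]
    refine Finset.sum_congr rfl fun r _ => ?_
    rw [← Finset.sum_mul]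
    ring
  rw [h1]
  unfold OutS
  rw [Finset.sum_comm]
  refine Finset.sum_le_sum fun r _ => ?_
  simp only [sw_eq]
  rw [← Finset.sum_congr rfl (fun b _ => SS_mul (Irr r) (mb κ b r) (fun P => Zw z u v b P)), ← SS_sum]
  refine SS_mono fun P _ => ?_
  exact sum_blocks z u v κ P (fun a => (2 ^ κ : ℝ≥0∞)⁻¹ * ∑ l ∈ Ico (2 ^ κ) (2 ^ (κ + 1)), ind l a r)
    (fun b => mb κ b r) (fun a ha => ind_avg κ a r ha)

lemma avg_le {ι : Type*} (L : Finset ι) (hL : L.Nonempty) {C G : ℝ≥0∞} {f : ι → ℝ≥0∞} (h : ∀ l ∈ L, C ≤ G + f l) :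
    C ≤ G + (L.card : ℝ≥0∞)⁻¹ * ∑ l ∈ L, f l := by
  have h1 : (L.card : ℝ≥0∞) * C ≤ L.card * G + ∑ l ∈ L, f l := by
    calc (L.card : ℝ≥0∞) * C = ∑ _l ∈ L, C := by rw [Finset.sum_const, nsmul_eq_mul]
      _ ≤ ∑ l ∈ L, (G + f l) := Finset.sum_le_sum h
      _ = L.card * G + ∑ l ∈ L, f l := by rw [Finset.sum_add_distrib, Finset.sum_const, nsmul_eq_mul]
  have h2 : (L.card : ℝ≥0∞) ≠ 0 := by
    rw [Nat.cast_ne_zero]
    exact Finset.card_ne_zero.2 hL
  have h3 : (L.card : ℝ≥0∞) ≠ ∞ := ENNReal.natCast_ne_top _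
  calc C = (L.card : ℝ≥0∞)⁻¹ * ((L.card : ℝ≥0∞) * C) := by
        rw [← mul_assoc, ENNReal.inv_mul_cancel h2 h3, one_mul]
    _ ≤ (L.card : ℝ≥0∞)⁻¹ * (L.card * G + ∑ l ∈ L, f l) := mul_le_mul' le_rfl h1
    _ = G + (L.card : ℝ≥0∞)⁻¹ * ∑ l ∈ L, f l := by
        rw [mul_add, ← mul_assoc, ENNReal.inv_mul_cancel h2 h3, one_mul]

end Bth

open Bth

/-- T6: both ends (T star); the bridges g of the block k -/
theorem both_le (z : ℝ≥0∞) (d k k1 k2 u1 v1 u2 v2 : ℕ) (hd : 3 ≤ d) (hk1 : d ≤ k1) (hkk1 : k1 ≤ k) (hk2 : d ≤ k2)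
    (hkk2 : k2 ≤ k) (hu1 : 2 ^ k1 ≤ u1) (hv1 : v1 ≤ 2 ^ (k1 + 1)) (hu2 : 2 ^ k2 ≤ u2) (hv2 : v2 ≤ 2 ^ (k2 + 1)) :
    ∑ s ∈ Finset.Ico (2 ^ k) (2 ^ (k + 1)), sw (Brd s) (fun g => Gw z u1 (min v1 (s + 1)) g *
      Gw z u2 (min v2 (s + 1)) (rev g)) ≤
      GiT z k (k1 - d) (k2 - d) u1 v1 u2 v2 +
      ENNReal.ofReal (UU (2 ^ (k + 1))) * OutS z k (k1 - d) u1 v1 * OutS z k (k2 - d) u2 v2 := by
  classical
  obtain ⟨κ1, hκ1⟩ : ∃ κ1, κ1 = k1 - d := ⟨_, rfl⟩
  obtain ⟨κ2, hκ2⟩ : ∃ κ2, κ2 = k2 - d := ⟨_, rfl⟩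
  rw [← hκ1, ← hκ2]
  set W : ℝ≥0∞ := ENNReal.ofReal (UU (2 ^ (k + 1))) with hW
  have hp1 : 2 ^ (κ1 + 1) ≤ 2 ^ (k - 2) := Nat.pow_le_pow_right (by norm_num) (by omega)
  have hp2 : 2 ^ (κ2 + 1) ≤ 2 ^ (k - 2) := Nat.pow_le_pow_right (by norm_num) (by omega)
  have hp3 : 2 ^ k = 4 * 2 ^ (k - 2) := by
    have : k = (k - 2) + 2 := by omega
    conv_lhs => rw [this, pow_add]
    ring
  have hp4 : 2 ^ (k - 1) = 2 * 2 ^ (k - 2) := by
    have : k - 1 = (k - 2) + 1 := by omega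
    conv_lhs => rw [this, pow_add]
    ring
  -- one term of the two sums
  have ht1 : ∀ s a b : ℕ, a + b ≤ s →
      SS (Brd a) (fun N => SS (Irr (s - a - b)) (fun P => SS (Brd b) (fun M =>
        Gw z u1 (min v1 (s + 1)) (N ++ P ++ M) * Gw z u2 (min v2 (s + 1)) (rev (N ++ P ++ M))))) ≤
      SS (Irr (s - a - b)) (fun P => za z u1 v1 b P * za z u2 v2 a (rev P)) := by
    intro s a b hab
    rw [SS_comm]
    refine SS_mono fun P hP => ?_
    have hP' := hP.1
    calc SS (Brd a) (fun N => SS (Brd b) (fun M =>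
          Gw z u1 (min v1 (s + 1)) (N ++ P ++ M) * Gw z u2 (min v2 (s + 1)) (rev (N ++ P ++ M))))
        ≤ SS (Brd a) (fun N => SS (Brd b) (fun M => zf z u1 v1 P M * zf z u2 v2 (rev P) (rev N))) := by
          refine SS_mono fun N hN => SS_mono fun M hM => mul_le_mul' ?_ ?_
          · rw [List.append_assoc]
            exact Gw_le z hM (Brd_append hN hP') (by omega)
          · rw [rev_append, rev_append]
            exact Gw_le z (Brd_rev hN) (Brd_append (Brd_rev hM) (Brd_rev hP')) (by omega)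
      _ = za z u1 v1 b P * za z u2 v2 a (rev P) := by
          simp only [SS_mul', SS_mul]
          rw [SS_rev (fun t ht => Brd_rev ht) (fun N => zf z u2 v2 (rev P) N)]
          rfl
  have ht2 : ∀ s a b r s' : ℕ, a + r + s' + b ≤ s →
      SS (Brd a) (fun N => SS (Irr r) (fun P => SS (Brd (s - a - r - s' - b)) (fun X =>
        SS (Irr s') (fun Q => SS (Brd b) (fun M =>
          Gw z u1 (min v1 (s + 1)) (N ++ P ++ X ++ Q ++ M) *
            Gw z u2 (min v2 (s + 1)) (rev (N ++ P ++ X ++ Q ++ M))))))) ≤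
      ENNReal.ofReal (uu (s - a - r - s' - b)) * (SS (Irr s') (za z u1 v1 b) * SS (Irr r) (za z u2 v2 a)) := by
    intro s a b r s' hab
    calc SS (Brd a) (fun N => SS (Irr r) (fun P => SS (Brd (s - a - r - s' - b)) (fun X =>
        SS (Irr s') (fun Q => SS (Brd b) (fun M =>
          Gw z u1 (min v1 (s + 1)) (N ++ P ++ X ++ Q ++ M) *
            Gw z u2 (min v2 (s + 1)) (rev (N ++ P ++ X ++ Q ++ M)))))))
        ≤ SS (Brd a) (fun N => SS (Irr r) (fun P => SS (Brd (s - a - r - s' - b)) (fun _ =>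
          SS (Irr s') (fun Q => SS (Brd b) (fun M => zf z u1 v1 Q M * zf z u2 v2 (rev P) (rev N)))))) := by
          refine SS_mono fun N hN => SS_mono fun P hP => SS_mono fun X hX => SS_mono fun Q hQ => SS_mono fun M hM => ?_
          refine mul_le_mul' ?_ ?_
          · rw [List.append_assoc]
            exact Gw_le z hM (Brd_append (Brd_append (Brd_append hN hP.1) hX) hQ.1) (by omega)
          · have e : rev (N ++ P ++ X ++ Q ++ M) = (rev M ++ (rev Q ++ rev X)) ++ (rev P ++ rev N) := by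
              simp only [rev_append, List.append_assoc]
            rw [e]
            exact Gw_le z (Brd_rev hN) (Brd_append (Brd_append (Brd_rev hM) (Brd_append (Brd_rev hQ.1)
              (Brd_rev hX))) (Brd_rev hP.1)) (by omega)
      _ = ENNReal.ofReal (uu (s - a - r - s' - b)) * (SS (Irr s') (za z u1 v1 b) *
            SS (Brd a) (fun N => SS (Irr r) (fun P => zf z u2 v2 (rev P) (rev N)))) := by
          simp only [SS_mul', SS_const]
          simp only [SS_mul, uu_ofReal]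
          rw [mul_assoc]
          rfl
      _ = ENNReal.ofReal (uu (s - a - r - s' - b)) * (SS (Irr s') (za z u1 v1 b) * SS (Irr r) (za z u2 v2 a)) := by
          congr 2
          rw [SS_comm]
          have h1 : ∀ P : List Bool, SS (Brd a) (fun N => zf z u2 v2 (rev P) (rev N)) = za z u2 v2 a (rev P) :=
            fun P => SS_rev (fun t ht => Brd_rev ht) (fun N => zf z u2 v2 (rev P) N)
          simp only [h1]
          exact SS_rev (fun t ht => Irr_rev ht) (fun P => za z u2 v2 a P)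
  -- the giants
  have hG : ∑ s ∈ Ico (2 ^ k) (2 ^ (k + 1)), ∑ a ∈ range (2 ^ (κ2 + 1)), ∑ b ∈ range (2 ^ (κ1 + 1)),
      SS (Irr (s - a - b)) (fun P => za z u1 v1 b P * za z u2 v2 a (rev P)) ≤ GiT z k κ1 κ2 u1 v1 u2 v2 := by
    calc ∑ s ∈ Ico (2 ^ k) (2 ^ (k + 1)), ∑ a ∈ range (2 ^ (κ2 + 1)), ∑ b ∈ range (2 ^ (κ1 + 1)),
          SS (Irr (s - a - b)) (fun P => za z u1 v1 b P * za z u2 v2 a (rev P))
        = ∑ a ∈ range (2 ^ (κ2 + 1)), ∑ b ∈ range (2 ^ (κ1 + 1)), ∑ s ∈ Ico (2 ^ k) (2 ^ (k + 1)),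
          SS (Irr (s - a - b)) (fun P => za z u1 v1 b P * za z u2 v2 a (rev P)) := by
          rw [Finset.sum_comm]
          exact Finset.sum_congr rfl fun a _ => Finset.sum_comm
      _ ≤ ∑ a ∈ range (2 ^ (κ2 + 1)), ∑ b ∈ range (2 ^ (κ1 + 1)), ∑ r ∈ Ico (2 ^ (k - 1)) (2 ^ (k + 1)),
          SS (Irr r) (fun P => za z u1 v1 b P * za z u2 v2 a (rev P)) := by
          refine Finset.sum_le_sum fun a ha => Finset.sum_le_sum fun b hb => ?_
          rw [Finset.mem_range] at ha hb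
          have hinj : Set.InjOn (fun s => s - a - b) (Ico (2 ^ k) (2 ^ (k + 1)) : Finset ℕ) := by
            intro r hr r' hr' hrr
            have h1 := Finset.mem_Ico.1 (Finset.mem_coe.1 hr)
            have h2 := Finset.mem_Ico.1 (Finset.mem_coe.1 hr')
            have h5 : r - a - b = r' - a - b := hrr
            omega
          rw [← Finset.sum_image (f := fun r => SS (Irr r) (fun P => za z u1 v1 b P * za z u2 v2 a (rev P)))
            (g := fun s => s - a - b) hinj]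
          refine Finset.sum_le_sum_of_subset fun r hr => ?_
          obtain ⟨s, hs, rfl⟩ := Finset.mem_image.1 hr
          rw [Finset.mem_Ico] at hs ⊢
          omega
      _ = ∑ r ∈ Ico (2 ^ (k - 1)) (2 ^ (k + 1)), SS (Irr r) (fun P =>
          (∑ b ∈ range (2 ^ (κ1 + 1)), za z u1 v1 b P) * (∑ a ∈ range (2 ^ (κ2 + 1)), za z u2 v2 a (rev P))) := by
          simp only [Finset.sum_mul_sum, SS_sum]
          rw [Finset.sum_comm]
          rw [Finset.sum_comm (s := Ico (2 ^ (k - 1)) (2 ^ (k + 1)))]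
          refine Finset.sum_congr rfl fun b _ => ?_
          exact Finset.sum_comm
      _ ≤ GiT z k κ1 κ2 u1 v1 u2 v2 := by
          unfold GiT
          simp only [sw_eq]
          refine Finset.sum_le_sum fun r _ => SS_mono fun P _ => mul_le_mul' ?_ ?_
          · have h := sum_blocks z u1 v1 κ1 P (fun _ => 1) (fun _ => 1) (fun _ _ => le_rfl)
            simpa only [one_mul] using h
          · have h := sum_blocks z u2 v2 κ2 (rev P) (fun _ => 1) (fun _ => 1) (fun _ _ => le_rfl)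
            simpa only [one_mul] using h
  -- the other decompositions, for one pair of levels
  have hN : ∀ l1 ∈ Ico (2 ^ κ1) (2 ^ (κ1 + 1)), ∀ l2 ∈ Ico (2 ^ κ2) (2 ^ (κ2 + 1)),
      ∑ s ∈ Ico (2 ^ k) (2 ^ (k + 1)), ∑ a ∈ range (l2 + 1), ∑ b ∈ range (l1 + 1), ∑ r ∈ Ioc (l2 - a) s,
        ∑ s' ∈ Ioc (l1 - b) s, (if a + r + s' + b ≤ s then ENNReal.ofReal (uu (s - a - r - s' - b)) *
          (SS (Irr s') (za z u1 v1 b) * SS (Irr r) (za z u2 v2 a)) else 0) ≤
      W * (AL z k κ1 u1 v1 l1 * AL z k κ2 u2 v2 l2) := by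
    intro l1 hl1 l2 hl2
    rw [Finset.mem_Ico] at hl1 hl2
    calc ∑ s ∈ Ico (2 ^ k) (2 ^ (k + 1)), ∑ a ∈ range (l2 + 1), ∑ b ∈ range (l1 + 1), ∑ r ∈ Ioc (l2 - a) s,
        ∑ s' ∈ Ioc (l1 - b) s, (if a + r + s' + b ≤ s then ENNReal.ofReal (uu (s - a - r - s' - b)) *
          (SS (Irr s') (za z u1 v1 b) * SS (Irr r) (za z u2 v2 a)) else 0)
        ≤ ∑ s ∈ Ico (2 ^ k) (2 ^ (k + 1)), ∑ a ∈ range (2 ^ (κ2 + 1)), ∑ b ∈ range (2 ^ (κ1 + 1)),
          ∑ r ∈ range (2 ^ (k + 1)), ∑ s' ∈ range (2 ^ (k + 1)),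
            (if a + r + s' + b ≤ s then ENNReal.ofReal (uu (s - a - r - s' - b)) else 0) *
            ((ind l1 b s' * SS (Irr s') (za z u1 v1 b)) * (ind l2 a r * SS (Irr r) (za z u2 v2 a))) := by
          refine Finset.sum_le_sum fun s hs => ?_
          rw [Finset.mem_Ico] at hs
          refine le_trans (Finset.sum_le_sum fun a ha => ?_) (Finset.sum_le_sum_of_subset
            (Finset.range_subset_range.2 (by omega)))
          rw [Finset.mem_range] at ha
          refine le_trans (Finset.sum_le_sum fun b hb => ?_) (Finset.sum_le_sum_of_subset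
            (Finset.range_subset_range.2 (by omega)))
          rw [Finset.mem_range] at hb
          refine le_trans (Finset.sum_le_sum fun r hr => ?_) (Finset.sum_le_sum_of_subset
            (s := Ioc (l2 - a) s) (fun r hr => ?_))
          · rw [Finset.mem_Ioc] at hr
            refine le_trans (Finset.sum_le_sum fun s' hs' => ?_) (Finset.sum_le_sum_of_subset
              (s := Ioc (l1 - b) s) (fun s' hs' => ?_))
            · rw [Finset.mem_Ioc] at hs'
              have e1 : ind l1 b s' = 1 := by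
                unfold ind
                rw [if_pos ⟨by omega, by omega⟩]
              have e2 : ind l2 a r = 1 := by
                unfold ind
                rw [if_pos ⟨by omega, by omega⟩]
              rw [e1, e2, one_mul, one_mul, ite_mul, zero_mul]
            · rw [Finset.mem_Ioc] at hs'
              rw [Finset.mem_range]
              omega
          · rw [Finset.mem_Ioc] at hr
            rw [Finset.mem_range]
            omega
      _ = ∑ a ∈ range (2 ^ (κ2 + 1)), ∑ b ∈ range (2 ^ (κ1 + 1)), ∑ r ∈ range (2 ^ (k + 1)),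
          ∑ s' ∈ range (2 ^ (k + 1)), (∑ s ∈ Ico (2 ^ k) (2 ^ (k + 1)),
            (if a + r + s' + b ≤ s then ENNReal.ofReal (uu (s - a - r - s' - b)) else 0)) *
            ((ind l1 b s' * SS (Irr s') (za z u1 v1 b)) * (ind l2 a r * SS (Irr r) (za z u2 v2 a))) := by
          simp only [Finset.sum_mul]
          rw [Finset.sum_comm]
          refine Finset.sum_congr rfl fun a _ => ?_
          rw [Finset.sum_comm]
          refine Finset.sum_congr rfl fun b _ => ?_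
          rw [Finset.sum_comm]
          refine Finset.sum_congr rfl fun r _ => ?_
          rw [Finset.sum_comm]
      _ ≤ ∑ a ∈ range (2 ^ (κ2 + 1)), ∑ b ∈ range (2 ^ (κ1 + 1)), ∑ r ∈ range (2 ^ (k + 1)),
          ∑ s' ∈ range (2 ^ (k + 1)), W *
            ((ind l1 b s' * SS (Irr s') (za z u1 v1 b)) * (ind l2 a r * SS (Irr r) (za z u2 v2 a))) := by
          refine Finset.sum_le_sum fun a _ => Finset.sum_le_sum fun b _ => Finset.sum_le_sum fun r _ =>
            Finset.sum_le_sum fun s' _ => mul_le_mul' ?_ le_rfl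
          rw [← Finset.sum_filter]
          have hinj : Set.InjOn (fun s => s - a - r - s' - b)
              ((Ico (2 ^ k) (2 ^ (k + 1))).filter (fun s => a + r + s' + b ≤ s) : Finset ℕ) := by
            intro x hx y hy hxy
            have h1 := (Finset.mem_filter.1 (Finset.mem_coe.1 hx)).2
            have h2 := (Finset.mem_filter.1 (Finset.mem_coe.1 hy)).2
            have h5 : x - a - r - s' - b = y - a - r - s' - b := hxy
            omega
          rw [← Finset.sum_image (f := fun x => ENNReal.ofReal (uu x)) (g := fun s => s - a - r - s' - b) hinj]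
          rw [hW]
          unfold UU
          rw [ENNReal.ofReal_sum_of_nonneg fun t _ => Num2Aux.nonneg t]
          refine Finset.sum_le_sum_of_subset fun x hx => ?_
          obtain ⟨s, hs, rfl⟩ := Finset.mem_image.1 hx
          have h1 := Finset.mem_Ico.1 (Finset.mem_filter.1 hs).1
          rw [Finset.mem_range]
          omega
      _ = W * (AL z k κ1 u1 v1 l1 * AL z k κ2 u2 v2 l2) := by
          unfold AL
          simp only [← Finset.mul_sum]
          congr 1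
          rw [Finset.sum_comm, Finset.sum_mul]
          refine Finset.sum_congr rfl fun b _ => ?_
          rw [Finset.mul_sum]
          refine Finset.sum_congr rfl fun a _ => ?_
          rw [Finset.sum_comm, Finset.sum_mul_sum]
  -- for one pair of levels
  have hone : ∀ l1 ∈ Ico (2 ^ κ1) (2 ^ (κ1 + 1)), ∀ l2 ∈ Ico (2 ^ κ2) (2 ^ (κ2 + 1)),
      ∑ s ∈ Finset.Ico (2 ^ k) (2 ^ (k + 1)), sw (Brd s) (fun g => Gw z u1 (min v1 (s + 1)) g *
        Gw z u2 (min v2 (s + 1)) (rev g)) ≤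
      GiT z k κ1 κ2 u1 v1 u2 v2 + W * (AL z k κ1 u1 v1 l1 * AL z k κ2 u2 v2 l2) := by
    intro l1 hl1 l2 hl2
    refine le_trans ?_ (add_le_add hG (hN l1 hl1 l2 hl2))
    rw [Finset.mem_Ico] at hl1 hl2
    rw [← Finset.sum_add_distrib]
    refine Finset.sum_le_sum fun s hs => ?_
    rw [Finset.mem_Ico] at hs
    refine (jump2 (x := l2) (y := l1) (t := s) (by omega) (fun g => Gw z u1 (min v1 (s + 1)) g *
        Gw z u2 (min v2 (s + 1)) (rev g))).trans ?_
    refine add_le_add ?_ ?_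
    · refine le_trans (Finset.sum_le_sum fun a ha => ?_) (Finset.sum_le_sum_of_subset
        (Finset.range_subset_range.2 (by omega)))
      rw [Finset.mem_range] at ha
      refine le_trans (Finset.sum_le_sum fun b hb => ?_) (Finset.sum_le_sum_of_subset
        (Finset.range_subset_range.2 (by omega)))
      rw [Finset.mem_range] at hb
      exact ht1 s a b (by omega)
    · refine Finset.sum_le_sum fun a ha => Finset.sum_le_sum fun b hb => Finset.sum_le_sum fun r _ =>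
        Finset.sum_le_sum fun s' _ => ?_
      split_ifs with hc
      · exact ht2 s a b r s' hc
      · exact le_rfl
  -- average over the pairs of levels
  have hcard : ∀ κ : ℕ, (Ico (2 ^ κ) (2 ^ (κ + 1))).card = 2 ^ κ := by
    intro κ
    rw [Nat.card_Ico, pow_succ]
    omega
  have hne : ∀ κ : ℕ, (Ico (2 ^ κ) (2 ^ (κ + 1))).Nonempty := by
    intro κ
    rw [← Finset.card_pos, hcard]
    positivity
  have havg := avg_le (Ico (2 ^ κ1) (2 ^ (κ1 + 1)) ×ˢ Ico (2 ^ κ2) (2 ^ (κ2 + 1)))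
    (Finset.Nonempty.product (hne κ1) (hne κ2)) (f := fun l => W * (AL z k κ1 u1 v1 l.1 * AL z k κ2 u2 v2 l.2))
    (fun l hl => hone l.1 (Finset.mem_product.1 hl).1 l.2 (Finset.mem_product.1 hl).2)
  refine havg.trans (add_le_add le_rfl ?_)
  rw [Finset.card_product, hcard, hcard, ← Finset.mul_sum, Finset.sum_product, ← Finset.sum_mul_sum]
  have h2 : ∀ κ : ℕ, (2 ^ κ : ℝ≥0∞) ≠ 0 := fun κ => by positivity
  have h3 : ∀ κ : ℕ, (2 ^ κ : ℝ≥0∞) ≠ ∞ := fun κ => by finiteness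
  have e : ((2 ^ κ1 * 2 ^ κ2 : ℕ) : ℝ≥0∞)⁻¹ = (2 ^ κ1 : ℝ≥0∞)⁻¹ * (2 ^ κ2 : ℝ≥0∞)⁻¹ := by
    push_cast
    exact ENNReal.mul_inv (Or.inl (h2 κ1)) (Or.inl (h3 κ1))
  rw [e]
  calc (2 ^ κ1 : ℝ≥0∞)⁻¹ * (2 ^ κ2 : ℝ≥0∞)⁻¹ * (W * ((∑ l ∈ Ico (2 ^ κ1) (2 ^ (κ1 + 1)), AL z k κ1 u1 v1 l) *
        (∑ l ∈ Ico (2 ^ κ2) (2 ^ (κ2 + 1)), AL z k κ2 u2 v2 l)))
      = W * ((2 ^ κ1 : ℝ≥0∞)⁻¹ * ∑ l ∈ Ico (2 ^ κ1) (2 ^ (κ1 + 1)), AL z k κ1 u1 v1 l) *
        ((2 ^ κ2 : ℝ≥0∞)⁻¹ * ∑ l ∈ Ico (2 ^ κ2) (2 ^ (κ2 + 1)), AL z k κ2 u2 v2 l) := by ring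
    _ ≤ W * OutS z k κ1 u1 v1 * OutS z k κ2 u2 v2 :=
        mul_le_mul' (mul_le_mul' le_rfl (AL_avg z k κ1 u1 v1)) (AL_avg z k κ2 u2 v2)

end Rec8

end HexObs
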