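import Pool.Agent.PHW.DefsF

/-!
PHW, section S8 (recursion along the chain): definitions.
Levels: a strand with height in the block k (2 ^ k ≤ height < 2 ^ (k + 1)) is cut at the levels of
[2 ^ κ, 2 ^ (κ + 1)), κ = k - d, counted from its beginning, and at the levels [2 ^ κ', 2 ^ (κ' + 1)), κ' = k' - d,
counted from its end, where k' is the block of the height of the next strand.
-/

set_option autoImplicit false

namespace HexObs

open Complex Finset ENNReal

namespace Rec8

/-- weighted sum over the words of a set -/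
noncomputable def sw (A : Set (List Bool)) (Φ : List Bool → ℝ≥0∞) : ℝ≥0∞ := ∑' t : {t : List Bool // t ∈ A}, wE t.1 * Φ t.1

/-- bound for the fraction of the levels of [2 ^ κ, 2 ^ (κ + 1)) covered by a piece of height r which starts at a
height of the block a -/
noncomputable def mb (κ a r : ℕ) : ℝ≥0∞ := if a + 2 ≤ κ ∧ r ≤ 2 ^ (κ - 1) then 0 else min 1 ((r : ℝ≥0∞) / 2 ^ κ)

/-- fold kernel, ends in the blocks b (taller strand) and a (lower strand), giants I and P -/
noncomputable def Kf (T b a : ℕ) (I P : List Bool) : ℝ≥0∞ := g2 (Fld.BrB b) (Fld.BrB a) (Fld.FoldH T I P)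

/-- strands of heights in [u, v) next to X, with their chains, weight z for every further strand -/
noncomputable def Gw (z : ℝ≥0∞) (u v : ℕ) (X : List Bool) : ℝ≥0∞ :=
  ∑ t ∈ Finset.Ico u v, sw {Y | Y ∈ Brd t ∧ Nb X Y} (fun Y => Fch z (t - 1) Y)

/-- Y of height t is next to a strand that ends with I ++ M and is not lower than Y -/
def NbE (t : ℕ) (I M Y : List Bool) : Prop := ∃ (R : List Bool) (p m : ℕ), M ∈ Brd m ∧ R ++ I ∈ Brd p ∧ t ≤ p + m ∧
  Nb (R ++ (I ++ M)) Y

/-- the ends M of the block b behind I, with all the next strands of heights in [u, v) and their chains -/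
noncomputable def Zw (z : ℝ≥0∞) (u v b : ℕ) (I : List Bool) : ℝ≥0∞ :=
  sw (Fld.BrB b) (fun M => ∑ t ∈ Finset.Ico u v, sw {Y | Y ∈ Brd t ∧ NbE t I M Y} (fun Y => Fch z (t - 1) Y))

/-- sum over the beginning N ++ P of the lower strand -/
noncomputable def InS (k κ b : ℕ) (I : List Bool) : ℝ≥0∞ :=
  ∑ a ∈ Finset.range (κ + 1), ∑ r ∈ Finset.range (2 ^ (k + 1)), mb κ a r * sw (Irr r) (fun P => Kf (2 ^ k) b a I P)

/-- sum over the end P ++ M of a strand (height less than 2 ^ (k + 1)), next strand in [u', v') -/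
noncomputable def OutS (z : ℝ≥0∞) (k κ' u' v' : ℕ) : ℝ≥0∞ :=
  ∑ b ∈ Finset.range (κ' + 1), ∑ r ∈ Finset.range (2 ^ (k + 1)), mb κ' b r * sw (Irr r) (fun P => Zw z u' v' b P)

/-- the lower strand is N ++ (P ++ M') with a giant P, next strand in [u', v') -/
noncomputable def GiS (z : ℝ≥0∞) (k κ κ' b : ℕ) (I : List Bool) (u' v' : ℕ) : ℝ≥0∞ :=
  ∑ r ∈ Finset.Ico (2 ^ (k - 1)) (2 ^ (k + 1)), sw (Irr r) (fun P =>
    (∑ a ∈ Finset.range (κ + 1), Kf (2 ^ k) b a I P) * ∑ b' ∈ Finset.range (κ' + 1), Zw z u' v' b' P)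

/-- the same at both ends of a bridge: next strands in [u, v) (at the end of g) and in [u', v') (at its beginning) -/
noncomputable def GiT (z : ℝ≥0∞) (k κ κ' u v u' v' : ℕ) : ℝ≥0∞ :=
  ∑ r ∈ Finset.Ico (2 ^ (k - 1)) (2 ^ (k + 1)), sw (Irr r) (fun P =>
    (∑ b ∈ Finset.range (κ + 1), Zw z u v b P) * ∑ b' ∈ Finset.range (κ' + 1), Zw z u' v' b' (rev P))

end Rec8

end HexObs
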