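import Pool.Agent.PHW8.Defs8
import Pool.Agent.PHW.Num2
import Pool.Agent.PHW.Num3

/-!
PHW, section S8: numeric part, definitions (helper22).  Text: docs proof/PHW_S8_final, proof/PHW_S8_h87.
-/

set_option autoImplicit false

namespace HexObs

open Complex Finset ENNReal

namespace Rec8

/-- growth exponent of UU -/
noncomputable def ex : ℝ := 1 / (6 + CW)

/-- gain function: the exponents D (loss per scale between m and l) and δ (gain per scale of distance d), power η -/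
noncomputable def gam (D δ η : ℝ) (l m d : ℕ) : ℝ := min 1 ((2 : ℝ) ^ (η * (D * ((l : ℝ) - m) - δ * d)))

/-- sum over the irreducible bridges of the block l -/
noncomputable def SI (l : ℕ) (Φ : List Bool → ℝ≥0∞) : ℝ≥0∞ :=
  ∑ r ∈ Finset.Ico (2 ^ l) (2 ^ (l + 1)), sw (Irr r) Φ

/-- INPUTS of S8: S6 (H6), S2 (Hin), S2 + S7 (Hout); fi b a P = gain from the piece P of the lower strand,
fo T b a I = gain from the piece I of the taller strand -/
structure In8 (C D δ : ℝ) (fi : ℕ → ℕ → List Bool → ℝ≥0∞) (fo : ℕ → ℕ → ℕ → List Bool → ℝ≥0∞) : Prop where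
  C_one : 1 ≤ C
  D_one : 1 ≤ D
  δ_pos : 0 < δ
  δ_le : δ ≤ 1
  fi_le : ∀ b a P, fi b a P ≤ 1
  fo_le : ∀ T b a I, fo T b a I ≤ 1
  fi_anti : ∀ a b b' P, a ≤ b' → b' ≤ b → fi b a P ≤ fi b' a P
  fo_anti : ∀ T b a a' I, b ≤ a' → a' ≤ a → fo T b a I ≤ fo T b a' I
  H6 : ∀ (T a b : ℕ) (I P : List Bool), 2 ^ (a + 2) ≤ T → 2 ^ (b + 2) ≤ T →
    Kf T b a I P ≤ ENNReal.ofReal (C * UU (2 ^ max a b)) * (if a ≤ b then fi b a P else fo T b a I)
  Hin : ∀ l b a : ℕ, a ≤ b → b ≤ l → SI l (fi b a) ≤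
    ENNReal.ofReal (C / UU (2 ^ l) * (2 : ℝ) ^ (D * ((l : ℝ) - b) - δ * ((b : ℝ) - a)))
  Hout : ∀ T l b a : ℕ, b ≤ a → a ≤ l → 2 ^ (a + 1) ≤ T → SI l (fo T b a) ≤
    ENNReal.ofReal (C / UU (2 ^ l) * (2 : ℝ) ^ (D * ((l : ℝ) - a) - δ * ((a : ℝ) - b)))

/-- the exponent η used everywhere -/
noncomputable def et (D : ℝ) : ℝ := min (1 / 2) (ex / (2 * D))

/-- the weight of the state (b, I) for the block k of the next strand, levels κ -/
noncomputable def RR (D δ : ℝ) (fo : ℕ → ℕ → ℕ → List Bool → ℝ≥0∞) (k κ b : ℕ) (I : List Bool) : ℝ≥0∞ :=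
  ∑ a ∈ Finset.range (κ + 1), ENNReal.ofReal (UU (2 ^ max a b)) *
    (if a ≤ b then ENNReal.ofReal (gam D δ (et D) k b (b - a)) else fo (2 ^ k) b a I)

/-- window boundaries: the block k is cut into 2 ^ q windows, index n = k 2 ^ q + i -/
def wb (q n : ℕ) : ℕ := 2 ^ (n / 2 ^ q) + (n % 2 ^ q) * 2 ^ (n / 2 ^ q - q)

/-- coefficient of the recursion -/
noncomputable def nu (d q : ℕ) : ℝ := (1 + (d : ℝ)) * (2 : ℝ) ^ (-(ex / 2 * d)) +
  (1 + (d : ℝ)) * (2 : ℝ) ^ d * (2 : ℝ) ^ (-(ex * q))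

end Rec8

end HexObs
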