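import Pool.Agent.PHW8.DefsN8
import Pool.Agent.PHW8.T0
import Pool.Agent.PHW8.First8

/-!
PHW, section S8, N5: the end (polynomial bound of the chain functional) from claim8 and OutS_le.
-/

set_option autoImplicit false

namespace HexObs

open Complex Finset ENNReal

namespace Rec8

namespace EndPaux

lemma ex_pos : 0 < ex := by
  have h := Num2Aux.CW_pos
  unfold ex
  positivity

lemma lim_d : Filter.Tendsto (fun d : ℕ => (1 + (d : ℝ)) * (2 : ℝ) ^ (-(ex / 2 * d))) Filter.atTop (nhds 0) := by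
  set r : ℝ := (2 : ℝ) ^ (-(ex / 2)) with hr
  have hr0 : 0 ≤ r := by positivity
  have hr1 : r < 1 := by
    rw [hr]
    exact Real.rpow_lt_one_of_one_lt_of_neg (by norm_num) (by linarith [ex_pos])
  have h1 := tendsto_self_mul_const_pow_of_lt_one hr0 hr1
  have h2 := tendsto_pow_atTop_nhds_zero_of_lt_one hr0 hr1
  have h3 := h2.add h1
  rw [add_zero] at h3
  refine h3.congr fun d => ?_
  have e : (2 : ℝ) ^ (-(ex / 2 * d)) = r ^ d := by
    rw [hr, ← Real.rpow_natCast, ← Real.rpow_mul (by norm_num)]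
    congr 1
    ring
  rw [e]
  ring

lemma lim_q : Filter.Tendsto (fun q : ℕ => (2 : ℝ) ^ (-(ex * q))) Filter.atTop (nhds 0) := by
  set r : ℝ := (2 : ℝ) ^ (-ex) with hr
  have hr0 : 0 ≤ r := by positivity
  have hr1 : r < 1 := by
    rw [hr]
    exact Real.rpow_lt_one_of_one_lt_of_neg (by norm_num) (by linarith [ex_pos])
  refine (tendsto_pow_atTop_nhds_zero_of_lt_one hr0 hr1).congr fun q => ?_
  rw [hr, ← Real.rpow_natCast, ← Real.rpow_mul (by norm_num)]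
  congr 1
  ring

/-- choice of the parameters -/
lemma choose_dq {A : ℝ} (hA : 0 < A) : ∃ d q : ℕ, 3 ≤ d ∧ A * nu d q ≤ 1 / 2 := by
  have h1 := (lim_d.eventually (gt_mem_nhds (show (0 : ℝ) < 1 / (4 * A) by positivity))).and
    (Filter.eventually_ge_atTop 3)
  obtain ⟨d, hd, hd3⟩ := h1.exists
  have h2 : 0 < (1 + (d : ℝ)) * (2 : ℝ) ^ d := by positivity
  obtain ⟨q, hq⟩ := (lim_q.eventually (gt_mem_nhds
    (show (0 : ℝ) < 1 / (4 * A * ((1 + (d : ℝ)) * (2 : ℝ) ^ d)) by positivity))).exists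
  refine ⟨d, q, hd3, ?_⟩
  unfold nu
  rw [mul_add]
  have h3 : A * ((1 + (d : ℝ)) * (2 : ℝ) ^ (-(ex / 2 * d))) ≤ 1 / 4 := by
    calc A * ((1 + (d : ℝ)) * (2 : ℝ) ^ (-(ex / 2 * d))) ≤ A * (1 / (4 * A)) :=
          mul_le_mul_of_nonneg_left hd.le hA.le
      _ = 1 / 4 := by field_simp
  have h4 : A * ((1 + (d : ℝ)) * (2 : ℝ) ^ d * (2 : ℝ) ^ (-(ex * q))) ≤ 1 / 4 := by
    calc A * ((1 + (d : ℝ)) * (2 : ℝ) ^ d * (2 : ℝ) ^ (-(ex * q)))
        = A * ((1 + (d : ℝ)) * (2 : ℝ) ^ d) * (2 : ℝ) ^ (-(ex * q)) := by ring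
      _ ≤ A * ((1 + (d : ℝ)) * (2 : ℝ) ^ d) * (1 / (4 * A * ((1 + (d : ℝ)) * (2 : ℝ) ^ d))) :=
          mul_le_mul_of_nonneg_left hq.le (by positivity)
      _ = 1 / 4 := by field_simp
  linarith

lemma wb_start (q k : ℕ) : wb q (k * 2 ^ q) = 2 ^ k := by
  unfold wb
  rw [Nat.mul_div_cancel _ (by positivity), Nat.mul_mod_left, Nat.zero_mul, Nat.add_zero]

lemma wb_ge (q n : ℕ) : 2 ^ (n / 2 ^ q) ≤ wb q n := Nat.le_add_right _ _

lemma wb_succ_le {q n : ℕ} (h : q ≤ n / 2 ^ q) : wb q (n + 1) ≤ 2 ^ (n / 2 ^ q + 1) := by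
  have hpos : 0 < 2 ^ q := by positivity
  have hmod := Nat.mod_lt n hpos
  have hdm := Nat.div_add_mod n (2 ^ q)
  by_cases hc : n % 2 ^ q + 1 < 2 ^ q
  · have h1 : (n + 1) / 2 ^ q = n / 2 ^ q := by
      have hcomm : n / 2 ^ q * 2 ^ q = 2 ^ q * (n / 2 ^ q) := Nat.mul_comm _ _
      rw [Nat.div_eq_iff hpos]
      omega
    have h2 : (n + 1) % 2 ^ q = n % 2 ^ q + 1 := by
      have h3 := Nat.div_add_mod (n + 1) (2 ^ q)
      rw [h1] at h3
      omega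
    unfold wb
    rw [h1, h2]
    have h3 : (n % 2 ^ q + 1) * 2 ^ (n / 2 ^ q - q) ≤ 2 ^ q * 2 ^ (n / 2 ^ q - q) :=
      Nat.mul_le_mul_right _ hc.le
    rw [← pow_add, Nat.add_sub_cancel' h] at h3
    rw [pow_succ]
    omega
  · have h1 : n + 1 = (n / 2 ^ q + 1) * 2 ^ q := by
      rw [Nat.add_mul, Nat.one_mul, Nat.mul_comm]
      omega
    rw [h1, wb_start]

lemma Gw_split (z : ℝ≥0∞) (a b c : ℕ) (X : List Bool) : Gw z a c X ≤ Gw z a (min b c) X + Gw z b c X := by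
  classical
  unfold Gw
  calc ∑ t ∈ Finset.Ico a c, sw {Y | Y ∈ Brd t ∧ Nb X Y} (fun Y => Fch z (t - 1) Y)
      ≤ ∑ t ∈ Finset.Ico a (min b c) ∪ Finset.Ico b c, sw {Y | Y ∈ Brd t ∧ Nb X Y} (fun Y => Fch z (t - 1) Y) := by
        refine Finset.sum_le_sum_of_subset fun t ht => ?_
        rw [Finset.mem_Ico] at ht
        rw [Finset.mem_union, Finset.mem_Ico, Finset.mem_Ico]
        omega
    _ ≤ _ := by
        rw [← Finset.sum_union_inter]
        exact le_self_add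

lemma Gw_windows (z : ℝ≥0∞) (q n₁ T : ℕ) (X : List Bool) {N : ℕ} (h : n₁ ≤ N) :
    Gw z (wb q n₁) (T + 1) X ≤ ∑ n ∈ Finset.Ico n₁ N, Gw z (wb q n) (min (wb q (n + 1)) (T + 1)) X +
      Gw z (wb q N) (T + 1) X := by
  induction N, h using Nat.le_induction with
  | base => simp
  | succ N hN ih =>
    rw [Finset.sum_Ico_succ_top hN, add_assoc]
    exact ih.trans (add_le_add le_rfl (Gw_split z _ _ _ X))

lemma Zw_mono (z : ℝ≥0∞) {u v v' b : ℕ} (h : v ≤ v') (I : List Bool) : Zw z u v b I ≤ Zw z u v' b I := by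
  unfold Zw
  refine sw_mono' fun M _ => ?_
  exact Finset.sum_le_sum_of_subset (Finset.Ico_subset_Ico_right h)

end EndPaux

open EndPaux

/-- the end of PHW, from the two numeric outputs -/
theorem S8_PHW_of {D δ : ℝ} {fo : ℕ → ℕ → ℕ → List Bool → ℝ≥0∞}
    (hclaim : ∃ C1 : ℝ, 1 ≤ C1 ∧ ∀ (z : ℝ) (d q n₀ : ℕ), 0 < z → 3 ≤ d → q ≤ n₀ → d ≤ n₀ →
      C1 * z * nu d q ≤ 1 / 2 →
      ∀ (n : ℕ) (b r : ℕ) (I : List Bool), n₀ * 2 ^ q ≤ n → b + d ≤ n / 2 ^ q → I ∈ Irr r →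
        Zw (ENNReal.ofReal z) (wb q n) (wb q (n + 1)) b I ≤
          ENNReal.ofReal (C1 * (1 + 2 * z) ^ 2 ^ n₀ * (2 : ℝ) ^ d * (1 + 2 * (C1 * z * nu d q)) ^ n) *
            RR D δ fo (n / 2 ^ q) (n / 2 ^ q - d) b I)
    (hout : ∃ C1 : ℝ, 0 < C1 ∧ ∀ (z x : ℝ≥0∞) (k k' κ' u' v' : ℕ), κ' + 3 ≤ k' → k' ≤ k →
      (∀ (b r : ℕ) (P : List Bool), b ≤ κ' → P ∈ Irr r → Zw z u' v' b P ≤ x * RR D δ fo k' κ' b P) →
      OutS z k κ' u' v' ≤ ENNReal.ofReal (C1 * (1 + ((k' : ℝ) - κ'))) * x)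
    {z : ℝ} (hz : 0 < z) : ∃ C' : ℝ, ∀ T : ℕ,
      ∑' g : {g : List Bool // g ∈ Brd T}, wE g.1 * Fch (ENNReal.ofReal z) T g.1 ≤
        ENNReal.ofReal (C' * ((T : ℝ) + 1) ^ C') := by
  obtain ⟨C1, hC1, hcl⟩ := hclaim
  obtain ⟨C2, hC2, ho⟩ := hout
  have hA : 0 < C1 * z := mul_pos (by linarith) hz
  obtain ⟨d, q, hd, hdq⟩ := choose_dq hA
  obtain ⟨n₀, hn₀⟩ : ∃ n₀, n₀ = max d q := ⟨_, rfl⟩
  have hdn : d ≤ n₀ := by omega
  have hqn : q ≤ n₀ := by omega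
  have hnu0 : 0 ≤ nu d q := by
    unfold nu
    positivity
  set lam : ℝ := 1 + 2 * (C1 * z * nu d q) with hlam
  have hlam1 : 1 ≤ lam := by
    have : 0 ≤ C1 * z * nu d q := mul_nonneg hA.le hnu0
    linarith
  have hlam2 : lam ≤ 2 := by linarith
  set B : ℝ := C1 * (1 + 2 * z) ^ 2 ^ n₀ * (2 : ℝ) ^ d with hB
  have hB0 : 0 ≤ B := by positivity
  set B1 : ℝ := (1 + 2 * z) ^ 2 ^ n₀ with hB1
  have hB10 : 0 ≤ B1 := by positivity
  set E : ℝ := C2 * (1 + d) * B with hE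
  have hE0 : 0 ≤ E := by positivity
  -- the a priori part
  have hz1 : (1 : ℝ) ≤ 1 + 2 * z := by linarith
  have hap : ∀ (m : ℕ) (X : List Bool), m ≤ 2 ^ n₀ → Fch (ENNReal.ofReal z) m X ≤ ENNReal.ofReal B1 := by
    intro m X hm
    refine (Fch_le (ENNReal.ofReal z) m X).trans ?_
    have e : (1 + 2 * ENNReal.ofReal z : ℝ≥0∞) = ENNReal.ofReal (1 + 2 * z) := by
      rw [ENNReal.ofReal_add (by norm_num) (by positivity), ENNReal.ofReal_mul (by norm_num)]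
      norm_num
    rw [e, ← ENNReal.ofReal_pow (by positivity)]
    exact ENNReal.ofReal_le_ofReal (pow_le_pow_right₀ hz1 hm)
  have hgf : ∀ (T : ℕ) (c : ℝ≥0∞), sw (Brd T) (fun _ => c) ≤ c := by
    intro T c
    have h1 : sw (Brd T) (fun _ => c * 1) = c * gf (Brd T) := by rw [sw_mul_left, sw_one]
    simp only [mul_one] at h1
    rw [h1, gf_Brd, BT_eq]
    calc c * ENNReal.ofReal (uu T) ≤ c * 1 := by
          refine mul_le_mul' le_rfl ?_
          rw [ENNReal.ofReal_le_one, ← Num2Aux.zero]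
          exact Num2Aux.anti (Nat.zero_le T)
      _ = c := mul_one c
  -- one window
  have hwin : ∀ T k n : ℕ, 2 ^ k ≤ T → T < 2 ^ (k + 1) → n₀ * 2 ^ q ≤ n → n / 2 ^ q ≤ k →
      sw (Brd T) (fun g => Gw (ENNReal.ofReal z) (wb q n) (min (wb q (n + 1)) (T + 1)) g) ≤
        ENNReal.ofReal (E * lam ^ n) := by
    intro T k n hkT hTk hn hnk
    have hk' : n₀ ≤ n / 2 ^ q := by
      rw [Nat.le_div_iff_mul_le (by positivity)]
      exact hn
    refine (end_le (ENNReal.ofReal z) d k (n / 2 ^ q) T _ _ hd (by omega) hnk hkT hTk (wb_ge q n)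
      (le_trans (min_le_left _ _) (wb_succ_le (by omega))) (min_le_right _ _)).trans ?_
    refine (ho (ENNReal.ofReal z) (ENNReal.ofReal (B * lam ^ n)) k (n / 2 ^ q) (n / 2 ^ q - d) _ _ (by omega) hnk
      (fun b r P hb hP => ?_)).trans ?_
    · refine (Zw_mono _ (min_le_left _ _) P).trans ?_
      exact hcl z d q n₀ hz hd hqn hdn hdq n b r P hn (by omega) hP
    · rw [← ENNReal.ofReal_mul (by
        rw [Nat.cast_sub (by omega)]
        have : (0 : ℝ) ≤ d := Nat.cast_nonneg d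
        have h2 : (0 : ℝ) ≤ 1 + (((n / 2 ^ q : ℕ) : ℝ) - (((n / 2 ^ q : ℕ) : ℝ) - d)) := by linarith
        exact mul_nonneg hC2.le h2)]
      refine ENNReal.ofReal_le_ofReal (le_of_eq ?_)
      rw [Nat.cast_sub (by omega), hE]
      ring
  -- the total for T ≥ 2 ^ n₀
  have htot : ∀ T : ℕ, 2 ^ n₀ ≤ T → sw (Brd T) (Fch (ENNReal.ofReal z) T) ≤
      ENNReal.ofReal (B1 + z * (E * (2 * ((T : ℝ) + 1)) ^ 2 ^ q * (2 ^ q * ((T : ℝ) + 1)))) := by
    intro T hT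
    set k := Nat.log 2 T with hk
    have hT0 : T ≠ 0 := by
      have : 0 < 2 ^ n₀ := by positivity
      omega
    have hkT : 2 ^ k ≤ T := Nat.pow_log_le_self 2 hT0
    have hTk : T < 2 ^ (k + 1) := Nat.lt_pow_succ_log_self (by norm_num) T
    have hn0k : n₀ ≤ k := by
      by_contra hlt
      have h1 : 2 ^ (k + 1) ≤ 2 ^ n₀ := Nat.pow_le_pow_right (by norm_num) (by omega)
      omega
    have h2pos : 0 < 2 ^ n₀ := by positivity
    have h1 : ∀ X : List Bool, Fch (ENNReal.ofReal z) T X ≤ ENNReal.ofReal B1 +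
        ENNReal.ofReal z * ∑ n ∈ Finset.Ico (n₀ * 2 ^ q) ((k + 1) * 2 ^ q),
          Gw (ENNReal.ofReal z) (wb q n) (min (wb q (n + 1)) (T + 1)) X := by
      intro X
      rw [Fch_unroll (ENNReal.ofReal z) (m := 2 ^ n₀ - 1) (n := T) (by omega) X]
      refine add_le_add (hap _ X (by omega)) (mul_le_mul' le_rfl ?_)
      have e1 : 2 ^ n₀ - 1 + 1 = wb q (n₀ * 2 ^ q) := by
        rw [wb_start]
        omega
      rw [e1]
      refine (Gw_windows (ENNReal.ofReal z) q (n₀ * 2 ^ q) T X (N := (k + 1) * 2 ^ q)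
        (Nat.mul_le_mul_right _ (by omega))).trans ?_
      have e2 : Gw (ENNReal.ofReal z) (wb q ((k + 1) * 2 ^ q)) (T + 1) X = 0 := by
        rw [wb_start]
        unfold Gw
        rw [Finset.Ico_eq_empty (by omega), Finset.sum_empty]
      rw [e2, add_zero]
    calc sw (Brd T) (Fch (ENNReal.ofReal z) T) ≤ sw (Brd T) (fun X => ENNReal.ofReal B1 +
        ENNReal.ofReal z * ∑ n ∈ Finset.Ico (n₀ * 2 ^ q) ((k + 1) * 2 ^ q),
          Gw (ENNReal.ofReal z) (wb q n) (min (wb q (n + 1)) (T + 1)) X) := sw_mono' fun X _ => h1 X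
      _ = sw (Brd T) (fun _ => ENNReal.ofReal B1) + ENNReal.ofReal z *
          ∑ n ∈ Finset.Ico (n₀ * 2 ^ q) ((k + 1) * 2 ^ q),
            sw (Brd T) (fun X => Gw (ENNReal.ofReal z) (wb q n) (min (wb q (n + 1)) (T + 1)) X) := by
          rw [sw_add, sw_mul_left, sw_sum]
      _ ≤ ENNReal.ofReal B1 + ENNReal.ofReal z *
          ∑ n ∈ Finset.Ico (n₀ * 2 ^ q) ((k + 1) * 2 ^ q), ENNReal.ofReal (E * (2 * ((T : ℝ) + 1)) ^ 2 ^ q) := by
          refine add_le_add (hgf T _) (mul_le_mul' le_rfl (Finset.sum_le_sum fun n hn => ?_))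
          rw [Finset.mem_Ico] at hn
          refine (hwin T k n hkT hTk hn.1 ?_).trans (ENNReal.ofReal_le_ofReal ?_)
          · exact Nat.le_of_lt_succ ((Nat.div_lt_iff_lt_mul (by positivity)).2 hn.2)
          · refine mul_le_mul_of_nonneg_left ?_ hE0
            calc lam ^ n ≤ 2 ^ n := pow_le_pow_left₀ (by linarith) hlam2 n
              _ ≤ 2 ^ ((k + 1) * 2 ^ q) := pow_le_pow_right₀ (by norm_num) hn.2.le
              _ = (2 * 2 ^ k) ^ 2 ^ q := by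
                  rw [pow_mul, pow_succ']
              _ ≤ (2 * ((T : ℝ) + 1)) ^ 2 ^ q := by
                  refine pow_le_pow_left₀ (by positivity) ?_ _
                  have h3 : ((2 ^ k : ℕ) : ℝ) ≤ T := by exact_mod_cast hkT
                  push_cast at h3
                  linarith
      _ = ENNReal.ofReal B1 + ENNReal.ofReal z * (((k + 1) * 2 ^ q - n₀ * 2 ^ q : ℕ) *
            ENNReal.ofReal (E * (2 * ((T : ℝ) + 1)) ^ 2 ^ q)) := by
          rw [Finset.sum_const, Nat.card_Ico, nsmul_eq_mul]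
      _ ≤ ENNReal.ofReal B1 + ENNReal.ofReal z * (ENNReal.ofReal (2 ^ q * ((T : ℝ) + 1)) *
            ENNReal.ofReal (E * (2 * ((T : ℝ) + 1)) ^ 2 ^ q)) := by
          refine add_le_add le_rfl (mul_le_mul' le_rfl (mul_le_mul' ?_ le_rfl))
          rw [← ENNReal.ofReal_natCast]
          refine ENNReal.ofReal_le_ofReal ?_
          have h4 : (k + 1) * 2 ^ q - n₀ * 2 ^ q ≤ 2 ^ q * (T + 1) := by
            have h5 : k < 2 ^ k := Nat.lt_two_pow_self
            have h6 : (k + 1) * 2 ^ q ≤ (T + 1) * 2 ^ q := Nat.mul_le_mul_right _ (by omega)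
            rw [Nat.mul_comm (2 ^ q)]
            omega
          exact_mod_cast h4
      _ = ENNReal.ofReal (B1 + z * (E * (2 * ((T : ℝ) + 1)) ^ 2 ^ q * (2 ^ q * ((T : ℝ) + 1)))) := by
          rw [← ENNReal.ofReal_mul (by positivity), ← ENNReal.ofReal_mul hz.le, ← ENNReal.ofReal_add hB10 (by positivity)]
          congr 1
          ring
  -- conclusion
  set F : ℝ := B1 + z * E * 2 ^ 2 ^ q * 2 ^ q with hF
  have hF0 : 0 ≤ F := by positivity
  have hpw : ∀ T : ℕ, B1 + z * (E * (2 * ((T : ℝ) + 1)) ^ 2 ^ q * (2 ^ q * ((T : ℝ) + 1))) ≤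
      F * ((T : ℝ) + 1) ^ (2 ^ q + 1) := by
    intro T
    have h1 : (1 : ℝ) ≤ (T : ℝ) + 1 := by
      have : (0 : ℝ) ≤ T := Nat.cast_nonneg T
      linarith
    have h2 : (1 : ℝ) ≤ ((T : ℝ) + 1) ^ (2 ^ q + 1) := one_le_pow₀ h1
    have h3 : B1 ≤ B1 * ((T : ℝ) + 1) ^ (2 ^ q + 1) := le_mul_of_one_le_right hB10 h2
    have h4 : z * (E * (2 * ((T : ℝ) + 1)) ^ 2 ^ q * (2 ^ q * ((T : ℝ) + 1))) =
        z * E * 2 ^ 2 ^ q * 2 ^ q * ((T : ℝ) + 1) ^ (2 ^ q + 1) := by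
      rw [mul_pow, pow_succ]
      ring
    rw [h4, hF, add_mul]
    linarith
  have hsw : ∀ T : ℕ, sw (Brd T) (Fch (ENNReal.ofReal z) T) ≤ ENNReal.ofReal (F * ((T : ℝ) + 1) ^ (2 ^ q + 1)) := by
    intro T
    rcases le_or_gt (2 ^ n₀) T with h | h
    · exact (htot T h).trans (ENNReal.ofReal_le_ofReal (hpw T))
    · refine le_trans (sw_mono' (Ψ := fun _ => ENNReal.ofReal B1) fun X _ => hap T X h.le) ((hgf T _).trans ?_)
      refine ENNReal.ofReal_le_ofReal (le_trans ?_ (hpw T))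
      have : 0 ≤ z * (E * (2 * ((T : ℝ) + 1)) ^ 2 ^ q * (2 ^ q * ((T : ℝ) + 1))) := by positivity
      linarith
  refine ⟨max F (2 ^ q + 1), fun T => ?_⟩
  refine (hsw T).trans (ENNReal.ofReal_le_ofReal ?_)
  have h1 : (1 : ℝ) ≤ (T : ℝ) + 1 := by
    have : (0 : ℝ) ≤ T := Nat.cast_nonneg T
    linarith
  have h2 : ((T : ℝ) + 1) ^ (2 ^ q + 1) ≤ ((T : ℝ) + 1) ^ (max F (2 ^ q + 1)) := by
    rw [← Real.rpow_natCast]
    refine Real.rpow_le_rpow_of_exponent_le h1 ?_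
    push_cast
    exact le_max_right _ _
  exact mul_le_mul (le_max_left _ _) h2 (by positivity) (le_trans hF0 (le_max_left _ _))

end Rec8

end HexObs
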