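import Pool.Agent.PHW8.T0
import Pool.Agent.PHW8.First8
import Pool.Agent.PHW8.BothLe
import Pool.Agent.PHW.Rotate
import Pool.Agent.PHW.Num2
import Pool.Agent.TStar.DefsC

/-!
PHW, section S8: the end for T* (CBz), from the two sided bounds.
-/

set_option autoImplicit false

namespace HexObs

open Complex Finset ENNReal

namespace Rec8

/-- the package of bounds delivered by the recursion for the two sided sum: q windows [w j, w (j+1)) per block of
heights, starting at 2 ^ k0 -/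
def Hyp8T (ε : ℝ) : Prop := ∃ (z : ℝ) (d k0 q : ℕ) (w : ℕ → ℕ) (x : ℕ → ℝ) (C : ℝ),
  0 < z ∧ z ≤ 1 ∧ 3 ≤ d ∧ d ≤ k0 ∧ 1 ≤ q ∧ 0 < C ∧ (∀ j, 0 ≤ x j) ∧ Monotone w ∧ (∀ i, w (q * i) = 2 ^ (k0 + i)) ∧
  (∀ j k, k0 + j / q ≤ k →
    OutS (ENNReal.ofReal z) k (k0 + j / q - d) (w j) (w (j + 1)) ≤ ENNReal.ofReal (C * x j)) ∧
  (∀ j j' k, k0 + j / q ≤ k → k0 + j' / q ≤ k →
    GiT (ENNReal.ofReal z) k (k0 + j / q - d) (k0 + j' / q - d) (w j) (w (j + 1)) (w j') (w (j' + 1)) ≤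
      ENNReal.ofReal (C * x j * x j' * UU (2 ^ k))) ∧
  (∀ i, ∑ j ∈ Finset.range (q * (i + 1)), x j ≤ C * ((2 : ℝ) ^ (k0 + i)) ^ ε)

/-- reversal of the bridges -/
theorem sw_rev (s : ℕ) (Φ : List Bool → ℝ≥0∞) : sw (Brd s) (fun g => Φ (rev g)) = sw (Brd s) Φ := by
  unfold sw
  let e : {t : List Bool // t ∈ Brd s} ≃ {t : List Bool // t ∈ Brd s} :=
    ⟨fun t => ⟨rev t.1, Brd_rev t.2⟩, fun t => ⟨rev t.1, Brd_rev t.2⟩,
      fun t => Subtype.ext (rev_rev t.1), fun t => Subtype.ext (rev_rev t.1)⟩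
  rw [← e.tsum_eq (fun t => wE t.1 * Φ t.1)]
  refine tsum_congr fun t => ?_
  show wE t.1 * Φ (rev t.1) = wE (rev t.1) * Φ (rev t.1)
  rw [wE_rev]

/-- splitting the heights into windows -/
theorem Gw_split (z : ℝ≥0∞) (w : ℕ → ℕ) (n : ℕ) (X : List Bool) (J : ℕ) :
    Gw z (w 0) (min (w J) n) X ≤ ∑ j ∈ Finset.range J, Gw z (w j) (min (w (j + 1)) n) X := by
  induction J with
  | zero =>
    rw [Finset.range_zero, Finset.sum_empty]
    unfold Gw
    rw [Finset.Ico_eq_empty (by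
      have := min_le_left (w 0) n
      omega), Finset.sum_empty]
  | succ J ih =>
    rw [Finset.sum_range_succ]
    refine le_trans ?_ (add_le_add ih le_rfl)
    unfold Gw
    have hsub : Finset.Ico (w 0) (min (w (J + 1)) n) ⊆
        Finset.Ico (w 0) (min (w J) n) ∪ Finset.Ico (w J) (min (w (J + 1)) n) := by
      intro a ha
      rw [Finset.mem_Ico] at ha
      rw [Finset.mem_union, Finset.mem_Ico, Finset.mem_Ico]
      rcases Nat.lt_or_ge a (w J) with h | h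
      · left
        refine ⟨ha.1, ?_⟩
        have := ha.2
        rw [lt_min_iff] at this ⊢
        exact ⟨h, this.2⟩
      · exact Or.inr ⟨h, ha.2⟩
    refine (Finset.sum_le_sum_of_subset hsub).trans ?_
    rw [← Finset.sum_union_inter]
    exact le_self_add


theorem gf_Brd_uu {s : ℕ} (hs : 1 ≤ s) : gf (Brd s) = ENNReal.ofReal (uu s) := by
  rw [gf_Brd]
  exact (ENNReal.ofReal_toReal (BT_ne_top hs)).symm

theorem sum_gf_le (k : ℕ) : ∑ s ∈ Finset.Ico (2 ^ k) (2 ^ (k + 1)), gf (Brd s) ≤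
    ENNReal.ofReal (UU (2 ^ (k + 1))) := by
  have h1 : ∀ s ∈ Finset.Ico (2 ^ k) (2 ^ (k + 1)), gf (Brd s) = ENNReal.ofReal (uu s) := by
    intro s hs
    have h2 := (Finset.mem_Ico.1 hs).1
    have h3 : 1 ≤ 2 ^ k := Nat.one_le_two_pow
    exact gf_Brd_uu (h3.trans h2)
  rw [Finset.sum_congr rfl h1, ← ENNReal.ofReal_sum_of_nonneg (f := uu) (fun s _ => ENNReal.toReal_nonneg)]
  apply ENNReal.ofReal_le_ofReal
  unfold UU
  apply Finset.sum_le_sum_of_subset_of_nonneg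
  · intro s hs
    rw [Finset.mem_Ico] at hs
    rw [Finset.mem_range]
    omega
  · intro s _ _
    exact ENNReal.toReal_nonneg

/-- one strand, all the windows -/
theorem Fch_windows {z : ℝ≥0∞} (hz : z ≤ 1) {k0 q : ℕ} {w : ℕ → ℕ} (hwq : ∀ i, w (q * i) = 2 ^ (k0 + i))
    {i s : ℕ} (h1 : 2 ^ (k0 + i) ≤ s) (h2 : s < 2 ^ (k0 + i + 1)) (X : List Bool) :
    Fch z s X ≤ (1 + 2 * z) ^ (2 ^ k0 - 1) +
      ∑ j ∈ Finset.range (q * (i + 1)), Gw z (w j) (min (w (j + 1)) (s + 1)) X := by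
  have e0 : w 0 = 2 ^ k0 := by
    have := hwq 0
    rwa [Nat.mul_zero, Nat.add_zero] at this
  have e1 : w (q * (i + 1)) = 2 ^ (k0 + i + 1) := by
    rw [hwq]
    congr 1
  have e2 : (1 : ℕ) ≤ 2 ^ k0 := Nat.one_le_two_pow
  have e3 : 2 ^ k0 ≤ 2 ^ (k0 + i) := Nat.pow_le_pow_right (by norm_num) (by omega)
  rw [Fch_unroll z (show 2 ^ k0 - 1 ≤ s by omega) X]
  refine add_le_add (Fch_le z _ X) ?_
  have e4 : 2 ^ k0 - 1 + 1 = w 0 := by omega
  have e5 : s + 1 = min (w (q * (i + 1))) (s + 1) := by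
    rw [e1]
    omega
  have h3 := Gw_split z w (s + 1) X (q * (i + 1))
  rw [← e5] at h3
  rw [e4]
  calc z * Gw z (w 0) (s + 1) X ≤ 1 * Gw z (w 0) (s + 1) X := by gcongr
    _ = Gw z (w 0) (s + 1) X := one_mul _
    _ ≤ _ := h3


/-- one block of heights -/
theorem block_le {z : ℝ≥0∞} (hz : z ≤ 1) {d k0 q : ℕ} {w : ℕ → ℕ} {x : ℕ → ℝ} {C : ℝ} (hd : 3 ≤ d) (hk0 : d ≤ k0)
    (hq : 1 ≤ q) (hC : 0 < C) (hx : ∀ j, 0 ≤ x j) (hw : Monotone w) (hwq : ∀ i, w (q * i) = 2 ^ (k0 + i))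
    (hO : ∀ j k, k0 + j / q ≤ k → OutS z k (k0 + j / q - d) (w j) (w (j + 1)) ≤ ENNReal.ofReal (C * x j))
    (hG : ∀ j j' k, k0 + j / q ≤ k → k0 + j' / q ≤ k →
      GiT z k (k0 + j / q - d) (k0 + j' / q - d) (w j) (w (j + 1)) (w j') (w (j' + 1)) ≤
        ENNReal.ofReal (C * x j * x j' * UU (2 ^ k)))
    {a : ℝ} (ha : 0 ≤ a) (haz : (1 + 2 * z) ^ (2 ^ k0 - 1) ≤ ENNReal.ofReal a) (i : ℕ) {X : ℝ}
    (hX : ∑ j ∈ Finset.range (q * (i + 1)), x j = X) :
    ∑ s ∈ Finset.Ico (2 ^ (k0 + i)) (2 ^ (k0 + i + 1)), sw (Brd s) (fun g => Fch z s g * Fch z s (rev g)) ≤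
      ENNReal.ofReal (UU (2 ^ (k0 + i + 1)) * (a ^ 2 + 2 * (a * (C * X)) + (C + C ^ 2) * X ^ 2)) := by
  obtain ⟨k, hk⟩ : ∃ k, k = k0 + i := ⟨_, rfl⟩
  obtain ⟨J, hJ⟩ : ∃ J, J = q * (i + 1) := ⟨_, rfl⟩
  obtain ⟨U, hU⟩ : ∃ U, U = UU (2 ^ (k + 1)) := ⟨_, rfl⟩
  have hU0 : 0 ≤ U := by rw [hU]; exact (Num2Aux.UU_pos _).le
  have hUk : UU (2 ^ k) ≤ U := by
    rw [hU]
    exact Num2Aux.UU_mono (Nat.pow_le_pow_right (by norm_num) (by omega))
  have hX0 : 0 ≤ X := by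
    rw [← hX]
    exact Finset.sum_nonneg fun j _ => hx j
  rw [← hJ] at hX
  -- windows of the block
  have hjk : ∀ j ∈ Finset.range J, k0 + j / q ≤ k := by
    intro j hj
    rw [Finset.mem_range, hJ] at hj
    have : j / q < i + 1 := by
      rw [Nat.div_lt_iff_lt_mul (by omega)]
      rw [Nat.mul_comm]
      exact hj
    omega
  have hwl : ∀ j, 2 ^ (k0 + j / q) ≤ w j := by
    intro j
    rw [← hwq]
    exact hw (Nat.mul_div_le j q)
  have hwu : ∀ j, w (j + 1) ≤ 2 ^ (k0 + j / q + 1) := by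
    intro j
    have h1 : w (j + 1) ≤ w (q * (j / q + 1)) := by
      apply hw
      have := Nat.lt_mul_div_succ j (show 0 < q by omega)
      omega
    rw [hwq] at h1
    exact h1
  -- the four sums
  have hone : ∀ j ∈ Finset.range J, ∑ s ∈ Finset.Ico (2 ^ k) (2 ^ (k + 1)),
      sw (Brd s) (fun g => Gw z (w j) (min (w (j + 1)) (s + 1)) g) ≤ ENNReal.ofReal (U * (C * x j)) := by
    intro j hj
    refine (one_le z d k (k0 + j / q) (w j) (w (j + 1)) hd (hk0.trans (Nat.le_add_right _ _))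
      (hjk j hj) (hwl j) (hwu j)).trans ?_
    rw [← hU, ENNReal.ofReal_mul hU0]
    exact mul_le_mul' le_rfl (hO j k (hjk j hj))
  have hboth : ∀ j ∈ Finset.range J, ∀ j' ∈ Finset.range J, ∑ s ∈ Finset.Ico (2 ^ k) (2 ^ (k + 1)),
      sw (Brd s) (fun g => Gw z (w j) (min (w (j + 1)) (s + 1)) g *
        Gw z (w j') (min (w (j' + 1)) (s + 1)) (rev g)) ≤ ENNReal.ofReal (U * ((C + C ^ 2) * (x j * x j'))) := by
    intro j hj j' hj'
    refine (both_le z d k (k0 + j / q) (k0 + j' / q) (w j) (w (j + 1)) (w j') (w (j' + 1)) hd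
      (hk0.trans (Nat.le_add_right _ _)) (hjk j hj) (hk0.trans (Nat.le_add_right _ _)) (hjk j' hj') (hwl j) (hwu j) (hwl j') (hwu j')).trans ?_
    have h1 := hG j j' k (hjk j hj) (hjk j' hj')
    have h2 := mul_le_mul' (mul_le_mul' (le_refl (ENNReal.ofReal U)) (hO j k (hjk j hj))) (hO j' k (hjk j' hj'))
    rw [← hU]
    refine (add_le_add h1 h2).trans ?_
    rw [← ENNReal.ofReal_mul hU0, ← ENNReal.ofReal_mul (mul_nonneg hU0 (mul_nonneg hC.le (hx j))),
      ← ENNReal.ofReal_add (mul_nonneg (mul_nonneg (mul_nonneg hC.le (hx j)) (hx j')) (Num2Aux.UU_pos _).le)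
        (mul_nonneg (mul_nonneg hU0 (mul_nonneg hC.le (hx j))) (mul_nonneg hC.le (hx j')))]
    apply ENNReal.ofReal_le_ofReal
    have h3 : C * x j * x j' * UU (2 ^ k) ≤ C * x j * x j' * U :=
      mul_le_mul_of_nonneg_left hUk (mul_nonneg (mul_nonneg hC.le (hx j)) (hx j'))
    linarith
  -- pointwise
  obtain ⟨A, hA⟩ : ∃ A, A = (1 + 2 * z) ^ (2 ^ k0 - 1) := ⟨_, rfl⟩
  rw [← hA] at haz
  rw [← hk]
  have hpt : ∀ s ∈ Finset.Ico (2 ^ k) (2 ^ (k + 1)), sw (Brd s) (fun g => Fch z s g * Fch z s (rev g)) ≤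
      A * A * gf (Brd s) +
      (A * ∑ j ∈ Finset.range J, sw (Brd s) (fun g => Gw z (w j) (min (w (j + 1)) (s + 1)) g) +
       A * ∑ j ∈ Finset.range J, sw (Brd s) (fun g => Gw z (w j) (min (w (j + 1)) (s + 1)) g)) +
      ∑ j ∈ Finset.range J, ∑ j' ∈ Finset.range J, sw (Brd s) (fun g =>
        Gw z (w j) (min (w (j + 1)) (s + 1)) g * Gw z (w j') (min (w (j' + 1)) (s + 1)) (rev g)) := by
    intro s hs
    rw [Finset.mem_Ico] at hs
    have hF : ∀ X : List Bool, Fch z s X ≤ A + ∑ j ∈ Finset.range J, Gw z (w j) (min (w (j + 1)) (s + 1)) X := by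
      intro Y
      have h1 := Fch_windows hz hwq (i := i) (s := s) (by rw [← hk]; exact hs.1) (by rw [← hk]; exact hs.2) Y
      rw [← hA, ← hJ] at h1
      exact h1
    refine (sw_mono' (Ψ := fun g => A * A * 1 + (A * ∑ j ∈ Finset.range J, Gw z (w j) (min (w (j + 1)) (s + 1)) g +
      A * ∑ j ∈ Finset.range J, Gw z (w j) (min (w (j + 1)) (s + 1)) (rev g)) +
      ∑ j ∈ Finset.range J, ∑ j' ∈ Finset.range J,
        Gw z (w j) (min (w (j + 1)) (s + 1)) g * Gw z (w j') (min (w (j' + 1)) (s + 1)) (rev g))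
      fun g _ => ?_).trans ?_
    · refine (mul_le_mul' (hF g) (hF (rev g))).trans (le_of_eq ?_)
      rw [← Finset.sum_mul_sum]
      ring
    · rw [sw_add, sw_add, sw_add, sw_mul_left, sw_mul_left, sw_mul_left, sw_one, sw_sum, sw_sum, sw_sum]
      apply le_of_eq
      congr 1
      · congr 1
        congr 2
        refine Finset.sum_congr rfl fun j _ => ?_
        exact sw_rev s (fun g => Gw z (w j) (min (w (j + 1)) (s + 1)) g)
      · exact Finset.sum_congr rfl fun j _ => sw_sum _ _ _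
  refine (Finset.sum_le_sum hpt).trans ?_
  rw [Finset.sum_add_distrib, Finset.sum_add_distrib, Finset.sum_add_distrib, ← Finset.mul_sum, ← Finset.mul_sum,
    Finset.sum_comm (s := Finset.Ico (2 ^ k) (2 ^ (k + 1))) (t := Finset.range J),
    Finset.sum_comm (s := Finset.Ico (2 ^ k) (2 ^ (k + 1))) (t := Finset.range J)]
  have s1 : A * A * ∑ s ∈ Finset.Ico (2 ^ k) (2 ^ (k + 1)), gf (Brd s) ≤ ENNReal.ofReal (a ^ 2 * U) := by
    have h1 : A * A ≤ ENNReal.ofReal (a ^ 2) := by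
      rw [pow_two, ENNReal.ofReal_mul ha]
      exact mul_le_mul' haz haz
    have h2 := sum_gf_le k
    rw [← hU] at h2
    rw [ENNReal.ofReal_mul (by positivity)]
    exact mul_le_mul' h1 h2
  have s2 : A * ∑ j ∈ Finset.range J, ∑ s ∈ Finset.Ico (2 ^ k) (2 ^ (k + 1)),
      sw (Brd s) (fun g => Gw z (w j) (min (w (j + 1)) (s + 1)) g) ≤ ENNReal.ofReal (a * (U * (C * X))) := by
    rw [ENNReal.ofReal_mul ha]
    refine mul_le_mul' haz ((Finset.sum_le_sum hone).trans ?_)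
    rw [← ENNReal.ofReal_sum_of_nonneg (fun j _ => mul_nonneg hU0 (mul_nonneg hC.le (hx j))), ← Finset.mul_sum,
      ← Finset.mul_sum, hX]
  have s3 : ∑ j ∈ Finset.range J, ∑ s ∈ Finset.Ico (2 ^ k) (2 ^ (k + 1)), ∑ j' ∈ Finset.range J,
      sw (Brd s) (fun g => Gw z (w j) (min (w (j + 1)) (s + 1)) g *
        Gw z (w j') (min (w (j' + 1)) (s + 1)) (rev g)) ≤ ENNReal.ofReal (U * ((C + C ^ 2) * X ^ 2)) := by
    have h1 : ∀ j ∈ Finset.range J, ∑ s ∈ Finset.Ico (2 ^ k) (2 ^ (k + 1)), ∑ j' ∈ Finset.range J,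
        sw (Brd s) (fun g => Gw z (w j) (min (w (j + 1)) (s + 1)) g *
          Gw z (w j') (min (w (j' + 1)) (s + 1)) (rev g)) ≤ ENNReal.ofReal (U * ((C + C ^ 2) * (x j * X))) := by
      intro j hj
      rw [Finset.sum_comm]
      refine (Finset.sum_le_sum (hboth j hj)).trans ?_
      rw [← ENNReal.ofReal_sum_of_nonneg (fun j' _ => by
        have := hx j
        have := hx j'
        positivity), ← Finset.mul_sum, ← Finset.mul_sum, ← Finset.mul_sum, hX]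
    refine (Finset.sum_le_sum h1).trans ?_
    rw [← ENNReal.ofReal_sum_of_nonneg (fun j' _ => by
      have := hx j'
      positivity), ← Finset.mul_sum, ← Finset.mul_sum, ← Finset.sum_mul, hX]
    apply le_of_eq
    congr 1
    ring
  refine (add_le_add (add_le_add s1 (add_le_add s2 s2)) s3).trans ?_
  rw [← hU, ← ENNReal.ofReal_add (by positivity) (by positivity), ← ENNReal.ofReal_add (by positivity) (by positivity),
    ← ENNReal.ofReal_add (by positivity) (by positivity)]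
  apply ENNReal.ofReal_le_ofReal
  apply le_of_eq
  ring


theorem gf_Brd_le_one (s : ℕ) : gf (Brd s) ≤ 1 := by
  rcases Nat.eq_zero_or_pos s with rfl | hs
  · rw [Brd_zero]
    unfold gf
    rw [tsum_singleton (f := wE)]
    unfold wE
    simp
  · rw [gf_Brd_uu hs, ← ENNReal.ofReal_one]
    exact ENNReal.ofReal_le_ofReal (uu_le_one s)

theorem blocks_sum (F : ℕ → ℝ≥0∞) (k0 n : ℕ) : ∑ s ∈ Finset.range (2 ^ (k0 + n)), F s =
    ∑ s ∈ Finset.range (2 ^ k0), F s +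
      ∑ i ∈ Finset.range n, ∑ s ∈ Finset.Ico (2 ^ (k0 + i)) (2 ^ (k0 + i + 1)), F s := by
  induction n with
  | zero => simp
  | succ n ih =>
    rw [Finset.sum_range_succ, ← add_assoc (∑ s ∈ Finset.range (2 ^ k0), F s), ← ih,
      Finset.sum_range_add_sum_Ico _ (Nat.pow_le_pow_right (by norm_num) (by omega))]
    rfl

theorem geo_sum {y : ℝ} (hy : 1 < y) (k0 n : ℕ) :
    ∑ i ∈ Finset.range n, y ^ (k0 + i) ≤ y ^ (k0 + n) / (y - 1) := by
  rw [le_div_iff₀ (by linarith)]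
  induction n with
  | zero =>
    simp only [Finset.range_zero, Finset.sum_empty, zero_mul]
    positivity
  | succ n ih =>
    rw [Finset.sum_range_succ, add_mul]
    have h1 : y ^ (k0 + (n + 1)) = y ^ (k0 + n) * y := by
      rw [← add_assoc, pow_succ]
    rw [h1]
    linarith

/-- the end for T* -/
theorem CBz_of_Hyp8T (h : ∀ ε : ℝ, 0 < ε → Hyp8T ε) : CBz := by
  intro ε hε
  obtain ⟨z, d, k0, q, w, x, C, hz0, hz1, hd, hk0, hq, hC, hx, hw, hwq, hO, hG, hX⟩ := h (ε / 2) (by positivity)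
  have hz : ENNReal.ofReal z ≤ 1 := by
    rw [← ENNReal.ofReal_one]
    exact ENNReal.ofReal_le_ofReal hz1
  -- constants
  obtain ⟨a, ha⟩ : ∃ a : ℝ, a = 3 ^ (2 ^ k0) := ⟨_, rfl⟩
  have ha0 : 0 ≤ a := by rw [ha]; positivity
  have hpow : ∀ m, m ≤ 2 ^ k0 → (1 + 2 * ENNReal.ofReal z) ^ m ≤ ENNReal.ofReal a := by
    intro m hm
    have h1 : (1 + 2 * ENNReal.ofReal z) ≤ 3 := by
      calc 1 + 2 * ENNReal.ofReal z ≤ 1 + 2 * 1 := by gcongr
        _ = 3 := by norm_num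
    calc (1 + 2 * ENNReal.ofReal z) ^ m ≤ 3 ^ m := by gcongr
      _ ≤ 3 ^ (2 ^ k0) := pow_le_pow_right₀ (by norm_num) hm
      _ = ENNReal.ofReal a := by
        rw [ha, ENNReal.ofReal_pow (by norm_num)]
        norm_num
  obtain ⟨M, hM⟩ : ∃ M : ℝ, M = a ^ 2 + 2 * (a * (C * C)) + (C + C ^ 2) * C ^ 2 := ⟨_, rfl⟩
  have hM0 : 0 ≤ M := by rw [hM]; positivity
  obtain ⟨y, hy⟩ : ∃ y : ℝ, y = 2 ^ ε := ⟨_, rfl⟩
  have hy1 : 1 < y := by
    rw [hy]
    exact Real.one_lt_rpow (by norm_num) hε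
  have hP : ∀ i : ℕ, (((2 : ℝ) ^ (k0 + i)) ^ (ε / 2)) ^ 2 = y ^ (k0 + i) := by
    intro i
    rw [← Real.rpow_natCast (((2 : ℝ) ^ (k0 + i)) ^ (ε / 2)), ← Real.rpow_mul (by positivity), hy,
      ← Real.rpow_natCast (2 ^ ε), ← Real.rpow_mul (by norm_num), ← Real.rpow_natCast 2,
      ← Real.rpow_mul (by norm_num)]
    congr 1
    push_cast
    ring
  obtain ⟨F, hF⟩ : ∃ F : ℕ → ℝ≥0∞, F = fun s => sw (Brd s) (fun g => Fch (ENNReal.ofReal z) s g *
      Fch (ENNReal.ofReal z) s (rev g)) := ⟨_, rfl⟩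
  -- low part
  have hlow : ∑ s ∈ Finset.range (2 ^ k0), F s ≤ ENNReal.ofReal (2 ^ k0 * a ^ 2) := by
    have h1 : ∀ s ∈ Finset.range (2 ^ k0), F s ≤ ENNReal.ofReal (a ^ 2) := by
      intro s hs
      rw [Finset.mem_range] at hs
      have h2 : ∀ X, Fch (ENNReal.ofReal z) s X ≤ ENNReal.ofReal a := fun X =>
        (Fch_le _ s X).trans (hpow s hs.le)
      rw [hF]
      refine (sw_mono' (Ψ := fun _ => ENNReal.ofReal (a ^ 2) * 1) fun g _ => ?_).trans ?_
      · rw [mul_one, pow_two, ENNReal.ofReal_mul ha0]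
        exact mul_le_mul' (h2 g) (h2 (rev g))
      · rw [sw_mul_left, sw_one]
        calc ENNReal.ofReal (a ^ 2) * gf (Brd s) ≤ ENNReal.ofReal (a ^ 2) * 1 :=
              mul_le_mul' le_rfl (gf_Brd_le_one s)
          _ = _ := mul_one _
    refine (Finset.sum_le_sum h1).trans ?_
    rw [Finset.sum_const, Finset.card_range, nsmul_eq_mul, ENNReal.ofReal_mul (by positivity)]
    gcongr
    rw [ENNReal.ofReal_pow (by norm_num)]
    norm_num
  -- the blocks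
  have hblock : ∀ i : ℕ, ∑ s ∈ Finset.Ico (2 ^ (k0 + i)) (2 ^ (k0 + i + 1)), F s ≤
      ENNReal.ofReal (UU (2 ^ (k0 + i + 1)) * (M * y ^ (k0 + i))) := by
    intro i
    rw [hF]
    refine (block_le hz hd hk0 hq hC hx hw hwq hO hG ha0 (hpow _ (Nat.sub_le _ _)) i rfl).trans ?_
    apply ENNReal.ofReal_le_ofReal
    apply mul_le_mul_of_nonneg_left _ (Num2Aux.UU_pos _).le
    obtain ⟨X, hXd⟩ : ∃ X, X = ∑ j ∈ Finset.range (q * (i + 1)), x j := ⟨_, rfl⟩
    obtain ⟨P, hPd⟩ : ∃ P, P = ((2 : ℝ) ^ (k0 + i)) ^ (ε / 2) := ⟨_, rfl⟩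
    have hX1 := hX i
    have hP2 := hP i
    rw [← hXd, ← hPd] at hX1
    rw [← hPd] at hP2
    rw [← hXd, ← hP2]
    have hX0 : 0 ≤ X := by rw [hXd]; exact Finset.sum_nonneg fun j _ => hx j
    have hP1 : 1 ≤ P := by
      rw [hPd]
      exact Real.one_le_rpow (one_le_pow₀ (by norm_num)) (by positivity)
    have h1 : X ^ 2 ≤ C ^ 2 * P ^ 2 := by
      rw [← mul_pow]
      exact pow_le_pow_left₀ hX0 hX1 2
    have h2 : X ≤ C * P ^ 2 := hX1.trans (mul_le_mul_of_nonneg_left (by nlinarith) hC.le)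
    have h3 : (1 : ℝ) ≤ P ^ 2 := by nlinarith
    have h4 : a ^ 2 ≤ a ^ 2 * P ^ 2 := by nlinarith [sq_nonneg a]
    have h5 : 2 * (a * (C * X)) ≤ 2 * (a * (C * (C * P ^ 2))) := by gcongr
    have h6 : (C + C ^ 2) * X ^ 2 ≤ (C + C ^ 2) * (C ^ 2 * P ^ 2) := by gcongr
    rw [hM]
    linarith
  -- all together
  refine ⟨z, 2 ^ k0 * a ^ 2 + 4 * (M * (y / (y - 1) * 2 ^ ε)), hz0, hz1, ?_, ?_⟩
  · have h1 : 0 < a := by rw [ha]; positivity
    have h2 : 0 < y - 1 := by linarith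
    have h3 : 0 < y := by linarith
    positivity
  intro D hD
  have hD1 : (1 : ℝ) ≤ D := by exact_mod_cast hD
  have hy0 : 0 < y - 1 := by linarith
  obtain ⟨L, hL⟩ : ∃ L, L = Nat.log 2 (D + 1) := ⟨_, rfl⟩
  obtain ⟨n, hn⟩ : ∃ n, n = L + 1 - k0 := ⟨_, rfl⟩
  have hL1 : 2 ^ L ≤ D + 1 := by rw [hL]; exact Nat.pow_log_le_self 2 (by omega)
  have hL2 : D + 1 < 2 ^ (L + 1) := by rw [hL]; exact Nat.lt_pow_succ_log_self (by norm_num) _
  have hUU1 : 1 ≤ UU D := by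
    have h1 := Num2Aux.UU_mono (Nat.zero_le D)
    have h2 : UU 0 = 1 := by
      unfold UU
      rw [Finset.sum_range_one, uu_zero]
    linarith
  have hDe : 1 ≤ (D : ℝ) ^ ε := Real.one_le_rpow hD1 hε.le
  have hsub : Finset.range (D + 2) ⊆ Finset.range (2 ^ (k0 + n)) := by
    intro s hs
    rw [Finset.mem_range] at hs ⊢
    have h1 : 2 ^ (L + 1) ≤ 2 ^ (k0 + n) := Nat.pow_le_pow_right (by norm_num) (by omega)
    omega
  have hsw : ∑ s ∈ Finset.range (D + 2), ∑' g : {g : List Bool // g ∈ Brd s},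
      wE g.1 * (Fch (ENNReal.ofReal z) s g.1 * Fch (ENNReal.ofReal z) s (rev g.1)) =
      ∑ s ∈ Finset.range (D + 2), F s := by
    rw [hF]
    rfl
  rw [hsw]
  refine (Finset.sum_le_sum_of_subset hsub).trans ?_
  rw [blocks_sum]
  have hb : ∑ i ∈ Finset.range n, ∑ s ∈ Finset.Ico (2 ^ (k0 + i)) (2 ^ (k0 + i + 1)), F s ≤
      ENNReal.ofReal (4 * UU D * (M * (y / (y - 1) * (2 ^ ε * (D : ℝ) ^ ε)))) := by
    have h1 : ∀ i ∈ Finset.range n, ∑ s ∈ Finset.Ico (2 ^ (k0 + i)) (2 ^ (k0 + i + 1)), F s ≤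
        ENNReal.ofReal (4 * UU D * (M * y ^ (k0 + i))) := by
      intro i hi
      rw [Finset.mem_range] at hi
      refine (hblock i).trans (ENNReal.ofReal_le_ofReal ?_)
      apply mul_le_mul_of_nonneg_right _ (by positivity)
      have h2 : 2 ^ (k0 + i + 1) ≤ 2 * (2 * D) := by
        have h3 : 2 ^ (k0 + i) ≤ 2 ^ L := Nat.pow_le_pow_right (by norm_num) (by omega)
        rw [pow_succ]
        omega
      have h4 := Num2Aux.UU_mono h2
      have h5 := UU_double (2 * D)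
      have h6 := UU_double D
      linarith
    refine (Finset.sum_le_sum h1).trans ?_
    rw [← ENNReal.ofReal_sum_of_nonneg (fun i _ => by
      have := (Num2Aux.UU_pos D).le
      positivity), ← Finset.mul_sum, ← Finset.mul_sum]
    apply ENNReal.ofReal_le_ofReal
    apply mul_le_mul_of_nonneg_left _ (by
      have := (Num2Aux.UU_pos D).le
      positivity)
    apply mul_le_mul_of_nonneg_left _ hM0
    rcases Nat.eq_zero_or_pos n with hn0 | hn0
    · rw [hn0, Finset.range_zero, Finset.sum_empty]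
      positivity
    · refine (geo_sum hy1 k0 n).trans ?_
      have h2 : k0 + n = L + 1 := by omega
      rw [h2, pow_succ]
      have h3 : y ^ L ≤ 2 ^ ε * (D : ℝ) ^ ε := by
        rw [← Real.mul_rpow (by norm_num) (by positivity), hy, ← Real.rpow_natCast, ← Real.rpow_mul (by norm_num),
          mul_comm ε, Real.rpow_mul (by norm_num), Real.rpow_natCast]
        apply Real.rpow_le_rpow (by positivity) _ hε.le
        have h4 : ((2 : ℝ)) ^ L ≤ ((D + 1 : ℕ) : ℝ) := by exact_mod_cast hL1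
        push_cast at h4
        linarith
      calc y ^ L * y / (y - 1) = y / (y - 1) * y ^ L := by ring
        _ ≤ y / (y - 1) * (2 ^ ε * (D : ℝ) ^ ε) := by
          apply mul_le_mul_of_nonneg_left h3
          have : 0 < y := by linarith
          positivity
  refine (add_le_add hlow hb).trans ?_
  have hU0 := (Num2Aux.UU_pos D).le
  have hq0 : 0 ≤ y / (y - 1) := by
    have : 0 < y := by linarith
    positivity
  rw [← ENNReal.ofReal_add (by positivity) (by positivity)]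
  apply ENNReal.ofReal_le_ofReal
  have h1 : 2 ^ k0 * a ^ 2 ≤ 2 ^ k0 * a ^ 2 * ((D : ℝ) ^ ε * UU D) := by
    have h2 : 1 ≤ (D : ℝ) ^ ε * UU D := by nlinarith
    have h3 : 0 ≤ 2 ^ k0 * a ^ 2 := by positivity
    nlinarith
  calc 2 ^ k0 * a ^ 2 + 4 * UU D * (M * (y / (y - 1) * (2 ^ ε * (D : ℝ) ^ ε)))
      ≤ 2 ^ k0 * a ^ 2 * ((D : ℝ) ^ ε * UU D) + 4 * UU D * (M * (y / (y - 1) * (2 ^ ε * (D : ℝ) ^ ε))) := by
        linarith
    _ = _ := by ring

end Rec8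

end HexObs
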