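import Pool.Agent.PHW5.Out
import Pool.Agent.PHW8.In8H
import Pool.Agent.PHW8.Iter8
import Pool.Agent.PHW8.EndP
import Pool.Agent.PHW.EndB

/-!
PHW: end of the proof.
-/

set_option autoImplicit false

namespace HexObs

open Complex Finset ENNReal

/-- the inputs of the recursion, unconditionally -/
theorem In8_final : ∃ (C D δ : ℝ) (fi : ℕ → ℕ → List Bool → ℝ≥0∞) (fo : ℕ → ℕ → ℕ → List Bool → ℝ≥0∞),
    Rec8.In8 C D δ fi fo := Rec8.In8_of_S5 S5_out

/-- polynomial correction for the number of self-avoiding walks on the honeycomb lattice -/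
theorem PHW_final : ∃ C' : ℝ, ∀ᶠ n : ℕ in Filter.atTop, (aB n : ℝ) ≤ muB ^ n * (n : ℝ) ^ C' := by
  obtain ⟨C, D, δ, fi, fo, h8⟩ := In8_final
  obtain ⟨C', hC'⟩ := Rec8.S8_PHW_of (Rec8.claim8 h8) (Rec8.OutS_le h8) (z := 64) (by norm_num)
  have e : ENNReal.ofReal 64 = (64 : ℝ≥0∞) := by
    rw [← ENNReal.ofReal_ofNat]
  rw [e] at hC'
  exact aB_poly hC'

end HexObs
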