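import Pool.Agent.PHW8.DefsN8

/-!
PHW, section S8: the inputs In8 from the fold lemma (H6) and the masses (Hin), (Hout).
-/

set_option autoImplicit false

namespace HexObs

open Complex Finset ENNReal

namespace Rec8

theorem nfl_mono (A : ℕ) (P : List Bool) {b a b' a' : ℕ} (hb : b' ≤ b) (ha : a ≤ a') :
    Fld.nfl A P b a ≤ Fld.nfl A P b' a' := by
  classical
  unfold Fld.nfl
  apply Finset.card_le_card
  intro k hk
  rw [Finset.mem_filter, Finset.mem_Ioc] at hk ⊢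
  exact ⟨⟨by omega, by omega⟩, hk.2⟩

theorem fin_le_one {ε : ℝ} (h0 : 0 < ε) (h1 : ε < 1) (A b a : ℕ) (P : List Bool) : Fld.fin ε A b a P ≤ 1 := by
  unfold Fld.fin
  exact pow_le_one₀ (by linarith) (by linarith)

theorem fout_le_one {ε : ℝ} (h0 : 0 < ε) (h1 : ε < 1) (A T b a : ℕ) (P : List Bool) : Fld.fout ε A T b a P ≤ 1 := by
  unfold Fld.fout
  exact pow_le_one₀ (by linarith) (by linarith)

theorem fin_mono {ε : ℝ} (h0 : 0 < ε) (h1 : ε < 1) (A a : ℕ) {b b' : ℕ} (P : List Bool) (h : b' ≤ b) :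
    Fld.fin ε A b a P ≤ Fld.fin ε A b' a P := by
  unfold Fld.fin
  exact pow_le_pow_of_le_one (by linarith) (by linarith)
    (min_le_min (nfl_mono A P le_rfl h) (nfl_mono A _ le_rfl h))

theorem fout_mono {ε : ℝ} (h0 : 0 < ε) (h1 : ε < 1) (A T b : ℕ) {a a' : ℕ} (P : List Bool) (h : a' ≤ a) :
    Fld.fout ε A T b a P ≤ Fld.fout ε A T b a' P := by
  unfold Fld.fout
  exact pow_le_pow_of_le_one (by linarith) (by linarith)
    (min_le_min (nfl_mono A _ le_rfl h) (nfl_mono A _ le_rfl h))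

theorem mass_mono {C C' D D' δ δ' : ℝ} {l m n : ℕ} (hC : C ≤ C') (hC' : 0 ≤ C') (hD : D ≤ D') (hδ : δ' ≤ δ) (hm : m ≤ l)
    (hn : n ≤ m) :
    ENNReal.ofReal (C / UU (2 ^ l) * (2 : ℝ) ^ (D * ((l : ℝ) - m) - δ * ((m : ℝ) - n))) ≤
      ENNReal.ofReal (C' / UU (2 ^ l) * (2 : ℝ) ^ (D' * ((l : ℝ) - m) - δ' * ((m : ℝ) - n))) := by
  apply ENNReal.ofReal_le_ofReal
  have hU : (0 : ℝ) ≤ UU (2 ^ l) := (Num2Aux.UU_pos _).le
  have h1 : C / UU (2 ^ l) ≤ C' / UU (2 ^ l) := div_le_div_of_nonneg_right hC hU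
  have hm' : (0 : ℝ) ≤ (l : ℝ) - m := by
    have : (m : ℝ) ≤ l := by exact_mod_cast hm
    linarith
  have hn' : (0 : ℝ) ≤ (m : ℝ) - n := by
    have : (n : ℝ) ≤ m := by exact_mod_cast hn
    linarith
  have h2 : (2 : ℝ) ^ (D * ((l : ℝ) - m) - δ * ((m : ℝ) - n)) ≤ (2 : ℝ) ^ (D' * ((l : ℝ) - m) - δ' * ((m : ℝ) - n)) := by
    apply Real.rpow_le_rpow_of_exponent_le (by norm_num)
    have e1 : D * ((l : ℝ) - m) ≤ D' * ((l : ℝ) - m) := mul_le_mul_of_nonneg_right hD hm'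
    have e2 : δ' * ((m : ℝ) - n) ≤ δ * ((m : ℝ) - n) := mul_le_mul_of_nonneg_right hδ hn'
    linarith
  calc C / UU (2 ^ l) * (2 : ℝ) ^ (D * ((l : ℝ) - m) - δ * ((m : ℝ) - n))
      ≤ C' / UU (2 ^ l) * (2 : ℝ) ^ (D * ((l : ℝ) - m) - δ * ((m : ℝ) - n)) :=
        mul_le_mul_of_nonneg_right h1 (by positivity)
    _ ≤ _ := mul_le_mul_of_nonneg_left h2 (div_nonneg hC' hU)

/-- the inputs of S8 -/
theorem In8_of {ε : ℝ} (h0 : 0 < ε) (h1 : ε < 1) {A : ℕ} {C1 C2 C3 D2 D3 d2 d3 : ℝ} (hd2 : 0 < d2) (hd3 : 0 < d3)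
    (h6 : ∀ (T a b : ℕ) (I P : List Bool), 2 ^ (a + 2) ≤ T → 2 ^ (b + 2) ≤ T →
      g2 (Fld.BrB b) (Fld.BrB a) (Fld.FoldH T I P) ≤ ENNReal.ofReal (C1 * UU (2 ^ max a b) *
        (if a ≤ b then Fld.fin ε A b a P else Fld.fout ε A T b a I)))
    (hin : ∀ l b a : ℕ, a ≤ b → b ≤ l → SI l (fun P => ENNReal.ofReal (Fld.fin ε A b a P)) ≤
      ENNReal.ofReal (C2 / UU (2 ^ l) * (2 : ℝ) ^ (D2 * ((l : ℝ) - b) - d2 * ((b : ℝ) - a))))
    (hout : ∀ T l b a : ℕ, b ≤ a → a ≤ l → 2 ^ (a + 1) ≤ T → SI l (fun I => ENNReal.ofReal (Fld.fout ε A T b a I)) ≤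
      ENNReal.ofReal (C3 / UU (2 ^ l) * (2 : ℝ) ^ (D3 * ((l : ℝ) - a) - d3 * ((a : ℝ) - b)))) :
    ∃ C D δ : ℝ, In8 C D δ (fun b a P => ENNReal.ofReal (Fld.fin ε A b a P))
      (fun T b a I => ENNReal.ofReal (Fld.fout ε A T b a I)) := by
  set C := max 1 (max C1 (max C2 C3)) with hC
  have c1 : 1 ≤ C := le_max_left _ _
  have c2 : C1 ≤ C := le_trans (le_max_left _ _) (le_max_right _ _)
  have c3 : C2 ≤ C := le_trans (le_max_left _ _) (le_trans (le_max_right _ _) (le_max_right _ _))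
  have c4 : C3 ≤ C := le_trans (le_max_right _ _) (le_trans (le_max_right _ _) (le_max_right _ _))
  have c0 : 0 ≤ C := by linarith
  refine ⟨C, max 1 (max D2 D3), min 1 (min d2 d3), ?_⟩
  have hd4 : min 1 (min d2 d3) ≤ d2 := le_trans (min_le_right _ _) (min_le_left _ _)
  have hd5 : min 1 (min d2 d3) ≤ d3 := le_trans (min_le_right _ _) (min_le_right _ _)
  have hD4 : D2 ≤ max 1 (max D2 D3) := le_trans (le_max_left _ _) (le_max_right _ _)
  have hD5 : D3 ≤ max 1 (max D2 D3) := le_trans (le_max_right _ _) (le_max_right _ _)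
  refine ⟨c1, le_max_left _ _, lt_min one_pos (lt_min hd2 hd3), min_le_left _ _, ?_, ?_, ?_, ?_, ?_, ?_, ?_⟩
  · intro b a P
    rw [← ENNReal.ofReal_one]
    exact ENNReal.ofReal_le_ofReal (fin_le_one h0 h1 _ _ _ _)
  · intro T b a I
    rw [← ENNReal.ofReal_one]
    exact ENNReal.ofReal_le_ofReal (fout_le_one h0 h1 _ _ _ _ _)
  · intro a b b' P _ hb
    exact ENNReal.ofReal_le_ofReal (fin_mono h0 h1 _ _ _ hb)
  · intro T b a a' I _ ha
    exact ENNReal.ofReal_le_ofReal (fout_mono h0 h1 _ _ _ _ ha)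
  · intro T a b I P ha hb
    refine (h6 T a b I P ha hb).trans ?_
    have hU : (0 : ℝ) ≤ UU (2 ^ max a b) := (Num2Aux.UU_pos _).le
    have hle : C1 * UU (2 ^ max a b) ≤ C * UU (2 ^ max a b) := mul_le_mul_of_nonneg_right c2 hU
    have hpos : 0 ≤ C * UU (2 ^ max a b) := mul_nonneg c0 hU
    by_cases hab : a ≤ b
    · simp only [hab, if_true]
      rw [← ENNReal.ofReal_mul hpos]
      apply ENNReal.ofReal_le_ofReal
      apply mul_le_mul_of_nonneg_right hle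
      unfold Fld.fin
      exact pow_nonneg (by linarith) _
    · simp only [hab, if_false]
      rw [← ENNReal.ofReal_mul hpos]
      apply ENNReal.ofReal_le_ofReal
      apply mul_le_mul_of_nonneg_right hle
      unfold Fld.fout
      exact pow_nonneg (by linarith) _
  · intro l b a hab hbl
    exact (hin l b a hab hbl).trans (mass_mono c3 c0 hD4 hd4 hbl hab)
  · intro T l b a hba hal hT
    exact (hout T l b a hba hal hT).trans (mass_mono c4 c0 hD5 hd5 hal hba)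

end Rec8

end HexObs
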