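import Pool.Agent.PHW.Masses
import Pool.Agent.PHW8.DefsN8

/-!
PHW, section S8: the two mass bounds Hin and Hout in the form of the structure In8.
-/

set_option autoImplicit false

namespace HexObs

open Complex Finset ENNReal

namespace Rec8

lemma rate {ρ : ℝ} (h0 : 0 < ρ) (h1 : ρ < 1) : ∃ δ : ℝ, 0 < δ ∧ δ ≤ 1 ∧ ∀ n : ℕ, ρ ^ n ≤ (2 : ℝ) ^ (-(δ * n)) := by
  have hl : Real.logb 2 ρ < 0 := Real.logb_neg (by norm_num) h0 h1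
  refine ⟨min 1 (-Real.logb 2 ρ), lt_min one_pos (by linarith), min_le_left _ _, fun n => ?_⟩
  have e : ρ ^ n = (2 : ℝ) ^ (Real.logb 2 ρ * n) := by
    rw [Real.rpow_mul (by norm_num), Real.rpow_logb (by norm_num) (by norm_num) h0, Real.rpow_natCast]
  rw [e]
  apply Real.rpow_le_rpow_of_exponent_le (by norm_num)
  have h2 : min 1 (-Real.logb 2 ρ) * n ≤ -Real.logb 2 ρ * n :=
    mul_le_mul_of_nonneg_right (min_le_right _ _) (Nat.cast_nonneg n)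
  linarith

lemma mass_form {C U δ ρ : ℝ} (hC : 0 < C) (hU : 0 < U) (hρ : 0 < ρ) (hδ : ∀ n : ℕ, ρ ^ n ≤ (2 : ℝ) ^ (-(δ * n))) {C' : ℝ}
    (hC' : C ≤ C') {δ' : ℝ} (hδ' : δ' ≤ δ) {l m k : ℕ} (h1 : m ≤ l) (h2 : k ≤ m) :
    C / U * 2 ^ (l - m) * ρ ^ (m - k) ≤ C' / U * (2 : ℝ) ^ (1 * ((l : ℝ) - m) - δ' * ((m : ℝ) - k)) := by
  have e1 : ((l - m : ℕ) : ℝ) = (l : ℝ) - m := Nat.cast_sub h1
  have e2 : ((m - k : ℕ) : ℝ) = (m : ℝ) - k := Nat.cast_sub h2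
  have hmk : 0 ≤ (m : ℝ) - k := by rw [← e2]; exact Nat.cast_nonneg _
  have e3 : (2 : ℝ) ^ (1 * ((l : ℝ) - m) - δ' * ((m : ℝ) - k)) = 2 ^ (l - m) * (2 : ℝ) ^ (-(δ' * ((m : ℝ) - k))) := by
    rw [← Real.rpow_natCast 2 (l - m), e1, ← Real.rpow_add (by norm_num)]
    congr 1
    ring
  rw [e3]
  have h3 : ρ ^ (m - k) ≤ (2 : ℝ) ^ (-(δ' * ((m : ℝ) - k))) := by
    refine (hδ (m - k)).trans ?_
    rw [e2]
    apply Real.rpow_le_rpow_of_exponent_le (by norm_num)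
    have := mul_le_mul_of_nonneg_right hδ' hmk
    linarith
  calc C / U * 2 ^ (l - m) * ρ ^ (m - k) ≤ C' / U * 2 ^ (l - m) * (2 : ℝ) ^ (-(δ' * ((m : ℝ) - k))) := by
        have : 0 ≤ C' / U := by
          have : 0 < C' := by linarith
          positivity
        gcongr
    _ = _ := by ring

/-- the two mass bounds, A is chosen before ε -/
theorem masses {C0 c : ℝ} (hC0 : 0 < C0) (hc : 0 < c) (hDR : ∀ y τ R : ℕ, 1 ≤ y → y ≤ τ →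
      ∑ r ∈ Finset.range R, KR y τ r ≤ ENNReal.ofReal (C0 / UU τ * ((y : ℝ) / τ) ^ c)) :
    ∃ A : ℕ, ∀ ε : ℝ, 0 < ε → ε < 1 → ∃ C δ : ℝ, 1 ≤ C ∧ 0 < δ ∧ δ ≤ 1 ∧
      (∀ l b a : ℕ, a ≤ b → b ≤ l → SI l (fun P => ENNReal.ofReal (Fld.fin ε A b a P)) ≤
        ENNReal.ofReal (C / UU (2 ^ l) * (2 : ℝ) ^ (1 * ((l : ℝ) - b) - δ * ((b : ℝ) - a)))) ∧
      (∀ T l b a : ℕ, b ≤ a → a ≤ l → 2 ^ (a + 1) ≤ T → SI l (fun I => ENNReal.ofReal (Fld.fout ε A T b a I)) ≤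
        ENNReal.ofReal (C / UU (2 ^ l) * (2 : ℝ) ^ (1 * ((l : ℝ) - a) - δ * ((a : ℝ) - b)))) := by
  obtain ⟨A1, H1⟩ := Fld.hin
  obtain ⟨A2, H2⟩ := Fld.hout hC0 hc hDR
  refine ⟨max A1 A2, fun ε h0 h1 => ?_⟩
  obtain ⟨C1, ρ1, hC1, hρ1, hρ1', h3⟩ := H1 ε h0 h1
  obtain ⟨C2, ρ2, hC2, hρ2, hρ2', h4⟩ := H2 ε h0 h1
  obtain ⟨δ1, hδ1, hδ1', g1⟩ := rate hρ1 hρ1'
  obtain ⟨δ2, hδ2, hδ2', g2⟩ := rate hρ2 hρ2'
  refine ⟨1 + C1 + C2, min δ1 δ2, by linarith, lt_min hδ1 hδ2, (min_le_left _ _).trans hδ1', ?_, ?_⟩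
  · intro l b a hab hbl
    refine (h3 (max A1 A2) a b l (2 ^ (l + 1)) (le_max_left _ _) hab hbl).trans (ENNReal.ofReal_le_ofReal ?_)
    exact mass_form hC1 (Num2Aux.UU_pos _) hρ1 g1 (by linarith) (min_le_left _ _) hbl hab
  · intro T l b a hba hal hT
    refine (h4 (max A1 A2) T a b l (2 ^ (l + 1)) (le_max_right _ _) hba hal hT).trans (ENNReal.ofReal_le_ofReal ?_)
    exact mass_form hC2 (Num2Aux.UU_pos _) hρ2 g2 (by linarith) (min_le_right _ _) hal hba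

end Rec8

end HexObs
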