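import Pool.Agent.PHW8.In8F
import Pool.Agent.PHW8.Mass8
import Pool.Agent.PHW.FoldF

/-!
PHW, section S8: the inputs In8 exist, given the output S5 of section S5 and the bound (DR) for deep returns.
-/

set_option autoImplicit false

namespace HexObs

open Complex Finset ENNReal

namespace Rec8

theorem In8_exists (h5 : Fld.S5)
    (hDR : ∃ C c : ℝ, 0 < C ∧ 0 < c ∧ ∀ y τ R : ℕ, 1 ≤ y → y ≤ τ →
      ∑ r ∈ Finset.range R, KR y τ r ≤ ENNReal.ofReal (C / UU τ * ((y : ℝ) / τ) ^ c)) :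
    ∃ (C D δ : ℝ) (fi : ℕ → ℕ → List Bool → ℝ≥0∞) (fo : ℕ → ℕ → ℕ → List Bool → ℝ≥0∞), In8 C D δ fi fo := by
  obtain ⟨C0, c, hC0, hc, hD⟩ := hDR
  obtain ⟨A, hA⟩ := masses hC0 hc hD
  obtain ⟨ε, C1, h0, h1, _, h6⟩ := Fld.fold_H6 h5 A
  obtain ⟨C2, δ, _, hδ, _, hin, hout⟩ := hA ε h0 h1
  obtain ⟨C, D, d, h⟩ := In8_of h0 h1 hδ hδ (fun T a b I P _ hb => h6 T a b I P hb) hin hout
  exact ⟨C, D, d, _, _, h⟩

end Rec8

end HexObs
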