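import Pool.Agent.PHW.Defs
import Pool.Agent.PHW.DefsB
import Pool.Agent.PHW.DefsQ

/-!
Weighted sums over sets of words: rules (helper22).
-/

set_option autoImplicit false

namespace HexObs

open Finset ENNReal

/-- weighted sum of f over the words of A -/
noncomputable def SS (A : Set (List Bool)) (f : List Bool → ℝ≥0∞) : ℝ≥0∞ :=
  ∑' t : {t : List Bool // t ∈ A}, wE t.1 * f t.1

/-! ### basic rules for SS -/

theorem SS_mono {A : Set (List Bool)} {f g : List Bool → ℝ≥0∞} (h : ∀ t ∈ A, f t ≤ g t) : SS A f ≤ SS A g :=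
  ENNReal.tsum_le_tsum fun t => mul_le_mul' le_rfl (h t.1 t.2)

theorem SS_mono_set {A B : Set (List Bool)} (h : A ⊆ B) (f : List Bool → ℝ≥0∞) : SS A f ≤ SS B f :=
  ENNReal.tsum_mono_subtype (fun t : List Bool => wE t * f t) h

theorem SS_congr {A : Set (List Bool)} {f g : List Bool → ℝ≥0∞} (h : ∀ t ∈ A, f t = g t) : SS A f = SS A g :=
  tsum_congr fun t => by rw [h t.1 t.2]

theorem SS_mul (A : Set (List Bool)) (c : ℝ≥0∞) (f : List Bool → ℝ≥0∞) : SS A (fun t => c * f t) = c * SS A f := by
  unfold SS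
  rw [← ENNReal.tsum_mul_left]
  exact tsum_congr fun t => by ring

theorem SS_mul' (A : Set (List Bool)) (c : ℝ≥0∞) (f : List Bool → ℝ≥0∞) : SS A (fun t => f t * c) = SS A f * c := by
  rw [mul_comm, ← SS_mul]
  exact SS_congr fun t _ => mul_comm _ _

theorem SS_add (A : Set (List Bool)) (f g : List Bool → ℝ≥0∞) : SS A (fun t => f t + g t) = SS A f + SS A g := by
  unfold SS
  rw [← ENNReal.tsum_add]
  exact tsum_congr fun t => by ring

theorem SS_sum {ι : Type*} (s : Finset ι) (A : Set (List Bool)) (f : ι → List Bool → ℝ≥0∞) :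
    SS A (fun t => ∑ i ∈ s, f i t) = ∑ i ∈ s, SS A (f i) := by
  classical
  induction s using Finset.induction_on with
  | empty =>
    simp only [Finset.sum_empty]
    unfold SS
    simp
  | insert i s hi ih =>
    rw [Finset.sum_insert hi, ← ih, ← SS_add]
    exact SS_congr fun t _ => Finset.sum_insert hi

theorem SS_ind (A : Set (List Bool)) (f : List Bool → ℝ≥0∞) :
    SS A f = ∑' t : List Bool, A.indicator (fun t => wE t * f t) t := by
  unfold SS
  exact tsum_subtype A (fun t : List Bool => wE t * f t)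

theorem SS_comm (A B : Set (List Bool)) (f : List Bool → List Bool → ℝ≥0∞) :
    SS A (fun s => SS B (fun t => f s t)) = SS B (fun t => SS A (fun s => f s t)) := by
  unfold SS
  simp_rw [← ENNReal.tsum_mul_left]
  rw [ENNReal.tsum_comm]
  exact tsum_congr fun t => tsum_congr fun s => by ring

/-- a covering gives an upper bound -/
theorem SS_cover {A B C : Set (List Bool)} (h : ∀ g ∈ C, ∃ a ∈ A, ∃ b ∈ B, g = a ++ b) (f : List Bool → ℝ≥0∞) :
    SS C f ≤ SS A (fun a => SS B (fun b => f (a ++ b))) := by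
  classical
  choose! p hp q hq hpq using h
  have h1 : SS A (fun a => SS B (fun b => f (a ++ b))) =
      ∑' x : {a : List Bool // a ∈ A} × {b : List Bool // b ∈ B}, wE (x.1.1 ++ x.2.1) * f (x.1.1 ++ x.2.1) := by
    unfold SS
    rw [ENNReal.tsum_prod']
    refine tsum_congr fun a => ?_
    rw [← ENNReal.tsum_mul_left]
    refine tsum_congr fun b => ?_
    rw [wE_append]
    ring
  rw [h1]
  have hinj : Function.Injective (fun g : {g : List Bool // g ∈ C} =>
      ((⟨p g.1, hp g.1 g.2⟩, ⟨q g.1, hq g.1 g.2⟩) : {a : List Bool // a ∈ A} × {b : List Bool // b ∈ B})) := by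
    intro g g' hgg
    have e1 : p g.1 = p g'.1 := congrArg (fun x => x.1.1) hgg
    have e2 : q g.1 = q g'.1 := congrArg (fun x => x.2.1) hgg
    apply Subtype.ext
    rw [hpq g.1 g.2, hpq g'.1 g'.2, e1, e2]
  refine le_trans (le_of_eq ?_) (ENNReal.tsum_comp_le_tsum_of_injective hinj
    (fun x : {a : List Bool // a ∈ A} × {b : List Bool // b ∈ B} => wE (x.1.1 ++ x.2.1) * f (x.1.1 ++ x.2.1)))
  unfold SS
  exact tsum_congr fun g => by
    show _ = wE (p g.1 ++ q g.1) * f (p g.1 ++ q g.1)
    rw [← hpq g.1 g.2]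

theorem SS_biUnion_le {ι : Type*} (I : Finset ι) (A : ι → Set (List Bool)) (f : List Bool → ℝ≥0∞) :
    SS (⋃ i ∈ I, A i) f ≤ ∑ i ∈ I, SS (A i) f := by
  classical
  rw [SS_ind]
  have h1 : ∑ i ∈ I, SS (A i) f = ∑' t : List Bool, ∑ i ∈ I, (A i).indicator (fun t => wE t * f t) t := by
    rw [Summable.tsum_finsetSum (fun i _ => ENNReal.summable)]
    exact Finset.sum_congr rfl fun i _ => SS_ind _ _
  rw [h1]
  refine ENNReal.tsum_le_tsum fun t => ?_
  by_cases ht : t ∈ ⋃ i ∈ I, A i
  · rw [Set.indicator_of_mem ht]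
    obtain ⟨i, hi, hti⟩ := Set.mem_iUnion₂.1 ht
    refine le_trans (le_of_eq (Set.indicator_of_mem hti (fun t => wE t * f t)).symm) ?_
    exact Finset.single_le_sum (f := fun i => (A i).indicator (fun t => wE t * f t) t) (fun _ _ => bot_le) hi
  · rw [Set.indicator_of_notMem ht]
    exact bot_le

theorem SS_one (A : Set (List Bool)) : SS A (fun _ => 1) = gf A := by
  unfold SS gf
  exact tsum_congr fun t => mul_one _

theorem g2_SS (A B : Set (List Bool)) (R : List Bool → List Bool → Prop) [∀ s t, Decidable (R s t)] :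
    g2 A B R = SS A (fun s => SS B (fun t => if R s t then 1 else 0)) := by
  classical
  rw [g2_ind, SS_ind]
  refine tsum_congr fun s => ?_
  by_cases hs : s ∈ A
  · rw [Set.indicator_of_mem hs, SS_ind, ← ENNReal.tsum_mul_left]
    refine tsum_congr fun t => ?_
    by_cases ht : t ∈ B
    · rw [Set.indicator_of_mem ht]
      by_cases hR : R s t
      · rw [if_pos ⟨hs, ht, hR⟩, if_pos hR, mul_one]
      · rw [if_neg (fun h => hR h.2.2), if_neg hR, mul_zero, mul_zero]
    · rw [Set.indicator_of_notMem ht, if_neg (fun h => ht h.2.1), mul_zero]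
  · rw [Set.indicator_of_notMem hs]
    simp [hs]

end HexObs
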